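import Pool.Agent.K1H54.LO.Defs2

/-!
Second version: perturbations of order `s > 1/2` (the advecting field is smoothed by
`1 - s < 1/2` derivatives), one operator for all viscosities, dissipation `(-Δ)^α`.
The modes are packets of frequencies on spheres, with random signs.
-/

open Set Filter Topology MeasureTheory

set_option autoImplicit false

namespace Pool.Agent.K1H54.L2

open Pool.Agent.Y5 Pool.Agent.Y5.D Pool.Agent.Y5.E Pool.Agent.K1H54.LO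

/-! ### Dissipation with a general symbol -/

/-- symbols of the dissipation -/
structure Sym (D : Z3 → ℝ) : Prop where
  nonneg : ∀ k, 0 ≤ D k
  even : ∀ k, D (-k) = D k
  growth : ∃ C, ∀ k, D k ≤ C * (1 + ‖vec k‖) ^ 3

/-- the form of the dissipation, in terms of the coefficients -/
noncomputable def lpD (D : Z3 → ℝ) (V W : Fam) : ℝ := ∑' k : Z3, D k * inner ℝ (V k) (W k)

/-- Smooth solutions in terms of the coefficients. -/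
structure FSolD (D : Z3 → ℝ) (β : Fam → Fam → Fam → ℝ) (T : ℝ) (V : ℝ → Fam) : Prop where
  ot : ∀ t ∈ Ico 0 T, OT (V t)
  rap : ∀ m : ℕ, ∀ T' < T, ∃ M, ∀ t ∈ Icc 0 T', ∀ k, ‖vec k‖ ^ m * ‖V t k‖ ≤ M
  eqn : ∀ Z, OT Z → {k | Z k ≠ 0}.Finite → ∀ t ∈ Ico 0 T,
    HasDerivWithinAt (fun τ => pair (V τ) Z)
      (-lpD D (V t) Z + bil (V t) (V t) Z + β (V t) (V t) Z) (Ico 0 T) t

/-- `⟨D(∇) v, w⟩` for fields -/
noncomputable def frm (D : Z3 → ℝ) (v w : E3 → E3) : ℝ :=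
  ∑' k : Z3, D k * inner ℝ (cf v k) (cf w k)

/-- Smooth solutions on `[0, T)` of `∂ₜ u + (u · ∇) u + ∇p = - D(∇) u + B(u, u)`, `div u = 0`
(tested with the trigonometric polynomials; the Fourier coefficients decrease rapidly, locally
uniformly in time, i.e. all derivatives in space are bounded on `[0, T']` for `T' < T`). -/
structure SolD (D : Z3 → ℝ) (B : (E3 → E3) → (E3 → E3) → E3 → E3) (T : ℝ)
    (u : ℝ → E3 → E3) : Prop where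
  reg : ∃ V : ℝ → Fam, (∀ t ∈ Ico 0 T, OT (V t) ∧ u t = fieldOf (V t)) ∧
    ∀ m : ℕ, ∀ T' < T, ∃ M, ∀ t ∈ Icc 0 T', ∀ k, ‖vec k‖ ^ m * ‖V t k‖ ≤ M
  eqn : ∀ z, TP z → ∀ t ∈ Ico 0 T, HasDerivWithinAt (fun τ => ip (u τ) z)
    (-frm D (u t) z - cnv (u t) z + ip (B (u t) (u t)) z) (Ico 0 T) t

/-- Uniqueness, and the energy identity. -/
def S_UNID : Prop := ∀ (s δ C T : ℝ) (D : Z3 → ℝ) (Q : Z3 → Prop) (β : Fam → Fam → Fam → ℝ),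
  Sym D → FPert s δ C Q β →
    (∀ V W : ℝ → Fam, FSolD D β T V → FSolD D β T W → (∀ k, V 0 k = W 0 k) →
      ∀ t ∈ Ico 0 T, ∀ k, V t k = W t k) ∧
    ∀ V : ℝ → Fam, FSolD D β T V → ∀ t ∈ Ico 0 T,
      HasDerivWithinAt (fun τ => pair (V τ) (V τ)) (-(2 * lpD D (V t) (V t))) (Ico 0 T) t

/-- Solutions in terms of the coefficients. -/
def S_SOLD : Prop := ∀ (T : ℝ) (D : Z3 → ℝ) (β : Fam → Fam → Fam → ℝ)
  (B : (E3 → E3) → (E3 → E3) → E3 → E3), Sym D →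
  (∀ V W Z, OT V → Rap V → OT W → Rap W → OT Z → Rap Z →
    ip (B (fieldOf V) (fieldOf W)) (fieldOf Z) = β V W Z) →
  (∀ V : ℝ → Fam, FSolD D β T V → SolD D B T (fun t => fieldOf (V t))) ∧
  ∀ u : ℝ → E3 → E3, SolD D B T u → ∃ V : ℝ → Fam, FSolD D β T V ∧
    ∀ t ∈ Ico 0 T, u t = fieldOf (V t)

/-! ### Systems of modes -/

/-- synthesis -/
noncomputable def Sy {I : Type} (g : I → Fam) (z : I → ℝ) : Fam := fun k => ∑' i, z i • g i k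

/-- the projection to the span of the modes -/
noncomputable def Pg {I : Type} (g : I → Fam) (V : Fam) : Fam := Sy g fun i => pair V (g i)

/-- the part of the perturbation which cancels the nonlinearity on the span of the modes -/
noncomputable def bg {I : Type} (g : I → Fam) (V W Z : Fam) : ℝ :=
  -(bil (Pg g V) (Pg g W) Z + bil (Pg g V) W (Pg g Z) - bil (Pg g V) (Pg g W) (Pg g Z))

/-- the perturbation -/
noncomputable def bQ {I : Type} (sh : I → ℕ) (ty : I → Bool) (ρ : ℕ → ℕ) (g : I → Fam)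
    (lam ε c₀ : ℝ) (V W Z : Fam) : ℝ :=
  bg g V W Z + bT lam ε c₀ (fun n => Sy g (fv sh ty ρ true n)) (fun n => Sy g (fv sh ty ρ false n))
    V W Z

/-- A system of modes `g i`: fields with finitely many frequencies `S i` on a sphere, of the same
size at all frequencies, and almost of the same size everywhere (`sup`). There are `ρ n` modes of
each of the two types in the shell `n`. -/
structure MS {I : Type} (sh : I → ℕ) (ty : I → Bool) (ρ : ℕ → ℕ) (g : I → Fam)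
    (S : I → Finset Z3) (R : I → ℝ) (N : ℕ → ℝ) (s N₁ δ c₀ lam : ℝ) : Prop where
  shl : Shl sh ty ρ
  ot : ∀ i, OT (g i)
  supp : ∀ i k, g i k ≠ 0 → k ∈ S i
  flat : ∀ i, ∀ k ∈ S i, ‖g i k‖ ^ 2 * ((S i).card : ℝ) = 1
  disj : ∀ i j, i ≠ j → Disjoint (S i) (S j)
  ne : ∀ i, (S i).Nonempty
  sph : ∀ i, ∀ k ∈ S i, ‖vec k‖ = R i
  size : ∀ i, N (sh i) ≤ R i ∧ R i ≤ 2 * N (sh i)
  big : ∀ i, N₁ ≤ R i
  N1 : ∀ n, 1 ≤ N n
  mono : ∀ n, N n ≤ N (n + 1)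
  sup : ∀ i y, ‖fieldOf (g i) y‖ ≤ δ * R i ^ (s - 1) * √((S i).card : ℝ)
  coef : ∀ i, c₀ * lam ^ sh i ≤
    δ * N (sh i) ^ s * (√(ρ (sh i) : ℝ) * √((S i).card : ℝ))
  lam1 : 1 < lam
  grow : ∃ X : ℝ, ∀ n, N n ≤ X * lam ^ n
  poly : ∃ X : ℝ, ∀ n, lam ^ n ≤ X * N n ^ 4
  cards : ∀ i, ((S i).card : ℝ) ≤ 4 * N (sh i)
  c0 : 0 < c₀

/-- Further properties of the modes. -/
structure MX {I : Type} (ty : I → Bool) (ρ : ℕ → ℕ) (g : I → Fam) (lam : ℝ) (y₀ : E3) :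
    Prop where
  mlo : ∀ n, 10000 * √(ρ n : ℝ) ≤ √(ρ (n + 1) : ℝ)
  mup : ∀ n, √(ρ (n + 1) : ℝ) ≤ lam * √(ρ n : ℝ)
  lo : ∀ i, ty i = true → (1 / 2 : ℝ) ≤
    inner ℝ (fieldOf (g i) y₀) (EuclideanSpace.single 2 (1 : ℝ))
  up : ∀ i, |(inner ℝ (fieldOf (g i) y₀) (EuclideanSpace.single 2 (1 : ℝ)) : ℝ)| ≤ 10

/-! ### Statements of the steps -/

/-- The trilinear form is bounded by the maximum of the advecting field. -/
def S_TRI : Prop := ∀ (G W Z : Fam) (M : ℝ), OT G → Rap G → OT W → Rap W → OT Z → Rap Z →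
  (∀ y, ‖fieldOf G y‖ ≤ M) → |bil G W Z| ≤ 2 * Real.pi * M * (h1 W * l2 Z)

/-- a packet with signs `e` -/
noncomputable def sgp (G : Finset Z3) (e : Z3 → ℝ) : Fam := fun k =>
  if k ∈ G then ((√(2 * G.card : ℝ))⁻¹ * ‖pe k‖⁻¹ * e k) • pe k
  else if -k ∈ G then -(((√(2 * G.card : ℝ))⁻¹ * ‖pe k‖⁻¹ * e (-k)) • pe k) else 0

/-- the point at which the packets are evaluated -/
noncomputable def y0 : E3 := EuclideanSpace.single 0 (1 / 4)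

/-- Good signs exist. -/
def S_SGN : Prop := ∃ X₀ : ℝ, 0 < X₀ ∧ ∀ (F : ℝ) (G : Finset Z3), 2 ≤ F → G.Nonempty →
  (∀ k ∈ G, 0 < k 0 ∧ Odd (k 0) ∧ ‖vec k‖ ≤ F ∧ 1 / 2 ≤ ‖pe k‖) →
  ∃ e : Z3 → ℝ, (∀ k, e k = 1 ∨ e k = -1) ∧
    (∀ y, ‖fieldOf (sgp G e) y‖ ≤ X₀ * Real.log F) ∧
    1 / 2 ≤ (inner ℝ (fieldOf (sgp G e) y0) (EuclideanSpace.single 2 (1 : ℝ)) : ℝ) ∧
    (inner ℝ (fieldOf (sgp G e) y0) (EuclideanSpace.single 2 (1 : ℝ)) : ℝ) ≤ 10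

/-- Many disjoint groups of frequencies on spheres. -/
def S_GRP : Prop := ∀ K : ℕ, 0 < K → ∃ G : Bool × Fin (K ^ 2) → Finset Z3,
  (∀ i, (G i).card = K) ∧ (∀ i j, i ≠ j → Disjoint (G i) (G j)) ∧
  (∀ i, ∃ R : ℝ, ∀ k ∈ G i, ‖vec k‖ = R) ∧
  ∀ i, ∀ k ∈ G i, 0 < k 0 ∧ Odd (k 0) ∧ 1 / 2 ≤ ‖pe k‖ ∧ 1024 * (K : ℝ) ≤ ‖vec k‖ ∧
    ‖vec k‖ ≤ 2048 * K

/-- Existence of systems of modes, and choice of the parameters. -/
def S_GEO2 : Prop := ∀ (s α δ N₁ : ℝ), 1 / 2 < s → s < 1 → 0 ≤ α → 2 * α < s + 3 / 2 → 0 < δ →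
  ∃ (I : Type) (sh : I → ℕ) (ty : I → Bool) (ρ : ℕ → ℕ) (g : I → Fam) (S : I → Finset Z3)
    (R : I → ℝ) (N : ℕ → ℝ) (c₀ lam : ℝ), 10 ^ 13 ≤ lam ∧
    MS sh ty ρ g S R N s N₁ δ c₀ lam ∧ MX ty ρ g lam y0 ∧
    ∀ ν η s₁ : ℝ, 0 ≤ ν → 0 < η → s₁ < s + 3 / 2 - 2 * α → ∃ (n₀ : ℕ) (a₀ : ℝ), 0 < a₀ ∧
      (∀ n : ℕ, ν * (2 * Real.pi * (2 * N (n₀ + n))) ^ (2 * α) ≤
        Real.exp (-(700 * lam)) * (c₀ * lam ^ n₀ * a₀ * lam ^ n) * (1 - 1 / 10 ^ 5) ^ n) ∧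
      (∀ i, sh i = n₀ → a₀ ^ 2 * (2 * Real.pi * R i) ^ (2 * s₁) ≤ η) ∧
      1040 * lam / (c₀ * lam ^ n₀ * a₀) ≤ η

/-- The bounds of the perturbation. -/
def S_OP2 : Prop := ∀ (I : Type) (sh : I → ℕ) (ty : I → Bool) (ρ : ℕ → ℕ) (g : I → Fam)
  (S : I → Finset Z3) (R : I → ℝ) (N : ℕ → ℝ) (s N₁ δ c₀ lam ε : ℝ), 1 / 2 < s → s < 1 →
  0 < δ → 1 ≤ N₁ → 0 ≤ ε → ε ≤ 1 → MS sh ty ρ g S R N s N₁ (δ / 40) c₀ lam →
  (∃ C, FPert s δ C (fun k => N₁ ≤ ‖vec k‖) (bQ sh ty ρ g lam ε c₀)) ∧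
  ∀ V W Z, OT V → Rap V → OT W → Rap W → OT Z → Rap Z →
    |bQ sh ty ρ g lam ε c₀ V W Z| ≤ δ * (A1 (s - 1) V * h1 W) * l2 Z

/-- From the modes to the Fourier coefficients. -/
def S_EX2 : Prop := ∀ (I : Type) (sh : I → ℕ) (ty : I → Bool) (ρ : ℕ → ℕ) (g : I → Fam)
  (S : I → Finset Z3) (R : I → ℝ) (N : ℕ → ℝ) (s N₁ δ c₀ lam ε : ℝ),
  0 < δ → 1 ≤ N₁ → 0 ≤ ε → ε ≤ 1 → MS sh ty ρ g S R N s N₁ δ c₀ lam →
  ∀ (D : Z3 → ℝ) (di : I → ℝ), Sym D → (∀ i, ∀ k ∈ S i, D k = di i) →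
  ∀ (T : ℝ) (z : I → ℝ → ℝ), 0 < T →
    ASol2 di (fun i => lam ^ sh i) (ker sh ty ρ lam ε c₀) T z →
    Rapid (fun i => lam ^ sh i) T z →
    FSolD D (bQ sh ty ρ g lam ε c₀) T (fun t => Sy g (fun i => z i t))

/-- the subsystem of the shells `≥ n₀` -/
abbrev Sub {I : Type} (sh : I → ℕ) (n₀ : ℕ) : Type := {i : I // n₀ ≤ sh i}

/-- Restriction to the shells `≥ n₀`. -/
def S_SUB : Prop := ∀ (I : Type) (sh : I → ℕ) (ty : I → Bool) (ρ : ℕ → ℕ) (g : I → Fam)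
  (S : I → Finset Z3) (R : I → ℝ) (N : ℕ → ℝ) (s N₁ δ c₀ lam ε : ℝ) (n₀ : ℕ),
  1 ≤ N₁ → MS sh ty ρ g S R N s N₁ δ c₀ lam →
  MS (fun i : Sub sh n₀ => sh i - n₀) (fun i => ty i) (fun n => ρ (n₀ + n)) (fun i => g i)
    (fun i => S i) (fun i => R i) (fun n => N (n₀ + n)) s N₁ δ (c₀ * lam ^ n₀) lam ∧
  ∀ (z : Sub sh n₀ → ℝ) (Z : Fam), Rap (Sy (fun i : Sub sh n₀ => g i) z) → OT Z →
    {k | Z k ≠ 0}.Finite →
    bQ sh ty ρ g lam ε c₀ (Sy (fun i : Sub sh n₀ => g i) z) (Sy (fun i : Sub sh n₀ => g i) z) Z =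
    bQ (fun i : Sub sh n₀ => sh i - n₀) (fun i => ty i) (fun n => ρ (n₀ + n)) (fun i => g i)
      lam ε (c₀ * lam ^ n₀) (Sy (fun i : Sub sh n₀ => g i) z)
      (Sy (fun i : Sub sh n₀ => g i) z) Z

/-! ### The main theorem -/

/-- `B` is a bilinear operator on the smooth odd periodic divergence-free fields with
`∫ B(v, w) · w = 0` and `‖B(v, w)‖ ≤ δ (∑ |k|^(s-1) |v̂ k|) ‖∇ w‖` (norms of `L²`; the
nonlinearity `(v · ∇) w` satisfies this with `s = 1`), which acts only on the frequencies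
`|k| ≥ N₁`. -/
structure LOp2 (s δ N₁ : ℝ) (B : (E3 → E3) → (E3 → E3) → E3 → E3) : Prop where
  field : ∀ v w, PF v → PF w → PF (B v w)
  add1 : ∀ v v' w, PF v → PF v' → PF w → B (v + v') w = B v w + B v' w
  smul1 : ∀ (a : ℝ) (v w : E3 → E3), PF v → PF w → B (a • v) w = a • B v w
  add2 : ∀ v w w', PF v → PF w → PF w' → B v (w + w') = B v w + B v w'
  smul2 : ∀ (a : ℝ) (v w : E3 → E3), PF v → PF w → B v (a • w) = a • B v w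
  energy : ∀ v w, PF v → PF w → ip (B v w) w = 0
  small : ∀ v w, PF v → PF w → √(ip (B v w) (B v w)) ≤ δ * (wie (s - 1) v * √(dir w))
  low : ∃ C, ∀ v w, PF v → PF w → √(ip (B v w) (B v w)) ≤ C * (√(ip v v) * wie 1 w)
  high1 : ∀ v w, PF v → PF w → (∀ k, N₁ ≤ ‖vec k‖ → cf v k = 0) → B v w = 0
  high2 : ∀ v w, PF v → PF w → (∀ k, N₁ ≤ ‖vec k‖ → cf w k = 0) →
    ∀ k, ¬ N₁ ≤ ‖vec k‖ → cf (B v w) k = 0

/-- `⟨(-Δ)^α v, w⟩` -/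
noncomputable def lap (α : ℝ) (v w : E3 → E3) : ℝ :=
  ∑' k : Z3, (2 * Real.pi * ‖vec k‖) ^ (2 * α) * inner ℝ (cf v k) (cf w k)

open Pool.Agent.Y6.N in
/-- Smooth solutions on `[0, T)` of `∂ₜ u + (u · ∇) u + ∇p = - ν (-Δ)^α u + B(u, u)`,
`div u = 0` (tested with the trigonometric polynomials; the Fourier coefficients decrease rapidly,
locally uniformly in time, i.e. all derivatives in space are bounded on `[0, T']` for `T' < T`). -/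
structure SolA (ν α : ℝ) (B : (E3 → E3) → (E3 → E3) → E3 → E3) (T : ℝ)
    (u : ℝ → E3 → E3) : Prop where
  reg : ∃ V : ℝ → Fam, (∀ t ∈ Ico 0 T, OT (V t) ∧ u t = fieldOf (V t)) ∧
    ∀ m : ℕ, ∀ T' < T, ∃ M, ∀ t ∈ Icc 0 T', ∀ k, ‖vec k‖ ^ m * ‖V t k‖ ≤ M
  eqn : ∀ z, TP z → ∀ t ∈ Ico 0 T, HasDerivWithinAt (fun τ => ip (u τ) z)
    (-(ν * lap α (u t) z) - cnv (u t) z + ip (B (u t) (u t)) z) (Ico 0 T) t

/-- The main theorem: for every `s > 1/2` (and every `α` with `2 α < s + 3/2`, e.g. `α = 1`) there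
is a conservative bilinear operator `B` of order `s` with norm at most `δ`, acting only on the
frequencies `|k| ≥ N₁`, such that for all viscosities `ν` the equations
`∂ₜ u + (u · ∇) u + ∇p = - ν (-Δ)^α u + B(u, u)` have smooth solutions which blow up before the
time `η`, with trigonometric polynomials of norm at most `η` in `H^(s₁)`, `s₁ < s + 3/2 - 2 α`,
as data. -/
def S_MAIN2 : Prop := ∀ δ s α N₁ : ℝ, 0 < δ → 1 / 2 < s → s < 1 → 0 ≤ α → 2 * α < s + 3 / 2 →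
  ∃ B : (E3 → E3) → (E3 → E3) → E3 → E3, LOp2 s δ N₁ B ∧
  ∀ ν η s₁ : ℝ, 0 ≤ ν → 0 < η → s₁ < s + 3 / 2 - 2 * α → ∃ (T : ℝ) (u : ℝ → E3 → E3),
    0 < T ∧ T ≤ η ∧ SolA ν α B T u ∧ TP (u 0) ∧ sob s₁ (u 0) ≤ η ∧
    -- uniqueness, and `T` is the maximal time of existence
    (∀ (T' : ℝ) (v : ℝ → E3 → E3), 0 < T' → SolA ν α B T' v → v 0 = u 0 →
      T' ≤ T ∧ ∀ t ∈ Ico 0 T', v t = u t) ∧
    -- the energy identity
    (∀ t ∈ Ico 0 T, HasDerivWithinAt (fun τ => ip (u τ) (u τ)) (-(2 * (ν * sob α (u t))))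
      (Ico 0 T) t) ∧
    -- blow-up of the velocity
    ∀ M : ℝ, ∃ t ∈ Ico 0 T, ∃ y, M < ‖u t y‖

end Pool.Agent.K1H54.L2
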