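import Pool.Agent.K1H17.UN.Uni
import Pool.Agent.K1H54.LO.Defs3

/-!
Uniqueness and the energy identity for a general symbol of the dissipation (`S_UNID`). This is
the proof of helper17 (`Pool/Agent/K1H17/UN/Uni.lean`, `S_UNIL`) with another symbol.
-/

open Set Filter Topology MeasureTheory

set_option autoImplicit false

namespace Pool.Agent.K1H54.L2

open Pool.Agent.Y5 Pool.Agent.Y5.D Pool.Agent.Y5.E
open Pool.Agent.Y301.G
open Pool.Agent.Y248.ND (bil_anti vec_neg one_le_vec)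
open Pool.Agent.K1H54.LO
open Pool.Agent.K1H17.UN (W1 bd_w1 fin_w1 fin_rap Gr psum pair_add' pair_sub' bd_gr Hf bil_pair
  l2_nonneg A1_nonneg G_le A1_le wt_nonneg l2_le Hf_gr G_gr Gbd to_Ico ub ot_sub rap_sub bd_sub
  beta_diff en)

/-- the family which represents the right hand side -/
noncomputable def Qv (D : Z3 → ℝ) (V G : Fam) : Fam := fun k =>
  ((-(D k)) • V k + Hf V V k) + G k

lemma sym_bd {D : Z3 → ℝ} {C₁ M : ℝ} {V : Fam} (hD : ∀ k, 0 ≤ D k)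
    (hC : ∀ k, D k ≤ C₁ * (1 + ‖vec k‖) ^ 3) (h : Bd M V) (k : Z3) : D k * ‖V k‖ ≤ |C₁| * M := by
  have h0 := h.nonneg
  calc D k * ‖V k‖ ≤ |C₁| * (1 + ‖vec k‖) ^ 3 * ‖V k‖ := by
        refine mul_le_mul_of_nonneg_right ((hC k).trans ?_) (norm_nonneg _)
        exact mul_le_mul_of_nonneg_right (le_abs_self _) (by positivity)
    _ ≤ |C₁| * ((1 + ‖vec k‖) ^ 7 * ‖V k‖) := by
        rw [mul_assoc]
        refine mul_le_mul_of_nonneg_left ?_ (abs_nonneg _)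
        refine mul_le_mul_of_nonneg_right ?_ (norm_nonneg _)
        exact pow_le_pow_right₀ (by linarith [norm_nonneg (vec k)]) (by norm_num)
    _ ≤ |C₁| * M := mul_le_mul_of_nonneg_left (h k) (abs_nonneg _)

lemma lp_gr {D : Z3 → ℝ} {C₁ M : ℝ} {V : Fam} (hD : ∀ k, 0 ≤ D k)
    (hC : ∀ k, D k ≤ C₁ * (1 + ‖vec k‖) ^ 3) (h : Bd M V) :
    Gr (|C₁| * M) (fun k => (-(D k)) • V k) := by
  intro k
  have h0 := h.nonneg
  rw [norm_smul, norm_neg, Real.norm_of_nonneg (hD k)]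
  calc D k * ‖V k‖ ≤ |C₁| * M := sym_bd hD hC h k
    _ = |C₁| * M * 1 := (mul_one _).symm
    _ ≤ |C₁| * M * (1 + ‖vec k‖) := by
        gcongr
        linarith [norm_nonneg (vec k)]

/-- the right hand side of the equation -/
lemma rep {D : Z3 → ℝ} {C₁ M K : ℝ} {V G Z : Fam} (hD : ∀ k, 0 ≤ D k)
    (hC : ∀ k, D k ≤ C₁ * (1 + ‖vec k‖) ^ 3) (h : Bd M V) (hG : ∀ k, ‖G k‖ ≤ K) (hZ : W1 Z) :
    pair (Qv D V G) Z = -lpD D V Z + bil V V Z + pair G Z := by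
  have hZ1 : Summable (fun k => ‖vec k‖ * ‖Z k‖) :=
    Summable.of_nonneg_of_le (fun _ => by positivity) (fun k => by
      refine mul_le_mul_of_nonneg_right ?_ (norm_nonneg _)
      linarith) hZ
  have h1 := pair_add' (lp_gr hD hC h) (Hf_gr h) hZ
  have h2 := pair_add' ((lp_gr hD hC h).add (Hf_gr h)) (G_gr hG) hZ
  have h3 : pair (fun k => (-(D k)) • V k) Z = -lpD D V Z := by
    unfold pair lpD
    rw [← tsum_neg]
    refine tsum_congr fun k => ?_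
    rw [inner_smul_left]
    simp only [conj_trivial]
    ring
  have h4 : pair (Qv D V G) Z = _ := h2
  rw [h4, h1, h3, bil_pair h.le h.sum hZ1]

/-! ### Solutions -/

section
variable {s δ C C₁ T : ℝ} {D : Z3 → ℝ} {Q : Z3 → Prop} {β : Fam → Fam → Fam → ℝ}

/-- uniform bounds -/
lemma exB {T' : ℝ} {V : ℝ → Fam} (h : FSolD D β T V) (hT : T' < T) :
    ∃ M, ∀ t ∈ Icc 0 T', Bd M (V t) := by
  obtain ⟨M0, h0⟩ := h.rap 0 T' hT
  obtain ⟨M1, h1⟩ := h.rap 7 T' hT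
  refine ⟨2 ^ 6 * (M0 + M1), fun t ht k => ?_⟩
  have h2 := add_pow_le (zero_le_one (α := ℝ)) (norm_nonneg (vec k)) 7
  rw [one_pow] at h2
  have h3 := h0 t ht k
  rw [pow_zero, one_mul] at h3
  have h4 := h1 t ht k
  calc (1 + ‖vec k‖) ^ 7 * ‖V t k‖ ≤ 2 ^ (7 - 1) * (1 + ‖vec k‖ ^ 7) * ‖V t k‖ := by gcongr
    _ = 2 ^ 6 * (‖V t k‖ + ‖vec k‖ ^ 7 * ‖V t k‖) := by ring
    _ ≤ _ := by gcongr

lemma solrap {V : ℝ → Fam} (h : FSolD D β T V) {t : ℝ} (ht : t ∈ Ico 0 T) : Rap (V t) := by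
  intro m
  obtain ⟨T', h1, h2⟩ := exists_between ht.2
  obtain ⟨M, hM⟩ := h.rap m T' h2
  exact ⟨M, fun k => hM t ⟨ht.1, h1.le⟩ k⟩

/-- the families which represent the perturbation along the solution -/
lemma exG (h : FPert s δ C Q β) {V : ℝ → Fam} (hV : FSolD D β T V) :
    ∃ G : ℝ → Fam, ∀ t ∈ Ico 0 T, OT (G t) ∧ Rap (G t) ∧
      (∀ Z, OT Z → Rap Z → β (V t) (V t) Z = pair (G t) Z) ∧
      ∀ k, ‖G t k‖ ≤ |C| * (l2 (V t) * A1 1 (V t)) := by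
  have h1 : ∀ t, ∃ G : Fam, t ∈ Ico 0 T → OT G ∧ Rap G ∧
      (∀ Z, OT Z → Rap Z → β (V t) (V t) Z = pair G Z) ∧
      ∀ k, ‖G k‖ ≤ |C| * (l2 (V t) * A1 1 (V t)) := by
    intro t
    by_cases ht : t ∈ Ico 0 T
    · obtain ⟨G, hG1, hG2, hG3⟩ := h.range (V t) (V t) (hV.ot t ht) (solrap hV ht) (hV.ot t ht)
        (solrap hV ht)
      exact ⟨G, fun _ => ⟨hG1, hG2, hG3, fun k => G_le h (hV.ot t ht) (solrap hV ht)
        (hV.ot t ht) (solrap hV ht) hG1 hG3 k⟩⟩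
    · exact ⟨0, fun h => absurd h ht⟩
  choose G hG using h1
  exact ⟨G, fun t ht => hG t ht⟩

lemma Qv_gr {M K : ℝ} {V G : Fam} (hD : ∀ k, 0 ≤ D k)
    (hC : ∀ k, D k ≤ C₁ * (1 + ‖vec k‖) ^ 3) (h : Bd M V) (hG : ∀ k, ‖G k‖ ≤ K) :
    Gr (|C₁| * M + 2 * Real.pi * (M * (M * ∑' k, wt k)) + K) (Qv D V G) :=
  ((lp_gr hD hC h).add (Hf_gr h)).add (G_gr hG)

/-- the energy identity -/
theorem energy (hD : ∀ k, 0 ≤ D k)
    (hC : ∀ k, D k ≤ C₁ * (1 + ‖vec k‖) ^ 3) (h : FPert s δ C Q β) {V : ℝ → Fam}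
    (hV : FSolD D β T V) {t : ℝ}
    (ht : t ∈ Ico 0 T) :
    HasDerivWithinAt (fun τ => pair (V τ) (V τ)) (-(2 * lpD D (V t) (V t))) (Ico 0 T) t := by
  refine to_Ico ht fun T' hT0 hT' => ?_
  obtain ⟨M, hM⟩ := exB hV hT'
  obtain ⟨G, hG⟩ := exG h hV
  have hIco : ∀ t ∈ Icc 0 T', t ∈ Ico 0 T := fun t ht => ⟨ht.1, lt_of_le_of_lt ht.2 hT'⟩
  have hGb := Gbd (C := C) hT' (fun t ht => (hG t ht).2.2.2) hM
  have ht' : t ∈ Icc 0 T' := ⟨ht.1, hT0.le⟩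
  have h1 := en (D := V) (Q := fun t => Qv D (V t) (G t)) (T' := T')
    ((wt_sum.mul_left M).mul_left (|C₁| * M +
      2 * Real.pi * (M * (M * ∑' k, wt k)) + |C| * (M * (1 + ∑' k, wt k) * (M * ∑' k, wt k))))
    (fun t ht => hV.ot t (hIco t ht)) ?_ ?_ (fun t ht => (hM t ht).sq) ht'
  · refine h1.congr_deriv ?_
    rw [rep hD hC (hM t ht') (hGb t ht') (bd_w1 (hM t ht'))]
    have h2 : bil (V t) (V t) (V t) = 0 := by
      have := bil_anti (V t) (V t) (V t) (hV.ot t ht)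
      linarith
    have h3 : pair (G t) (V t) = 0 := by
      rw [← (hG t ht).2.2.1 (V t) (hV.ot t ht) (solrap hV ht)]
      have := h.skew (V t) (V t) (V t) (hV.ot t ht) (solrap hV ht) (hV.ot t ht) (solrap hV ht)
        (hV.ot t ht) (solrap hV ht)
      linarith
    rw [h2, h3]
    ring
  · intro Z hZ hZf τ hτ
    have h2 := (hV.eqn Z hZ hZf τ (hIco τ hτ)).mono hIco
    rw [rep hD hC (hM τ hτ) (hGb τ hτ) (fin_w1 hZf), ← (hG τ (hIco τ hτ)).2.2.1 Z hZ (fin_rap hZf)]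
    exact h2
  · intro τ hτ k
    exact ub (Qv_gr hD hC (hM τ hτ) (hGb τ hτ)) (hM τ hτ) k

lemma lpD_nonneg (hD : ∀ k, 0 ≤ D k) (Z : Fam) : 0 ≤ lpD D Z Z :=
  tsum_nonneg fun k => mul_nonneg (hD k) real_inner_self_nonneg

lemma lpD_sub (hD : ∀ k, 0 ≤ D k)
    (hC : ∀ k, D k ≤ C₁ * (1 + ‖vec k‖) ^ 3) {V W Z : Fam} {M N L : ℝ} (hM : Bd M V) (hN : Bd N W)
    (hL : Bd L Z) : lpD D V Z - lpD D W Z = lpD D (fun k => V k - W k) Z := by
  have key : ∀ {V : Fam} {M : ℝ}, Bd M V →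
      Summable (fun k => D k * (inner ℝ (V k) (Z k) : ℝ)) := by
    intro V M hM
    refine Summable.of_norm_bounded ((hL.sum).mul_left (|C₁| * M)) (fun k => ?_)
    rw [norm_mul, Real.norm_of_nonneg (hD k)]
    calc D k * ‖(inner ℝ (V k) (Z k) : ℝ)‖ ≤ D k * (‖V k‖ * ‖Z k‖) :=
          mul_le_mul_of_nonneg_left (norm_inner_le_norm _ _) (hD k)
      _ = (D k * ‖V k‖) * ‖Z k‖ := by ring
      _ ≤ |C₁| * M * ‖Z k‖ := mul_le_mul_of_nonneg_right (sym_bd hD hC hM k) (norm_nonneg _)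
  unfold lpD
  rw [← (key hM).tsum_sub (key hN)]
  exact tsum_congr fun k => by rw [inner_sub_left]; ring

/-- uniqueness -/
theorem uni (hD : ∀ k, 0 ≤ D k)
    (hC : ∀ k, D k ≤ C₁ * (1 + ‖vec k‖) ^ 3) (h : FPert s δ C Q β) {V W : ℝ → Fam}
    (hV : FSolD D β T V) (hW : FSolD D β T W) (h0 : ∀ k, V 0 k = W 0 k) : ∀ t ∈ Ico 0 T, ∀ k, V t k = W t k := by
  intro t₀ ht₀
  obtain ⟨T', hT0, hT'⟩ : ∃ T', t₀ < T' ∧ T' < T := exists_between ht₀.2
  have h0T' : 0 < T' := lt_of_le_of_lt ht₀.1 hT0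
  obtain ⟨M, hM⟩ := exB hV hT'
  obtain ⟨N, hN⟩ := exB hW hT'
  obtain ⟨G, hG⟩ := exG h hV
  obtain ⟨H, hH⟩ := exG h hW
  have hIco : ∀ t ∈ Icc 0 T', t ∈ Ico 0 T := fun t ht => ⟨ht.1, lt_of_le_of_lt ht.2 hT'⟩
  have hGb := Gbd (C := C) hT' (fun t ht => (hG t ht).2.2.2) hM
  have hHb := Gbd (C := C) hT' (fun t ht => (hH t ht).2.2.2) hN
  have hB : ∀ t ∈ Icc 0 T', Bd (M + N) (fun k => V t k - W t k) := fun t ht =>
    bd_sub (hM t ht) (hN t ht)
  have hO : ∀ t ∈ Icc 0 T', OT (fun k => V t k - W t k) := fun t ht =>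
    ot_sub (hV.ot t (hIco t ht)) (hW.ot t (hIco t ht))
  have hR : ∀ t ∈ Icc 0 T', Rap (fun k => V t k - W t k) := fun t ht =>
    rap_sub (solrap hV (hIco t ht)) (solrap hW (hIco t ht))
  obtain ⟨K1, hK1⟩ : ∃ K, ∀ t ∈ Icc 0 T', Gr K (Qv D (V t) (G t)) :=
    ⟨_, fun t ht => Qv_gr hD hC (hM t ht) (hGb t ht)⟩
  obtain ⟨K2, hK2⟩ : ∃ K, ∀ t ∈ Icc 0 T', Gr K (Qv D (W t) (H t)) :=
    ⟨_, fun t ht => Qv_gr hD hC (hN t ht) (hHb t ht)⟩
  obtain ⟨E, hE⟩ : ∃ E : ℝ → ℝ, ∀ t, E t = ∑' k, ‖V t k - W t k‖ ^ 2 := ⟨_, fun t => rfl⟩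
  obtain ⟨dE, hdE⟩ : ∃ d : ℝ → ℝ, ∀ t, d t =
      2 * pair (fun k => Qv D (V t) (G t) k - Qv D (W t) (H t) k) (fun k => V t k - W t k) :=
    ⟨_, fun t => rfl⟩
  have hder : ∀ t ∈ Icc 0 T', HasDerivWithinAt E (dE t) (Icc 0 T') t := by
    intro t ht
    have h1 := en (D := fun t k => V t k - W t k)
      (Q := fun t k => Qv D (V t) (G t) k - Qv D (W t) (H t) k) (T' := T')
      ((wt_sum.mul_left (M + N)).mul_left (K1 + K2)) hO ?_ ?_ (fun t ht => (hB t ht).sq) ht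
    · rw [hdE]
      have h2 : E = fun τ => pair (fun k => V τ k - W τ k) (fun k => V τ k - W τ k) := by
        funext τ
        rw [hE]
        unfold pair
        exact tsum_congr fun k => (real_inner_self_eq_norm_sq _).symm
      rw [h2]
      exact h1
    · intro Z hZ hZf τ hτ
      have h2 := ((hV.eqn Z hZ hZf τ (hIco τ hτ)).sub (hW.eqn Z hZ hZf τ (hIco τ hτ))).mono hIco
      have hZw := fin_w1 hZf
      have h3 : pair (fun k => Qv D (V τ) (G τ) k - Qv D (W τ) (H τ) k) Z =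
          -lpD D (V τ) Z + bil (V τ) (V τ) Z + β (V τ) (V τ) Z -
          (-lpD D (W τ) Z + bil (W τ) (W τ) Z + β (W τ) (W τ) Z) := by
        rw [pair_sub' (hK1 τ hτ) (hK2 τ hτ) hZw, rep hD hC (hM τ hτ) (hGb τ hτ) hZw,
          rep hD hC (hN τ hτ) (hHb τ hτ) hZw, ← (hG τ (hIco τ hτ)).2.2.1 Z hZ (fin_rap hZf),
          ← (hH τ (hIco τ hτ)).2.2.1 Z hZ (fin_rap hZf)]
      rw [h3]
      refine h2.congr (fun x hx => ?_) ?_
      · simp only [Pi.sub_apply]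
        exact pair_sub' (bd_gr (hM x hx)) (bd_gr (hN x hx)) hZw
      · simp only [Pi.sub_apply]
        exact pair_sub' (bd_gr (hM τ hτ)) (bd_gr (hN τ hτ)) hZw
    · intro τ hτ k
      exact ub ((hK1 τ hτ).sub (hK2 τ hτ)) (hB τ hτ) k
  obtain ⟨C', hC'⟩ : ∃ C', C' = 2 * (2 * Real.pi * (M * ∑' k, wt k) + |C| * (M * ∑' k, wt k)) :=
    ⟨_, rfl⟩
  have hineq : ∀ t ∈ Icc 0 T', dE t ≤ C' * E t := by
    intro t ht
    have hw1 := bd_w1 (hB t ht)
    have h1 : pair (fun k => Qv D (V t) (G t) k - Qv D (W t) (H t) k) (fun k => V t k - W t k) =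
        -lpD D (fun k => V t k - W t k) (fun k => V t k - W t k) +
        (bil (V t) (V t) (fun k => V t k - W t k) - bil (W t) (W t) (fun k => V t k - W t k)) +
        (β (V t) (V t) (fun k => V t k - W t k) - β (W t) (W t) (fun k => V t k - W t k)) := by
      rw [pair_sub' (hK1 t ht) (hK2 t ht) hw1, rep hD hC (hM t ht) (hGb t ht) hw1,
        rep hD hC (hN t ht) (hHb t ht) hw1,
        ← (hG t (hIco t ht)).2.2.1 _ (hO t ht) (hR t ht),
        ← (hH t (hIco t ht)).2.2.1 _ (hO t ht) (hR t ht),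
        ← lpD_sub hD hC (hM t ht) (hN t ht) (hB t ht)]
      ring
    have h3 := bil_diff (hM t ht) (hN t ht)
    have h4 : bil (W t) (fun k => V t k - W t k) (fun k => V t k - W t k) = 0 := by
      have := bil_anti (W t) (fun k => V t k - W t k) (fun k => V t k - W t k)
        (hW.ot t (hIco t ht))
      linarith
    have h5 := bil_anti (fun k => V t k - W t k) (V t) (fun k => V t k - W t k) (hO t ht)
    have h6 := bil_energy (hB t ht) (hM t ht)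
    have h7 : (∑' k, ‖vec k‖ * ‖V t k‖) * ∑' k, ‖V t k - W t k‖ ^ 2 ≤
        (M * ∑' k, wt k) * ∑' k, ‖V t k - W t k‖ ^ 2 :=
      mul_le_mul_of_nonneg_right (hM t ht).tsum1 (tsum_nonneg (fun _ => by positivity))
    have h8 : |bil (fun k => V t k - W t k) (fun k => V t k - W t k) (V t)| ≤
        2 * Real.pi * ((M * ∑' k, wt k) * ∑' k, ‖V t k - W t k‖ ^ 2) :=
      h6.trans (mul_le_mul_of_nonneg_left h7 Real.two_pi_pos.le)
    have h9 := neg_abs_le (bil (fun k => V t k - W t k) (fun k => V t k - W t k) (V t))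
    have h10 := lpD_nonneg hD (fun k => V t k - W t k)
    have h11 := beta_diff h (hV.ot t (hIco t ht)) (hW.ot t (hIco t ht)) (solrap hV (hIco t ht))
      (solrap hW (hIco t ht)) (hM t ht) (hN t ht)
    rw [hdE, h1, h3, h4, add_zero, h5, hE, hC']
    calc _ ≤ 2 * (2 * Real.pi * ((M * ∑' k, wt k) * ∑' k, ‖V t k - W t k‖ ^ 2) +
          |C| * (M * ∑' k, wt k) * ∑' k, ‖V t k - W t k‖ ^ 2) := by linarith
      _ = _ := by ring
  -- Gronwall
  have hcont : ContinuousOn E (Icc 0 T') := fun t ht => (hder t ht).continuousWithinAt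
  have hder' : ∀ t ∈ Ioo 0 T', HasDerivAt E (dE t) t := fun t ht =>
    (hder t ⟨ht.1.le, ht.2.le⟩).hasDerivAt (Icc_mem_nhds ht.1 ht.2)
  have hanti : AntitoneOn (fun t => E t * Real.exp (-C' * t)) (Icc 0 T') := by
    refine antitoneOn_of_deriv_nonpos (convex_Icc 0 T')
      (hcont.mul (by fun_prop)) ?_ ?_
    · rw [interior_Icc]
      intro t ht
      exact ((hder' t ht).differentiableAt.mul (by fun_prop)).differentiableWithinAt
    · rw [interior_Icc]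
      intro t ht
      have h1 : HasDerivAt (fun t : ℝ => Real.exp (-C' * t)) (Real.exp (-C' * t) * (-C' * 1)) t :=
        ((hasDerivAt_id t).const_mul (-C')).exp
      have h2 := (hder' t ht).mul h1
      have h3 : deriv (fun t => E t * Real.exp (-C' * t)) t = _ := h2.deriv
      rw [h3]
      have h4 := hineq t (Ioo_subset_Icc_self ht)
      have h5 := Real.exp_pos (-C' * t)
      nlinarith
  have hE0 : E 0 = 0 := by
    rw [hE]
    have : ∀ k, ‖V 0 k - W 0 k‖ ^ 2 = 0 := fun k => by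
      rw [h0 k, sub_self, norm_zero]
      ring
    rw [tsum_congr this, tsum_zero]
  have ht₀' : t₀ ∈ Icc 0 T' := ⟨ht₀.1, hT0.le⟩
  have hle := hanti (⟨le_rfl, h0T'.le⟩ : (0:ℝ) ∈ Icc 0 T') ht₀' ht₀.1
  simp only [hE0, zero_mul] at hle
  have hEt : E t₀ ≤ 0 := by
    by_contra hcon
    push Not at hcon
    have := mul_pos hcon (Real.exp_pos (-C' * t₀))
    linarith
  intro k
  have h1 := (hB t₀ ht₀').sq.le_tsum k (fun _ _ => by positivity)
  rw [hE] at hEt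
  have h2 : ‖V t₀ k - W t₀ k‖ ^ 2 = 0 := le_antisymm (h1.trans hEt) (by positivity)
  have h3 : ‖V t₀ k - W t₀ k‖ = 0 := (pow_eq_zero_iff two_ne_zero).1 h2
  exact sub_eq_zero.1 (norm_eq_zero.1 h3)

end

/-- **UNID** -/
theorem t_UNID : S_UNID := by
  intro s δ C T D Q β hS h
  obtain ⟨C₁, hC₁⟩ := hS.growth
  exact ⟨fun V W hV hW h0 => uni hS.nonneg hC₁ h hV hW h0,
    fun V hV t ht => energy hS.nonneg hC₁ h hV ht⟩

end Pool.Agent.K1H54.L2
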