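import Pool.Agent.Y5.S2.Stm

/-!
Navier-Stokes equations with a small conservative bilinear perturbation of lower order:
definitions.
-/

open Set Filter Topology MeasureTheory

set_option autoImplicit false

namespace Pool.Agent.K1H54.LO

open Pool.Agent.Y5 Pool.Agent.Y5.D Pool.Agent.Y5.E

/-! ### The reduced system -/

/-- the feed of the shell `n` -/
noncomputable def fd (c₀ lam : ℝ) (z : ℕ → ℝ → ℝ) : ℕ → ℝ → ℝ
  | 0, _ => 0
  | n + 1, t => c₀ * lam ^ n * z n t ^ 2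

/-- The reduced system: `y n`, `z n` are the amplitudes of the two packets of the shell `n`, and
`E n` is the energy in the shells `≥ n`. -/
structure Red (lam ε c₀ : ℝ) (d : ℕ → ℝ) (T : ℝ) (y z E : ℕ → ℝ → ℝ) : Prop where
  dy : ∀ n, ∀ t ∈ Ico 0 T, ∃ h, |h| ≤ d n * √(E n t) ∧ HasDerivWithinAt (y n)
    (fd c₀ lam z n t - c₀ * lam ^ n * z n t ^ 2 - ε * (c₀ * lam ^ n) * y n t * z n t + h)
    (Ico 0 T) t
  dz : ∀ n, ∀ t ∈ Ico 0 T, ∃ h, |h| ≤ d n * √(E n t) ∧ HasDerivWithinAt (z n)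
    (c₀ * lam ^ n * z n t * (y n t - y (n + 1) t) + ε * (c₀ * lam ^ n) * y n t ^ 2 + h)
    (Ico 0 T) t
  dE : ∀ n, ∀ t ∈ Ico 0 T, ∃ D, HasDerivWithinAt (E n) D (Ico 0 T) t ∧
    D ≤ 2 * fd c₀ lam z n t * y n t
  le : ∀ n, ∀ t ∈ Ico 0 T, y n t ^ 2 + z n t ^ 2 + E (n + 1) t ≤ E n t
  nonneg : ∀ n, ∀ t ∈ Ico 0 T, 0 ≤ E n t
  init_y : y 0 0 = 1
  init_E : E 0 0 = 1
  bdd : ∀ T' < T, ∃ M, ∀ t ∈ Icc 0 T', ∀ n, lam ^ n * √(E n t) ≤ M

/-- Conditions on the parameters. -/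
structure Par (lam ε c₀ : ℝ) (d : ℕ → ℝ) : Prop where
  lam_big : 10 ^ 13 ≤ lam
  eps : ε = Real.exp (-(400 * lam))
  c0 : 0 < c₀
  d0 : ∀ n, 0 ≤ d n
  d_small : ∀ n, d n ≤ Real.exp (-(700 * lam)) * (c₀ * lam ^ n) * (1 - 1 / 10 ^ 5) ^ n

/-- The cascade: at suitable times the mode `y n` is `a ≥ (1 - 10^(-5))^n`, and everything else is
controlled. -/
def Grow (lam T : ℝ) (y E : ℕ → ℝ → ℝ) : Prop :=
  ∀ n, ∃ t ∈ Ico 0 T, ∃ a, (1 - 1 / 10 ^ 5) ^ n ≤ a ∧ y n t = a ∧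
    E n t ≤ (1 + 1 / 10 ^ 10) * a ^ 2 ∧ (∀ i < n, √(E i t) ≤ (11 / 10) ^ (n - i) * a) ∧
    ∀ j : ℕ, √(E (n + 1 + j) t) ≤ Real.exp (-(300 * lam)) * ((2 * lam)⁻¹) ^ j * a

/-! ### The modes -/

/-- Modes in shells, with two types in every shell, `m n` modes of each type in the shell `n`. -/
structure Shl {I : Type} (sh : I → ℕ) (ty : I → Bool) (m : ℕ → ℕ) : Prop where
  fin : ∀ n b, {i | sh i = n ∧ ty i = b}.Finite
  card : ∀ n b, {i | sh i = n ∧ ty i = b}.ncard = m n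
  pos : ∀ n, 0 < m n

/-- the flat unit vector of the shell `n` and the type `b` -/
noncomputable def fv {I : Type} (sh : I → ℕ) (ty : I → Bool) (m : ℕ → ℕ) (b : Bool) (n : ℕ)
    (i : I) : ℝ := if sh i = n ∧ ty i = b then (√(m n : ℝ))⁻¹ else 0

/-- amplitudes -/
noncomputable def am {I : Type} (sh : I → ℕ) (ty : I → Bool) (m : ℕ → ℕ) (b : Bool) (n : ℕ)
    (z : I → ℝ) : ℝ := ∑' i, fv sh ty m b n i * z i

/-- the kernel of the cascade -/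
noncomputable def ker {I : Type} (sh : I → ℕ) (ty : I → Bool) (m : ℕ → ℕ) (lam ε c₀ : ℝ)
    (i a b : I) : ℝ :=
  if ty i = true then (√(m (sh i) : ℝ))⁻¹ * (
    (if sh i = 0 then 0 else c₀ * lam ^ (sh i - 1) *
      (fv sh ty m false (sh i - 1) a * fv sh ty m false (sh i - 1) b))
    - c₀ * lam ^ sh i * (fv sh ty m false (sh i) a * fv sh ty m false (sh i) b)
    - ε * (c₀ * lam ^ sh i) * (fv sh ty m true (sh i) a * fv sh ty m false (sh i) b))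
  else (√(m (sh i) : ℝ))⁻¹ * (
    c₀ * lam ^ sh i * (fv sh ty m false (sh i) a *
      (fv sh ty m true (sh i) b - fv sh ty m true (sh i + 1) b))
    + ε * (c₀ * lam ^ sh i) * (fv sh ty m true (sh i) a * fv sh ty m true (sh i) b))

/-- the energy in the shells `≥ n` -/
noncomputable def En {I : Type} (sh : I → ℕ) (z : I → ℝ) (n : ℕ) : ℝ :=
  ∑' i, if n ≤ sh i then z i ^ 2 else 0

/-! ### The perturbation, in terms of the Fourier coefficients -/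

/-- the projection of `e_3` to the plane orthogonal to `k` -/
noncomputable def pe (k : Z3) : E3 :=
  EuclideanSpace.single 2 1 - ((k 2 : ℝ) / ‖vec k‖ ^ 2) • vec k

/-- the thin set of frequencies -/
def Thin (s N : ℝ) (k : Z3) : Prop := N ≤ ‖vec k‖ ∧ |(k 2 : ℝ)| ≤ ‖vec k‖ ^ s

open Classical in
/-- the projection to the fields with frequencies in the thin set, polarised along `pe k` -/
noncomputable def Pj (s N : ℝ) (V : Fam) : Fam := fun k =>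
  if Thin s N k then ((inner ℝ (V k) (pe k) : ℝ) / ‖pe k‖ ^ 2) • pe k else 0

/-- the first part of the perturbation cancels the nonlinearity on the range of `Pj` -/
noncomputable def b1 (s N : ℝ) (V W Z : Fam) : ℝ :=
  -(bil (Pj s N V) (Pj s N W) Z + bil (Pj s N V) W (Pj s N Z)
    - bil (Pj s N V) (Pj s N W) (Pj s N Z))

/-- the cascade -/
noncomputable def bT (lam ε c₀ : ℝ) (φ χ : ℕ → Fam) (V W Z : Fam) : ℝ :=
  ∑' n : ℕ, c₀ * lam ^ n * (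
    pair V (χ n) * (pair W (φ n) * pair Z (χ n) - pair W (χ n) * pair Z (φ n))
    + pair V (χ n) * (pair W (χ n) * pair Z (φ (n + 1)) - pair W (φ (n + 1)) * pair Z (χ n))
    + ε * (pair V (φ n) * (pair W (φ n) * pair Z (χ n) - pair W (χ n) * pair Z (φ n))))

open Classical in
/-- the flat packet with the frequencies `± A` -/
noncomputable def pk (A : Finset Z3) (m : ℕ) : Fam := fun k =>
  if k ∈ A then ((√(2 * m : ℝ))⁻¹ * ‖pe k‖⁻¹) • pe k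
  else if -k ∈ A then -(((√(2 * m : ℝ))⁻¹ * ‖pe k‖⁻¹) • pe k) else 0

/-- The boxes of frequencies `A n`, `B n` of the packets of the shell `n`. -/
structure Geo (s N₁ δ c₀ lam : ℝ) (N : ℕ → ℝ) (m : ℕ → ℕ) (A B : ℕ → Finset Z3) : Prop where
  thin : ∀ n, ∀ k ∈ A n ∪ B n, Thin s N₁ k
  size : ∀ n, ∀ k ∈ A n ∪ B n, N n ≤ ‖vec k‖ ∧ ‖vec k‖ ≤ 2 * N n
  N1 : ∀ n, 1 ≤ N n
  pos : ∀ n, ∀ k ∈ A n ∪ B n, 0 < k 0
  cardA : ∀ n, (A n).card = m n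
  cardB : ∀ n, (B n).card = m n
  mpos : ∀ n, 0 < m n
  disj : ∀ n n', n ≠ n' → Disjoint (A n ∪ B n) (A n' ∪ B n')
  disj' : ∀ n, Disjoint (A n) (B n)
  coef : ∀ n, c₀ * lam ^ n ≤ δ * (N n) ^ s * √(m n : ℝ)
  lam1 : 1 < lam
  grow : ∃ X : ℝ, ∀ n, N n ≤ X * lam ^ n
  c0 : 0 < c₀

/-! ### Norms -/

noncomputable def A1 (s : ℝ) (V : Fam) : ℝ := ∑' k : Z3, ‖vec k‖ ^ s * ‖V k‖

noncomputable def l2 (V : Fam) : ℝ := √(∑' k : Z3, ‖V k‖ ^ 2)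

noncomputable def h1 (V : Fam) : ℝ := √(∑' k : Z3, ‖vec k‖ ^ 2 * ‖V k‖ ^ 2)

/-- Conservative trilinear forms of order `s` (in terms of the coefficients). -/
structure FPert (s δ C : ℝ) (Q : Z3 → Prop) (β : Fam → Fam → Fam → ℝ) : Prop where
  range : ∀ V W, OT V → Rap V → OT W → Rap W → ∃ G, OT G ∧ Rap G ∧
    ∀ Z, OT Z → Rap Z → β V W Z = pair G Z
  add1 : ∀ V V' W Z, OT V → Rap V → OT V' → Rap V' → OT W → Rap W → OT Z → Rap Z →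
    β (fun k => V k + V' k) W Z = β V W Z + β V' W Z
  smul1 : ∀ (a : ℝ) (V W Z : Fam), OT V → Rap V → OT W → Rap W → OT Z → Rap Z →
    β (fun k => a • V k) W Z = a * β V W Z
  skew : ∀ V W Z, OT V → Rap V → OT W → Rap W → OT Z → Rap Z → β V W Z = -β V Z W
  small : ∀ V W Z, OT V → Rap V → OT W → Rap W → OT Z → Rap Z →
    |β V W Z| ≤ δ * (A1 s V * l2 W + A1 (s - 1) V * h1 W) * l2 Z
  low : ∀ V W Z, OT V → Rap V → OT W → Rap W → OT Z → Rap Z →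
    |β V W Z| ≤ C * l2 V * A1 1 W * l2 Z
  thin1 : ∀ V W Z, OT V → Rap V → OT W → Rap W → OT Z → Rap Z → (∀ k, Q k → V k = 0) →
    β V W Z = 0
  thin2 : ∀ V W Z, OT V → Rap V → OT W → Rap W → OT Z → Rap Z → (∀ k, Q k → W k = 0) →
    (∀ k, Q k → Z k = 0) → β V W Z = 0

/-- `∫ ∇v : ∇w` in terms of the coefficients -/
noncomputable def lpn (V W : Fam) : ℝ :=
  (2 * Real.pi) ^ 2 * ∑' k : Z3, ‖vec k‖ ^ 2 * inner ℝ (V k) (W k)

/-- Smooth solutions in terms of the coefficients. -/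
structure FSolL (ν : ℝ) (β : Fam → Fam → Fam → ℝ) (T : ℝ) (V : ℝ → Fam) : Prop where
  ot : ∀ t ∈ Ico 0 T, OT (V t)
  rap : ∀ m : ℕ, ∀ T' < T, ∃ M, ∀ t ∈ Icc 0 T', ∀ k, ‖vec k‖ ^ m * ‖V t k‖ ≤ M
  eqn : ∀ Z, OT Z → {k | Z k ≠ 0}.Finite → ∀ t ∈ Ico 0 T,
    HasDerivWithinAt (fun τ => pair (V τ) Z)
      (-(ν * lpn (V t) Z) + bil (V t) (V t) Z + β (V t) (V t) Z) (Ico 0 T) t

/-! ### Fields -/

/-- `∑ |k|^s |v̂ k|` -/
noncomputable def wie (s : ℝ) (v : E3 → E3) : ℝ := ∑' k : Z3, ‖vec k‖ ^ s * ‖cf v k‖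

/-- `β v w z = ∫ B'(v, w) · z` for a bilinear operator `B'` on the smooth odd periodic
divergence-free fields; `B'` conserves the energy, it is small and of order `s`; and it acts
only on the frequencies in `Q`. -/
structure Pert (s δ : ℝ) (Q : Z3 → Prop) (β : (E3 → E3) → (E3 → E3) → (E3 → E3) → ℝ) : Prop where
  range : ∀ v w, PF v → PF w → ∃ g, PF g ∧ ∀ z, PF z → β v w z = ip g z
  add1 : ∀ v v' w z, PF v → PF v' → PF w → PF z → β (v + v') w z = β v w z + β v' w z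
  smul1 : ∀ (a : ℝ) (v w z : E3 → E3), PF v → PF w → PF z → β (a • v) w z = a * β v w z
  add2 : ∀ v w w' z, PF v → PF w → PF w' → PF z → β v (w + w') z = β v w z + β v w' z
  smul2 : ∀ (a : ℝ) (v w z : E3 → E3), PF v → PF w → PF z → β v (a • w) z = a * β v w z
  skew : ∀ v w z, PF v → PF w → PF z → β v w z = -β v z w
  small : ∀ v w z, PF v → PF w → PF z →
    |β v w z| ≤ δ * (wie s v * √(ip w w) + wie (s - 1) v * √(dir w)) * √(ip z z)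
  low : ∃ C, ∀ v w z, PF v → PF w → PF z → |β v w z| ≤ C * √(ip v v) * wie 1 w * √(ip z z)
  thin : ∀ v w z, PF v → PF w → PF z → ((∀ k, Q k → cf v k = 0) ∨
    ((∀ k, Q k → cf w k = 0) ∧ ∀ k, Q k → cf z k = 0)) → β v w z = 0

open Pool.Agent.Y6.N in
/-- Smooth solutions on `[0, T)` of `∂ₜ u + (u · ∇) u + ∇p = ν Δ u + B'(u, u)`, `div u = 0`
(tested with the trigonometric polynomials; the Fourier coefficients decrease rapidly, locally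
uniformly in time, i.e. all derivatives in space are bounded on `[0, T']` for `T' < T`). -/
structure SolL (ν : ℝ) (β : (E3 → E3) → (E3 → E3) → (E3 → E3) → ℝ) (T : ℝ)
    (u : ℝ → E3 → E3) : Prop where
  reg : ∃ V : ℝ → Fam, (∀ t ∈ Ico 0 T, OT (V t) ∧ u t = fieldOf (V t)) ∧
    ∀ m : ℕ, ∀ T' < T, ∃ M, ∀ t ∈ Icc 0 T', ∀ k, ‖vec k‖ ^ m * ‖V t k‖ ≤ M
  eqn : ∀ z, TP z → ∀ t ∈ Ico 0 T, HasDerivWithinAt (fun τ => ip (u τ) z)
    (-(ν * dirb (u t) z) - cnv (u t) z + β (u t) (u t) z) (Ico 0 T) t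

/-! ### Statements of the steps -/

/-- Blow-up for the reduced system. -/
def S_ODE : Prop := ∀ (lam ε c₀ : ℝ) (d : ℕ → ℝ), Par lam ε c₀ d →
  ∃ T₁ : ℝ, ∀ (T : ℝ) (y z E : ℕ → ℝ → ℝ), 0 < T → Red lam ε c₀ d T y z E →
    T ≤ T₁ ∧ (Grow lam T y E ∨
      ∃ (n₀ : ℕ) (K₀ : ℝ), ∃ s ∈ Ico 0 T, ∀ t ∈ Ico s T, ∀ j : ℕ,
        √(E (n₀ + j) t) ≤ K₀ * ((2 * lam)⁻¹) ^ j)

/-- The kernel satisfies the hypotheses of `S_ABS2`. -/
def S_ADM : Prop := ∀ (I : Type) (sh : I → ℕ) (ty : I → Bool) (m : ℕ → ℕ) (di : I → ℝ)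
  (lam ε c₀ : ℝ), Shl sh ty m → (∀ i, 0 ≤ di i) → 1 < lam → 0 < c₀ → 0 ≤ ε → ε ≤ 1 →
  Adm di (fun i => lam ^ sh i) (ker sh ty m lam ε c₀)

/-- The reduced system of the modes, and the energy identity. -/
def S_RED : Prop := ∀ (I : Type) (sh : I → ℕ) (ty : I → Bool) (m : ℕ → ℕ) (di : I → ℝ)
  (d : ℕ → ℝ) (lam ε c₀ : ℝ), Shl sh ty m → (∀ i, 0 ≤ di i ∧ di i ≤ d (sh i)) → 1 < lam →
  0 < c₀ → 0 ≤ ε → ε ≤ 1 → (∀ n, d n ≤ c₀ * lam ^ n) → ∀ (T : ℝ) (z : I → ℝ → ℝ), 0 < T →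
    ASol2 di (fun i => lam ^ sh i) (ker sh ty m lam ε c₀) T z →
    Rapid (fun i => lam ^ sh i) T z → (∀ i, z i 0 = fv sh ty m true 0 i) →
    Red lam ε c₀ d T (fun n t => am sh ty m true n (fun i => z i t))
      (fun n t => am sh ty m false n (fun i => z i t)) (fun n t => En sh (fun i => z i t) n)

/-- Blow-up for the modes. -/
def S_MOD : Prop := ∀ (I : Type) (sh : I → ℕ) (ty : I → Bool) (m : ℕ → ℕ) (di : I → ℝ)
  (d : ℕ → ℝ) (lam ε c₀ : ℝ), Shl sh ty m → (∀ i, 0 ≤ di i ∧ di i ≤ d (sh i)) →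
  Par lam ε c₀ d → ∃ (T : ℝ) (z : I → ℝ → ℝ), 0 < T ∧
    ASol2 di (fun i => lam ^ sh i) (ker sh ty m lam ε c₀) T z ∧
    Rapid (fun i => lam ^ sh i) T z ∧ (∀ i, z i 0 = fv sh ty m true 0 i) ∧
    Grow lam T (fun n t => am sh ty m true n (fun i => z i t))
      (fun n t => En sh (fun i => z i t) n)

/-- The bounds of the perturbation. -/
def S_OP : Prop := ∀ (s₀ s δ : ℝ), 0 < s₀ → s₀ < s → s < 1 → 0 < δ → ∃ (N₀ δ₀ : ℝ), 0 < δ₀ ∧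
  ∀ (N₁ lam ε c₀ : ℝ) (N : ℕ → ℝ) (m : ℕ → ℕ) (A B : ℕ → Finset Z3), N₀ ≤ N₁ → 0 ≤ ε → ε ≤ 1 →
    Geo s₀ N₁ δ₀ c₀ lam N m A B →
    ∃ C, FPert s δ C (Thin s₀ N₁) (fun V W Z => b1 s₀ N₁ V W Z +
      bT lam ε c₀ (fun n => pk (A n) (m n)) (fun n => pk (B n) (m n)) V W Z)

/-- Uniqueness, and the energy identity. -/
def S_UNIL : Prop := ∀ (s δ C ν T : ℝ) (Q : Z3 → Prop) (β : Fam → Fam → Fam → ℝ), 0 ≤ ν →
  FPert s δ C Q β →
    (∀ V W : ℝ → Fam, FSolL ν β T V → FSolL ν β T W → (∀ k, V 0 k = W 0 k) →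
      ∀ t ∈ Ico 0 T, ∀ k, V t k = W t k) ∧
    ∀ V : ℝ → Fam, FSolL ν β T V → ∀ t ∈ Ico 0 T,
      HasDerivWithinAt (fun τ => pair (V τ) (V τ)) (-(2 * (ν * lpn (V t) (V t)))) (Ico 0 T) t

open Pool.Agent.Y6.N in
/-- The main theorem. -/
def S_MAINL : Prop := ∀ ν δ s N₁ : ℝ, 0 < ν → 0 < δ → 2 / 3 < s → s < 1 →
  ∃ (β : (E3 → E3) → (E3 → E3) → (E3 → E3) → ℝ) (T : ℝ) (u : ℝ → E3 → E3),
    Pert s δ (Thin s N₁) β ∧ 0 < T ∧ SolL ν β T u ∧ TP (u 0) ∧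
    -- uniqueness, and `T` is the maximal time of existence
    (∀ (T' : ℝ) (v : ℝ → E3 → E3), 0 < T' → SolL ν β T' v → v 0 = u 0 →
      T' ≤ T ∧ ∀ t ∈ Ico 0 T', v t = u t) ∧
    -- the energy identity of the Navier-Stokes equations
    (∀ t ∈ Ico 0 T, HasDerivWithinAt (fun τ => ip (u τ) (u τ)) (-(2 * (ν * dir (u t))))
      (Ico 0 T) t) ∧
    -- blow-up of the velocity
    ∀ M : ℝ, ∃ t ∈ Ico 0 T, ∃ y, M < ‖u t y‖

end Pool.Agent.K1H54.LO
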