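import Pool.Agent.K1H54.LO.Defs

/-!
Navier-Stokes equations with a small conservative bilinear perturbation of lower order:
further definitions and statements (modes, geometry, fields, main theorem).
-/

open Set Filter Topology MeasureTheory

set_option autoImplicit false

namespace Pool.Agent.K1H54.LO

open Pool.Agent.Y5 Pool.Agent.Y5.D Pool.Agent.Y5.E

/-! ### Blow-up for the modes, with a free amplitude `a₀` of the datum -/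

/-- Blow-up for the reduced system, with an explicit bound for the time. -/
def S_ODET : Prop := ∀ (lam ε c₀ : ℝ) (d : ℕ → ℝ), Par lam ε c₀ d →
  ∀ (T : ℝ) (y z E : ℕ → ℝ → ℝ), 0 < T → Red lam ε c₀ d T y z E →
    T ≤ 1040 * lam / c₀ ∧ (Grow lam T y E ∨
      ∃ (n₀ : ℕ) (K₀ : ℝ), ∃ s ∈ Ico 0 T, ∀ t ∈ Ico s T, ∀ j : ℕ,
        √(E (n₀ + j) t) ≤ K₀ * ((2 * lam)⁻¹) ^ j)

/-- Blow-up for the modes. -/
def S_MOD2 : Prop := ∀ (I : Type) (sh : I → ℕ) (ty : I → Bool) (m : ℕ → ℕ) (di : I → ℝ)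
  (d : ℕ → ℝ) (lam ε c₀ a₀ : ℝ), Shl sh ty m → (∀ i, 0 ≤ di i ∧ di i ≤ d (sh i)) →
  Par lam ε (c₀ * a₀) d → 0 < c₀ → 0 < a₀ → ∃ (T : ℝ) (z : I → ℝ → ℝ), 0 < T ∧
    T ≤ 1040 * lam / (c₀ * a₀) ∧
    ASol2 di (fun i => lam ^ sh i) (ker sh ty m lam ε c₀) T z ∧
    Rapid (fun i => lam ^ sh i) T z ∧ (∀ i, z i 0 = a₀ * fv sh ty m true 0 i) ∧
    Grow lam T (fun n t => am sh ty m true n (fun i => z i t) / a₀)
      (fun n t => En sh (fun i => z i t) n / a₀ ^ 2)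

/-! ### The concrete modes -/

/-- index set of the modes -/
abbrev IM (A B : ℕ → Finset Z3) : Type := Σ n : ℕ, {k : Z3 // k ∈ A n ∪ B n}

/-- the shell of a mode -/
def shM {A B : ℕ → Finset Z3} (i : IM A B) : ℕ := i.1

/-- the type of a mode -/
def tyM {A B : ℕ → Finset Z3} (i : IM A B) : Bool := decide (i.2.1 ∈ A i.1)

/-- the frequency of a mode -/
def kM {A B : ℕ → Finset Z3} (i : IM A B) : Z3 := i.2.1

/-- the field of a mode -/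
noncomputable def eM {A B : ℕ → Finset Z3} (i : IM A B) : Fam := fun k =>
  if k = kM i then ((√2)⁻¹ * ‖pe k‖⁻¹) • pe k
  else if k = -kM i then -(((√2)⁻¹ * ‖pe k‖⁻¹) • pe k) else 0

/-- the family with the amplitudes `z` -/
noncomputable def VM {A B : ℕ → Finset Z3} (z : IM A B → ℝ) : Fam := fun k => ∑' i, z i • eM i k

/-- the perturbation -/
noncomputable def bP (s N lam ε c₀ : ℝ) (m : ℕ → ℕ) (A B : ℕ → Finset Z3) (V W Z : Fam) : ℝ :=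
  b1 s N V W Z + bT lam ε c₀ (fun n => pk (A n) (m n)) (fun n => pk (B n) (m n)) V W Z

/-- Further properties of the boxes. -/
structure GeoX (lam : ℝ) (m : ℕ → ℕ) (A : ℕ → Finset Z3) : Prop where
  mlo : ∀ n, 100 * √(m n : ℝ) ≤ √(m (n + 1) : ℝ)
  mup : ∀ n, √(m (n + 1) : ℝ) ≤ lam * √(m n : ℝ)
  pt : ∀ n, ∃ y : E3, ∀ k ∈ A n, 9 / 10 ≤ Real.sin (2 * Real.pi * inner ℝ (vec k) y)
  pe2 : ∀ n, ∀ k ∈ A n, 1 / 2 ≤ ‖pe k‖

/-- Choice of the boxes and the parameters. -/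
def S_GEO : Prop := ∀ (ν η s₀ s₁ δ₀ N₁ : ℝ), 0 < ν → 0 < η → 0 < δ₀ → 2 / 3 < s₀ → s₀ < 1 →
  s₁ < 3 / 2 * s₀ - 1 → ∃ (lam c₀ a₀ : ℝ) (N : ℕ → ℝ) (m : ℕ → ℕ) (A B : ℕ → Finset Z3),
    10 ^ 13 ≤ lam ∧ 0 < a₀ ∧ Geo s₀ N₁ δ₀ c₀ lam N m A B ∧ GeoX lam m A ∧
    (∀ n, ν * (2 * Real.pi * (2 * N n)) ^ 2 ≤
      Real.exp (-(700 * lam)) * (c₀ * a₀ * lam ^ n) * (1 - 1 / 10 ^ 5) ^ n) ∧
    (∀ k ∈ A 0, a₀ ^ 2 * (2 * Real.pi * ‖vec k‖) ^ (2 * s₁) ≤ η) ∧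
    1040 * lam / (c₀ * a₀) ≤ η

/-- From the modes to the Fourier coefficients. -/
def S_EX : Prop := ∀ (s₀ N₁ δ₀ c₀ lam ε ν : ℝ) (N : ℕ → ℝ) (m : ℕ → ℕ) (A B : ℕ → Finset Z3),
  0 < s₀ → s₀ < 1 → 2 ≤ N₁ → 0 < δ₀ → 0 ≤ ε → ε ≤ 1 → Geo s₀ N₁ δ₀ c₀ lam N m A B →
  Shl (shM (A := A) (B := B)) tyM m ∧
  (∀ z : IM A B → ℝ, ({i | z i ≠ 0}).Finite → {k | VM z k ≠ 0}.Finite ∧ OT (VM z)) ∧
  ∀ (T : ℝ) (z : IM A B → ℝ → ℝ), 0 < T →
    ASol2 (fun i => ν * (2 * Real.pi * ‖vec (kM i)‖) ^ 2) (fun i => lam ^ shM i)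
      (ker shM tyM m lam ε c₀) T z →
    Rapid (fun i => lam ^ shM i) T z →
    FSolL ν (bP s₀ N₁ lam ε c₀ m A B) T (fun t => VM (fun i => z i t))

/-- The velocity is large at the times of `Grow`. -/
def S_VEL : Prop := ∀ (s₀ N₁ δ₀ c₀ lam : ℝ) (N : ℕ → ℝ) (m : ℕ → ℕ) (A B : ℕ → Finset Z3),
  0 < s₀ → s₀ < 1 → Geo s₀ N₁ δ₀ c₀ lam N m A B → GeoX lam m A → 10 ^ 13 ≤ lam →
  ∀ (z : IM A B → ℝ) (n : ℕ) (a : ℝ), (∀ k : ℕ, Sk (fun i => lam ^ shM i) k z) → 0 < a →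
    am shM tyM m true n z = a → En shM z n ≤ (1 + 1 / 10 ^ 10) * a ^ 2 →
    (∀ i < n, √(En shM z i) ≤ (11 / 10) ^ (n - i) * a) →
    (∀ j : ℕ, √(En shM z (n + 1 + j)) ≤ Real.exp (-(300 * lam)) * ((2 * lam)⁻¹) ^ j * a) →
    ∃ y : E3, √(m n : ℝ) * a / 2 ≤ ‖fieldOf (VM z) y‖

/-! ### Fields -/

/-- `B` is a bilinear operator on the smooth odd periodic divergence-free fields, which conserves
the energy (`∫ B(v, w) · w = 0`), is small and of order `s`,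
`‖B(v, w)‖ ≤ δ (∑ |k|^s |v̂ k| ‖w‖ + ∑ |k|^(s-1) |v̂ k| ‖∇ w‖)` (`‖·‖` is the norm of `L²`), and
acts only on the frequencies in `Q` (at least two of the frequencies of `v`, `w`, `B(v, w)` are in
`Q`, including the one of `v`). -/
structure LOp (s δ : ℝ) (Q : Z3 → Prop) (B : (E3 → E3) → (E3 → E3) → E3 → E3) : Prop where
  field : ∀ v w, PF v → PF w → PF (B v w)
  add1 : ∀ v v' w, PF v → PF v' → PF w → B (v + v') w = B v w + B v' w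
  smul1 : ∀ (a : ℝ) (v w : E3 → E3), PF v → PF w → B (a • v) w = a • B v w
  add2 : ∀ v w w', PF v → PF w → PF w' → B v (w + w') = B v w + B v w'
  smul2 : ∀ (a : ℝ) (v w : E3 → E3), PF v → PF w → B v (a • w) = a • B v w
  energy : ∀ v w, PF v → PF w → ip (B v w) w = 0
  small : ∀ v w, PF v → PF w →
    √(ip (B v w) (B v w)) ≤ δ * (wie s v * √(ip w w) + wie (s - 1) v * √(dir w))
  low : ∃ C, ∀ v w, PF v → PF w → √(ip (B v w) (B v w)) ≤ C * (√(ip v v) * wie 1 w)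
  thin1 : ∀ v w, PF v → PF w → (∀ k, Q k → cf v k = 0) → B v w = 0
  thin2 : ∀ v w, PF v → PF w → (∀ k, Q k → cf w k = 0) → ∀ k, ¬ Q k → cf (B v w) k = 0

open Pool.Agent.Y6.N in
/-- Smooth solutions on `[0, T)` of `∂ₜ u + (u · ∇) u + ∇p = ν Δ u + B(u, u)`, `div u = 0`
(tested with the trigonometric polynomials; the Fourier coefficients decrease rapidly, locally
uniformly in time, i.e. all derivatives in space are bounded on `[0, T']` for `T' < T`). -/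
structure SolB (ν : ℝ) (B : (E3 → E3) → (E3 → E3) → E3 → E3) (T : ℝ)
    (u : ℝ → E3 → E3) : Prop where
  reg : ∃ V : ℝ → Fam, (∀ t ∈ Ico 0 T, OT (V t) ∧ u t = fieldOf (V t)) ∧
    ∀ m : ℕ, ∀ T' < T, ∃ M, ∀ t ∈ Icc 0 T', ∀ k, ‖vec k‖ ^ m * ‖V t k‖ ≤ M
  eqn : ∀ z, TP z → ∀ t ∈ Ico 0 T, HasDerivWithinAt (fun τ => ip (u τ) z)
    (-(ν * dirb (u t) z) - cnv (u t) z + ip (B (u t) (u t)) z) (Ico 0 T) t

/-- The operator of a trilinear form. -/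
def S_LOP : Prop := ∀ (s δ C : ℝ) (Q : Z3 → Prop) (β : Fam → Fam → Fam → ℝ), 0 ≤ δ →
  (∀ k, Q k → Q (-k)) → FPert s δ C Q β → ∃ B : (E3 → E3) → (E3 → E3) → E3 → E3, LOp s δ Q B ∧
    ∀ V W Z, OT V → Rap V → OT W → Rap W → OT Z → Rap Z →
      ip (B (fieldOf V) (fieldOf W)) (fieldOf Z) = β V W Z

/-- Solutions in terms of the coefficients. -/
def S_SOLF : Prop := ∀ (ν T : ℝ) (β : Fam → Fam → Fam → ℝ)
  (B : (E3 → E3) → (E3 → E3) → E3 → E3),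
  (∀ V W Z, OT V → Rap V → OT W → Rap W → OT Z → Rap Z →
    ip (B (fieldOf V) (fieldOf W)) (fieldOf Z) = β V W Z) →
  (∀ V : ℝ → Fam, FSolL ν β T V → SolB ν B T (fun t => fieldOf (V t))) ∧
  ∀ u : ℝ → E3 → E3, SolB ν B T u → ∃ V : ℝ → Fam, FSolL ν β T V ∧
    ∀ t ∈ Ico 0 T, u t = fieldOf (V t)

/-- The main theorem: for all `ν, δ, η > 0`, all `s > 2/3` and all `s₁ < 3 s / 2 - 1` there is a
conservative bilinear operator `B` of order `s` with `‖B‖ ≤ δ`, acting only on the frequencies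
`|k| ≥ N₁`, `|k₃| ≤ |k|^s`, such that the Navier-Stokes equations with the additional term
`B(u, u)` have a smooth solution which blows up before the time `η`, for a trigonometric
polynomial as datum, with norm at most `η` in `H^(s₁)`. -/
def S_MAINO : Prop := ∀ ν δ η s s₁ N₁ : ℝ, 0 < ν → 0 < δ → 0 < η → 2 / 3 < s → s < 1 →
  s₁ < 3 / 2 * s - 1 → ∃ (B : (E3 → E3) → (E3 → E3) → E3 → E3) (T : ℝ) (u : ℝ → E3 → E3),
    LOp s δ (Thin s N₁) B ∧ 0 < T ∧ T ≤ η ∧ SolB ν B T u ∧ TP (u 0) ∧ sob s₁ (u 0) ≤ η ∧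
    -- uniqueness, and `T` is the maximal time of existence
    (∀ (T' : ℝ) (v : ℝ → E3 → E3), 0 < T' → SolB ν B T' v → v 0 = u 0 →
      T' ≤ T ∧ ∀ t ∈ Ico 0 T', v t = u t) ∧
    -- the energy identity of the Navier-Stokes equations
    (∀ t ∈ Ico 0 T, HasDerivWithinAt (fun τ => ip (u τ) (u τ)) (-(2 * (ν * dir (u t))))
      (Ico 0 T) t) ∧
    -- blow-up of the velocity
    ∀ M : ℝ, ∃ t ∈ Ico 0 T, ∃ y, M < ‖u t y‖

end Pool.Agent.K1H54.LO
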