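import Pool.Agent.K1H54.LO.Defs3
import Pool.Agent.K1H30.OP.Casc

/-!
Systems of modes: the packets with signs.
-/

open Set Filter Topology MeasureTheory

set_option autoImplicit false

namespace Pool.Agent.K1H54.L2

open Pool.Agent.Y5 Pool.Agent.Y5.D Pool.Agent.Y5.E Pool.Agent.K1H54.LO
open Pool.Agent.K1H30.OP (SS mem_SS ss_disj inner_pe_self)
open Pool.Agent.Y248.ND (vec_neg)

/-- conditions on one packet -/
structure GP (G : Finset Z3) (K : ℕ) (e : Z3 → ℝ) : Prop where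
  card : G.card = K
  kpos : 0 < K
  pos : ∀ k ∈ G, 0 < k 0
  pe : ∀ k ∈ G, 1 / 2 ≤ ‖LO.pe k‖
  sgn : ∀ k, e k = 1 ∨ e k = -1

variable {G : Finset Z3} {K : ℕ} {e : Z3 → ℝ}

lemma not_both (h : GP G K e) {k : Z3} (h1 : k ∈ G) (h2 : -k ∈ G) : False := by
  have e1 := h.pos k h1
  have e2 := h.pos (-k) h2
  simp only [Pi.neg_apply] at e2
  omega

lemma sgp_mem {k : Z3} (h1 : k ∈ G) :
    sgp G e k = ((√(2 * G.card : ℝ))⁻¹ * ‖pe k‖⁻¹ * e k) • pe k := by
  unfold sgp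
  rw [if_pos h1]

lemma sgp_mem' (h : GP G K e) {k : Z3} (h1 : -k ∈ G) :
    sgp G e k = -(((√(2 * G.card : ℝ))⁻¹ * ‖pe k‖⁻¹ * e (-k)) • pe k) := by
  unfold sgp
  rw [if_neg fun h2 => not_both h h2 h1, if_pos h1]

lemma sgp_not {k : Z3} (h1 : k ∉ SS G) : sgp G e k = 0 := by
  rw [mem_SS, not_or] at h1
  unfold sgp
  rw [if_neg h1.1, if_neg h1.2]

lemma pe_neg2 (k : Z3) : pe (-k) = pe k := Pool.Agent.K1H30.OP.pe_neg k

lemma sgp_odd (h : GP G K e) (k : Z3) : sgp G e (-k) = -sgp G e k := by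
  by_cases h1 : k ∈ G
  · rw [sgp_mem h1, sgp_mem' h (k := -k) (by rwa [neg_neg]), pe_neg2, neg_neg]
  · by_cases h2 : -k ∈ G
    · rw [sgp_mem h2, sgp_mem' h h2, pe_neg2, neg_neg]
    · rw [sgp_not (k := k) (by rw [mem_SS]; tauto), sgp_not (by rw [mem_SS, neg_neg]; tauto),
        neg_zero]

lemma vec_pos {k : Z3} (h : k 0 ≠ 0) : 0 < ‖vec k‖ := by
  rw [norm_pos_iff]
  intro h1
  apply h
  have h2 : vec k 0 = 0 := by rw [h1]; rfl
  have h3 : ((k 0 : ℤ) : ℝ) = 0 := h2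
  exact_mod_cast h3

lemma SS_pos (h : GP G K e) {k : Z3} (hk : k ∈ SS G) : 0 < ‖vec k‖ := by
  apply vec_pos
  rcases mem_SS.1 hk with h1 | h1
  · have := h.pos k h1
    omega
  · have := h.pos _ h1
    simp only [Pi.neg_apply] at this
    omega

lemma sgp_tan (h : GP G K e) (k : Z3) : (inner ℝ (vec k) (sgp G e k) : ℝ) = 0 := by
  by_cases h1 : k ∈ SS G
  · have h4 : (inner ℝ (vec k) (pe k) : ℝ) = 0 := by
      rw [real_inner_comm]
      exact inner_pe_self k (SS_pos h h1)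
    rcases mem_SS.1 h1 with h3 | h3
    · rw [sgp_mem h3, real_inner_smul_right, h4, mul_zero]
    · rw [sgp_mem' h h3, inner_neg_right, real_inner_smul_right, h4, mul_zero, neg_zero]
  · rw [sgp_not h1, inner_zero_right]

lemma sgp_ot (h : GP G K e) : OT (sgp G e) := ⟨sgp_odd h, sgp_tan h⟩

lemma card_SS2 (h : GP G K e) : (SS G).card = 2 * K := by
  unfold SS
  rw [Finset.card_union_of_disjoint, Finset.card_image_of_injective _ neg_injective, h.card]
  · ring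
  · rw [Finset.disjoint_left]
    intro k h1 h2
    obtain ⟨a, ha, rfl⟩ := Finset.mem_image.1 h2
    exact not_both h h1 (by rwa [neg_neg])

lemma sgp_flat (h : GP G K e) {k : Z3} (hk : k ∈ SS G) :
    ‖sgp G e k‖ ^ 2 * ((SS G).card : ℝ) = 1 := by
  have hK : (0 : ℝ) < K := by exact_mod_cast h.kpos
  have key : ∀ l : Z3, l ∈ G → pe k = pe l →
      ‖((√(2 * G.card : ℝ))⁻¹ * ‖pe k‖⁻¹ * e l) • pe k‖ = (√(2 * G.card : ℝ))⁻¹ := by
    intro l hl hpl
    have h1 : 0 < ‖pe k‖ := by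
      rw [hpl]
      linarith [h.pe l hl]
    have h2 : ‖e l‖ = 1 := by
      rcases h.sgn l with h3 | h3 <;> rw [h3] <;> simp
    rw [norm_smul, norm_mul, norm_mul, norm_inv, norm_inv, norm_norm, h2,
      Real.norm_of_nonneg (Real.sqrt_nonneg _)]
    field_simp
  have h1 : ‖sgp G e k‖ = (√(2 * G.card : ℝ))⁻¹ := by
    rcases mem_SS.1 hk with h3 | h3
    · rw [sgp_mem h3]
      exact key k h3 rfl
    · rw [sgp_mem' h h3, norm_neg]
      exact key (-k) h3 (pe_neg2 k).symm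
  rw [h1, card_SS2 h, h.card, inv_pow, Real.sq_sqrt (by positivity)]
  push_cast
  field_simp

end Pool.Agent.K1H54.L2
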