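import Pool.Agent.K1H54.LO.GeoP
import Mathlib.Analysis.SpecialFunctions.Pow.Asymptotics

/-!
Systems of modes: choice of the parameters.
-/

open Set Filter Topology MeasureTheory

set_option autoImplicit false

namespace Pool.Agent.K1H54.L2

open Pool.Agent.Y5 Pool.Agent.Y5.D Pool.Agent.Y5.E Pool.Agent.K1H54.LO
open Pool.Agent.K1H30.OP (SS mem_SS ss_disj)
open Pool.Agent.Y248.ND (vec_neg)

lemma ex_K0 {X₀ δ s : ℝ} (hX : 0 < X₀) (hδ : 0 < δ) (hs : 1 / 2 < s) :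
    ∃ x₀ : ℝ, 1 ≤ x₀ ∧ ∀ x : ℝ, x₀ ≤ x →
      X₀ * Real.log (2048 * x) ≤ δ * (2048 * x) ^ (s - 1) * √(2 * x) := by
  have h1 := isLittleO_log_rpow_atTop (r := s - 1 / 2) (by linarith)
  have h2 := h1.bound (show 0 < δ / (32 * X₀) by positivity)
  obtain ⟨y₀, hy₀⟩ := (h2.and (eventually_ge_atTop 2048)).exists_forall_of_atTop
  refine ⟨max y₀ 1, le_max_right _ _, fun x hx => ?_⟩
  have hx1 : 1 ≤ x := (le_max_right _ _).trans hx
  have hx2 : y₀ ≤ 2048 * x := ((le_max_left _ _).trans hx).trans (by linarith)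
  obtain ⟨h3, -⟩ := hy₀ _ hx2
  have hpos : 0 < 2048 * x := by positivity
  rw [Real.norm_eq_abs, Real.norm_eq_abs, abs_of_pos (Real.rpow_pos_of_pos hpos _)] at h3
  have h4 : Real.log (2048 * x) ≤ δ / (32 * X₀) * (2048 * x) ^ (s - 1 / 2) :=
    (le_abs_self _).trans h3
  have h5 : √(2 * x) = (2048 * x) ^ (1 / 2 : ℝ) / 32 := by
    rw [← Real.sqrt_eq_rpow, show 2 * x = 2048 * x / 32 ^ 2 by ring,
      Real.sqrt_div' _ (by positivity), Real.sqrt_sq (by norm_num)]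
  have h6 : (2048 * x) ^ (s - 1) * (2048 * x) ^ (1 / 2 : ℝ) = (2048 * x) ^ (s - 1 / 2) := by
    rw [← Real.rpow_add hpos]
    congr 1
    ring
  calc X₀ * Real.log (2048 * x) ≤ X₀ * (δ / (32 * X₀) * (2048 * x) ^ (s - 1 / 2)) := by gcongr
    _ = δ * ((2048 * x) ^ (s - 1 / 2) / 32) := by field_simp
    _ = _ := by rw [← h6, h5]; ring

lemma ex_L {s α : ℝ} (hα' : 2 * α < s + 3 / 2) : ∃ L : ℕ, 10 ^ 7 ≤ L ∧
    (L : ℝ) ^ (2 * α) ≤ (L : ℝ) ^ (s + 3 / 2) * (1 - 1 / 10 ^ 5) := by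
  have h1 : Tendsto (fun L : ℕ => (L : ℝ) ^ (s + 3 / 2 - 2 * α)) atTop atTop :=
    (tendsto_rpow_atTop (by linarith)).comp tendsto_natCast_atTop_atTop
  obtain ⟨L, h2, h3⟩ := ((h1.eventually_ge_atTop 2).and (eventually_ge_atTop (10 ^ 7))).exists
  refine ⟨L, h3, ?_⟩
  have hL : (0 : ℝ) < L := by
    have : 0 < L := by omega
    exact_mod_cast this
  have h4 : (L : ℝ) ^ (s + 3 / 2) = (L : ℝ) ^ (2 * α) * (L : ℝ) ^ (s + 3 / 2 - 2 * α) := by
    rw [← Real.rpow_add hL]; congr 1; ring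
  have h5 : 0 < (L : ℝ) ^ (2 * α) := Real.rpow_pos_of_pos hL _
  rw [h4]
  calc (L : ℝ) ^ (2 * α) = (L : ℝ) ^ (2 * α) * 1 := (mul_one _).symm
    _ ≤ (L : ℝ) ^ (2 * α) * ((L : ℝ) ^ (s + 3 / 2 - 2 * α) * (1 - 1 / 10 ^ 5)) := by
        refine mul_le_mul_of_nonneg_left ?_ h5.le
        norm_num
        linarith
    _ = _ := by ring

/-- Choice of the first shell and of the amplitude of the datum. -/
lemma ex_par {s α δ lam : ℝ} (hα : 0 ≤ α) (hα' : 2 * α < s + 3 / 2) (hδ : 0 < δ)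
    {K : ℕ → ℕ} (hK : Tendsto (fun n => (K n : ℝ)) atTop atTop)
    {ν η s₁ : ℝ} (hν : 0 ≤ ν) (hη : 0 < η) (hs₁ : s₁ < s + 3 / 2 - 2 * α) :
    ∃ (n₀ : ℕ) (a₀ : ℝ), 0 < a₀ ∧
      ν * (4096 * Real.pi * K n₀) ^ (2 * α) ≤
        Real.exp (-(700 * lam)) * (δ * (K n₀ : ℝ) ^ (s + 3 / 2) * a₀) ∧
      (∀ r : ℝ, 1 ≤ r → r ≤ 4096 * Real.pi * K n₀ → a₀ ^ 2 * r ^ (2 * s₁) ≤ η) ∧
      1040 * lam / (δ * (K n₀ : ℝ) ^ (s + 3 / 2) * a₀) ≤ η := by
  set t : ℝ := max s₁ 0 with ht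
  obtain ⟨b, hb1, hb2⟩ : ∃ b, t < b ∧ b < s + 3 / 2 - 2 * α :=
    exists_between (max_lt hs₁ (by linarith))
  have hpi := Real.pi_gt_three
  have ht0 : 0 ≤ t := le_max_right _ _
  -- the limits
  have e1 : Tendsto (fun x : ℝ => x ^ (s + 3 / 2 - b - 2 * α)) atTop atTop :=
    tendsto_rpow_atTop (by linarith)
  have e2 : Tendsto (fun x : ℝ => x ^ (s + 3 / 2 - b)) atTop atTop :=
    tendsto_rpow_atTop (by linarith)
  have e3 : Tendsto (fun x : ℝ => x ^ (-(2 * (b - t)))) atTop (𝓝 0) :=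
    tendsto_rpow_neg_atTop (by linarith)
  have f1 := (e1.comp hK).eventually_ge_atTop
    (ν * (4096 * Real.pi) ^ (2 * α) / (Real.exp (-(700 * lam)) * δ))
  have f2 := (e2.comp hK).eventually_ge_atTop (1040 * lam / δ / η)
  have f3 : ∀ᶠ n in atTop, (K n : ℝ) ^ (-(2 * (b - t))) < η / (4096 * Real.pi) ^ (2 * t) :=
    (e3.comp hK).eventually_lt_const (by positivity)
  have f4 := hK.eventually_ge_atTop 1
  obtain ⟨n₀, g1, g2, g3, g4⟩ := (f1.and (f2.and (f3.and f4))).exists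
  simp only [Function.comp] at g1 g2
  set x : ℝ := (K n₀ : ℝ) with hx
  have hx0 : 0 < x := by linarith
  refine ⟨n₀, x ^ (-b), Real.rpow_pos_of_pos hx0 _, ?_, ?_, ?_⟩
  · have h1 : δ * x ^ (s + 3 / 2) * x ^ (-b) =
        δ * (x ^ (s + 3 / 2 - b - 2 * α) * x ^ (2 * α)) := by
      rw [mul_assoc, ← Real.rpow_add hx0, ← Real.rpow_add hx0]
      congr 2
      ring
    rw [h1, Real.mul_rpow (by positivity) hx0.le]
    rw [div_le_iff₀ (by positivity)] at g1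
    have h2 : 0 < x ^ (2 * α) := Real.rpow_pos_of_pos hx0 _
    calc ν * ((4096 * Real.pi) ^ (2 * α) * x ^ (2 * α))
        = ν * (4096 * Real.pi) ^ (2 * α) * x ^ (2 * α) := by ring
      _ ≤ x ^ (s + 3 / 2 - b - 2 * α) * (Real.exp (-(700 * lam)) * δ) * x ^ (2 * α) := by gcongr
      _ = _ := by ring
  · intro r hr1 hr2
    have h1 : (x ^ (-b)) ^ 2 = x ^ (-(2 * b)) := by
      rw [← Real.rpow_natCast, ← Real.rpow_mul hx0.le]
      congr 1
      push_cast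
      ring
    have h2 : r ^ (2 * s₁) ≤ (4096 * Real.pi) ^ (2 * t) * x ^ (2 * t) := by
      calc r ^ (2 * s₁) ≤ r ^ (2 * t) :=
            Real.rpow_le_rpow_of_exponent_le hr1 (by linarith [le_max_left s₁ 0])
        _ ≤ (4096 * Real.pi * x) ^ (2 * t) :=
            Real.rpow_le_rpow (by linarith) hr2 (by positivity)
        _ = _ := Real.mul_rpow (by positivity) hx0.le
    have h3 : x ^ (-(2 * b)) * x ^ (2 * t) = x ^ (-(2 * (b - t))) := by
      rw [← Real.rpow_add hx0]; congr 1; ring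
    rw [lt_div_iff₀ (by positivity)] at g3
    calc (x ^ (-b)) ^ 2 * r ^ (2 * s₁)
        ≤ x ^ (-(2 * b)) * ((4096 * Real.pi) ^ (2 * t) * x ^ (2 * t)) := by
          rw [h1]
          exact mul_le_mul_of_nonneg_left h2 (Real.rpow_nonneg hx0.le _)
      _ = (x ^ (-(2 * b)) * x ^ (2 * t)) * (4096 * Real.pi) ^ (2 * t) := by ring
      _ = x ^ (-(2 * (b - t))) * (4096 * Real.pi) ^ (2 * t) := by rw [h3]
      _ ≤ η := g3.le
  · have h1 : δ * x ^ (s + 3 / 2) * x ^ (-b) = δ * x ^ (s + 3 / 2 - b) := by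
      rw [mul_assoc, ← Real.rpow_add hx0]
      congr 2
    have h2 : 0 < x ^ (s + 3 / 2 - b) := Real.rpow_pos_of_pos hx0 _
    rw [h1, div_le_iff₀ (by positivity)]
    rw [div_div, div_le_iff₀ (by positivity)] at g2
    linarith

end Pool.Agent.K1H54.L2
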