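import Pool.Agent.K1H54.LO.GeoQ

/-!
Systems of modes: the theorem (from the groups of frequencies and the signs).
-/

open Set Filter Topology MeasureTheory

set_option autoImplicit false

namespace Pool.Agent.K1H54.L2

open Pool.Agent.Y5 Pool.Agent.Y5.D Pool.Agent.Y5.E Pool.Agent.K1H54.LO
open Pool.Agent.K1H30.OP (SS mem_SS ss_disj)
open Pool.Agent.Y248.ND (vec_neg)

/-- index set -/
abbrev IG (K : ℕ → ℕ) : Type := Σ n : ℕ, Bool × Fin ((K n) ^ 2)

lemma shlG (K : ℕ → ℕ) (hK : ∀ n, 0 < K n) :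
    Shl (fun i : IG K => i.1) (fun i => i.2.1) (fun n => (K n) ^ 2) := by
  classical
  have key : ∀ n b, {i : IG K | i.1 = n ∧ i.2.1 = b} =
      ((Finset.univ : Finset (Fin ((K n) ^ 2))).map
        ⟨fun j => (⟨n, (b, j)⟩ : IG K), fun j j' h => by simpa using h⟩ : Finset (IG K)) := by
    intro n b
    ext i
    simp only [Set.mem_ofPred_eq, Finset.coe_map, Set.mem_image, Finset.mem_coe,
      Finset.mem_univ, true_and, Function.Embedding.coeFn_mk]
    constructor
    · rintro ⟨h1, h2⟩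
      obtain ⟨n', b', j⟩ := i
      simp only at h1 h2
      subst h1
      subst h2
      exact ⟨j, rfl⟩
    · rintro ⟨j, rfl⟩
      exact ⟨rfl, rfl⟩
  refine ⟨fun n b => ?_, fun n b => ?_, fun n => ?_⟩
  · rw [key]
    exact Finset.finite_toSet _
  · rw [key, Set.ncard_coe_finset, Finset.card_map, Finset.card_univ, Fintype.card_fin]
  · exact pow_pos (hK n) 2

theorem t_GEO2 (hGRP : S_GRP) (hSGN : S_SGN) : S_GEO2 := by
  classical
  intro s α δ N₁ hs hs' hα hα' hδ
  obtain ⟨X₀, hX₀, hS⟩ := hSGN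
  obtain ⟨L, hL7, hLα⟩ := ex_L hα'
  obtain ⟨x₀, hx₀1, hx₀⟩ := ex_K0 hX₀ hδ hs
  obtain ⟨K₀, hK₀⟩ : ∃ K₀ : ℕ, max x₀ N₁ ≤ K₀ := exists_nat_ge _
  have hK₀x : x₀ ≤ K₀ := (le_max_left _ _).trans hK₀
  have hK₀N : N₁ ≤ K₀ := (le_max_right _ _).trans hK₀
  have hK₀1 : (1 : ℝ) ≤ K₀ := hx₀1.trans hK₀x
  have hK₀1' : 1 ≤ K₀ := by exact_mod_cast hK₀1
  have hL7' : (10 : ℝ) ^ 7 ≤ L := by exact_mod_cast hL7
  have hL1 : (1 : ℝ) ≤ L := le_trans (by norm_num) hL7'
  have hL0 : (0 : ℝ) < L := by linarith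
  set K : ℕ → ℕ := fun n => K₀ * L ^ n with hK
  have hKr : ∀ n, (K n : ℝ) = K₀ * (L : ℝ) ^ n := fun n => by rw [hK]; push_cast; rfl
  have hKs : ∀ n, (K (n + 1) : ℝ) = L * K n := fun n => by rw [hKr, hKr, pow_succ]; ring
  have hKge : ∀ n, (K₀ : ℝ) ≤ K n := fun n => by
    rw [hKr]
    exact le_mul_of_one_le_right (by linarith) (one_le_pow₀ hL1)
  have hK1 : ∀ n, (1 : ℝ) ≤ K n := fun n => hK₀1.trans (hKge n)
  have hKpos : ∀ n, 0 < K n := fun n => by
    have h1 : (0 : ℝ) < K n := by linarith [hK1 n]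
    exact_mod_cast h1
  have hKmono : ∀ n n', n ≤ n' → (K n : ℝ) ≤ K n' := fun n n' h => by
    rw [hKr, hKr]
    exact mul_le_mul_of_nonneg_left (pow_le_pow_right₀ hL1 h) (by linarith)
  have hKlt : ∀ n n', n < n' → 10 * (K n : ℝ) ≤ K n' := fun n n' h => by
    have h1 := hKmono (n + 1) n' h
    rw [hKs] at h1
    have h2 : (10 : ℝ) ≤ L := le_trans (by norm_num) hL7'
    nlinarith [hK1 n]
  choose G hGc hGd hGs hGp using fun n => hGRP (K n) (hKpos n)
  choose Rn hRn using hGs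
  have hE := fun n i => hS (2048 * K n) (G n i) (by linarith [hK1 n])
    (by
      rw [← Finset.card_pos, hGc n i]
      exact hKpos n)
    (fun k hk => ⟨(hGp n i k hk).1, (hGp n i k hk).2.1, (hGp n i k hk).2.2.2.2,
      (hGp n i k hk).2.2.1⟩)
  choose e he1 he2 he3 he4 using hE
  have hgp : ∀ n i, GP (G n i) (K n) (e n i) := fun n i =>
    ⟨hGc n i, hKpos n, fun k hk => (hGp n i k hk).1, fun k hk => (hGp n i k hk).2.2.1, he1 n i⟩
  have hne : ∀ n i, (G n i).Nonempty := fun n i => by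
    rw [← Finset.card_pos, hGc n i]
    exact hKpos n
  have hsph : ∀ n i, ∀ k ∈ SS (G n i), ‖vec k‖ = Rn n i := by
    intro n i k hk
    rcases mem_SS.1 hk with h1 | h1
    · exact hRn n i k h1
    · rw [← hRn n i _ h1, vec_neg, norm_neg]
  have hRb : ∀ n i, 1024 * (K n : ℝ) ≤ Rn n i ∧ Rn n i ≤ 2048 * K n := by
    intro n i
    obtain ⟨k, hk⟩ := hne n i
    rw [← hRn n i k hk]
    exact ⟨(hGp n i k hk).2.2.2.1, (hGp n i k hk).2.2.2.2⟩
  -- the parameters
  set lam : ℝ := (L : ℝ) ^ (s + 3 / 2) with hlam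
  have hlam13 : (10 : ℝ) ^ 13 ≤ lam := by
    calc (10 : ℝ) ^ 13 ≤ ((10 : ℝ) ^ 7) ^ (2 : ℝ) := by norm_num
      _ ≤ (L : ℝ) ^ (2 : ℝ) := Real.rpow_le_rpow (by positivity) hL7' (by norm_num)
      _ ≤ lam := Real.rpow_le_rpow_of_exponent_le hL1 (by linarith)
  have hLlam : (L : ℝ) ≤ lam := by
    calc (L : ℝ) = (L : ℝ) ^ (1 : ℝ) := (Real.rpow_one _).symm
      _ ≤ lam := Real.rpow_le_rpow_of_exponent_le hL1 (by linarith)
  have hlam4 : lam ≤ (L : ℝ) ^ 4 := by
    calc lam ≤ (L : ℝ) ^ (4 : ℝ) := Real.rpow_le_rpow_of_exponent_le hL1 (by linarith)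
      _ = _ := by norm_cast
  have hlam0 : 0 < lam := by linarith
  have hKp : ∀ n, (K n : ℝ) ^ (s + 3 / 2) = (K₀ : ℝ) ^ (s + 3 / 2) * lam ^ n := by
    intro n
    rw [hKr, Real.mul_rpow (by linarith) (by positivity), hlam, ← Real.rpow_natCast,
      ← Real.rpow_natCast, ← Real.rpow_mul hL0.le, ← Real.rpow_mul hL0.le, mul_comm (n : ℝ)]
  have hc0 : 0 < δ * (K₀ : ℝ) ^ (s + 3 / 2) := by positivity
  have hcast : ∀ n, (((fun n => (K n) ^ 2) n : ℕ) : ℝ) = (K n : ℝ) ^ 2 := fun n => by push_cast; rfl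
  have hsqρ : ∀ n, √((((K n) ^ 2 : ℕ)) : ℝ) = K n := fun n => by
    push_cast
    exact Real.sqrt_sq (by positivity)
  have hcardS : ∀ n i, ((SS (G n i)).card : ℝ) = 2 * K n := fun n i => by
    rw [card_SS2 (hgp n i)]
    push_cast
    rfl
  refine ⟨IG K, fun i => i.1, fun i => i.2.1, fun n => (K n) ^ 2,
    fun i => sgp (G i.1 i.2) (e i.1 i.2), fun i => SS (G i.1 i.2), fun i => Rn i.1 i.2,
    fun n => 1024 * K n, δ * (K₀ : ℝ) ^ (s + 3 / 2), lam, hlam13, ?_, ?_, ?_⟩
  · refine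
      { shl := shlG K hKpos
        ot := fun i => sgp_ot (hgp _ _)
        supp := fun i k hk => ?_
        flat := fun i k hk => sgp_flat (hgp _ _) hk
        disj := ?_
        ne := fun i => ?_
        sph := fun i k hk => hsph _ _ k hk
        size := fun i => ⟨(hRb _ _).1, ?_⟩
        big := fun i => ?_
        N1 := fun n => by linarith [hK1 n]
        mono := fun n => by linarith [hKmono n (n + 1) (by omega)]
        sup := fun i y => ?_
        coef := fun i => ?_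
        lam1 := lt_of_lt_of_le (by norm_num) hlam13
        grow := ⟨1024 * K₀, fun n => ?_⟩
        poly := ⟨1, fun n => ?_⟩
        cards := fun i => ?_
        c0 := hc0 }
    · by_contra h1
      exact hk (sgp_not h1)
    · intro i j hij
      obtain ⟨n, i⟩ := i
      obtain ⟨n', j⟩ := j
      simp only
      rcases lt_trichotomy n n' with h | h | h
      · rw [Finset.disjoint_left]
        intro k h1 h2
        have e1 := hsph _ _ k h1
        have e2 := hsph _ _ k h2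
        have e3 := (hRb n i).2
        have e4 := (hRb n' j).1
        have e5 := hKlt n n' h
        have e6 := hK1 n
        rw [← e1] at e3
        rw [← e2] at e4
        linarith
      · subst h
        have hij' : i ≠ j := fun h => hij (by rw [h])
        exact ss_disj (hGd n i j hij') (fun k hk => (hGp n i k hk).1)
          (fun k hk => (hGp n j k hk).1)
      · rw [Finset.disjoint_left]
        intro k h1 h2
        have e1 := hsph _ _ k h1
        have e2 := hsph _ _ k h2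
        have e3 := (hRb n' j).2
        have e4 := (hRb n i).1
        have e5 := hKlt n' n h
        have e6 := hK1 n'
        rw [← e2] at e3
        rw [← e1] at e4
        linarith
    · obtain ⟨k, hk⟩ := hne i.1 i.2
      exact ⟨k, mem_SS.2 (Or.inl hk)⟩
    · have := (hRb i.1 i.2).2
      linarith
    · have h1 := (hRb i.1 i.2).1
      have h2 := hKge i.1
      have h3 := hK1 i.1
      linarith
    · refine (he2 i.1 i.2 y).trans ?_
      have h1 := hx₀ (K i.1) (hK₀x.trans (hKge i.1))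
      refine h1.trans ?_
      rw [hcardS]
      have h2 := hRb i.1 i.2
      have h3 := hK1 i.1
      refine mul_le_mul_of_nonneg_right ?_ (Real.sqrt_nonneg _)
      refine mul_le_mul_of_nonneg_left ?_ hδ.le
      exact Real.rpow_le_rpow_of_nonpos (by linarith) h2.2 (by linarith)
    · have h3 := hK1 i.1
      have h4 : (0 : ℝ) < K i.1 := by linarith
      rw [hcardS, hsqρ]
      have e1 : (K i.1 : ℝ) ^ (s + 3 / 2) = (K i.1 : ℝ) ^ s * (K i.1 * √(K i.1 : ℝ)) := by
        rw [Real.sqrt_eq_rpow]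
        nth_rewrite 3 [← Real.rpow_one (K i.1 : ℝ)]
        rw [← Real.rpow_add h4, ← Real.rpow_add h4]
        congr 1
        ring
      calc δ * (K₀ : ℝ) ^ (s + 3 / 2) * lam ^ i.1 = δ * (K i.1 : ℝ) ^ (s + 3 / 2) := by
            rw [hKp]; ring
        _ = δ * (K i.1 : ℝ) ^ s * (K i.1 * √(K i.1 : ℝ)) := by rw [e1]; ring
        _ ≤ δ * (1024 * K i.1) ^ s * (K i.1 * √(2 * K i.1)) := by
            have e2 : (K i.1 : ℝ) ^ s ≤ (1024 * K i.1) ^ s :=
              Real.rpow_le_rpow h4.le (by linarith) (by linarith)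
            have e3 : √(K i.1 : ℝ) ≤ √(2 * K i.1) := Real.sqrt_le_sqrt (by linarith)
            gcongr
    · rw [hKr]
      have h1 : (L : ℝ) ^ n ≤ lam ^ n := pow_le_pow_left₀ hL0.le hLlam n
      calc 1024 * (K₀ * (L : ℝ) ^ n) = 1024 * K₀ * (L : ℝ) ^ n := by ring
        _ ≤ _ := by gcongr
    · rw [one_mul]
      have h1 : lam ^ n ≤ ((L : ℝ) ^ 4) ^ n := pow_le_pow_left₀ hlam0.le hlam4 n
      have h2 : (L : ℝ) ^ n ≤ 1024 * K n := by
        rw [hKr]
        have h3 : (0 : ℝ) < (L : ℝ) ^ n := by positivity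
        nlinarith
      calc lam ^ n ≤ ((L : ℝ) ^ 4) ^ n := h1
        _ = ((L : ℝ) ^ n) ^ 4 := by rw [← pow_mul, ← pow_mul, mul_comm]
        _ ≤ _ := pow_le_pow_left₀ (by positivity) h2 4
    · rw [hcardS]
      linarith [hK1 i.1]
  · refine ⟨fun n => ?_, fun n => ?_, fun i hi => he3 _ _, fun i => ?_⟩
    · rw [hsqρ, hsqρ, hKs]
      have h1 : (10000 : ℝ) ≤ L := le_trans (by norm_num) hL7'
      have h2 := hK1 n
      nlinarith
    · rw [hsqρ, hsqρ, hKs]
      have h2 := hK1 n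
      nlinarith
    · have h1 := he3 i.1 i.2
      have h2 := he4 i.1 i.2
      rw [abs_of_nonneg (by linarith)]
      exact h2
  · intro ν η s₁ hν hη hs₁
    have hKt : Tendsto (fun n => (K n : ℝ)) atTop atTop := by
      have h1 : Tendsto (fun n : ℕ => (L : ℝ) ^ n) atTop atTop :=
        tendsto_pow_atTop_atTop_of_one_lt (lt_of_lt_of_le (by norm_num) hL7')
      refine tendsto_atTop_mono (fun n => ?_) h1
      rw [hKr]
      exact le_mul_of_one_le_left (by positivity) hK₀1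
    obtain ⟨n₀, a₀, ha₀, p1, p2, p3⟩ := ex_par (lam := lam) hα hα' hδ hKt hν hη hs₁
    have hpi := Real.pi_gt_three
    have e0 : δ * (K₀ : ℝ) ^ (s + 3 / 2) * lam ^ n₀ = δ * (K n₀ : ℝ) ^ (s + 3 / 2) := by
      rw [hKp]; ring
    refine ⟨n₀, a₀, ha₀, fun n => ?_, fun i hi => ?_, ?_⟩
    · rw [e0]
      have h1 : 2 * Real.pi * (2 * (1024 * (K (n₀ + n) : ℝ))) =
          (4096 * Real.pi * K n₀) * (L : ℝ) ^ n := by
        rw [hKr, hKr, pow_add]; ring
      have h2 : ((L : ℝ) ^ n) ^ (2 * α) = ((L : ℝ) ^ (2 * α)) ^ n := by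
        rw [← Real.rpow_natCast, ← Real.rpow_natCast, ← Real.rpow_mul hL0.le,
          ← Real.rpow_mul hL0.le, mul_comm]
      have h3 := hK1 n₀
      rw [h1, Real.mul_rpow (by positivity) (by positivity), h2]
      have h4 : ((L : ℝ) ^ (2 * α)) ^ n ≤ lam ^ n * (1 - 1 / 10 ^ 5) ^ n := by
        rw [← mul_pow]
        exact pow_le_pow_left₀ (Real.rpow_nonneg hL0.le _) hLα n
      calc ν * ((4096 * Real.pi * K n₀) ^ (2 * α) * ((L : ℝ) ^ (2 * α)) ^ n)
          = (ν * (4096 * Real.pi * K n₀) ^ (2 * α)) * ((L : ℝ) ^ (2 * α)) ^ n := by ring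
        _ ≤ (Real.exp (-(700 * lam)) * (δ * (K n₀ : ℝ) ^ (s + 3 / 2) * a₀)) *
            (lam ^ n * (1 - 1 / 10 ^ 5) ^ n) := by gcongr
        _ = _ := by ring
    · have h1 : i.1 = n₀ := hi
      have h2 := hRb i.1 i.2
      have h3 := hK1 i.1
      refine p2 _ ?_ ?_
      · nlinarith
      · rw [← h1]
        nlinarith
    · rw [e0]
      exact p3

end Pool.Agent.K1H54.L2
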