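import Pool.Agent.K1H54.LO.StageE
import Pool.Agent.K1H54.LO.Defs

/-! The iteration of the stages: preparations. -/

open Set Filter Topology MeasureTheory

set_option autoImplicit false

namespace Pool.Agent.K1H54.LO

lemma exp_big {lam : ℝ} (h : 10 ^ 13 ≤ lam) : 10 ^ 4 * lam ^ 4 * Real.exp (-lam) ≤ 1 / 10 ^ 19 := by
  have hl : 0 < lam := lt_of_lt_of_le (by norm_num) h
  have h1 : lam / 8 ≤ Real.exp (lam / 8) := by
    have := Real.add_one_le_exp (lam / 8)
    linarith
  have h2 : (lam / 8) ^ 8 ≤ Real.exp lam := by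
    calc (lam / 8) ^ 8 ≤ Real.exp (lam / 8) ^ 8 := by gcongr
      _ = Real.exp lam := by rw [← Real.exp_nat_mul]; congr 1; ring
  have h3 : Real.exp (-lam) ≤ ((lam / 8) ^ 8)⁻¹ := by
    rw [Real.exp_neg]
    exact inv_anti₀ (by positivity) h2
  calc 10 ^ 4 * lam ^ 4 * Real.exp (-lam) ≤ 10 ^ 4 * lam ^ 4 * ((lam / 8) ^ 8)⁻¹ := by gcongr
    _ = 10 ^ 4 * 8 ^ 8 / lam ^ 4 := by field_simp
    _ ≤ 10 ^ 4 * 8 ^ 8 / (10 ^ 13) ^ 4 := by gcongr
    _ ≤ 1 / 10 ^ 19 := by norm_num

lemma ex_le {lam a b : ℝ} (h : 10 ^ 13 ≤ lam) (hab : a + lam ≤ b) :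
    10 ^ 4 * lam ^ 4 * Real.exp (-b) ≤ 1 / 10 ^ 19 * Real.exp (-a) := by
  have hl : 0 < lam := lt_of_lt_of_le (by norm_num) h
  have h1 : Real.exp (-b) ≤ Real.exp (-lam) * Real.exp (-a) := by
    rw [← Real.exp_add]
    exact Real.exp_le_exp.2 (by linarith)
  have h2 := exp_big h
  calc 10 ^ 4 * lam ^ 4 * Real.exp (-b) ≤ 10 ^ 4 * lam ^ 4 * (Real.exp (-lam) * Real.exp (-a)) := by
        gcongr
    _ = (10 ^ 4 * lam ^ 4 * Real.exp (-lam)) * Real.exp (-a) := by ring
    _ ≤ _ := mul_le_mul_of_nonneg_right h2 (Real.exp_pos _).le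

lemma ex_cases {lam a b : ℝ} (h : 10 ^ 13 ≤ lam) (hab : a + lam ≤ b) :
    10000 * Real.exp (-b) ≤ Real.exp (-a) ∧ 10000 * (lam * Real.exp (-b)) ≤ Real.exp (-a) ∧
    10000 * (lam ^ 2 * Real.exp (-b)) ≤ Real.exp (-a) / 10 ^ 19 := by
  have hl : 1 ≤ lam := le_trans (by norm_num) h
  have h1 := ex_le h hab
  have hb := Real.exp_pos (-b)
  have ha := Real.exp_pos (-a)
  have e1 : (1 : ℝ) ≤ lam ^ 4 := one_le_pow₀ hl
  have e2 : lam ≤ lam ^ 4 := by
    calc lam = lam ^ 1 := (pow_one _).symm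
      _ ≤ lam ^ 4 := pow_le_pow_right₀ hl (by norm_num)
  have e3 : lam ^ 2 ≤ lam ^ 4 := pow_le_pow_right₀ hl (by norm_num)
  have f1 : 1 * Real.exp (-b) ≤ lam ^ 4 * Real.exp (-b) := by gcongr
  have f2 : lam * Real.exp (-b) ≤ lam ^ 4 * Real.exp (-b) := by gcongr
  have f3 : lam ^ 2 * Real.exp (-b) ≤ lam ^ 4 * Real.exp (-b) := by gcongr
  norm_num at h1 ⊢
  refine ⟨by linarith, by linarith, by linarith⟩

/-- the constants -/
lemma cs {lam : ℝ} (h : 10 ^ 13 ≤ lam) :
    Cs lam (Real.exp (-(400 * lam))) (Real.exp (-(600 * lam))) (Real.exp (-(550 * lam)))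
      (Real.exp (-(312 * lam))) (Real.exp (-(398 * lam))) (Real.exp (-(596 * lam))) := by
  have hl : 1 ≤ lam := le_trans (by norm_num) h
  have hl0 : 0 < lam := by linarith
  have sq : ∀ a : ℝ, Real.exp (-a) ^ 2 = Real.exp (-(2 * a)) := by
    intro a
    rw [← Real.exp_nat_mul]
    congr 1
    push_cast
    ring
  have e0 : Real.exp (-0 : ℝ) = 1 := by simp
  refine ⟨h, Real.exp_pos _, Real.exp_pos _, Real.exp_pos _, Real.exp_pos _, Real.exp_pos _,
    Real.exp_pos _, ?_, rfl, ?_, ?_, ?_, ?_, ?_, ?_, ?_, ?_, ?_, ?_, ?_, ?_, ?_, ?_, ?_, ?_, ?_⟩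
  · rw [Real.exp_le_one_iff]; linarith
  · have := (ex_cases (a := 0) (b := 398 * lam) h (by linarith)).2.2
    rw [e0] at this
    have h2 : lam * Real.exp (-(398 * lam)) ≤ lam ^ 2 * Real.exp (-(398 * lam)) := by
      gcongr
      nlinarith
    norm_num at this ⊢
    linarith
  · have := (ex_cases (a := 0) (b := 398 * lam) h (by linarith)).2.2
    rw [e0] at this
    norm_num at this ⊢
    linarith
  · exact (ex_cases h (by linarith)).2.1
  · exact (ex_cases h (by linarith)).1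
  · rw [sq]
    exact (ex_cases h (by linarith)).2.1
  · have := (ex_cases (a := 0) (b := 312 * lam) h (by linarith)).2.1
    rwa [e0] at this
  · exact (ex_cases h (by linarith)).1
  · exact (ex_cases h (by linarith)).1
  · have h1 : Real.exp (84 * lam) * Real.exp (-(550 * lam)) = Real.exp (-(466 * lam)) := by
      rw [← Real.exp_add]; congr 1; ring
    have h2 : Real.exp (84 * lam) * (lam ^ 2 * Real.exp (-(400 * lam))) =
        lam ^ 2 * Real.exp (-(316 * lam)) := by
      rw [mul_left_comm, ← Real.exp_add]; congr 2; ring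
    have h3 := (ex_cases (a := 312 * lam) (b := 466 * lam) h (by linarith)).1
    have h4 := (ex_cases (a := 312 * lam) (b := 316 * lam) h (by linarith)).2.2
    have h5 := Real.exp_pos (-(312 * lam))
    rw [mul_add, h1, mul_left_comm, h2]
    norm_num at h4 ⊢
    linarith
  · have h1 : Real.exp (84 * lam) * Real.exp (-(550 * lam)) = Real.exp (-(466 * lam)) := by
      rw [← Real.exp_add]; congr 1; ring
    rw [mul_left_comm, h1]
    have h3 := (ex_cases (a := 400 * lam) (b := 466 * lam) h (by linarith)).1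
    have := Real.exp_pos (-(466 * lam))
    linarith
  · exact (ex_cases h (by linarith)).2.1
  · rw [sq]
    have h3 := (ex_cases (a := 550 * lam) (b := 2 * (312 * lam)) h (by linarith)).2.2
    have h5 := Real.exp_pos (-(550 * lam))
    norm_num at h3 ⊢
    linarith
  · have := (ex_cases (a := 0) (b := 312 * lam) h (by linarith)).2.2
    rw [e0] at this
    norm_num at this ⊢
    linarith
  · rw [sq]
    have h3 := (ex_cases (a := 600 * lam) (b := 2 * (312 * lam)) h (by linarith)).2.1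
    have h5 : 0 ≤ lam * Real.exp (-(2 * (312 * lam))) := by positivity
    linarith
  · have h3 := (ex_cases (a := 600 * lam) (b := 712 * lam) h (by linarith)).2.1
    have h5 : 0 ≤ lam * Real.exp (-(712 * lam)) := by positivity
    have e : Real.exp (-(400 * lam)) * (lam * Real.exp (-(312 * lam))) =
        lam * Real.exp (-(712 * lam)) := by
      rw [mul_left_comm, ← Real.exp_add]; congr 2; ring
    rw [e]
    linarith
  · rw [sq]
    have h3 := (ex_cases (a := 596 * lam) (b := 2 * (550 * lam)) h (by linarith)).1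
    have h5 := Real.exp_pos (-(2 * (550 * lam)))
    linarith
  · exact (ex_cases h (by linarith)).2.1

/-- antiderivatives -/
lemma antider {g : ℝ → ℝ} {T : ℝ} (hg : ContinuousOn g (Ico 0 T)) :
    ∃ W : ℝ → ℝ, W 0 = 0 ∧ ∀ t ∈ Ico 0 T, HasDerivWithinAt W (g t) (Ico 0 T) t := by
  refine ⟨fun t => ∫ s in (0 : ℝ)..t, g s, by simp, fun t ht => ?_⟩
  have hint : IntervalIntegrable g volume 0 t := by
    refine ContinuousOn.intervalIntegrable ?_
    rw [uIcc_of_le ht.1]
    exact hg.mono fun x hx => ⟨hx.1, hx.2.trans_lt ht.2⟩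
  rcases ht.1.eq_or_lt with h0 | h0
  · subst h0
    have hm : StronglyMeasurableAtFilter g (𝓝[Ioi (0 : ℝ)] 0) volume := by
      have h1 : StronglyMeasurableAtFilter g (𝓝[Ico (0 : ℝ) T] 0) volume :=
        hg.stronglyMeasurableAtFilter_nhdsWithin measurableSet_Ico 0
      refine h1.filter_mono ?_
      rw [nhdsWithin_Ico_eq_nhdsGE ht.2]
      exact nhdsWithin_mono _ Ioi_subset_Ici_self
    have hc : ContinuousWithinAt g (Ioi 0) 0 := by
      have h1 := hg 0 ht
      have h2 : ContinuousWithinAt g (Ici 0) 0 := by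
        have : 𝓝[Ico (0 : ℝ) T] 0 = 𝓝[≥] 0 := nhdsWithin_Ico_eq_nhdsGE ht.2
        unfold ContinuousWithinAt at h1 ⊢
        rwa [this] at h1
      exact h2.mono Ioi_subset_Ici_self
    have := intervalIntegral.integral_hasDerivWithinAt_right (a := (0 : ℝ)) (b := (0 : ℝ))
      (s := Ici 0) (t := Ioi 0) hint hm hc
    exact this.mono Ico_subset_Ici_self
  · have hmem : Ico 0 T ∈ 𝓝 t := Ico_mem_nhds h0 ht.2
    have hca : ContinuousAt g t := (hg t ht).continuousAt hmem
    have hm : StronglyMeasurableAtFilter g (𝓝 t) volume := by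
      have h1 : ContinuousOn g (Ioo 0 T) := hg.mono Ioo_subset_Ico_self
      exact h1.stronglyMeasurableAtFilter isOpen_Ioo t ⟨h0, ht.2⟩
    exact (intervalIntegral.integral_hasDerivAt_right hint hm hca).hasDerivWithinAt

/-- rescaling -/
lemma resc {g g' : ℝ → ℝ} {T t ω A : ℝ} (ht : t ∈ Ico 0 T) (hω : 0 < ω)
    (h : ∀ s ∈ Ico 0 T, HasDerivWithinAt g (g' s) (Ico 0 T) s) :
    ∀ r ∈ Ico 0 ((T - t) * ω), HasDerivWithinAt (fun r => g (t + r / ω) * A)
      (g' (t + r / ω) * (A / ω)) (Ico 0 ((T - t) * ω)) r := by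
  intro r hr
  have hmap : MapsTo (fun r => t + r / ω) (Ico 0 ((T - t) * ω)) (Ico 0 T) := by
    intro x hx
    have h1 : 0 ≤ x / ω := div_nonneg hx.1 hω.le
    have h2 : x / ω < T - t := by rw [div_lt_iff₀ hω]; exact hx.2
    exact ⟨by linarith [ht.1], by linarith⟩
  have hi : HasDerivWithinAt (fun r => t + r / ω) (1 / ω) (Ico 0 ((T - t) * ω)) r := by
    have := ((hasDerivAt_id r).div_const ω).const_add t
    exact this.hasDerivWithinAt
  have h1 := (HasDerivWithinAt.comp r (h _ (hmap hr)) hi hmap).mul_const A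
  exact h1.congr_deriv (by ring)

end Pool.Agent.K1H54.LO
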