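import Pool.Agent.K1H54.LO.IterA

/-! The iteration of the stages: the other shells. -/

open Set Filter Topology MeasureTheory

set_option autoImplicit false

namespace Pool.Agent.K1H54.LO

/-- The state at the beginning of the stage `n`. -/
structure St (lam ε c₀ T : ℝ) (y z E : ℕ → ℝ → ℝ) (n : ℕ) (t a : ℝ) : Prop where
  mem : t ∈ Ico 0 T
  time : t ≤ 1040 * lam / c₀ * (1 - (1 / 2) ^ n)
  ha : (1 - 1 / 10 ^ 5) ^ n ≤ a
  ya : y n t = a
  en : E n t ≤ (1 + Real.exp (-(596 * lam))) * a ^ 2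
  zn : -(ε / 2 * a) ≤ z n t
  tl : ∀ j : ℕ, √(E (n + 1 + j) t) ≤ Real.exp (-(550 * lam)) * ((2 * lam)⁻¹) ^ j * a
  lo : ∀ i < n, √(E i t) ≤ (11 / 10) ^ (n - i) * a
  em : ∀ m, n = m + 1 → E m t ≤ (1 + 102 / 10 ^ 8) * a ^ 2

section
variable {lam ε c₀ T : ℝ} {d : ℕ → ℝ} {y z E : ℕ → ℝ → ℝ}

lemma Red.yE (h : Red lam ε c₀ d T y z E) (n : ℕ) {t : ℝ} (ht : t ∈ Ico 0 T) :
    |y n t| ≤ √(E n t) := by
  refine Real.abs_le_sqrt ?_
  have := h.le n t ht
  have := h.nonneg (n + 1) t ht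
  nlinarith [sq_nonneg (z n t)]

lemma Red.zE (h : Red lam ε c₀ d T y z E) (n : ℕ) {t : ℝ} (ht : t ∈ Ico 0 T) :
    z n t ^ 2 ≤ E n t := by
  have := h.le n t ht
  have := h.nonneg (n + 1) t ht
  nlinarith [sq_nonneg (y n t)]

lemma grow1 (hc0 : 0 < c₀) (hl : 0 < lam) (h : Red lam ε c₀ d T y z E) (i : ℕ) {t s Z : ℝ}
    (ht : 0 ≤ t) (hts : t ≤ s) (hs : s < T) (hZ0 : 0 ≤ Z) (hZ : ∀ r ∈ Icc t s, z i r ^ 2 ≤ Z) :
    √(E (i + 1) s) ≤ √(E (i + 1) t) + c₀ * lam ^ i * Z * (s - t) := by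
  choose! D hD using h.dE (i + 1)
  refine sqrt_growth (F' := D) ht hts hs (by positivity) (fun r hr => (hD r hr).1) (fun r hr => ?_)
  have hrT : r ∈ Ico 0 T := ⟨ht.trans hr.1, hr.2.trans hs⟩
  have h1 := (hD r hrT).2
  have h2 := (abs_le.1 (h.yE (i + 1) hrT)).2
  have h3 := hZ r ⟨hr.1, hr.2.le⟩
  have h4 := Real.sqrt_nonneg (E (i + 1) r)
  simp only [fd] at h1
  calc D r ≤ 2 * (c₀ * lam ^ i * z i r ^ 2) * y (i + 1) r := h1
    _ ≤ 2 * (c₀ * lam ^ i * z i r ^ 2) * √(E (i + 1) r) := by gcongr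
    _ ≤ 2 * (c₀ * lam ^ i * Z) * √(E (i + 1) r) := by gcongr

lemma dec0 (h : Red lam ε c₀ d T y z E) {t s : ℝ}
    (ht : 0 ≤ t) (hts : t ≤ s) (hs : s < T) : √(E 0 s) ≤ √(E 0 t) := by
  choose! D hD using h.dE 0
  have := sqrt_growth (F := E 0) (F' := D) (C := 0) ht hts hs le_rfl (fun r hr => (hD r hr).1)
    (fun r hr => ?_)
  · simpa using this
  · have h1 := (hD r ⟨ht.trans hr.1, hr.2.trans hs⟩).2
    simp only [fd] at h1
    simpa using h1

/-- the lower shells during the stage `n` -/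
lemma low (hc0 : 0 < c₀) (hlb : 10 ^ 13 ≤ lam) (h : Red lam ε c₀ d T y z E) {n : ℕ} {t a : ℝ}
    (hS : St lam ε c₀ T y z E n t a) (ha0 : 0 < a) : ∀ i < n, ∀ s, t ≤ s → s < T →
    (s - t) * (c₀ * lam ^ n * a) ≤ 520 * lam →
    √(E i s) ≤ (1 + 1 / 10 ^ 9) * ((11 / 10) ^ (n - i) * a) := by
  have hl : 0 < lam := lt_of_lt_of_le (by norm_num) hlb
  intro i
  induction i with
  | zero =>
    intro hi s hts hs _
    have h1 := dec0 h hS.mem.1 hts hs
    have h2 := hS.lo 0 hi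
    have h3 : 0 ≤ (11 / 10 : ℝ) ^ (n - 0) * a := by positivity
    have : (1 : ℝ) * ((11 / 10 : ℝ) ^ (n - 0) * a) ≤ (1 + 1 / 10 ^ 9) * ((11 / 10) ^ (n - 0) * a) :=
      mul_le_mul_of_nonneg_right (by norm_num) h3
    linarith
  | succ i ih =>
    intro hi s hts hs hw
    obtain ⟨m, hm⟩ : ∃ m, n = i + 1 + (m + 1) := ⟨n - (i + 2), by omega⟩
    have e1 : n - (i + 1) = m + 1 := by omega
    have e2 : n - i = m + 2 := by omega
    set Z := ((1 + 1 / 10 ^ 9) * ((11 / 10 : ℝ) ^ (n - i) * a)) ^ 2 with hZ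
    have hg := grow1 hc0 hl h i hS.mem.1 hts hs (Z := Z) (by positivity) (fun r hr => by
      have hrT : r ∈ Ico 0 T := ⟨hS.mem.1.trans hr.1, hr.2.trans_lt hs⟩
      have hr2 : (r - t) * (c₀ * lam ^ n * a) ≤ 520 * lam := by
        refine le_trans ?_ hw
        have : 0 < c₀ * lam ^ n * a := by positivity
        have := hr.2
        gcongr
      have h1 := ih (by omega) r hr.1 hrT.2 hr2
      calc z i r ^ 2 ≤ E i r := h.zE i hrT
        _ = √(E i r) ^ 2 := (Real.sq_sqrt (h.nonneg i r hrT)).symm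
        _ ≤ Z := pow_le_pow_left₀ (Real.sqrt_nonneg _) h1 2)
    have h2 := hS.lo (i + 1) hi
    rw [e1] at h2 ⊢
    -- the contribution
    have h3 : c₀ * lam ^ i * (s - t) * a ≤ 520 / lam ^ (m + 1) := by
      rw [le_div_iff₀ (by positivity)]
      have e3 : (s - t) * (c₀ * lam ^ n * a) = c₀ * lam ^ i * (s - t) * a * lam ^ (m + 1) * lam := by
        rw [hm]; ring
      rw [e3] at hw
      have := le_of_mul_le_mul_right hw hl
      exact this
    have h4 : c₀ * lam ^ i * Z * (s - t) ≤ 1 / 10 ^ 9 * ((11 / 10) ^ (m + 1) * a) := by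
      have e4 : c₀ * lam ^ i * Z * (s - t) = (c₀ * lam ^ i * (s - t) * a) *
          ((1 + 1 / 10 ^ 9) ^ 2 * (11 / 10) ^ 2 * (11 / 10) ^ (m + 1) * ((11 / 10) ^ (m + 1) * a)) := by
        rw [hZ, e2]; ring
      rw [e4]
      have h5 : (11 / 10 : ℝ) ^ (m + 1) / lam ^ (m + 1) ≤ 11 / 10 ^ 14 := by
        rw [← div_pow]
        have h6 : (11 / 10 : ℝ) / lam ≤ 11 / 10 ^ 14 := by
          rw [div_le_iff₀ hl]
          norm_num at hlb ⊢
          linarith
        calc ((11 / 10 : ℝ) / lam) ^ (m + 1) ≤ ((11 / 10 : ℝ) / lam) ^ 1 :=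
              pow_le_pow_of_le_one (by positivity) (h6.trans (by norm_num)) (by omega)
          _ ≤ 11 / 10 ^ 14 := by rw [pow_one]; exact h6
      calc (c₀ * lam ^ i * (s - t) * a) *
          ((1 + 1 / 10 ^ 9) ^ 2 * (11 / 10) ^ 2 * (11 / 10) ^ (m + 1) * ((11 / 10) ^ (m + 1) * a))
          ≤ (520 / lam ^ (m + 1)) *
          ((1 + 1 / 10 ^ 9) ^ 2 * (11 / 10) ^ 2 * (11 / 10) ^ (m + 1) * ((11 / 10) ^ (m + 1) * a)) :=
            mul_le_mul_of_nonneg_right h3 (by positivity)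
        _ = (520 * (1 + 1 / 10 ^ 9) ^ 2 * (11 / 10) ^ 2) * ((11 / 10 : ℝ) ^ (m + 1) / lam ^ (m + 1)) *
            ((11 / 10) ^ (m + 1) * a) := by ring
        _ ≤ (520 * (1 + 1 / 10 ^ 9) ^ 2 * (11 / 10) ^ 2) * (11 / 10 ^ 14) *
            ((11 / 10) ^ (m + 1) * a) := by gcongr
        _ ≤ _ := by
          refine mul_le_mul_of_nonneg_right (by norm_num) (by positivity)
    linarith

/-- the preceding shell during the stage `n` -/
lemma pre (hc0 : 0 < c₀) (hlb : 10 ^ 13 ≤ lam) (h : Red lam ε c₀ d T y z E) {n : ℕ} {t a : ℝ}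
    (hS : St lam ε c₀ T y z E n t a) (ha0 : 0 < a) (m : ℕ) (hm : n = m + 1) (s : ℝ) (hts : t ≤ s)
    (hs : s < T) (hw : (s - t) * (c₀ * lam ^ n * a) ≤ 520 * lam) :
    E m s ≤ (1 + 11 / 10 ^ 7) * a ^ 2 := by
  have hl : 0 < lam := lt_of_lt_of_le (by norm_num) hlb
  have hsT : s ∈ Ico 0 T := ⟨hS.mem.1.trans hts, hs⟩
  have h0 : √(E m t) ≤ (1 + 51 / 10 ^ 8) * a := by
    rw [show (1 + 51 / 10 ^ 8) * a = √(((1 + 51 / 10 ^ 8) * a) ^ 2) from
      (Real.sqrt_sq (by positivity)).symm]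
    refine Real.sqrt_le_sqrt ((hS.em m hm).trans ?_)
    rw [mul_pow]
    gcongr
    norm_num
  have h1 : √(E m s) ≤ √(E m t) + 1 / 10 ^ 10 * a := by
    rcases m with _ | k
    · have := dec0 h hS.mem.1 hts hs
      have : 0 ≤ 1 / 10 ^ 10 * a := by positivity
      linarith
    · set Z := ((1 + 1 / 10 ^ 9) * ((11 / 10 : ℝ) ^ (n - k) * a)) ^ 2 with hZ
      have e2 : n - k = 2 := by omega
      have hg := grow1 hc0 hl h k hS.mem.1 hts hs (Z := Z) (by positivity) (fun r hr => by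
        have hrT : r ∈ Ico 0 T := ⟨hS.mem.1.trans hr.1, hr.2.trans_lt hs⟩
        have hr2 : (r - t) * (c₀ * lam ^ n * a) ≤ 520 * lam := by
          refine le_trans ?_ hw
          have : 0 < c₀ * lam ^ n * a := by positivity
          have := hr.2
          gcongr
        have h1 := low hc0 hlb h hS ha0 k (by omega) r hr.1 hrT.2 hr2
        calc z k r ^ 2 ≤ E k r := h.zE k hrT
          _ = √(E k r) ^ 2 := (Real.sq_sqrt (h.nonneg k r hrT)).symm
          _ ≤ Z := pow_le_pow_left₀ (Real.sqrt_nonneg _) h1 2)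
      refine hg.trans ?_
      have h3 : c₀ * lam ^ k * (s - t) * a ≤ 520 / lam := by
        rw [le_div_iff₀ (by positivity)]
        have e3 : (s - t) * (c₀ * lam ^ n * a) = c₀ * lam ^ k * (s - t) * a * lam * lam := by
          rw [hm]; ring
        rw [e3] at hw
        exact le_of_mul_le_mul_right hw hl
      have e4 : c₀ * lam ^ k * Z * (s - t) = (c₀ * lam ^ k * (s - t) * a) *
          ((1 + 1 / 10 ^ 9) ^ 2 * (11 / 10) ^ 4 * a) := by
        rw [hZ, e2]; ring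
      have h5 : 520 / lam ≤ 520 / 10 ^ 13 := by gcongr
      have h6 : c₀ * lam ^ k * Z * (s - t) ≤ 1 / 10 ^ 10 * a := by
        rw [e4]
        calc (c₀ * lam ^ k * (s - t) * a) * ((1 + 1 / 10 ^ 9) ^ 2 * (11 / 10) ^ 4 * a)
            ≤ (520 / 10 ^ 13) * ((1 + 1 / 10 ^ 9) ^ 2 * (11 / 10) ^ 4 * a) :=
              mul_le_mul_of_nonneg_right (h3.trans h5) (by positivity)
          _ = (520 / 10 ^ 13 * ((1 + 1 / 10 ^ 9) ^ 2 * (11 / 10) ^ 4)) * a := by ring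
          _ ≤ _ := mul_le_mul_of_nonneg_right (by norm_num) ha0.le
      linarith
  have h2 : √(E m s) ≤ (1 + 52 / 10 ^ 8) * a := by
    norm_num at h0 h1 ⊢
    linarith
  calc E m s = √(E m s) ^ 2 := (Real.sq_sqrt (h.nonneg m s hsT)).symm
    _ ≤ ((1 + 52 / 10 ^ 8) * a) ^ 2 := pow_le_pow_left₀ (Real.sqrt_nonneg _) h2 2
    _ = (1 + 52 / 10 ^ 8) ^ 2 * a ^ 2 := by ring
    _ ≤ _ := mul_le_mul_of_nonneg_right (by norm_num) (by positivity)

/-- the higher shells during the stage `n` -/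
lemma tails (hc0 : 0 < c₀) (hlb : 10 ^ 13 ≤ lam) (h : Red lam ε c₀ d T y z E) {n : ℕ} {t a s : ℝ}
    (hS : St lam ε c₀ T y z E n t a) (ha0 : 0 < a) (hts : t ≤ s) (hs : s < T)
    (hw : (s - t) * (c₀ * lam ^ n * a) ≤ 520 * lam)
    (hv : ∀ r ∈ Icc t s, |z (n + 1) r| ≤ Real.exp (-(312 * lam)) * a) : ∀ i : ℕ, ∀ r ∈ Icc t s,
    √(E (n + 2 + i) r) ≤ 6 / 10 * Real.exp (-(550 * lam)) * ((2 * lam)⁻¹) ^ i * a := by
  have hl : 0 < lam := lt_of_lt_of_le (by norm_num) hlb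
  have hl1 : 1 ≤ lam := le_trans (by norm_num) hlb
  have hC := cs hlb
  set β := Real.exp (-(550 * lam)) with hβ
  have hβ0 : 0 < β := Real.exp_pos _
  have hμ : (2 * lam)⁻¹ * lam = 1 / 2 := by field_simp
  have hμ0 : 0 < (2 * lam)⁻¹ := by positivity
  have hμ1 : (2 * lam)⁻¹ ≤ 1 / 10 ^ 13 := by
    rw [← one_div]
    gcongr
    linarith
  have hwr : ∀ r ∈ Icc t s, c₀ * lam ^ n * (r - t) * a ≤ 520 * lam := by
    intro r hr
    have : 0 < c₀ * lam ^ n * a := by positivity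
    calc c₀ * lam ^ n * (r - t) * a = (r - t) * (c₀ * lam ^ n * a) := by ring
      _ ≤ (s - t) * (c₀ * lam ^ n * a) := by
        have := hr.2
        gcongr
      _ ≤ 520 * lam := hw
  intro i
  induction i with
  | zero =>
    intro r hr
    have hrT : r < T := hr.2.trans_lt hs
    have hg := grow1 hc0 hl h (n + 1) hS.mem.1 hr.1 hrT (Z := (Real.exp (-(312 * lam)) * a) ^ 2)
      (by positivity) (fun q hq => sq_le_sq' (abs_le.1 (hv q ⟨hq.1, hq.2.trans hr.2⟩)).1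
        (abs_le.1 (hv q ⟨hq.1, hq.2.trans hr.2⟩)).2)
    have h1 := hS.tl 1
    have e0 : n + 1 + 1 = n + 2 + 0 := by ring
    rw [e0] at hg h1
    rw [pow_one] at h1
    rw [pow_zero, mul_one]
    have h2 : c₀ * lam ^ (n + 1) * (Real.exp (-(312 * lam)) * a) ^ 2 * (r - t) ≤
        520 * (lam ^ 2 * Real.exp (-(312 * lam)) ^ 2) * a := by
      calc c₀ * lam ^ (n + 1) * (Real.exp (-(312 * lam)) * a) ^ 2 * (r - t)
          = (c₀ * lam ^ n * (r - t) * a) * (lam * Real.exp (-(312 * lam)) ^ 2 * a) := by ring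
        _ ≤ (520 * lam) * (lam * Real.exp (-(312 * lam)) ^ 2 * a) :=
          mul_le_mul_of_nonneg_right (hwr r hr) (by positivity)
        _ = _ := by ring
    have h3 : 520 * (lam ^ 2 * Real.exp (-(312 * lam)) ^ 2) * a ≤ 1 / 10 * β * a := by
      have := hC.VVβ
      have h5 : 0 ≤ lam ^ 2 * Real.exp (-(312 * lam)) ^ 2 := by positivity
      refine mul_le_mul_of_nonneg_right ?_ ha0.le
      linarith
    have h4 : β * (2 * lam)⁻¹ * a ≤ β * (1 / 10 ^ 13) * a := by gcongr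
    have h5 : 0 < β * a := by positivity
    norm_num at h4
    nlinarith
  | succ i ih =>
    intro r hr
    have hrT : r < T := hr.2.trans_lt hs
    set Z := (6 / 10 * β * ((2 * lam)⁻¹) ^ i * a) ^ 2 with hZ
    have hg := grow1 hc0 hl h (n + 2 + i) hS.mem.1 hr.1 hrT (Z := Z)
      (by positivity) (fun q hq => by
        have hqT : q ∈ Ico 0 T := ⟨hS.mem.1.trans hq.1, hq.2.trans_lt hrT⟩
        calc z (n + 2 + i) q ^ 2 ≤ E (n + 2 + i) q := h.zE _ hqT
          _ = √(E (n + 2 + i) q) ^ 2 := (Real.sq_sqrt (h.nonneg _ q hqT)).symm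
          _ ≤ Z := pow_le_pow_left₀ (Real.sqrt_nonneg _) (ih q ⟨hq.1, hq.2.trans hr.2⟩) 2)
    have h1 := hS.tl (i + 2)
    have e0 : n + 1 + (i + 2) = n + 2 + i + 1 := by ring
    have e1 : n + 2 + (i + 1) = n + 2 + i + 1 := by ring
    rw [e0] at h1
    rw [e1]
    set μ := (2 * lam)⁻¹ with hμd
    have h2 : c₀ * lam ^ (n + 2 + i) * Z * (r - t) ≤ 188 * β * lam ^ 3 * (β * μ ^ i * a) := by
      calc c₀ * lam ^ (n + 2 + i) * Z * (r - t)
          = (c₀ * lam ^ n * (r - t) * a) * (lam ^ 2 * (36 / 100) * β ^ 2 * (μ * lam) ^ i * μ ^ i * a) := by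
            rw [hZ, mul_pow μ lam]; ring
        _ ≤ (520 * lam) * (lam ^ 2 * (36 / 100) * β ^ 2 * (μ * lam) ^ i * μ ^ i * a) :=
          mul_le_mul_of_nonneg_right (hwr r hr) (by positivity)
        _ ≤ (520 * lam) * (lam ^ 2 * (36 / 100) * β ^ 2 * 1 * μ ^ i * a) := by
          have : (μ * lam) ^ i ≤ 1 := by rw [hμ]; exact pow_le_one₀ (by norm_num) (by norm_num)
          gcongr
        _ = (520 * 36 / 100) * β * lam ^ 3 * (β * μ ^ i * a) := by ring
        _ ≤ _ := by gcongr; norm_num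
    have h3 : 188 * β * lam ^ 3 ≤ 1 / 2 * μ := by
      have h4 := ex_le (a := 0) (b := 550 * lam) hlb (by linarith)
      rw [← hβ] at h4
      have h5 : 188 * β * lam ^ 3 * lam ≤ 1 / 2 * μ * lam := by
        have : 1 / 2 * μ * lam = 1 / 4 := by rw [mul_assoc, hμ]; norm_num
        rw [this]
        norm_num at h4 ⊢
        linarith
      exact le_of_mul_le_mul_right h5 hl
    have h4 : 188 * β * lam ^ 3 * (β * μ ^ i * a) ≤ 1 / 2 * β * μ ^ (i + 1) * a := by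
      calc 188 * β * lam ^ 3 * (β * μ ^ i * a) ≤ 1 / 2 * μ * (β * μ ^ i * a) :=
            mul_le_mul_of_nonneg_right h3 (by positivity)
        _ = _ := by ring
    have h5 : β * μ ^ (i + 2) * a ≤ 1 / 10 * β * μ ^ (i + 1) * a := by
      have : μ ≤ 1 / 10 := hμ1.trans (by norm_num)
      calc β * μ ^ (i + 2) * a = μ * (β * μ ^ (i + 1) * a) := by ring
        _ ≤ 1 / 10 * (β * μ ^ (i + 1) * a) := mul_le_mul_of_nonneg_right this (by positivity)
        _ = _ := by ring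
    linarith

end

end Pool.Agent.K1H54.LO
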