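import Pool.Agent.K1H54.LO.IterB

/-! The iteration of the stages. -/

open Set Filter Topology MeasureTheory

set_option autoImplicit false

namespace Pool.Agent.K1H54.LO

section
variable {lam ε c₀ T : ℝ} {d : ℕ → ℝ} {y z E : ℕ → ℝ → ℝ}

/-- the feeding shell -/
lemma feed (hP : Par lam ε c₀ d) (h : Red lam ε c₀ d T y z E) {n : ℕ} {t a : ℝ}
    (hS : St lam ε c₀ T y z E n t a) (ha0 : 0 < a) : ∃ M : ℝ → ℝ,
    (∀ s ∈ Ico 0 T, lam * fd c₀ lam z n s ≤ c₀ * lam ^ n * (M s - E n s)) ∧
    ∀ s, t ≤ s → s < T → (s - t) * (c₀ * lam ^ n * a) ≤ 520 * lam →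
      M s ≤ (1 + 11 / 10 ^ 7) * a ^ 2 := by
  have hlb := hP.lam_big
  have hl : 0 < lam := lt_of_lt_of_le (by norm_num) hlb
  have hc0 := hP.c0
  rcases n with _ | m
  · refine ⟨E 0, fun s _ => by simp [fd], fun s hts hs _ => ?_⟩
    have h1 := dec0 h hS.mem.1 hts hs
    have h2 : E 0 s ≤ E 0 t := (Real.sqrt_le_sqrt_iff (h.nonneg 0 t hS.mem)).1 h1
    refine (h2.trans hS.en).trans ?_
    have h3 : Real.exp (-(596 * lam)) ≤ 11 / 10 ^ 7 := by
      have h4 := (ex_cases (a := 0) (b := 596 * lam) hlb (by linarith)).2.2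
      have h5 : (1 : ℝ) ≤ lam ^ 2 := one_le_pow₀ (le_trans (by norm_num) hlb)
      have h6 := Real.exp_pos (-(596 * lam))
      have h7 : 1 * Real.exp (-(596 * lam)) ≤ lam ^ 2 * Real.exp (-(596 * lam)) := by gcongr
      simp only [neg_zero, Real.exp_zero] at h4
      norm_num at h4 ⊢
      linarith
    gcongr
  · refine ⟨E m, fun s hs => ?_, fun s hts hs hw => pre hc0 hlb h hS ha0 m rfl s hts hs hw⟩
    have h1 := h.le m s hs
    have h2 : z m s ^ 2 ≤ E m s - E (m + 1) s := by nlinarith [sq_nonneg (y m s)]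
    simp only [fd]
    calc lam * (c₀ * lam ^ m * z m s ^ 2) = c₀ * lam ^ (m + 1) * z m s ^ 2 := by ring
      _ ≤ _ := mul_le_mul_of_nonneg_left h2 (by positivity)

lemma fd_nonneg (hc0 : 0 < c₀) (hl : 0 < lam) (n : ℕ) (s : ℝ) : 0 ≤ fd c₀ lam z n s := by
  rcases n with _ | n
  · simp [fd]
  · simp only [fd]; positivity

/-- the step from the stage `n` to the stage `n + 1` -/
theorem step (hP : Par lam ε c₀ d) (h : Red lam ε c₀ d T y z E) {n : ℕ} {t a : ℝ}
    (hS : St lam ε c₀ T y z E n t a) :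
    (∃ t' a', St lam ε c₀ T y z E (n + 1) t' a') ∨
    (T ≤ 1040 * lam / c₀ ∧ ∀ s ∈ Ico t T, ∀ j : ℕ,
      √(E (n + 2 + j) s) ≤ a * ((2 * lam)⁻¹) ^ j) := by
  have hlb := hP.lam_big
  have hl : 0 < lam := lt_of_lt_of_le (by norm_num) hlb
  have hc0 := hP.c0
  have hC := cs hlb
  have hp : (0 : ℝ) < (1 - 1 / 10 ^ 5) ^ n := by positivity
  have ha0 : 0 < a := hp.trans_le hS.ha
  have hεe := hP.eps
  have hε : 0 < ε := by rw [hεe]; exact Real.exp_pos _
  rw [← hεe] at hC
  set κ := Real.exp (-(600 * lam)) with hκ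
  set β := Real.exp (-(550 * lam)) with hβ
  set V := Real.exp (-(312 * lam)) with hV
  set θ := Real.exp (-(398 * lam)) with hθ
  set τ := Real.exp (-(596 * lam)) with hτ
  have hcn : 0 < c₀ * lam ^ n := by positivity
  set ω := c₀ * lam ^ n * a with hω
  have hω0 : 0 < ω := by positivity
  set A := 1 / a with hA
  set B := A / ω with hB
  have hA0 : 0 < A := by positivity
  have hB0 : 0 < B := by positivity
  have hAa : A * a = 1 := by rw [hA]; field_simp
  have hcB : c₀ * lam ^ n * B = A ^ 2 := by rw [hB, hA, hω]; field_simp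
  have hωB : ω * B = A := by rw [hB]; field_simp
  -- the functions
  choose! H0 hH0 using h.dy n
  choose! K0 hK0 using h.dz n
  choose! H1 hH1 using h.dy (n + 1)
  choose! K1 hK1 using h.dz (n + 1)
  choose! D0 hD0 using h.dE n
  choose! D1 hD1 using h.dE (n + 1)
  choose! D2 hD2 using h.dE (n + 2)
  obtain ⟨M, hM1, hM2⟩ := feed hP h hS ha0
  have hmap : ∀ r ∈ Ico 0 ((T - t) * ω), t + r / ω ∈ Ico 0 T ∧ t ≤ t + r / ω := by
    intro x hx
    have h1 : 0 ≤ x / ω := div_nonneg hx.1 hω0.le
    have h2 : x / ω < T - t := by rw [div_lt_iff₀ hω0]; exact hx.2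
    exact ⟨⟨by linarith [hS.mem.1], by linarith⟩, by linarith⟩
  have hT0 : 0 < (T - t) * ω := mul_pos (by linarith [hS.mem.2]) hω0
  have h0mem : (0 : ℝ) ∈ Ico 0 ((T - t) * ω) := ⟨le_rfl, hT0⟩
  have hz0 : t + 0 / ω = t := by simp
  -- the antiderivative of `w`
  have dW0 := resc (A := A) hS.mem hω0 (fun s hs => (hH1 s hs).2)
  obtain ⟨W, hW0, hW1⟩ := antider (g := fun r => y (n + 1) (t + r / ω) * A) (T := (T - t) * ω)
    (fun r hr => (dW0 r hr).continuousWithinAt)
  -- damping
  have hd0 : d n ≤ κ * ω := by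
    have h1 := hP.d_small n
    have h2 : Real.exp (-(700 * lam)) ≤ κ := Real.exp_le_exp.2 (by linarith)
    calc d n ≤ Real.exp (-(700 * lam)) * (c₀ * lam ^ n) * (1 - 1 / 10 ^ 5) ^ n := h1
      _ ≤ κ * (c₀ * lam ^ n) * a := by
        have := hS.ha
        gcongr
      _ = κ * ω := by rw [hω]; ring
  have hd1 : d (n + 1) ≤ κ * ω := by
    have h1 := hP.d_small (n + 1)
    have h2 : lam * Real.exp (-(700 * lam)) ≤ κ := by
      have h3 := (ex_cases (a := 600 * lam) (b := 700 * lam) hlb (by linarith)).2.1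
      have h4 : 0 ≤ lam * Real.exp (-(700 * lam)) := by positivity
      linarith
    have h3 : (1 - 1 / 10 ^ 5 : ℝ) ^ (n + 1) ≤ a := by
      refine le_trans ?_ hS.ha
      rw [pow_succ]
      exact mul_le_of_le_one_right hp.le (by norm_num)
    calc d (n + 1) ≤ Real.exp (-(700 * lam)) * (c₀ * lam ^ (n + 1)) * (1 - 1 / 10 ^ 5) ^ (n + 1) := h1
      _ = (lam * Real.exp (-(700 * lam))) * (c₀ * lam ^ n) * (1 - 1 / 10 ^ 5) ^ (n + 1) := by ring
      _ ≤ κ * (c₀ * lam ^ n) * a := by gcongr
      _ = κ * ω := by rw [hω]; ring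
  have hdamp : ∀ (D H e : ℝ), 0 ≤ e → |H| ≤ D * √e → D ≤ κ * ω → |H * B| ≤ κ * √(e * A ^ 2) := by
    intro D H e he h1 h2
    rw [abs_mul, abs_of_pos hB0, Real.sqrt_mul he, Real.sqrt_sq hA0.le]
    have h3 : |H| ≤ κ * ω * √e := h1.trans (mul_le_mul_of_nonneg_right h2 (Real.sqrt_nonneg _))
    calc |H| * B ≤ κ * ω * √e * B := mul_le_mul_of_nonneg_right h3 hB0.le
      _ = κ * (√e * (ω * B)) := by ring
      _ = κ * (√e * A) := by rw [hωB]
  -- the stage
  have hstg : Stg lam ε κ β τ ((T - t) * ω)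
      (fun r => fd c₀ lam z n (t + r / ω) * B) (fun r => y n (t + r / ω) * A)
      (fun r => z n (t + r / ω) * A) (fun r => y (n + 1) (t + r / ω) * A)
      (fun r => z (n + 1) (t + r / ω) * A) (fun r => y (n + 2) (t + r / ω) * A)
      (fun r => E n (t + r / ω) * A ^ 2) (fun r => E (n + 1) (t + r / ω) * A ^ 2)
      (fun r => E (n + 2) (t + r / ω) * A ^ 2) (fun r => M (t + r / ω) * A ^ 2)
      (fun r => H0 (t + r / ω) * B) (fun r => K0 (t + r / ω) * B)
      (fun r => H1 (t + r / ω) * B) (fun r => K1 (t + r / ω) * B)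
      (fun r => D0 (t + r / ω) * (A ^ 2 / ω)) (fun r => D1 (t + r / ω) * (A ^ 2 / ω))
      (fun r => D2 (t + r / ω) * (A ^ 2 / ω)) W := by
    have hAB : A ^ 2 / ω = A * B := by rw [hB]; ring
    refine ⟨hT0, ?_, ?_, ?_, ?_, ?_, ?_, ?_, hW1, ?_, ?_, ?_, ?_, ?_, ?_, ?_, ?_, ?_, ?_, ?_, ?_,
      ?_, ?_, ?_, ?_, ?_, ?_, hW0⟩
    · intro r hr
      refine (resc (A := A) hS.mem hω0 (fun s hs => (hH0 s hs).2) r hr).congr_deriv ?_
      rw [← hB]
      try simp only
      linear_combination (-(z n (t + r / ω)) ^ 2 - ε * y n (t + r / ω) * z n (t + r / ω)) * hcB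
    · intro r hr
      refine (resc (A := A) hS.mem hω0 (fun s hs => (hK0 s hs).2) r hr).congr_deriv ?_
      rw [← hB]
      try simp only
      linear_combination (z n (t + r / ω) * (y n (t + r / ω) - y (n + 1) (t + r / ω)) +
        ε * y n (t + r / ω) ^ 2) * hcB
    · intro r hr
      refine (resc (A := A) hS.mem hω0 (fun s hs => (hH1 s hs).2) r hr).congr_deriv ?_
      rw [← hB]
      simp only [fd]
      linear_combination (z n (t + r / ω) ^ 2 - lam * z (n + 1) (t + r / ω) ^ 2 -
        ε * lam * y (n + 1) (t + r / ω) * z (n + 1) (t + r / ω)) * hcB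
    · intro r hr
      refine (resc (A := A) hS.mem hω0 (fun s hs => (hK1 s hs).2) r hr).congr_deriv ?_
      rw [← hB]
      try simp only
      have e1 : n + 1 + 1 = n + 2 := rfl
      rw [e1]
      linear_combination (lam * z (n + 1) (t + r / ω) * (y (n + 1) (t + r / ω) -
        y (n + 2) (t + r / ω)) + ε * lam * y (n + 1) (t + r / ω) ^ 2) * hcB
    · exact resc hS.mem hω0 (fun s hs => (hD0 s hs).1)
    · exact resc hS.mem hω0 (fun s hs => (hD1 s hs).1)
    · exact resc hS.mem hω0 (fun s hs => (hD2 s hs).1)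
    · exact fun r hr => hdamp _ _ _ (h.nonneg _ _ (hmap r hr).1) (hH0 _ (hmap r hr).1).1 hd0
    · exact fun r hr => hdamp _ _ _ (h.nonneg _ _ (hmap r hr).1) (hK0 _ (hmap r hr).1).1 hd0
    · exact fun r hr => hdamp _ _ _ (h.nonneg _ _ (hmap r hr).1) (hH1 _ (hmap r hr).1).1 hd1
    · exact fun r hr => hdamp _ _ _ (h.nonneg _ _ (hmap r hr).1) (hK1 _ (hmap r hr).1).1 hd1
    · intro r hr
      try simp only
      rw [hAB]
      have h1 := mul_le_mul_of_nonneg_right (hD0 _ (hmap r hr).1).2 (mul_pos hA0 hB0).le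
      refine h1.trans (le_of_eq ?_)
      ring
    · intro r hr
      try simp only
      rw [hAB]
      have h1 := mul_le_mul_of_nonneg_right (hD1 _ (hmap r hr).1).2 (mul_pos hA0 hB0).le
      refine h1.trans (le_of_eq ?_)
      simp only [fd]
      linear_combination (2 * z n (t + r / ω) ^ 2 * y (n + 1) (t + r / ω) * A) * hcB
    · intro r hr
      try simp only
      rw [hAB]
      have h1 := mul_le_mul_of_nonneg_right (hD2 _ (hmap r hr).1).2 (mul_pos hA0 hB0).le
      refine h1.trans (le_of_eq ?_)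
      simp only [fd]
      linear_combination (2 * lam * z (n + 1) (t + r / ω) ^ 2 * y (n + 2) (t + r / ω) * A) * hcB
    · intro r hr
      have := mul_le_mul_of_nonneg_right (h.le n _ (hmap r hr).1) (sq_nonneg A)
      try simp only
      nlinarith
    · intro r hr
      have := mul_le_mul_of_nonneg_right (h.le (n + 1) _ (hmap r hr).1) (sq_nonneg A)
      try simp only
      have e1 : n + 1 + 1 = n + 2 := rfl
      rw [e1] at this
      nlinarith
    · intro r hr
      have h1 := h.le (n + 2) _ (hmap r hr).1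
      have h2 := h.nonneg (n + 2 + 1) _ (hmap r hr).1
      have h3 : y (n + 2) (t + r / ω) ^ 2 ≤ E (n + 2) (t + r / ω) := by
        nlinarith [sq_nonneg (z (n + 2) (t + r / ω))]
      have := mul_le_mul_of_nonneg_right h3 (sq_nonneg A)
      try simp only
      nlinarith
    · exact fun r hr => mul_nonneg (fd_nonneg hc0 hl n _) hB0.le
    · intro r hr
      have h1 := mul_le_mul_of_nonneg_right (hM1 _ (hmap r hr).1) hB0.le
      try simp only
      calc lam * (fd c₀ lam z n (t + r / ω) * B) = lam * fd c₀ lam z n (t + r / ω) * B := by ring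
        _ ≤ c₀ * lam ^ n * (M (t + r / ω) - E n (t + r / ω)) * B := h1
        _ = (c₀ * lam ^ n * B) * (M (t + r / ω) - E n (t + r / ω)) := by ring
        _ = _ := by rw [hcB]; ring
    · intro r hr hrl
      have h1 := hM2 (t + r / ω) (hmap r hr).2 (hmap r hr).1.2 (by
        have : (t + r / ω - t) * (c₀ * lam ^ n * a) = r := by
          rw [← hω]; field_simp; ring
        rw [this]; exact hrl)
      have h2 := mul_le_mul_of_nonneg_right h1 (sq_nonneg A)
      have e : (1 + 11 / 10 ^ 7) * a ^ 2 * A ^ 2 = (1 + 11 / 10 ^ 7) := by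
        have : a ^ 2 * A ^ 2 = 1 := by rw [← mul_pow, mul_comm a A, hAa, one_pow]
        rw [mul_assoc, this, mul_one]
      rw [e] at h2
      exact h2
    · simp only [hz0, hS.ya]; rw [mul_comm]; exact hAa
    · simp only [hz0]
      have h2 := mul_le_mul_of_nonneg_right hS.en (sq_nonneg A)
      have e : (1 + Real.exp (-(596 * lam))) * a ^ 2 * A ^ 2 = 1 + τ := by
        have : a ^ 2 * A ^ 2 = 1 := by rw [← mul_pow, mul_comm a A, hAa, one_pow]
        rw [mul_assoc, this, mul_one]
      rw [e] at h2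
      exact h2
    · simp only [hz0]
      have h2 := mul_le_mul_of_nonneg_right hS.zn hA0.le
      have e : -(ε / 2 * a) * A = -(ε / 2) := by linear_combination (-(ε / 2)) * hAa
      rw [e] at h2
      exact h2
    · simp only [hz0]
      rw [Real.sqrt_mul (h.nonneg _ _ hS.mem), Real.sqrt_sq hA0.le]
      have h2 := mul_le_mul_of_nonneg_right (hS.tl 0) hA0.le
      rw [add_zero, pow_zero, mul_one] at h2
      calc √(E (n + 1) t) * A ≤ β * a * A := h2
        _ = β := by rw [mul_assoc, mul_comm a A, hAa, mul_one]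
    · simp only [hz0]
      rw [Real.sqrt_mul (h.nonneg _ _ hS.mem), Real.sqrt_sq hA0.le]
      have h2 := mul_le_mul_of_nonneg_right (hS.tl 1) hA0.le
      rw [pow_one] at h2
      have h3 : (2 * lam)⁻¹ ≤ 1 / 2 := by
        rw [← one_div]
        gcongr
        linarith [le_trans (by norm_num : (1:ℝ) ≤ 10 ^ 13) hlb]
      calc √(E (n + 2) t) * A ≤ β * (2 * lam)⁻¹ * a * A := h2
        _ = β * (2 * lam)⁻¹ := by rw [mul_assoc, mul_comm a A, hAa, mul_one]
        _ ≤ β * (1 / 2) := mul_le_mul_of_nonneg_left h3 hC.β0.le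
        _ = _ := by ring
  -- times
  have htime : 520 * lam / ω ≤ 520 * lam / c₀ * (1 / 2) ^ n := by
    rw [div_le_iff₀ hω0]
    have h1 : (2 : ℝ) ^ n ≤ lam ^ n * a := by
      calc (2 : ℝ) ^ n ≤ (lam * (1 - 1 / 10 ^ 5)) ^ n := by
            gcongr
            norm_num at hlb ⊢
            linarith
        _ = lam ^ n * (1 - 1 / 10 ^ 5) ^ n := mul_pow _ _ _
        _ ≤ lam ^ n * a := by
          have := hS.ha
          gcongr
    have h2 : (1 / 2 : ℝ) ^ n * 2 ^ n = 1 := by rw [← mul_pow]; norm_num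
    calc 520 * lam = 520 * lam * ((1 / 2 : ℝ) ^ n * 2 ^ n) := by rw [h2, mul_one]
      _ ≤ 520 * lam * ((1 / 2 : ℝ) ^ n * (lam ^ n * a)) := by gcongr
      _ = 520 * lam / c₀ * (1 / 2) ^ n * ω := by rw [hω]; field_simp
  have hsum : t + 520 * lam / ω ≤ 1040 * lam / c₀ * (1 - (1 / 2) ^ (n + 1)) := by
    have h1 := hS.time
    have e : 1040 * lam / c₀ * (1 - (1 / 2) ^ (n + 1)) =
        1040 * lam / c₀ * (1 - (1 / 2) ^ n) + 520 * lam / c₀ * (1 / 2) ^ n := by
      rw [pow_succ]; ring
    rw [e]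
    linarith
  rcases stage hC hstg with ⟨b, hb, hb1, hb2, hb3, hb4, hb5, hb6, -⟩ | ⟨h1, h2⟩
  · left
    set t' := t + b / ω with ht'
    have hmt := hmap b hb
    have hbω : b / ω ≤ 520 * lam / ω := by gcongr
    have hw : (t' - t) * (c₀ * lam ^ n * a) ≤ 520 * lam := by
      have : (t' - t) * (c₀ * lam ^ n * a) = b := by
        rw [← hω, ht']; field_simp; ring
      rw [this]; exact hb1
    set a' := y (n + 1) t' with ha'
    have hwa : a' * A = y (n + 1) (t + b / ω) * A := rfl
    have ha'1 : (1 - 1 / 10 ^ 6) * a ≤ a' := by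
      have h3 := mul_le_mul_of_nonneg_right hb3 ha0.le
      have e : y (n + 1) (t + b / ω) * A * a = a' := by
        rw [mul_assoc, hAa, mul_one]
      try simp only at h3
      rw [e] at h3
      exact h3
    have ha'0 : 0 < a' := lt_of_lt_of_le (by positivity) ha'1
    have hAa2 : A ^ 2 * a ^ 2 = 1 := by rw [← mul_pow, hAa, one_pow]
    have hEn : E n t' ≤ (1 + 102 / 10 ^ 8) * a' ^ 2 := by
      have h3 := mul_le_mul_of_nonneg_right hb4 (sq_nonneg a)
      try simp only at h3
      have e1 : E n (t + b / ω) * A ^ 2 * a ^ 2 = E n t' := by rw [mul_assoc, hAa2, mul_one]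
      have e2 : (1 + 102 / 10 ^ 8) * (y (n + 1) (t + b / ω) * A) ^ 2 * a ^ 2 =
          (1 + 102 / 10 ^ 8) * a' ^ 2 := by
        linear_combination ((1 + 102 / 10 ^ 8) * a' ^ 2) * hAa2
      rw [e1, e2] at h3
      exact h3
    refine ⟨t', a', hmt.1, ?_, ?_, rfl, ?_, ?_, ?_, ?_, ?_⟩
    · linarith
    · calc (1 - 1 / 10 ^ 5 : ℝ) ^ (n + 1) = (1 - 1 / 10 ^ 5) ^ n * (1 - 1 / 10 ^ 5) := pow_succ _ _
        _ ≤ a * (1 - 1 / 10 ^ 6) := by
          have := hS.ha
          gcongr <;> norm_num
        _ ≤ a' := by rw [mul_comm]; exact ha'1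
    · have h3 := mul_le_mul_of_nonneg_right hb5 (sq_nonneg a)
      try simp only at h3
      have e1 : E (n + 1) (t + b / ω) * A ^ 2 * a ^ 2 = E (n + 1) t' := by
        rw [mul_assoc, hAa2, mul_one]
      have e2 : (1 + τ) * (y (n + 1) (t + b / ω) * A) ^ 2 * a ^ 2 = (1 + τ) * a' ^ 2 := by
        linear_combination ((1 + τ) * a' ^ 2) * hAa2
      rw [e1, e2] at h3
      exact h3
    · have h3 := mul_le_mul_of_nonneg_right hb6 ha0.le
      try simp only at h3
      have e1 : z (n + 1) (t + b / ω) * A * a = z (n + 1) t' := by rw [mul_assoc, hAa, mul_one]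
      have e2 : -(ε / 2 * (y (n + 1) (t + b / ω) * A)) * a = -(ε / 2 * a') := by
        linear_combination (-(ε / 2) * a') * hAa
      rw [e1, e2] at h3
      exact h3
    · intro j
      have hv : ∀ r ∈ Icc t t', |z (n + 1) r| ≤ Real.exp (-(312 * lam)) * a := by
        intro r hr
        have hr1 : (r - t) * ω ∈ Icc 0 b := by
          refine ⟨mul_nonneg (by linarith [hr.1]) hω0.le, ?_⟩
          have : r - t ≤ b / ω := by linarith [hr.2]
          rwa [le_div_iff₀ hω0] at this
        have h3 := hb2 _ hr1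
        try simp only at h3
        have e1 : t + (r - t) * ω / ω = r := by field_simp; ring
        rw [e1, abs_mul, abs_of_pos hA0] at h3
        have h4 := mul_le_mul_of_nonneg_right h3 ha0.le
        rwa [mul_assoc, hAa, mul_one] at h4
      have h3 := tails hc0 hlb h hS ha0 hmt.2 hmt.1.2 hw hv j t' ⟨hmt.2, le_rfl⟩
      have e1 : n + 1 + 1 + j = n + 2 + j := by ring
      rw [e1]
      refine h3.trans ?_
      have h4 : 6 / 10 * a ≤ a' := by
        norm_num at ha'1
        linarith
      calc 6 / 10 * Real.exp (-(550 * lam)) * ((2 * lam)⁻¹) ^ j * a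
          = Real.exp (-(550 * lam)) * ((2 * lam)⁻¹) ^ j * (6 / 10 * a) := by ring
        _ ≤ _ := mul_le_mul_of_nonneg_left h4 (by positivity)
    · intro i hi
      rcases Nat.lt_succ_iff_lt_or_eq.1 hi with hi1 | hi1
      · have h3 := low hc0 hlb h hS ha0 i hi1 t' hmt.2 hmt.1.2 hw
        have e1 : n + 1 - i = n - i + 1 := by omega
        rw [e1, pow_succ]
        refine h3.trans ?_
        have h4 : (1 + 1 / 10 ^ 9) * a ≤ 11 / 10 * a' := by
          norm_num at ha'1 ⊢
          linarith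
        calc (1 + 1 / 10 ^ 9) * ((11 / 10 : ℝ) ^ (n - i) * a)
            = (11 / 10 : ℝ) ^ (n - i) * ((1 + 1 / 10 ^ 9) * a) := by ring
          _ ≤ (11 / 10 : ℝ) ^ (n - i) * (11 / 10 * a') := mul_le_mul_of_nonneg_left h4 (by positivity)
          _ = _ := by ring
      · subst hi1
        have e1 : i + 1 - i = 1 := by omega
        rw [e1, pow_one, show 11 / 10 * a' = √((11 / 10 * a') ^ 2) from
          (Real.sqrt_sq (by positivity)).symm]
        refine Real.sqrt_le_sqrt (hEn.trans ?_)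
        rw [mul_pow]
        gcongr
        norm_num
    · intro m hm
      have : m = n := by omega
      rw [this]
      exact hEn
  · right
    have hT1 : T - t ≤ 520 * lam / ω := by
      rw [le_div_iff₀ hω0]; exact h1
    refine ⟨?_, fun s hs j => ?_⟩
    · have h3 : 1040 * lam / c₀ * (1 - (1 / 2) ^ (n + 1)) ≤ 1040 * lam / c₀ := by
        have : 0 ≤ 1040 * lam / c₀ := by positivity
        have h4 : (0 : ℝ) ≤ (1 / 2) ^ (n + 1) := by positivity
        nlinarith
      linarith
    · have hw : (s - t) * (c₀ * lam ^ n * a) ≤ 520 * lam := by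
        rw [← hω]
        calc (s - t) * ω ≤ (T - t) * ω := by
              have := hs.2.le
              gcongr
          _ ≤ 520 * lam := h1
      have hv : ∀ r ∈ Icc t s, |z (n + 1) r| ≤ Real.exp (-(312 * lam)) * a := by
        intro r hr
        have hr1 : (r - t) * ω ∈ Ico 0 ((T - t) * ω) := by
          refine ⟨mul_nonneg (by linarith [hr.1]) hω0.le, ?_⟩
          have : r < T := hr.2.trans_lt hs.2
          gcongr
        have h3 := h2 _ hr1
        try simp only at h3
        have e1 : t + (r - t) * ω / ω = r := by field_simp; ring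
        rw [e1, abs_mul, abs_of_pos hA0] at h3
        have h4 := mul_le_mul_of_nonneg_right h3 ha0.le
        rwa [mul_assoc, hAa, mul_one] at h4
      have h3 := tails hc0 hlb h hS ha0 hs.1 hs.2 hw hv j s ⟨hs.1, le_rfl⟩
      refine h3.trans ?_
      have h4 : 6 / 10 * Real.exp (-(550 * lam)) ≤ 1 := by
        have : Real.exp (-(550 * lam)) ≤ 1 := Real.exp_le_one_iff.2 (by linarith)
        linarith
      calc 6 / 10 * Real.exp (-(550 * lam)) * ((2 * lam)⁻¹) ^ j * a
          = (6 / 10 * Real.exp (-(550 * lam))) * (((2 * lam)⁻¹) ^ j * a) := by ring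
        _ ≤ 1 * (((2 * lam)⁻¹) ^ j * a) := mul_le_mul_of_nonneg_right h4 (by positivity)
        _ = _ := by ring

/-- Blow-up for the reduced system. -/
theorem ode_main (hP : Par lam ε c₀ d) (hT : 0 < T) (h : Red lam ε c₀ d T y z E) :
    T ≤ 1040 * lam / c₀ ∧ (Grow lam T y E ∨
      ∃ (n₀ : ℕ) (K₀ : ℝ), ∃ s ∈ Ico 0 T, ∀ t ∈ Ico s T, ∀ j : ℕ,
        √(E (n₀ + j) t) ≤ K₀ * ((2 * lam)⁻¹) ^ j) := by
  have hlb := hP.lam_big
  have hl : 0 < lam := lt_of_lt_of_le (by norm_num) hlb
  have hc0 := hP.c0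
  by_cases hall : ∀ n, ∃ t a, St lam ε c₀ T y z E n t a
  · refine ⟨?_, Or.inl fun n => ?_⟩
    · by_contra hcon
      push Not at hcon
      obtain ⟨M, hM⟩ := h.bdd _ hcon
      have hb : ∀ n : ℕ, (2 : ℝ) ^ n ≤ M := by
        intro n
        obtain ⟨t, a, hS⟩ := hall n
        have ha0 : 0 < a := lt_of_lt_of_le (by positivity) hS.ha
        have h1 : t ≤ 1040 * lam / c₀ := by
          have h3 : 1040 * lam / c₀ * (1 - (1 / 2) ^ n) ≤ 1040 * lam / c₀ := by
            have : 0 ≤ 1040 * lam / c₀ := by positivity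
            have h4 : (0 : ℝ) ≤ (1 / 2) ^ n := by positivity
            nlinarith
          exact hS.time.trans h3
        have h2 := hM t ⟨hS.mem.1, h1⟩ n
        have h3 := (abs_le.1 (h.yE n hS.mem)).2
        rw [hS.ya] at h3
        calc (2 : ℝ) ^ n ≤ (lam * (1 - 1 / 10 ^ 5)) ^ n := by
              gcongr
              norm_num at hlb ⊢
              linarith
          _ = lam ^ n * (1 - 1 / 10 ^ 5) ^ n := mul_pow _ _ _
          _ ≤ lam ^ n * √(E n t) := by
            have := hS.ha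
            gcongr
            linarith
          _ ≤ M := h2
      obtain ⟨n, hn⟩ := pow_unbounded_of_one_lt M (by norm_num : (1 : ℝ) < 2)
      exact absurd (hb n) (not_le.2 hn)
    · obtain ⟨t, a, hS⟩ := hall n
      have ha0 : 0 < a := lt_of_lt_of_le (by positivity) hS.ha
      refine ⟨t, hS.mem, a, hS.ha, hS.ya, hS.en.trans ?_, hS.lo, fun j => (hS.tl j).trans ?_⟩
      · have h3 : Real.exp (-(596 * lam)) ≤ 1 / 10 ^ 10 := by
          have h4 := (ex_cases (a := 0) (b := 596 * lam) hlb (by linarith)).2.2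
          have h5 : (1 : ℝ) ≤ lam ^ 2 := one_le_pow₀ (le_trans (by norm_num) hlb)
          have h6 := Real.exp_pos (-(596 * lam))
          have h7 : 1 * Real.exp (-(596 * lam)) ≤ lam ^ 2 * Real.exp (-(596 * lam)) := by gcongr
          simp only [neg_zero, Real.exp_zero] at h4
          norm_num at h4 ⊢
          linarith
        gcongr
      · have : Real.exp (-(550 * lam)) ≤ Real.exp (-(300 * lam)) := Real.exp_le_exp.2 (by linarith)
        gcongr
  · push Not at hall
    classical
    obtain ⟨n, hn1, hn2⟩ : ∃ n, (∃ t a, St lam ε c₀ T y z E n t a) ∧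
        ¬ ∃ t a, St lam ε c₀ T y z E (n + 1) t a := by
      by_contra hcon
      push Not at hcon
      have hind : ∀ n, ∃ t a, St lam ε c₀ T y z E n t a := by
        intro n
        induction n with
        | zero =>
          have h0 : (0 : ℝ) ∈ Ico 0 T := ⟨le_rfl, hT⟩
          have hE := h.le 0 0 h0
          have hE1 := h.nonneg 1 0 h0
          rw [h.init_y, h.init_E] at hE
          have hz : z 0 0 ^ 2 ≤ 0 := by nlinarith
          have hz0 : z 0 0 = 0 := by nlinarith [sq_nonneg (z 0 0)]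
          have htail : ∀ j : ℕ, E (1 + j) 0 ≤ 0 := by
            intro j
            induction j with
            | zero => simp only [add_zero]; nlinarith
            | succ j ih =>
              have h1 := h.le (1 + j) 0 h0
              have e : 1 + (j + 1) = 1 + j + 1 := by ring
              rw [e]
              nlinarith [sq_nonneg (y (1 + j) 0), sq_nonneg (z (1 + j) 0)]
          refine ⟨0, 1, h0, by simp, by simp, h.init_y, ?_, ?_, ?_, ?_, ?_⟩
          · rw [h.init_E]
            have := Real.exp_pos (-(596 * lam))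
            nlinarith
          · rw [hz0]
            have : 0 < ε := by rw [hP.eps]; exact Real.exp_pos _
            linarith
          · intro j
            rw [zero_add, Real.sqrt_eq_zero_of_nonpos (htail j)]
            positivity
          · intro i hi
            exact absurd hi (Nat.not_lt_zero i)
          · intro m hm
            omega
        | succ n ih =>
          obtain ⟨t, a, hS⟩ := ih
          by_contra hcon2
          push Not at hcon2
          obtain ⟨t', a', hS'⟩ := hcon n ⟨t, a, hS⟩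
          exact hcon2 t' a' hS'
      obtain ⟨m, hm⟩ := hall
      obtain ⟨t, a, hS⟩ := hind m
      exact hm t a hS
    obtain ⟨t, a, hS⟩ := hn1
    rcases step hP h hS with h1 | ⟨h1, h2⟩
    · exact absurd h1 hn2
    · exact ⟨h1, Or.inr ⟨n + 2, a, t, hS.mem, h2⟩⟩

end

/-- Blow-up for the reduced system. -/
theorem t_ODE : S_ODE := fun lam _ c₀ _ hP =>
  ⟨1040 * lam / c₀, fun _ _ _ _ hT h => ode_main hP hT h⟩

end Pool.Agent.K1H54.LO
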