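import Pool.Agent.K1H54.LO.IterC
import Pool.Agent.K1H54.LO.Defs2
import Pool.Agent.K1H21.LO.Adm
import Pool.Agent.K1H21.LO.Red
import Pool.Agent.Y37.NE.ABS2

/-! Blow-up for the modes (`S_MOD2`). -/

open Set Topology MeasureTheory
open Filter hiding ker

set_option autoImplicit false

namespace Pool.Agent.K1H54.LO

open Pool.Agent.Y5 Pool.Agent.Y5.D Pool.Agent.Y5.E Pool.Agent.K1H21.LO

theorem t_ODET : S_ODET := fun _ _ _ _ hP _ _ _ _ hT h => ode_main hP hT h

section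
variable {I : Type} {sh : I → ℕ} {ty : I → Bool} {m : ℕ → ℕ}

/-- bounded tails give a bound in the space of the well-posedness theorem -/
lemma nk_tail (h : Shl sh ty m) {lam : ℝ} (hlam : 1 < lam) {z : I → ℝ}
    (hz : Sk (fun i => lam ^ sh i) 1 z) {n₀ : ℕ} {K₀ : ℝ} (h0 : En sh z 0 ≤ 1)
    (ht : ∀ j : ℕ, √(En sh z (n₀ + j)) ≤ K₀ * ((2 * lam)⁻¹) ^ j) :
    nk (fun i => lam ^ sh i) 1 z ≤ 2 * ((lam ^ n₀) ^ 2 * ((1 + K₀ ^ 2) * 4 ^ n₀)) := by
  have hl : 0 < lam := by linarith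
  have hz2 := Sk_l2 hlam hz
  set X := (lam ^ n₀) ^ 2 * ((1 + K₀ ^ 2) * 4 ^ n₀) with hX
  have hX0 : 0 ≤ X := by positivity
  have term : ∀ n, ((lam ^ n) ^ 1) ^ 2 * sg h n z ≤ X * (1 / 4) ^ n := by
    intro n
    rw [pow_one]
    have h1 := sg_le_En h hz2 n
    rcases lt_or_ge n n₀ with hn | hn
    · have h2 : En sh z n ≤ 1 := by
        refine le_trans ?_ h0
        refine (En_summ hz2 n).tsum_le_tsum (fun i => ?_) (En_summ hz2 0)
        split_ifs
        · exact le_rfl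
        · exact absurd (Nat.zero_le _) ‹¬ 0 ≤ sh i›
        · exact sq_nonneg _
        · exact le_rfl
      have h3 : (lam ^ n) ^ 2 ≤ (lam ^ n₀) ^ 2 :=
        pow_le_pow_left₀ (by positivity) (pow_le_pow_right₀ hlam.le hn.le) 2
      have h4 : (1 : ℝ) ≤ 4 ^ n₀ * (1 / 4) ^ n := by
        have e : (4 : ℝ) ^ n₀ = 4 ^ (n₀ - n) * 4 ^ n := by rw [← pow_add]; congr 1; omega
        rw [e, mul_assoc, ← mul_pow]
        norm_num
        exact one_le_pow₀ (by norm_num)
      calc (lam ^ n) ^ 2 * sg h n z ≤ (lam ^ n₀) ^ 2 * 1 :=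
            mul_le_mul h3 (h1.trans h2) (sg_nonneg h n z) (by positivity)
        _ ≤ (lam ^ n₀) ^ 2 * ((1 + K₀ ^ 2) * (4 ^ n₀ * (1 / 4) ^ n)) := by
          gcongr
          nlinarith [sq_nonneg K₀]
        _ = X * (1 / 4) ^ n := by rw [hX]; ring
    · obtain ⟨j, rfl⟩ := Nat.exists_eq_add_of_le hn
      have h2 := ht j
      have hE := En_nonneg (sh := sh) z (n₀ + j)
      have h3 : En sh z (n₀ + j) ≤ K₀ ^ 2 * (((2 * lam)⁻¹) ^ j) ^ 2 := by
        calc En sh z (n₀ + j) = √(En sh z (n₀ + j)) ^ 2 := (Real.sq_sqrt hE).symm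
          _ ≤ (K₀ * ((2 * lam)⁻¹) ^ j) ^ 2 := pow_le_pow_left₀ (Real.sqrt_nonneg _) h2 2
          _ = _ := by ring
      have e1 : (lam ^ j * ((2 * lam)⁻¹) ^ j) ^ 2 = (1 / 4) ^ j := by
        rw [← mul_pow, ← pow_mul, mul_comm j 2, pow_mul]
        congr 1
        field_simp
        norm_num
      calc (lam ^ (n₀ + j)) ^ 2 * sg h (n₀ + j) z
          ≤ (lam ^ (n₀ + j)) ^ 2 * (K₀ ^ 2 * (((2 * lam)⁻¹) ^ j) ^ 2) :=
            mul_le_mul_of_nonneg_left (h1.trans h3) (by positivity)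
        _ = (lam ^ n₀) ^ 2 * (K₀ ^ 2 * (lam ^ j * ((2 * lam)⁻¹) ^ j) ^ 2) := by
          rw [pow_add]; ring
        _ = (lam ^ n₀) ^ 2 * (K₀ ^ 2 * (1 / 4) ^ j) := by rw [e1]
        _ ≤ (lam ^ n₀) ^ 2 * ((1 + K₀ ^ 2) * (1 / 4) ^ j) := by
          gcongr
          linarith
        _ = X * (1 / 4) ^ (n₀ + j) := by
          rw [hX, pow_add]
          have : (4 : ℝ) ^ n₀ * (1 / 4) ^ n₀ = 1 := by rw [← mul_pow]; norm_num
          linear_combination (-((lam ^ n₀) ^ 2 * (1 + K₀ ^ 2) * (1 / 4) ^ j)) * this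
  refine hz.tsum_le_of_sum_le (fun u => ?_)
  obtain ⟨N, hN⟩ := sub_UU h u
  calc ∑ i ∈ u, ((lam ^ sh i) ^ 1 * z i) ^ 2 ≤ ∑ i ∈ UU h N, ((lam ^ sh i) ^ 1 * z i) ^ 2 :=
        Finset.sum_le_sum_of_subset_of_nonneg hN (fun _ _ _ => sq_nonneg _)
    _ = ∑ n ∈ Finset.range N, ((lam ^ n) ^ 1) ^ 2 * sg h n z := by
      rw [sum_UU]
      exact Finset.sum_congr rfl fun n _ => shell_sum h n 1 z
    _ ≤ ∑ n ∈ Finset.range N, X * (1 / 4) ^ n := Finset.sum_le_sum fun n _ => term n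
    _ = X * ∑ n ∈ Finset.range N, (1 / 4 : ℝ) ^ n := by rw [Finset.mul_sum]
    _ ≤ X * 2 := by
      refine mul_le_mul_of_nonneg_left ?_ hX0
      have h1 : Summable (fun n : ℕ => (1 / 4 : ℝ) ^ n) :=
        summable_geometric_of_lt_one (by norm_num) (by norm_num)
      refine (h1.sum_le_tsum _ (fun _ _ => by positivity)).trans ?_
      rw [tsum_geometric_of_lt_one (by norm_num) (by norm_num)]
      norm_num
    _ = _ := by ring

/-- the kernel is linear in the coefficient -/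
lemma ker_mul (lam ε c₀ a₀ : ℝ) (i a b : I) :
    ker sh ty m lam ε (c₀ * a₀) i a b = a₀ * ker sh ty m lam ε c₀ i a b := by
  unfold LO.ker
  split_ifs <;> ring

lemma bl_mul (lam ε c₀ a₀ : ℝ) (z : I → ℝ) (i : I) :
    bl (ker sh ty m lam ε c₀) (fun a => a₀ * z a) (fun a => a₀ * z a) i =
      a₀ * bl (ker sh ty m lam ε (c₀ * a₀)) z z i := by
  unfold bl
  rw [← tsum_mul_left]
  refine tsum_congr fun p => ?_
  rw [ker_mul]
  ring

end

theorem t_MOD2 : S_MOD2 := by
  intro I sh ty m di d lam ε c₀ a₀ hS hd hP hc0 ha0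
  have hlam : 1 < lam := lt_of_lt_of_le (by norm_num) hP.lam_big
  have hε0 : 0 ≤ ε := by rw [hP.eps]; exact (Real.exp_pos _).le
  have hε1 : ε ≤ 1 := by
    rw [hP.eps, Real.exp_le_one_iff]
    linarith
  have hc := hP.c0
  have hadm := t_ADM I sh ty m di lam ε (c₀ * a₀) hS (fun i => (hd i).1) hlam hc hε0 hε1
  have hdn : ∀ n, d n ≤ c₀ * a₀ * lam ^ n := by
    intro n
    refine (hP.d_small n).trans ?_
    have h1 : Real.exp (-(700 * lam)) ≤ 1 := Real.exp_le_one_iff.2 (by linarith)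
    have h2 : (1 - 1 / 10 ^ 5 : ℝ) ^ n ≤ 1 := pow_le_one₀ (by norm_num) (by norm_num)
    have h3 : 0 < c₀ * a₀ * lam ^ n := by positivity
    have h4 := Real.exp_pos (-(700 * lam))
    calc Real.exp (-(700 * lam)) * (c₀ * a₀ * lam ^ n) * (1 - 1 / 10 ^ 5) ^ n
        ≤ Real.exp (-(700 * lam)) * (c₀ * a₀ * lam ^ n) * 1 := by gcongr
      _ ≤ 1 * (c₀ * a₀ * lam ^ n) * 1 := by gcongr
      _ = _ := by ring
  have hz0 : ∀ k : ℕ, Sk (fun i => lam ^ sh i) k (fv sh ty m true 0) := by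
    intro k
    unfold Sk
    refine summable_of_hasFiniteSupport ((hS.fin 0 true).subset ?_)
    intro i hi
    simp only [Function.mem_support, ne_eq, fv] at hi
    by_contra hcon
    simp only [Set.mem_ofPred_eq] at hcon
    rw [if_neg hcon] at hi
    simp at hi
  obtain ⟨z, hzi, hz⟩ := (Pool.Agent.Y37.NE.t_ABS2 I di (fun i => lam ^ sh i)
    (ker sh ty m lam ε (c₀ * a₀)) hadm).2 _ hz0
  have hred : ∀ T, 0 < T → ASol2 di (fun i => lam ^ sh i) (ker sh ty m lam ε (c₀ * a₀)) T z →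
      Rapid (fun i => lam ^ sh i) T z → Red lam ε (c₀ * a₀) d T
        (fun n t => am sh ty m true n (fun i => z i t))
        (fun n t => am sh ty m false n (fun i => z i t)) (fun n t => En sh (fun i => z i t) n) :=
    fun T hT h1 h2 => t_RED I sh ty m di d lam ε (c₀ * a₀) hS hd hlam hc hε0 hε1 hdn T z hT h1 h2 hzi
  rcases hz with hz | ⟨T, hT, hz1, hz2, hz3⟩
  · exfalso
    have hpos : 0 < 1040 * lam / (c₀ * a₀) + 1 := by positivity
    have h1 := (ode_main hP hpos (hred _ hpos (hz _).1 (hz _).2)).1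
    linarith
  · have hR := hred T hT hz1 hz2
    obtain ⟨hT1, hG⟩ := ode_main hP hT hR
    have hGrow : Grow lam T (fun n t => am sh ty m true n (fun i => z i t))
        (fun n t => En sh (fun i => z i t) n) := by
      rcases hG with hG | ⟨n₀, K₀, s, hs, hG⟩
      · exact hG
      · exfalso
        apply hz3
        obtain ⟨M₁, hM₁⟩ := hz2 1 s hs.2
        refine ⟨max M₁ (2 * ((lam ^ n₀) ^ 2 * ((1 + K₀ ^ 2) * 4 ^ n₀))), fun t ht => ?_⟩
        rcases le_total t s with hts | hts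
        · exact ((hM₁ t ⟨ht.1, hts⟩).2).trans (le_max_left _ _)
        · refine le_trans ?_ (le_max_right _ _)
          obtain ⟨M₂, hM₂⟩ := hz2 1 t ht.2
          have hSk := (hM₂ t ⟨ht.1, le_rfl⟩).1
          refine nk_tail hS hlam hSk ?_ (hG t ⟨hts, ht.2⟩)
          have h1 := dec0 hR le_rfl ht.1 ht.2
          rw [hR.init_E, Real.sqrt_one] at h1
          have h2 := hR.nonneg 0 t ht
          exact (Real.sqrt_le_one (x := En sh (fun i => z i t) 0)).1 h1
    -- scaling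
    refine ⟨T, fun i t => a₀ * z i t, hT, hT1, ⟨fun i t ht => ?_, fun T' hT' => ?_⟩, fun k T' hT' => ?_,
      fun i => by simp only [hzi i], ?_⟩
    · refine ((hz1.deriv i t ht).const_mul a₀).congr_deriv ?_
      rw [bl_mul]
      ring
    · obtain ⟨M, hM⟩ := hz2 1 T' hT'
      refine ⟨a₀ ^ 2 * M, fun t ht => ?_⟩
      obtain ⟨h1, h2⟩ := hM t ht
      have e : ∀ i, ((lam ^ sh i) ^ 1 * (a₀ * z i t)) ^ 2 =
          a₀ ^ 2 * ((lam ^ sh i) ^ 1 * z i t) ^ 2 := fun i => by ring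
      refine ⟨?_, ?_⟩
      · unfold Sk
        simp only [e]
        exact Summable.mul_left _ h1
      · unfold nk
        simp only [e]
        rw [tsum_mul_left]
        exact mul_le_mul_of_nonneg_left h2 (by positivity)
    · obtain ⟨M, hM⟩ := hz2 k T' hT'
      refine ⟨a₀ ^ 2 * M, fun t ht => ?_⟩
      obtain ⟨h1, h2⟩ := hM t ht
      have e : ∀ i, ((lam ^ sh i) ^ k * (a₀ * z i t)) ^ 2 =
          a₀ ^ 2 * ((lam ^ sh i) ^ k * z i t) ^ 2 := fun i => by ring
      refine ⟨?_, ?_⟩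
      · unfold Sk
        simp only [e]
        exact Summable.mul_left _ h1
      · unfold nk
        simp only [e]
        rw [tsum_mul_left]
        exact mul_le_mul_of_nonneg_left h2 (by positivity)
    · have e1 : ∀ n t, am sh ty m true n (fun i => a₀ * z i t) / a₀ =
          am sh ty m true n (fun i => z i t) := by
        intro n t
        unfold am
        rw [div_eq_iff ha0.ne', ← tsum_mul_right]
        exact tsum_congr fun i => by ring
      have e2 : ∀ n t, En sh (fun i => a₀ * z i t) n / a₀ ^ 2 = En sh (fun i => z i t) n := by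
        intro n t
        unfold En
        rw [div_eq_iff (by positivity), ← tsum_mul_right]
        refine tsum_congr fun i => ?_
        split_ifs
        · ring
        · ring
      simp only [e1, e2]
      exact hGrow

end Pool.Agent.K1H54.LO
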