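import Pool.Agent.K1H54.LO.Vel
import Pool.Agent.K1H54.LO.Mod
import Pool.Agent.K1H30.OP.Fin
import Pool.Agent.K1H17.UN.Uni
import Pool.Agent.Y274.NE.B5

/-!
Assembly: the main theorem from the remaining steps.
-/

open Set Filter Topology MeasureTheory

set_option autoImplicit false

namespace Pool.Agent.K1H54.LO

open Pool.Agent.Y5 Pool.Agent.Y5.D Pool.Agent.Y5.E
open Pool.Agent.K1H30.OP (SS mem_SS PKc pk_mem pk_not pk_norm thin_neg t_OP card_SS)
open Pool.Agent.K1H17.UN (exB solrap t_UNIL)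
open Pool.Agent.Y274.NE (t_FLD2 sob_eq)

lemma LOp.mono {s δ : ℝ} {Q Q' : Z3 → Prop} {B : (E3 → E3) → (E3 → E3) → E3 → E3}
    (h : LOp s δ Q B) (hQ : ∀ k, Q k → Q' k) : LOp s δ Q' B where
  field := h.field
  add1 := h.add1
  smul1 := h.smul1
  add2 := h.add2
  smul2 := h.smul2
  energy := h.energy
  small := h.small
  low := h.low
  thin1 := fun v w hv hw h1 => h.thin1 v w hv hw fun k hk => h1 k (hQ k hk)
  thin2 := fun v w hv hw h1 k hk => h.thin2 v w hv hw (fun l hl => h1 l (hQ l hl)) k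
    fun h2 => hk (hQ k h2)

lemma thin_mono {s s' N N' : ℝ} (hs : s ≤ s') (hN : N ≤ N') (hN1 : 1 ≤ N') {k : Z3}
    (h : Thin s N' k) : Thin s' N k :=
  ⟨hN.trans h.1, h.2.trans (Real.rpow_le_rpow_of_exponent_le (hN1.trans h.1) hs)⟩

lemma FSolL.restrict {ν T T₀ : ℝ} {β : Fam → Fam → Fam → ℝ} {V : ℝ → Fam}
    (h : FSolL ν β T V) (hT : T₀ ≤ T) : FSolL ν β T₀ V where
  ot := fun t ht => h.ot t ⟨ht.1, ht.2.trans_le hT⟩
  rap := fun m T' hT' => h.rap m T' (hT'.trans_le hT)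
  eqn := fun Z hZ hf t ht => (h.eqn Z hZ hf t ⟨ht.1, ht.2.trans_le hT⟩).mono
    (Ico_subset_Ico_right hT)

/-- the velocity is bounded by the sum of the coefficients -/
lemma field_le (V : Fam) {M : ℝ} (h : Pool.Agent.Y301.G.Bd M V) (y : E3) :
    ‖fieldOf V y‖ ≤ M * ∑' k, Pool.Agent.Y301.G.wt k := by
  have h0 : ∀ k, ‖V k‖ ≤ M * Pool.Agent.Y301.G.wt k := fun k => by
    refine Pool.Agent.Y301.G.wt_le k ?_ h.nonneg
    have h1 := h k
    have h2 : (1 + ‖vec k‖) ^ 6 * ‖V k‖ ≤ (1 + ‖vec k‖) ^ 7 * ‖V k‖ := by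
      apply mul_le_mul_of_nonneg_right _ (norm_nonneg _)
      exact pow_le_pow_right₀ (by linarith [norm_nonneg (vec k)]) (by norm_num)
    linarith
  unfold fieldOf
  rw [← tsum_mul_left]
  refine tsum_of_norm_bounded (Pool.Agent.Y301.G.wt_sum.mul_left M).hasSum fun k => ?_
  rw [norm_smul]
  calc _ ≤ 1 * ‖V k‖ := mul_le_mul_of_nonneg_right (Real.abs_sin_le_one _) (norm_nonneg _)
    _ ≤ _ := by rw [one_mul]; exact h0 k

section

variable {A B : ℕ → Finset Z3}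

lemma fvM {m : ℕ → ℕ} {i : IM A B} (h : fv shM tyM m true 0 i ≠ 0) :
    shM i = 0 ∧ kM i ∈ A 0 := by
  unfold fv at h
  split_ifs at h with h1
  · refine ⟨h1.1, ?_⟩
    have h2 : kM i ∈ A (shM i) := by
      have := h1.2
      unfold tyM at this
      exact of_decide_eq_true this
    rwa [h1.1] at h2
  · exact absurd rfl h

lemma IM_ext {i j : IM A B} (h1 : shM i = shM j) (h2 : kM i = kM j) : i = j := by
  obtain ⟨n, k⟩ := i
  obtain ⟨n', k'⟩ := j
  have h3 : n = n' := h1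
  subst h3
  have h4 : k = k' := Subtype.ext h2
  rw [h4]

/-- The datum is a multiple of the packet `A 0`. -/
lemma VM_zero (hpos : ∀ n, ∀ k ∈ A n ∪ B n, 0 < k 0) (m : ℕ → ℕ) (a : ℝ) (k : Z3) :
    VM (fun i : IM A B => a * fv shM tyM m true 0 i) k = a • pk (A 0) (m 0) k := by
  have hfv : ∀ (k' : Z3) (hk' : k' ∈ A 0),
      fv shM tyM m true 0 (⟨0, ⟨k', Finset.mem_union_left _ hk'⟩⟩ : IM A B) =
        (√(m 0 : ℝ))⁻¹ := by
    intro k' hk'
    unfold fv
    rw [if_pos]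
    refine ⟨rfl, ?_⟩
    unfold tyM
    exact decide_eq_true hk'
  have hsq : (√(m 0 : ℝ))⁻¹ * (√2)⁻¹ = (√(2 * m 0 : ℝ))⁻¹ := by
    rw [Real.sqrt_mul (by norm_num), mul_inv, mul_comm]
  have hnb : ∀ k' k'' : Z3, k' ∈ A 0 → k'' ∈ A 0 → k' = -k'' → False := by
    intro k' k'' h1 h2 h3
    have e1 := hpos 0 k' (Finset.mem_union_left _ h1)
    have e2 := hpos 0 k'' (Finset.mem_union_left _ h2)
    rw [h3] at e1
    simp only [Pi.neg_apply] at e1
    omega
  change ∑' i : IM A B, (a * fv shM tyM m true 0 i) • eM i k = _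
  by_cases h1 : k ∈ A 0
  · rw [tsum_eq_single (⟨0, ⟨k, Finset.mem_union_left _ h1⟩⟩ : IM A B), hfv k h1, pk_mem h1]
    · unfold eM
      rw [if_pos (show k = kM (⟨0, ⟨k, Finset.mem_union_left _ h1⟩⟩ : IM A B) from rfl),
        smul_smul, smul_smul, ← hsq]
      congr 1
      ring
    · intro i hi
      by_cases h2 : fv shM tyM m true 0 i = 0
      · rw [h2, mul_zero, zero_smul]
      · obtain ⟨h3, h4⟩ := fvM h2
        unfold eM
        rw [if_neg, if_neg, smul_zero]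
        · exact fun h => hnb _ _ h1 h4 h
        · intro h
          exact hi (IM_ext h3 h.symm)
  · by_cases h1' : -k ∈ A 0
    · rw [tsum_eq_single (⟨0, ⟨-k, Finset.mem_union_left _ h1'⟩⟩ : IM A B), hfv _ h1']
      · unfold eM pk
        rw [if_neg, if_pos, if_neg h1, if_pos h1', smul_neg, smul_neg, smul_smul, smul_smul,
          ← hsq]
        · congr 2
          ring
        · exact (neg_neg k).symm
        · intro h
          have h' : k = -k := h
          exact h1 (h' ▸ h1')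
      · intro i hi
        by_cases h2 : fv shM tyM m true 0 i = 0
        · rw [h2, mul_zero, zero_smul]
        · obtain ⟨h3, h4⟩ := fvM h2
          unfold eM
          rw [if_neg, if_neg, smul_zero]
          · intro h
            refine hi (IM_ext h3 ?_)
            change kM i = -k
            rw [h, neg_neg]
          · intro h
            exact h1 (h ▸ h4)
    · have h5 : pk (A 0) (m 0) k = 0 := by
        unfold pk
        rw [if_neg h1, if_neg h1']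
      rw [h5, smul_zero]
      rw [← tsum_zero (α := E3) (β := IM A B)]
      refine tsum_congr fun i => ?_
      by_cases h2 : fv shM tyM m true 0 i = 0
      · rw [h2, mul_zero, zero_smul]
      · obtain ⟨h3, h4⟩ := fvM h2
        unfold eM
        rw [if_neg, if_neg, smul_zero]
        · intro h
          refine h1' ?_
          rw [h, neg_neg]
          exact h4
        · intro h
          exact h1 (h ▸ h4)

end

/-- The Sobolev norm of the datum. -/
lemma sob_pk {s₀ N₁ s₁ η a : ℝ} {A : Finset Z3} {m : ℕ} (h : PKc s₀ N₁ A m) (hη : 0 ≤ η)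
    (hb : ∀ k ∈ A, a ^ 2 * (2 * Real.pi * ‖vec k‖) ^ (2 * s₁) ≤ η) :
    ∑' k : Z3, (2 * Real.pi * ‖vec k‖) ^ (2 * s₁) * ‖a • pk A m k‖ ^ 2 ≤ η := by
  rw [tsum_eq_sum (s := SS A) fun k hk => by rw [pk_not hk]; simp]
  have hm : (0 : ℝ) < m := by exact_mod_cast h.mpos
  calc ∑ k ∈ SS A, (2 * Real.pi * ‖vec k‖) ^ (2 * s₁) * ‖a • pk A m k‖ ^ 2
      ≤ ∑ _k ∈ SS A, η * (2 * m : ℝ)⁻¹ := by
        refine Finset.sum_le_sum fun k hk => ?_
        have h1 : a ^ 2 * (2 * Real.pi * ‖vec k‖) ^ (2 * s₁) ≤ η := by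
          rcases mem_SS.1 hk with h2 | h2
          · exact hb k h2
          · have := hb _ h2
            rwa [vec_neg', norm_neg] at this
        have h3 : ‖pk A m k‖ ^ 2 ≤ (2 * m : ℝ)⁻¹ := by
          have h4 := pk_norm (A := A) (m := m) k
          calc ‖pk A m k‖ ^ 2 ≤ ((√(2 * m : ℝ))⁻¹) ^ 2 := by gcongr
            _ = _ := by rw [inv_pow, Real.sq_sqrt (by positivity)]
        rw [norm_smul, mul_pow, Real.norm_eq_abs, sq_abs]
        calc (2 * Real.pi * ‖vec k‖) ^ (2 * s₁) * (a ^ 2 * ‖pk A m k‖ ^ 2)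
            = (a ^ 2 * (2 * Real.pi * ‖vec k‖) ^ (2 * s₁)) * ‖pk A m k‖ ^ 2 := by ring
          _ ≤ η * (2 * m : ℝ)⁻¹ := by gcongr
    _ = (SS A).card * (η * (2 * m : ℝ)⁻¹) := by rw [Finset.sum_const, nsmul_eq_mul]
    _ ≤ (2 * m) * (η * (2 * m : ℝ)⁻¹) := by
        have := card_SS h
        gcongr
    _ = η := by field_simp

/-- Assembly of the main theorem. -/
theorem main (hGEO : S_GEO) (hEX : S_EX) (hLOP : S_LOP) (hSOLF : S_SOLF) : S_MAINO := by
  intro ν δ η s s₁ N₁ hν hδ hη hs hs' hs₁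
  obtain ⟨s₀, h1, h2⟩ : ∃ s₀, max (2 / 3) (2 / 3 * (1 + s₁)) < s₀ ∧ s₀ < s :=
    exists_between (max_lt hs (by linarith))
  have hs₀ : 2 / 3 < s₀ := (le_max_left _ _).trans_lt h1
  have hs₀1 : s₀ < 1 := h2.trans hs'
  have hs₁' : s₁ < 3 / 2 * s₀ - 1 := by
    have := (le_max_right _ _).trans_lt h1
    linarith
  obtain ⟨N₀, δ₀, hδ₀, hOP⟩ := t_OP s₀ s δ (by linarith) h2 hs' hδ
  set N₂ : ℝ := max (max N₀ N₁) 2 with hN₂
  have hN₂0 : N₀ ≤ N₂ := (le_max_left _ _).trans (le_max_left _ _)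
  have hN₂1 : N₁ ≤ N₂ := (le_max_right _ _).trans (le_max_left _ _)
  have hN₂2 : 2 ≤ N₂ := le_max_right _ _
  obtain ⟨lam, c₀, a₀, N, m, A, B, hlam, ha₀, hG, hX, hd, hsb, hT1⟩ :=
    hGEO ν η s₀ s₁ δ₀ N₂ hν hη hδ₀ hs₀ hs₀1 hs₁'
  set ε : ℝ := Real.exp (-(400 * lam)) with hε
  have hε0 : 0 ≤ ε := (Real.exp_pos _).le
  have hε1 : ε ≤ 1 := by
    rw [hε]
    apply Real.exp_le_one_iff.2
    linarith
  obtain ⟨C, hF⟩ := hOP N₂ lam ε c₀ N m A B hN₂0 hε0 hε1 hG
  set β : Fam → Fam → Fam → ℝ := bP s₀ N₂ lam ε c₀ m A B with hβ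
  have hF' : FPert s δ C (Thin s₀ N₂) β := hF
  obtain ⟨Bo, hBo, hrep⟩ := hLOP s δ C (Thin s₀ N₂) β hδ.le (fun k hk => thin_neg hk) hF'
  obtain ⟨hSh, hfin, hsol⟩ := hEX s₀ N₂ δ₀ c₀ lam ε ν N m A B (by linarith) hs₀1 hN₂2 hδ₀ hε0
    hε1 hG
  have hpi := Real.pi_pos
  obtain ⟨T, z, hT, hTle, hA, hR, hz0, hGrow⟩ := t_MOD2 (IM A B) shM tyM m
    (fun i => ν * (2 * Real.pi * ‖vec (kM i)‖) ^ 2) (fun n => ν * (2 * Real.pi * (2 * N n)) ^ 2)
    lam ε c₀ a₀ hSh (fun i => ⟨by positivity, by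
      have := (hG.size (shM i) (kM i) i.2.2).2
      gcongr⟩)
    ⟨hlam, hε, mul_pos hG.c0 ha₀, fun n => by positivity, hd⟩ hG.c0 ha₀
  have hV := hsol T z hT hA hR
  set V : ℝ → Fam := fun t => VM (fun i => z i t) with hVd
  have hu := (hSOLF ν T β Bo hrep).1 V hV
  have hV0 : ∀ k, V 0 k = a₀ • pk (A 0) (m 0) k := by
    intro k
    rw [hVd]
    simp only [hz0]
    exact VM_zero hG.pos m a₀ k
  have h0T : (0 : ℝ) ∈ Ico 0 T := ⟨le_rfl, hT⟩
  have hfin0 : {k | V 0 k ≠ 0}.Finite := by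
    refine (hfin (fun i => z i 0) ?_).1
    refine (hSh.fin 0 true).subset fun i hi => ?_
    simp only [Set.mem_ofPred_eq, hz0] at hi
    by_contra h
    refine hi ?_
    have h3 : fv shM tyM m true 0 i = 0 := by
      unfold fv
      exact if_neg h
    rw [h3, mul_zero]
  have hcf : ∀ {W : Fam}, OT W → Rap W → ∀ k, cf (fieldOf W) k = W k :=
    fun h1 h2 k => t_FLD2.2 _ h1 h2 k
  -- blow-up
  have hblow : ∀ M : ℝ, ∃ t ∈ Ico 0 T, ∃ y, M < ‖fieldOf (V t) y‖ := by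
    intro M
    have hm : ∀ n, (100 : ℝ) ^ n ≤ √(m n : ℝ) := by
      intro n
      induction n with
      | zero =>
        rw [pow_zero, Real.one_le_sqrt]
        exact_mod_cast hG.mpos 0
      | succ n ih =>
        calc (100 : ℝ) ^ (n + 1) = 100 * 100 ^ n := by ring
          _ ≤ 100 * √(m n : ℝ) := by gcongr
          _ ≤ _ := hX.mlo n
    obtain ⟨n, hn⟩ := pow_unbounded_of_one_lt (2 * (M / a₀)) (one_lt_two (α := ℝ))
    obtain ⟨t, ht, a, ha1, ha2, ha3, ha4, ha5⟩ := hGrow n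
    have hq : (0 : ℝ) < (1 - 1 / 10 ^ 5) ^ n := by positivity
    have ha : 0 < a := hq.trans_le ha1
    have hz : ∀ k : ℕ, Sk (fun i => lam ^ shM i) k (fun i => z i t) := fun k =>
      (hR k t ht.2).choose_spec t ⟨ht.1, le_rfl⟩ |>.1
    have hE : ∀ (x y : ℝ), x / a₀ ^ 2 ≤ y → x ≤ a₀ ^ 2 * y := fun x y h => by
      rwa [div_le_iff₀ (by positivity), mul_comm] at h
    have hsq : ∀ (x y : ℝ), √(x / a₀ ^ 2) ≤ y → √x ≤ a₀ * y := fun x y h => by
      rw [Real.sqrt_div' _ (by positivity), Real.sqrt_sq ha₀.le, div_le_iff₀ ha₀, mul_comm] at h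
      exact h
    obtain ⟨y, hy⟩ := vel hG hX hlam hSh (z := fun i => z i t) (n := n) (a := a₀ * a) hz
      (by positivity)
      (by
        simp only at ha2
        rw [div_eq_iff ha₀.ne'] at ha2
        rw [ha2]; ring)
      (by
        refine (hE _ _ ha3).trans (le_of_eq ?_)
        ring)
      (fun i hi => by
        refine (hsq _ _ (ha4 i hi)).trans (le_of_eq ?_)
        ring)
      (fun j => by
        refine (hsq _ _ (ha5 j)).trans (le_of_eq ?_)
        ring)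
    refine ⟨t, ht, y, lt_of_lt_of_le ?_ hy⟩
    have h5 : (2 : ℝ) ^ n ≤ √(m n : ℝ) * a := by
      calc (2 : ℝ) ^ n ≤ (100 * (1 - 1 / 10 ^ 5)) ^ n := by
            gcongr
            norm_num
        _ = 100 ^ n * (1 - 1 / 10 ^ 5) ^ n := mul_pow _ _ _
        _ ≤ √(m n : ℝ) * a := by
            have := hm n
            gcongr
    have h6 : 2 * (M / a₀) < √(m n : ℝ) * a := hn.trans_le h5
    have h7 : 2 * (M / a₀) = 2 * M / a₀ := by ring
    rw [h7, div_lt_iff₀ ha₀] at h6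
    linarith
  refine ⟨Bo, T, fun t => fieldOf (V t), hBo.mono fun k hk => thin_mono h2.le hN₂1
    (by linarith) hk, hT, hTle.trans hT1, hu, ?_, ?_, ?_, ?_, ?_⟩
  · -- trigonometric polynomial
    refine ⟨V 0, hV.ot 0 h0T, ?_, rfl⟩
    refine ⟨∑ k ∈ hfin0.toFinset, ‖vec k‖, fun k hk => ?_⟩
    exact Finset.single_le_sum (f := fun k => ‖vec k‖) (fun _ _ => norm_nonneg _)
      (hfin0.mem_toFinset.2 hk)
  · -- Sobolev norm of the datum
    change sob s₁ (fieldOf (V 0)) ≤ η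
    rw [sob_eq t_FLD2 s₁ (V 0) (hV.ot 0 h0T) (solrap hV h0T)]
    have hpk : PKc s₀ N₂ (A 0) (m 0) :=
      ⟨fun k hk => hG.thin 0 k (Finset.mem_union_left _ hk),
        fun k hk => hG.pos 0 k (Finset.mem_union_left _ hk), hG.cardA 0, hG.mpos 0⟩
    have := sob_pk (s₁ := s₁) (a := a₀) hpk hη.le hsb
    simpa only [hV0] using this
  · -- uniqueness
    intro T' v hT' hv hv0
    obtain ⟨W, hW, hvW⟩ := (hSOLF ν T' β Bo hrep).2 v hv
    have h0T' : (0 : ℝ) ∈ Ico 0 T' := ⟨le_rfl, hT'⟩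
    have hWV : ∀ k, V 0 k = W 0 k := by
      intro k
      rw [← hcf (hV.ot 0 h0T) (solrap hV h0T) k, ← hcf (hW.ot 0 h0T') (solrap hW h0T') k,
        ← hvW 0 h0T', hv0]
    have hun := (t_UNIL s δ C ν (min T T') (Thin s₀ N₂) β hν.le hF').1 V W
      (hV.restrict (min_le_left _ _)) (hW.restrict (min_le_right _ _)) hWV
    have heq : ∀ t ∈ Ico 0 (min T T'), v t = fieldOf (V t) := by
      intro t ht
      rw [hvW t ⟨ht.1, ht.2.trans_le (min_le_right _ _)⟩]
      congr 1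
      funext k
      exact (hun t ht k).symm
    have hle : T' ≤ T := by
      by_contra hlt
      push Not at hlt
      obtain ⟨M, hM⟩ := exB hW hlt
      obtain ⟨t, ht, y, hy⟩ := hblow (M * ∑' k, Pool.Agent.Y301.G.wt k)
      have h5 : t ∈ Ico 0 (min T T') := ⟨ht.1, lt_min ht.2 (ht.2.trans hlt)⟩
      have h6 := field_le (W t) (hM t ⟨ht.1, ht.2.le⟩) y
      rw [← hvW t ⟨ht.1, ht.2.trans hlt⟩, heq t h5] at h6
      linarith
    refine ⟨hle, fun t ht => heq t ⟨ht.1, lt_min (ht.2.trans_le hle) ht.2⟩⟩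
  · -- energy identity
    intro t ht
    have h3 := (t_UNIL s δ C ν T (Thin s₀ N₂) β hν.le hF').2 V hV t ht
    have h4 : dir (fieldOf (V t)) = lpn (V t) (V t) := by
      rw [t_FLD2.1.2.2 (V t) (hV.ot t ht) (solrap hV ht)]
      unfold lpn
      congr 1
      exact tsum_congr fun k => by rw [real_inner_self_eq_norm_sq]
    rw [h4]
    refine h3.congr (fun τ hτ => ?_) ?_
    · exact t_FLD2.1.1 (V τ) (V τ) (hV.ot τ hτ) (solrap hV hτ) (hV.ot τ hτ) (solrap hV hτ)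
    · exact t_FLD2.1.1 (V t) (V t) (hV.ot t ht) (solrap hV ht) (hV.ot t ht) (solrap hV ht)
  · exact hblow

end Pool.Agent.K1H54.LO
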