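import Pool.Agent.K1H54.LO.Vel2
import Pool.Agent.K1H54.LO.Mod
import Pool.Agent.K1H54.LO.Main

/-!
Assembly of the main theorem (second version) from the remaining steps.
-/

open Set Filter Topology MeasureTheory

set_option autoImplicit false

namespace Pool.Agent.K1H54.L2

open Pool.Agent.Y5 Pool.Agent.Y5.D Pool.Agent.Y5.E Pool.Agent.K1H54.LO
open Pool.Agent.K1H21.LO (SF mem_SF card_SF inv_sqm fv_mem fv_zero)
open Pool.Agent.Y274.NE (t_FLD2 sob_eq)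

/-- the symbol of `ν (-Δ)^α` -/
noncomputable def dsy (ν α : ℝ) (k : Z3) : ℝ := ν * (2 * Real.pi * ‖vec k‖) ^ (2 * α)

lemma dsy_sym {ν α : ℝ} (hν : 0 ≤ ν) (hα : 0 ≤ α) (hα' : 2 * α < 5 / 2) : Sym (dsy ν α) where
  nonneg := fun k => by unfold dsy; positivity
  even := fun k => by unfold dsy; rw [vec_neg', norm_neg]
  growth := by
    have hpi := Real.pi_gt_three
    refine ⟨ν * (2 * Real.pi) ^ 3, fun k => ?_⟩
    unfold dsy
    have e : ν * (2 * Real.pi) ^ 3 * (1 + ‖vec k‖) ^ 3 =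
        ν * (2 * Real.pi * (1 + ‖vec k‖)) ^ 3 := by ring
    rw [e]
    refine mul_le_mul_of_nonneg_left ?_ hν
    have h0 := norm_nonneg (vec k)
    have h1 : (1 : ℝ) ≤ 2 * Real.pi * (1 + ‖vec k‖) := by nlinarith
    calc (2 * Real.pi * ‖vec k‖) ^ (2 * α) ≤ (2 * Real.pi * (1 + ‖vec k‖)) ^ (2 * α) := by
          apply Real.rpow_le_rpow (by positivity) _ (by positivity)
          nlinarith
      _ ≤ (2 * Real.pi * (1 + ‖vec k‖)) ^ (3 : ℝ) :=
          Real.rpow_le_rpow_of_exponent_le h1 (by linarith)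
      _ = _ := by norm_cast

lemma frm_dsy (ν α : ℝ) (v w : E3 → E3) : frm (dsy ν α) v w = ν * lap α v w := by
  unfold frm lap dsy
  rw [← tsum_mul_left]
  exact tsum_congr fun k => by ring

lemma solA_iff {ν α T : ℝ} {B : (E3 → E3) → (E3 → E3) → E3 → E3} {u : ℝ → E3 → E3} :
    SolA ν α B T u ↔ SolD (dsy ν α) B T u := by
  constructor
  · intro h
    exact ⟨h.reg, fun z hz t ht => by rw [frm_dsy]; exact h.eqn z hz t ht⟩
  · intro h
    exact ⟨h.reg, fun z hz t ht => by rw [← frm_dsy]; exact h.eqn z hz t ht⟩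

lemma FSolD.restrict {D : Z3 → ℝ} {T T₀ : ℝ} {β : Fam → Fam → Fam → ℝ} {V : ℝ → Fam}
    (h : FSolD D β T V) (hT : T₀ ≤ T) : FSolD D β T₀ V where
  ot := fun t ht => h.ot t ⟨ht.1, ht.2.trans_le hT⟩
  rap := fun m T' hT' => h.rap m T' (hT'.trans_le hT)
  eqn := fun Z hZ hf t ht => (h.eqn Z hZ hf t ⟨ht.1, ht.2.trans_le hT⟩).mono
    (Ico_subset_Ico_right hT)

/-- solutions are bounded in every weighted norm on compact intervals -/
lemma exBD {D : Z3 → ℝ} {T T' : ℝ} {β : Fam → Fam → Fam → ℝ} {V : ℝ → Fam}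
    (h : FSolD D β T V) (hT : T' < T) :
    ∃ M, ∀ t ∈ Icc 0 T', Pool.Agent.Y301.G.Bd M (V t) := by
  obtain ⟨M0, h0⟩ := h.rap 0 T' hT
  obtain ⟨M1, h1⟩ := h.rap 7 T' hT
  refine ⟨2 ^ 6 * (M0 + M1), fun t ht k => ?_⟩
  have h2 := add_pow_le (zero_le_one (α := ℝ)) (norm_nonneg (vec k)) 7
  rw [one_pow] at h2
  have h3 := h0 t ht k
  rw [pow_zero, one_mul] at h3
  have h4 := h1 t ht k
  calc (1 + ‖vec k‖) ^ 7 * ‖V t k‖ ≤ 2 ^ (7 - 1) * (1 + ‖vec k‖ ^ 7) * ‖V t k‖ := by gcongr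
    _ = 2 ^ 6 * (‖V t k‖ + ‖vec k‖ ^ 7 * ‖V t k‖) := by ring
    _ ≤ _ := by gcongr

section
variable {I : Type} {sh : I → ℕ} {ty : I → Bool} {ρ : ℕ → ℕ} {g : I → Fam} {S : I → Finset Z3}
  {R : I → ℝ} {N : ℕ → ℝ} {s N₁ δ c₀ lam : ℝ}

lemma cardS_pos (h : MS sh ty ρ g S R N s N₁ δ c₀ lam) (i : I) : 0 < ((S i).card : ℝ) := by
  exact_mod_cast Finset.card_pos.2 (h.ne i)

lemma g_sq (h : MS sh ty ρ g S R N s N₁ δ c₀ lam) (i : I) : ∑ k ∈ S i, ‖g i k‖ ^ 2 = 1 := by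
  have hc := cardS_pos h i
  have h1 : ∀ k ∈ S i, ‖g i k‖ ^ 2 = ((S i).card : ℝ)⁻¹ := fun k hk => by
    have := h.flat i k hk
    field_simp
    linarith
  rw [Finset.sum_congr rfl h1, Finset.sum_const, nsmul_eq_mul, mul_inv_cancel₀ hc.ne']

/-- the support of a finite combination of modes -/
lemma Sy_fin (h : MS sh ty ρ g S R N s N₁ δ c₀ lam) {z : I → ℝ} (u : Finset I)
    (hz : ∀ i ∉ u, z i = 0) : {k | Sy g z k ≠ 0}.Finite := by
  classical
  refine (u.biUnion S).finite_toSet.subset fun k hk => ?_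
  simp only [Finset.coe_biUnion, Set.mem_iUnion, Finset.mem_coe]
  by_contra hcon
  push Not at hcon
  refine hk ?_
  by_cases h1 : ∃ i, k ∈ S i
  · obtain ⟨i, hi⟩ := h1
    by_cases h2 : i ∈ u
    · exact absurd hi (hcon i h2)
    · rw [Sy_mem h z hi, hz i h2, zero_smul]
  · push Not at h1
    exact Sy_not h z h1

/-- The Sobolev norm of the datum. -/
lemma sob_fv (h : MS sh ty ρ g S R N s N₁ δ c₀ lam) {s₁ η a : ℝ}
    (hb : ∀ i, sh i = 0 → a ^ 2 * (2 * Real.pi * R i) ^ (2 * s₁) ≤ η) :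
    ∑' k : Z3, (2 * Real.pi * ‖vec k‖) ^ (2 * s₁) * ‖Sy g (fun i => a * fv sh ty ρ true 0 i) k‖ ^ 2
      ≤ η := by
  classical
  set z : I → ℝ := fun i => a * fv sh ty ρ true 0 i with hz
  have hS := h.shl
  have hz0 : ∀ i ∉ SF hS true 0, z i = 0 := fun i hi => by
    rw [hz]
    simp only [fv_zero hS true 0 i hi, mul_zero]
  have hf0 : ∀ k, (∀ i, k ∉ S i) →
      (2 * Real.pi * ‖vec k‖) ^ (2 * s₁) * ‖Sy g z k‖ ^ 2 = 0 := fun k hk => by
    rw [Sy_not h z hk]; simp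
  have hfs : Summable fun k => (2 * Real.pi * ‖vec k‖) ^ (2 * s₁) * ‖Sy g z k‖ ^ 2 := by
    refine summable_of_hasFiniteSupport ((Sy_fin h (SF hS true 0) hz0).subset fun k hk => ?_)
    simp only [Function.mem_support, ne_eq] at hk
    intro h1
    apply hk
    rw [h1]; simp
  have h1 := fib_sum h hfs hf0
  rw [← h1.tsum_eq, tsum_eq_sum (s := SF hS true 0) fun i hi => by
    refine Finset.sum_eq_zero fun k hk => ?_
    rw [Sy_mem h z hk, hz0 i hi]; simp]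
  have hm : (0 : ℝ) < ρ 0 := by exact_mod_cast hS.pos 0
  calc ∑ i ∈ SF hS true 0, ∑ k ∈ S i, (2 * Real.pi * ‖vec k‖) ^ (2 * s₁) * ‖Sy g z k‖ ^ 2
      ≤ ∑ _i ∈ SF hS true 0, η * ((√(ρ 0 : ℝ))⁻¹) ^ 2 := by
        refine Finset.sum_le_sum fun i hi => ?_
        have hi' := (mem_SF hS true 0 i).1 hi
        have e : ∀ k ∈ S i, (2 * Real.pi * ‖vec k‖) ^ (2 * s₁) * ‖Sy g z k‖ ^ 2 =
            (a ^ 2 * (2 * Real.pi * R i) ^ (2 * s₁) * ((√(ρ 0 : ℝ))⁻¹) ^ 2) * ‖g i k‖ ^ 2 := by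
          intro k hk
          rw [Sy_mem h z hk, h.sph i k hk, norm_smul, mul_pow, Real.norm_eq_abs, sq_abs, hz]
          simp only
          rw [fv_mem hS true 0 i hi]
          ring
        rw [Finset.sum_congr rfl e, ← Finset.mul_sum, g_sq h i, mul_one]
        exact mul_le_mul_of_nonneg_right (hb i hi'.1) (by positivity)
    _ = η * (((√(ρ 0 : ℝ))⁻¹) ^ 2 * ρ 0) := by
        rw [Finset.sum_const, card_SF, nsmul_eq_mul]; ring
    _ = η := by rw [inv_sqm hS 0, mul_one]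

end

/-- Assembly of the main theorem. -/
theorem main2 (hGEO : S_GEO2) (hOP : S_OP2) (hEX : S_EX2) (hSUB : S_SUB) (hUNI : S_UNID) :
    S_MAIN2 := by
  intro δ s α N₁ hδ hs hs' hα hα'
  set N₂ : ℝ := max N₁ 1 with hN₂
  have hN₂0 : N₁ ≤ N₂ := le_max_left _ _
  have hN₂1 : 1 ≤ N₂ := le_max_right _ _
  obtain ⟨I, sh, ty, ρ, g, S, R, N, c₀, lam, hlam, hMS, hMX, hpar⟩ :=
    hGEO s α (δ / 40) N₂ hs hs' hα hα' (by positivity)
  set ε : ℝ := Real.exp (-(400 * lam)) with hε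
  have hε0 : 0 ≤ ε := (Real.exp_pos _).le
  have hε1 : ε ≤ 1 := by
    rw [hε]
    apply Real.exp_le_one_iff.2
    linarith
  obtain ⟨⟨C, hF⟩, hsharp⟩ := hOP I sh ty ρ g S R N s N₂ δ c₀ lam ε hs hs' hδ hN₂1 hε0 hε1 hMS
  set β : Fam → Fam → Fam → ℝ := bQ sh ty ρ g lam ε c₀ with hβ
  obtain ⟨Bo, hBo, hrep⟩ := t_LOP s δ C (fun k => N₂ ≤ ‖vec k‖) β hδ.le
    (fun k hk => by rwa [vec_neg', norm_neg]) hF
  have hLOp2 : LOp2 s δ N₁ Bo := by
    refine ⟨hBo.field, hBo.add1, hBo.smul1, hBo.add2, hBo.smul2, hBo.energy, ?_, hBo.low, ?_, ?_⟩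
    · intro v w hv hw
      have hb := hBo.field v w hv hw
      obtain ⟨v1, v2, v3⟩ := pf_cf hv
      obtain ⟨w1, w2, w3⟩ := pf_cf hw
      obtain ⟨b1, b2, b3⟩ := pf_cf hb
      have h1 := hrep (cf v) (cf w) (cf (Bo v w)) v1 v2 w1 w2 b1 b2
      rw [v3, w3, b3, ip_cf hb hb, pair_self_eq] at h1
      have h2 := hsharp (cf v) (cf w) (cf (Bo v w)) v1 v2 w1 w2 b1 b2
      rw [sqrt_ip hb]
      have hw0 : 0 ≤ wie (s - 1) v := tsum_nonneg fun _ => by positivity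
      have hlb : 0 ≤ l2 (cf (Bo v w)) := Real.sqrt_nonneg _
      refine l2_zero_of_le (by positivity) ?_
      rw [h1]
      refine (le_abs_self _).trans (h2.trans ?_)
      have h3 := h1_le_dir hw
      have e2 : A1 (s - 1) (cf v) = wie (s - 1) v := rfl
      rw [e2]
      gcongr
    · intro v w hv hw h0
      exact hBo.thin1 v w hv hw fun k hk => h0 k (hN₂0.trans hk)
    · intro v w hv hw h0 k hk
      exact hBo.thin2 v w hv hw (fun k hk => h0 k (hN₂0.trans hk)) k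
        fun h => hk (hN₂0.trans h)
  refine ⟨Bo, hLOp2, ?_⟩
  intro ν η s₁ hν hη hs₁
  obtain ⟨n₀, a₀, ha₀, hd, hsb, hT1⟩ := hpar ν η s₁ hν hη hs₁
  obtain ⟨hMS', hsub⟩ := hSUB I sh ty ρ g S R N s N₂ (δ / 40) c₀ lam ε n₀ hN₂1 hMS
  set sh' : Sub sh n₀ → ℕ := fun i => sh i - n₀ with hsh'
  set ty' : Sub sh n₀ → Bool := fun i => ty i with hty'
  set ρ' : ℕ → ℕ := fun n => ρ (n₀ + n) with hρ'
  set g' : Sub sh n₀ → Fam := fun i => g i with hg'
  set S' : Sub sh n₀ → Finset Z3 := fun i => S i with hS'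
  set R' : Sub sh n₀ → ℝ := fun i => R i with hR'
  set N' : ℕ → ℝ := fun n => N (n₀ + n) with hN'
  set c₁ : ℝ := c₀ * lam ^ n₀ with hc₁
  have hMX' : MX ty' ρ' g' lam y0 :=
    ⟨fun n => hMX.mlo (n₀ + n), fun n => hMX.mup (n₀ + n), fun i hi => hMX.lo i hi,
      fun i => hMX.up i⟩
  have hpi := Real.pi_pos
  have hc₁0 : 0 < c₁ := hMS'.c0
  have hRpos : ∀ i, 0 ≤ R' i := fun i =>
    (zero_le_one.trans (hMS'.N1 (sh' i))).trans (hMS'.size i).1
  obtain ⟨T, z, hT, hTle, hA, hRa, hz0, hGrow⟩ := t_MOD2 (Sub sh n₀) sh' ty' ρ'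
    (fun i => ν * (2 * Real.pi * R' i) ^ (2 * α))
    (fun n => ν * (2 * Real.pi * (2 * N' n)) ^ (2 * α))
    lam ε c₁ a₀ hMS'.shl (fun i => ⟨by have := hRpos i; positivity, by
      have h1 := (hMS'.size i).2
      have h2 := hRpos i
      refine mul_le_mul_of_nonneg_left ?_ hν
      apply Real.rpow_le_rpow (by positivity) _ (by positivity)
      gcongr⟩)
    ⟨hlam, hε, mul_pos hc₁0 ha₀, fun n => by
      have := hMS'.N1 n
      positivity, hd⟩ hc₁0 ha₀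
  have hSym : Sym (dsy ν α) := dsy_sym hν hα (by linarith)
  have hV' := hEX (Sub sh n₀) sh' ty' ρ' g' S' R' N' s N₂ (δ / 40) c₁ lam ε (by positivity) hN₂1
    hε0 hε1 hMS' (dsy ν α) (fun i => ν * (2 * Real.pi * R' i) ^ (2 * α)) hSym
    (fun i k hk => by unfold dsy; rw [hMS'.sph i k hk]) T z hT hA hRa
  set V : ℝ → Fam := fun t => Sy g' (fun i => z i t) with hVd
  have hV : FSolD (dsy ν α) β T V := by
    refine ⟨hV'.ot, hV'.rap, fun Z hZ hf t ht => ?_⟩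
    rw [hβ, hsub (fun i => z i t) Z (rap_of_unif hV'.rap ht) hZ hf]
    exact hV'.eqn Z hZ hf t ht
  have hu := (t_SOLD T (dsy ν α) β Bo hSym hrep).1 V hV
  have hV0 : V 0 = Sy g' (fun i => a₀ * fv sh' ty' ρ' true 0 i) := by
    rw [hVd]
    simp only [hz0]
  have h0T : (0 : ℝ) ∈ Ico 0 T := ⟨le_rfl, hT⟩
  have hfin0 : {k | V 0 k ≠ 0}.Finite := by
    rw [hV0]
    refine Sy_fin hMS' (SF hMS'.shl true 0) fun i hi => ?_
    rw [fv_zero hMS'.shl true 0 i hi, mul_zero]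
  have hRapV : ∀ t ∈ Ico 0 T, Rap (V t) := fun t ht => rap_of_unif hV.rap ht
  -- blow-up
  have hblow : ∀ M : ℝ, ∃ t ∈ Ico 0 T, ∃ y, M < ‖fieldOf (V t) y‖ := by
    intro M
    have hm : ∀ n, (100 : ℝ) ^ n ≤ √(ρ' n : ℝ) := by
      intro n
      induction n with
      | zero =>
        rw [pow_zero, Real.one_le_sqrt]
        exact_mod_cast hMS'.shl.pos 0
      | succ n ih =>
        calc (100 : ℝ) ^ (n + 1) = 100 * 100 ^ n := by ring
          _ ≤ 10000 * √(ρ' n : ℝ) := by gcongr; norm_num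
          _ ≤ _ := hMX'.mlo n
    obtain ⟨n, hn⟩ := pow_unbounded_of_one_lt (4 * (M / a₀)) (one_lt_two (α := ℝ))
    obtain ⟨t, ht, a, ha1, ha2, ha3, ha4, ha5⟩ := hGrow n
    have hq : (0 : ℝ) < (1 - 1 / 10 ^ 5) ^ n := by positivity
    have ha : 0 < a := hq.trans_le ha1
    have hzk : Sk (fun i => lam ^ sh' i) 0 (fun i => z i t) :=
      (hRa 0 t ht.2).choose_spec t ⟨ht.1, le_rfl⟩ |>.1
    have hz2 : Summable fun i => z i t ^ 2 := by
      unfold Sk at hzk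
      simpa using hzk
    have hE : ∀ (x y : ℝ), x / a₀ ^ 2 ≤ y → x ≤ a₀ ^ 2 * y := fun x y h => by
      rwa [div_le_iff₀ (by positivity), mul_comm] at h
    have hsq : ∀ (x y : ℝ), √(x / a₀ ^ 2) ≤ y → √x ≤ a₀ * y := fun x y h => by
      rw [Real.sqrt_div' _ (by positivity), Real.sqrt_sq ha₀.le, div_le_iff₀ ha₀, mul_comm] at h
      exact h
    have hy := vel2 hMS' hMX' hlam (z := fun i => z i t) (n := n) (a := a₀ * a) hz2
      (hRapV t ht) (by positivity)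
      (by
        simp only at ha2
        rw [div_eq_iff ha₀.ne'] at ha2
        rw [ha2]; ring)
      (by
        refine (hE _ _ ha3).trans (le_of_eq ?_)
        ring)
      (fun i hi => by
        refine (hsq _ _ (ha4 i hi)).trans (le_of_eq ?_)
        ring)
      (fun j => by
        refine (hsq _ _ (ha5 j)).trans (le_of_eq ?_)
        ring)
    refine ⟨t, ht, y0, lt_of_lt_of_le ?_ hy⟩
    have h5 : (2 : ℝ) ^ n ≤ √(ρ' n : ℝ) * a := by
      calc (2 : ℝ) ^ n ≤ (100 * (1 - 1 / 10 ^ 5)) ^ n := by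
            gcongr
            norm_num
        _ = 100 ^ n * (1 - 1 / 10 ^ 5) ^ n := mul_pow _ _ _
        _ ≤ √(ρ' n : ℝ) * a := by
            have := hm n
            gcongr
    have h6 : 4 * (M / a₀) < √(ρ' n : ℝ) * a := hn.trans_le h5
    have h7 : 4 * (M / a₀) = 4 * M / a₀ := by ring
    rw [h7, div_lt_iff₀ ha₀] at h6
    linarith
  refine ⟨T, fun t => fieldOf (V t), hT, hTle.trans ?_, solA_iff.2 hu, ?_, ?_, ?_, ?_, ?_⟩
  · exact hT1
  · -- trigonometric polynomial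
    exact tp_iff.2 ⟨V 0, hV.ot 0 h0T, hfin0, rfl⟩
  · -- Sobolev norm of the datum
    change sob s₁ (fieldOf (V 0)) ≤ η
    rw [sob_eq t_FLD2 s₁ (V 0) (hV.ot 0 h0T) (hRapV 0 h0T), hV0]
    refine sob_fv hMS' fun i hi => hsb i ?_
    have h1 := i.2
    have h2 : sh i - n₀ = 0 := hi
    omega
  · -- uniqueness
    intro T' v hT' hv hv0
    obtain ⟨W, hW, hvW⟩ := (t_SOLD T' (dsy ν α) β Bo hSym hrep).2 v (solA_iff.1 hv)
    have h0T' : (0 : ℝ) ∈ Ico 0 T' := ⟨le_rfl, hT'⟩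
    have hRapW : ∀ t ∈ Ico 0 T', Rap (W t) := fun t ht => rap_of_unif hW.rap ht
    have hWV : ∀ k, V 0 k = W 0 k := by
      intro k
      rw [← cf_fieldOf (hV.ot 0 h0T) (hRapV 0 h0T), ← cf_fieldOf (hW.ot 0 h0T') (hRapW 0 h0T'),
        ← hvW 0 h0T', hv0]
    have hun := (hUNI s δ C (min T T') (dsy ν α) (fun k => N₂ ≤ ‖vec k‖) β hSym hF).1 V W
      (hV.restrict (min_le_left _ _)) (hW.restrict (min_le_right _ _)) hWV
    have heq : ∀ t ∈ Ico 0 (min T T'), v t = fieldOf (V t) := by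
      intro t ht
      rw [hvW t ⟨ht.1, ht.2.trans_le (min_le_right _ _)⟩]
      congr 1
      funext k
      exact (hun t ht k).symm
    have hle : T' ≤ T := by
      by_contra hlt
      push Not at hlt
      obtain ⟨M, hM⟩ := exBD hW hlt
      obtain ⟨t, ht, y, hy⟩ := hblow (M * ∑' k, Pool.Agent.Y301.G.wt k)
      have h5 : t ∈ Ico 0 (min T T') := ⟨ht.1, lt_min ht.2 (ht.2.trans hlt)⟩
      have h6 := field_le (W t) (hM t ⟨ht.1, ht.2.le⟩) y
      rw [← hvW t ⟨ht.1, ht.2.trans hlt⟩, heq t h5] at h6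
      linarith
    exact ⟨hle, fun t ht => heq t ⟨ht.1, lt_min (ht.2.trans_le hle) ht.2⟩⟩
  · -- energy identity
    intro t ht
    have h3 := (hUNI s δ C T (dsy ν α) (fun k => N₂ ≤ ‖vec k‖) β hSym hF).2 V hV t ht
    have h4 : ν * sob α (fieldOf (V t)) = lpD (dsy ν α) (V t) (V t) := by
      rw [sob_eq t_FLD2 α (V t) (hV.ot t ht) (hRapV t ht)]
      unfold lpD dsy
      rw [← tsum_mul_left]
      exact tsum_congr fun k => by rw [real_inner_self_eq_norm_sq]; ring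
    rw [h4]
    refine h3.congr (fun τ hτ => ?_) ?_
    · exact t_FLD2.1.1 (V τ) (V τ) (hV.ot τ hτ) (hRapV τ hτ) (hV.ot τ hτ) (hRapV τ hτ)
    · exact t_FLD2.1.1 (V t) (V t) (hV.ot t ht) (hRapV t ht) (hV.ot t ht) (hRapV t ht)
  · exact hblow

end Pool.Agent.K1H54.L2
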