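import Pool.Agent.K1H54.LO.GeoP

/-!
Random signs: moments.
-/

open Set Filter Topology MeasureTheory

set_option autoImplicit false

namespace Pool.Agent.K1H54.L2

open Pool.Agent.Y5 Pool.Agent.Y5.D Pool.Agent.Y5.E Pool.Agent.K1H54.LO

/-- signs -/
noncomputable def sg (t : Finset Z3) (k : Z3) : ℝ := if k ∈ t then 1 else -1

/-- random sums -/
noncomputable def XX (c : Z3 → ℝ) (G t : Finset Z3) : ℝ := ∑ k ∈ G, c k * sg t k

lemma XX_ins1 (c : Z3 → ℝ) {a : Z3} {s t : Finset Z3} (ha : a ∉ s) (ht : t ⊆ s) :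
    XX c (insert a s) t = XX c s t - c a := by
  unfold XX
  rw [Finset.sum_insert ha]
  have : sg t a = -1 := if_neg fun h => ha (ht h)
  rw [this]; ring

lemma XX_ins2 (c : Z3 → ℝ) {a : Z3} {s t : Finset Z3} (ha : a ∉ s) :
    XX c (insert a s) (insert a t) = XX c s t + c a := by
  unfold XX
  rw [Finset.sum_insert ha]
  have h1 : sg (insert a t) a = 1 := if_pos (Finset.mem_insert_self _ _)
  have h2 : ∑ k ∈ s, c k * sg (insert a t) k = ∑ k ∈ s, c k * sg t k := by
    refine Finset.sum_congr rfl fun k hk => ?_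
    have h3 : k ≠ a := fun h => ha (h ▸ hk)
    unfold sg
    simp only [Finset.mem_insert, h3, false_or]
  rw [h1, h2]; ring

/-- sums over the signs with one more frequency -/
lemma sum_ins (F : ℝ → ℝ) (c : Z3 → ℝ) {a : Z3} {s : Finset Z3} (ha : a ∉ s) :
    ∑ t ∈ (insert a s).powerset, F (XX c (insert a s) t) =
      ∑ t ∈ s.powerset, (F (XX c s t - c a) + F (XX c s t + c a)) := by
  rw [Finset.sum_powerset_insert ha, Finset.sum_add_distrib]
  congr 1
  · exact Finset.sum_congr rfl fun t ht => by rw [XX_ins1 c ha (Finset.mem_powerset.1 ht)]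
  · exact Finset.sum_congr rfl fun t _ => by rw [XX_ins2 c ha]

lemma mom2 (c : Z3 → ℝ) (G : Finset Z3) :
    ∑ t ∈ G.powerset, XX c G t ^ 2 = 2 ^ G.card * ∑ k ∈ G, c k ^ 2 := by
  classical
  induction G using Finset.induction_on with
  | empty => simp [XX]
  | insert a s ha ih =>
    rw [sum_ins (fun x => x ^ 2) c ha, Finset.card_insert_of_notMem ha, Finset.sum_insert ha]
    have e : ∀ t, (XX c s t - c a) ^ 2 + (XX c s t + c a) ^ 2 =
        2 * XX c s t ^ 2 + 2 * c a ^ 2 := fun t => by ring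
    simp only [e]
    rw [Finset.sum_add_distrib, ← Finset.mul_sum, ih, Finset.sum_const, Finset.card_powerset,
      nsmul_eq_mul, pow_succ]
    push_cast
    ring

lemma mom4 (c : Z3 → ℝ) (G : Finset Z3) :
    ∑ t ∈ G.powerset, XX c G t ^ 4 ≤ 2 ^ G.card * (3 * (∑ k ∈ G, c k ^ 2) ^ 2) := by
  classical
  induction G using Finset.induction_on with
  | empty => simp [XX]
  | insert a s ha ih =>
    rw [sum_ins (fun x => x ^ 4) c ha, Finset.card_insert_of_notMem ha, Finset.sum_insert ha]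
    have e : ∀ t, (XX c s t - c a) ^ 4 + (XX c s t + c a) ^ 4 =
        2 * XX c s t ^ 4 + 12 * c a ^ 2 * XX c s t ^ 2 + 2 * c a ^ 4 := fun t => by ring
    simp only [e]
    rw [Finset.sum_add_distrib, Finset.sum_add_distrib, ← Finset.mul_sum, ← Finset.mul_sum,
      mom2, Finset.sum_const, Finset.card_powerset, nsmul_eq_mul]
    push_cast
    have h2 : (0 : ℝ) < 2 ^ s.card := by positivity
    have h3 : 0 ≤ c a ^ 4 := by positivity
    have h4 := mul_nonneg h2.le h3
    have e2 : (2 : ℝ) ^ (s.card + 1) * (3 * (c a ^ 2 + ∑ k ∈ s, c k ^ 2) ^ 2) =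
        2 * (2 ^ s.card * (3 * (∑ k ∈ s, c k ^ 2) ^ 2)) +
        12 * c a ^ 2 * (2 ^ s.card * ∑ k ∈ s, c k ^ 2) + 6 * (2 ^ s.card * c a ^ 4) := by
      rw [pow_succ]; ring
    rw [e2]
    linarith

lemma mome (c : Z3 → ℝ) (G : Finset Z3) :
    ∑ t ∈ G.powerset, Real.exp (XX c G t) ≤
      2 ^ G.card * Real.exp ((∑ k ∈ G, c k ^ 2) / 2) := by
  classical
  induction G using Finset.induction_on with
  | empty => simp [XX]
  | insert a s ha ih =>
    rw [sum_ins Real.exp c ha, Finset.card_insert_of_notMem ha, Finset.sum_insert ha]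
    have e : ∀ t, Real.exp (XX c s t - c a) + Real.exp (XX c s t + c a) =
        2 * Real.cosh (c a) * Real.exp (XX c s t) := fun t => by
      rw [Real.cosh_eq, sub_eq_add_neg, Real.exp_add, Real.exp_add]
      ring
    simp only [e]
    rw [← Finset.mul_sum]
    have h1 := Real.cosh_le_exp_half_sq (c a)
    have h2 := Real.cosh_pos (c a)
    calc 2 * Real.cosh (c a) * ∑ t ∈ s.powerset, Real.exp (XX c s t)
        ≤ 2 * Real.exp (c a ^ 2 / 2) * (2 ^ s.card * Real.exp ((∑ k ∈ s, c k ^ 2) / 2)) := by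
          gcongr
      _ = 2 ^ (s.card + 1) * (Real.exp (c a ^ 2 / 2) * Real.exp ((∑ k ∈ s, c k ^ 2) / 2)) := by
          rw [pow_succ]; ring
      _ = _ := by
          rw [← Real.exp_add]
          congr 2
          ring

/-- Choice of the signs: `X` is of size one, and all `Y i` are at most logarithmic. -/
lemma ex_signs {J : Type} [Fintype J] [Nonempty J] (G : Finset Z3) (c : Z3 → ℝ) (d : J → Z3 → ℝ)
    (hc1 : 1 / 2 ≤ ∑ k ∈ G, c k ^ 2) (hc2 : ∑ k ∈ G, c k ^ 2 ≤ 2)
    (hd : ∀ j, ∑ k ∈ G, d j k ^ 2 ≤ 2) :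
    ∃ t : Finset Z3, 1 / 4 ≤ XX c G t ^ 2 ∧ XX c G t ^ 2 ≤ 96 ∧
      ∀ j, |XX (d j) G t| ≤ Real.log (1536 * Real.exp 1 * Fintype.card J) := by
  classical
  set n : ℝ := (Fintype.card J : ℝ) with hn
  have hn0 : 0 < n := Nat.cast_pos.2 Fintype.card_pos
  have he := Real.exp_pos 1
  set V : ℝ := ∑ k ∈ G, c k ^ 2 with hV
  set Φ : Finset Z3 → ℝ := fun t =>
    ∑ j, (Real.exp (XX (d j) G t) + Real.exp (XX (fun k => -d j k) G t)) with hΦ
  have hΦs : ∑ t ∈ G.powerset, Φ t ≤ 2 ^ G.card * (2 * Real.exp 1 * n) := by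
    rw [hΦ]
    simp only
    rw [Finset.sum_comm]
    have h1 : ∀ j, ∑ t ∈ G.powerset, (Real.exp (XX (d j) G t) +
        Real.exp (XX (fun k => -d j k) G t)) ≤ 2 ^ G.card * (2 * Real.exp 1) := by
      intro j
      rw [Finset.sum_add_distrib]
      have h2 := mome (d j) G
      have h3 := mome (fun k => -d j k) G
      have h4 : ∑ k ∈ G, (fun k => -d j k) k ^ 2 = ∑ k ∈ G, d j k ^ 2 :=
        Finset.sum_congr rfl fun k _ => by ring
      rw [h4] at h3
      have h5 : Real.exp ((∑ k ∈ G, d j k ^ 2) / 2) ≤ Real.exp 1 :=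
        Real.exp_le_exp.2 (by linarith [hd j])
      have h6 : (0 : ℝ) < 2 ^ G.card := by positivity
      nlinarith
    calc ∑ j, ∑ t ∈ G.powerset, (Real.exp (XX (d j) G t) + Real.exp (XX (fun k => -d j k) G t))
        ≤ ∑ _j : J, 2 ^ G.card * (2 * Real.exp 1) := Finset.sum_le_sum fun j _ => h1 j
      _ = _ := by
        rw [Finset.sum_const, Finset.card_univ, nsmul_eq_mul]
        ring
  have hsum : 2 ^ G.card * (1 / 4) ≤ ∑ t ∈ G.powerset,
      (XX c G t ^ 2 - XX c G t ^ 4 / 96 - Φ t / (16 * Real.exp 1 * n)) := by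
    rw [Finset.sum_sub_distrib, Finset.sum_sub_distrib, mom2, ← Finset.sum_div, ← Finset.sum_div]
    have h1 := mom4 c G
    have h2 : (0 : ℝ) < 2 ^ G.card := by positivity
    have h3 : (∑ t ∈ G.powerset, Φ t) / (16 * Real.exp 1 * n) ≤ 2 ^ G.card * (1 / 8) := by
      rw [div_le_iff₀ (by positivity)]
      refine hΦs.trans (le_of_eq ?_)
      ring
    rw [← hV] at h1 ⊢
    have h4 : 1 / 2 * (15 / 16) ≤ V - 3 * V ^ 2 / 96 := by nlinarith
    have h5 : 2 ^ G.card * (1 / 2 * (15 / 16)) ≤ 2 ^ G.card * (V - 3 * V ^ 2 / 96) :=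
      mul_le_mul_of_nonneg_left h4 h2.le
    nlinarith
  obtain ⟨t, ht, h1⟩ : ∃ t ∈ G.powerset, 1 / 4 ≤
      XX c G t ^ 2 - XX c G t ^ 4 / 96 - Φ t / (16 * Real.exp 1 * n) := by
    by_contra hcon
    push Not at hcon
    have h2 : ∑ t ∈ G.powerset,
        (XX c G t ^ 2 - XX c G t ^ 4 / 96 - Φ t / (16 * Real.exp 1 * n)) <
        ∑ _t ∈ G.powerset, (1 / 4 : ℝ) :=
      Finset.sum_lt_sum_of_nonempty ⟨∅, Finset.empty_mem_powerset _⟩ hcon
    rw [Finset.sum_const, Finset.card_powerset, nsmul_eq_mul] at h2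
    push_cast at h2
    linarith
  have hΦ0 : 0 ≤ Φ t / (16 * Real.exp 1 * n) := by
    have : 0 ≤ Φ t := Finset.sum_nonneg fun j _ => by positivity
    positivity
  have h4 : 0 ≤ XX c G t ^ 4 / 96 := by positivity
  have hX : XX c G t ^ 2 ≤ 96 := by
    by_contra hlt
    push Not at hlt
    have : XX c G t ^ 4 = XX c G t ^ 2 * XX c G t ^ 2 := by ring
    nlinarith
  refine ⟨t, by linarith, hX, fun j => ?_⟩
  have h5 : Φ t ≤ 1536 * Real.exp 1 * n := by
    have h6 : Φ t / (16 * Real.exp 1 * n) ≤ 96 := by linarith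
    rw [div_le_iff₀ (by positivity)] at h6
    linarith
  have h6 : Real.exp (XX (d j) G t) + Real.exp (XX (fun k => -d j k) G t) ≤ Φ t :=
    Finset.single_le_sum (f := fun j => Real.exp (XX (d j) G t) +
      Real.exp (XX (fun k => -d j k) G t)) (fun _ _ => by positivity) (Finset.mem_univ j)
  have h7 : XX (fun k => -d j k) G t = -XX (d j) G t := by
    unfold XX
    rw [← Finset.sum_neg_distrib]
    exact Finset.sum_congr rfl fun k _ => by ring
  rw [h7] at h6
  have h8 := Real.exp_pos (XX (d j) G t)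
  have h9 := Real.exp_pos (-XX (d j) G t)
  rw [abs_le]
  constructor
  · have : -XX (d j) G t ≤ Real.log (1536 * Real.exp 1 * n) := by
      rw [Real.le_log_iff_exp_le (by positivity)]
      linarith
    linarith
  · rw [Real.le_log_iff_exp_le (by positivity)]
    linarith

end Pool.Agent.K1H54.L2
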