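import Pool.Agent.K1H54.LO.Defs3
import Pool.Agent.K1H30.OP.Rng
import Pool.Agent.K1H17.UN.Uni
import Pool.Agent.Y274.NE.B5
import Pool.Agent.Y153.NSK.FLDB
import Pool.Agent.Y275.ND.A1

/-!
Transfer to fields (`S_LOP`, `S_SOLD`, `S_SOLF`).
-/

open Set Filter Topology MeasureTheory

set_option autoImplicit false

namespace Pool.Agent.K1H54.LO

open Pool.Agent.Y5 Pool.Agent.Y5.D Pool.Agent.Y5.E Pool.Agent.K1H54.L2
open Pool.Agent.K1H30.OP (sum0 psum rap_add ot_add pair_add)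
open Pool.Agent.K1H17.UN (fin_rap)
open Pool.Agent.Y274.NE (t_FLD2)

lemma cf_fieldOf {V : Fam} (h1 : OT V) (h2 : Rap V) : cf (fieldOf V) = V :=
  funext (t_FLD2.2 V h1 h2)

lemma pf_cf {v : E3 → E3} (h : PF v) : OT (cf v) ∧ Rap (cf v) ∧ fieldOf (cf v) = v := by
  obtain ⟨V, h1, h2, rfl⟩ := h
  rw [cf_fieldOf h1 h2]
  exact ⟨h1, h2, rfl⟩

lemma pf_of {V : Fam} (h1 : OT V) (h2 : Rap V) : PF (fieldOf V) := ⟨V, h1, h2, rfl⟩

lemma ip_cf {v w : E3 → E3} (hv : PF v) (hw : PF w) : ip v w = pair (cf v) (cf w) := by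
  obtain ⟨V, h1, h2, rfl⟩ := hv
  obtain ⟨W, h3, h4, rfl⟩ := hw
  rw [cf_fieldOf h1 h2, cf_fieldOf h3 h4]
  exact t_FLD2.1.1 V W h1 h2 h3 h4

lemma pair_self {V : Fam} (h : Rap V) (h0 : pair V V = 0) (k : Z3) : V k = 0 := by
  have h1 : ∀ k, 0 ≤ (inner ℝ (V k) (V k) : ℝ) := fun k => real_inner_self_nonneg
  have h2 : HasSum (fun k => (inner ℝ (V k) (V k) : ℝ)) 0 := by
    have h4 := (psum h h).hasSum
    unfold pair at h0
    rwa [h0] at h4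
  have h3 := congrFun ((hasSum_zero_iff_of_nonneg h1).1 h2) k
  exact inner_self_eq_zero.1 h3

lemma rap_smul {V : Fam} (a : ℝ) (h : Rap V) : Rap (fun k => a • V k) := fun m => by
  obtain ⟨M, hM⟩ := h m
  refine ⟨|a| * M, fun k => ?_⟩
  rw [norm_smul, Real.norm_eq_abs]
  calc ‖vec k‖ ^ m * (|a| * ‖V k‖) = |a| * (‖vec k‖ ^ m * ‖V k‖) := by ring
    _ ≤ _ := mul_le_mul_of_nonneg_left (hM k) (abs_nonneg a)

lemma ot_smul {V : Fam} (a : ℝ) (h : OT V) : OT (fun k => a • V k) :=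
  ⟨fun k => by rw [h.odd, smul_neg], fun k => by rw [inner_smul_right, h.tan, mul_zero]⟩

lemma pair_comm (V W : Fam) : pair V W = pair W V :=
  tsum_congr fun _ => real_inner_comm _ _

lemma pair_smul (a : ℝ) (V W : Fam) : pair (fun k => a • V k) W = a * pair V W := by
  unfold pair
  rw [← tsum_mul_left]
  exact tsum_congr fun k => real_inner_smul_left _ _ _

lemma pair_sub {G H Z : Fam} (hG : Rap G) (hH : Rap H) (hZ : Rap Z) :
    pair (fun k => G k - H k) Z = pair G Z - pair H Z := by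
  unfold pair
  rw [← (psum hG hZ).tsum_sub (psum hH hZ)]
  exact tsum_congr fun k => inner_sub_left _ _ _

lemma ext_pair {G H : Fam} (hG : OT G) (hG' : Rap G) (hH : OT H) (hH' : Rap H)
    (h : ∀ Z, OT Z → Rap Z → pair G Z = pair H Z) : G = H := by
  have h1 := Pool.Agent.K1H17.UN.ot_sub hG hH
  have h2 := Pool.Agent.K1H17.UN.rap_sub hG' hH'
  have h3 : pair (fun k => G k - H k) (fun k => G k - H k) = 0 := by
    rw [pair_sub hG' hH' h2, h _ h1 h2, sub_self]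
  funext k
  exact sub_eq_zero.1 (pair_self h2 h3 k)

lemma sin_summ {V : Fam} (h : Rap V) (y : E3) :
    Summable (fun k => Real.sin (2 * Real.pi * inner ℝ (vec k) y) • V k) := by
  refine Summable.of_norm_bounded (sum0 h) fun k => ?_
  rw [norm_smul]
  calc _ ≤ 1 * ‖V k‖ := mul_le_mul_of_nonneg_right (Real.abs_sin_le_one _) (norm_nonneg _)
    _ = _ := one_mul _

lemma fieldOf_add {V W : Fam} (hV : Rap V) (hW : Rap W) :
    fieldOf (fun k => V k + W k) = fieldOf V + fieldOf W := by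
  funext y
  rw [Pi.add_apply]
  unfold fieldOf
  rw [← (sin_summ hV y).tsum_add (sin_summ hW y)]
  exact tsum_congr fun k => smul_add _ _ _

lemma fieldOf_smul (a : ℝ) (V : Fam) :
    fieldOf (fun k => a • V k) = a • fieldOf V := by
  funext y
  rw [Pi.smul_apply]
  unfold fieldOf
  rw [← tsum_const_smul'']
  exact tsum_congr fun k => smul_comm _ _ _

lemma pf_add {v w : E3 → E3} (hv : PF v) (hw : PF w) :
    PF (v + w) ∧ cf (v + w) = fun k => cf v k + cf w k := by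
  obtain ⟨h1, h2, h3⟩ := pf_cf hv
  obtain ⟨h4, h5, h6⟩ := pf_cf hw
  have e : v + w = fieldOf (fun k => cf v k + cf w k) := by
    rw [fieldOf_add h2 h5, h3, h6]
  refine ⟨⟨_, ot_add h1 h4, rap_add h2 h5, e⟩, ?_⟩
  conv_lhs => rw [e]
  rw [cf_fieldOf (ot_add h1 h4) (rap_add h2 h5)]

lemma pf_smul {v : E3 → E3} (a : ℝ) (hv : PF v) :
    PF (a • v) ∧ cf (a • v) = fun k => a • cf v k := by
  obtain ⟨h1, h2, h3⟩ := pf_cf hv
  have e : a • v = fieldOf (fun k => a • cf v k) := by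
    rw [fieldOf_smul, h3]
  refine ⟨⟨_, ot_smul a h1, rap_smul a h2, e⟩, ?_⟩
  conv_lhs => rw [e]
  rw [cf_fieldOf (ot_smul a h1) (rap_smul a h2)]

lemma zero_fam : OT (fun _ => 0) ∧ Rap (fun _ => (0 : E3)) :=
  ⟨⟨fun _ => by simp, fun _ => by simp⟩, fun m => ⟨0, fun k => by simp⟩⟩

lemma fieldOf_zero : fieldOf (fun _ => (0 : E3)) = 0 := by
  funext y
  unfold fieldOf
  simp

lemma pf_zero : PF 0 ∧ cf 0 = fun _ => (0 : E3) := by
  have h := zero_fam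
  refine ⟨⟨_, h.1, h.2, fieldOf_zero.symm⟩, ?_⟩
  conv_lhs => rw [← fieldOf_zero]
  exact cf_fieldOf h.1 h.2

/-- fields with the same products are equal -/
lemma pf_ext {v w : E3 → E3} (hv : PF v) (hw : PF w)
    (h : ∀ Z, OT Z → Rap Z → ip v (fieldOf Z) = ip w (fieldOf Z)) : v = w := by
  obtain ⟨h1, h2, h3⟩ := pf_cf hv
  obtain ⟨h4, h5, h6⟩ := pf_cf hw
  rw [← h3, ← h6]
  congr 1
  refine ext_pair h1 h2 h4 h5 fun Z hZ hZr => ?_
  have := h Z hZ hZr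
  rwa [ip_cf hv (pf_of hZ hZr), ip_cf hw (pf_of hZ hZr), cf_fieldOf hZ hZr] at this

lemma ip_add_left {v w z : E3 → E3} (hv : PF v) (hw : PF w) (hz : PF z) :
    ip (v + w) z = ip v z + ip w z := by
  obtain ⟨h1, h2⟩ := pf_add hv hw
  rw [ip_cf h1 hz, h2, ip_cf hv hz, ip_cf hw hz,
    pair_add (pf_cf hv).2.1 (pf_cf hw).2.1 (pf_cf hz).2.1]

lemma ip_smul_left {v z : E3 → E3} (a : ℝ) (hv : PF v) (hz : PF z) :
    ip (a • v) z = a * ip v z := by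
  obtain ⟨h1, h2⟩ := pf_smul a hv
  rw [ip_cf h1 hz, h2, ip_cf hv hz, pair_smul]

lemma ip_zero_left {z : E3 → E3} (hz : PF z) : ip 0 z = 0 := by
  obtain ⟨h1, h2⟩ := pf_zero
  rw [ip_cf h1 hz, h2]
  unfold pair
  simp

lemma pair_self_eq (V : Fam) : pair V V = l2 V ^ 2 := by
  unfold pair l2
  rw [Real.sq_sqrt (tsum_nonneg fun _ => by positivity)]
  exact tsum_congr fun k => real_inner_self_eq_norm_sq _

lemma sqrt_ip {v : E3 → E3} (hv : PF v) : √(ip v v) = l2 (cf v) := by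
  rw [ip_cf hv hv, pair_self_eq, Real.sqrt_sq (show 0 ≤ l2 (cf v) from Real.sqrt_nonneg _)]

lemma h1_le_dir {v : E3 → E3} (hv : PF v) : Pool.Agent.K1H54.LO.h1 (cf v) ≤ √(dir v) := by
  obtain ⟨h1, h2, h3⟩ := pf_cf hv
  have h4 := t_FLD2.1.2.2 (cf v) h1 h2
  rw [h3] at h4
  rw [h4]
  unfold Pool.Agent.K1H54.LO.h1
  apply Real.sqrt_le_sqrt
  have h5 : 0 ≤ ∑' k : Z3, ‖vec k‖ ^ 2 * ‖cf v k‖ ^ 2 := tsum_nonneg fun _ => by positivity
  have h6 : (1 : ℝ) ≤ (2 * Real.pi) ^ 2 := by nlinarith [Real.pi_gt_three]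
  nlinarith

section
variable {s δ C : ℝ} {Q : Z3 → Prop} {β : Fam → Fam → Fam → ℝ}

lemma beta_add3 (h : FPert s δ C Q β) {V W Z Z' : Fam} (hV : OT V) (hV' : Rap V) (hW : OT W)
    (hW' : Rap W) (hZ : OT Z) (hZ1 : Rap Z) (hZ' : OT Z') (hZ1' : Rap Z') :
    β V W (fun k => Z k + Z' k) = β V W Z + β V W Z' := by
  obtain ⟨G, h1, h2, h3⟩ := h.range V W hV hV' hW hW'
  rw [h3 _ (ot_add hZ hZ') (rap_add hZ1 hZ1'), h3 _ hZ hZ1, h3 _ hZ' hZ1', pair_comm G,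
    pair_add hZ1 hZ1' h2, pair_comm Z, pair_comm Z']

lemma beta_smul3 (h : FPert s δ C Q β) (a : ℝ) {V W Z : Fam} (hV : OT V) (hV' : Rap V) (hW : OT W)
    (hW' : Rap W) (hZ : OT Z) (hZ1 : Rap Z) :
    β V W (fun k => a • Z k) = a * β V W Z := by
  obtain ⟨G, h1, h2, h3⟩ := h.range V W hV hV' hW hW'
  rw [h3 _ (ot_smul a hZ) (rap_smul a hZ1), h3 _ hZ hZ1, pair_comm G, pair_smul, pair_comm Z]

lemma beta_add2 (h : FPert s δ C Q β) {V W W' Z : Fam} (hV : OT V) (hV' : Rap V) (hW : OT W)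
    (hW1 : Rap W) (hW' : OT W') (hW1' : Rap W') (hZ : OT Z) (hZ1 : Rap Z) :
    β V (fun k => W k + W' k) Z = β V W Z + β V W' Z := by
  rw [h.skew V _ Z hV hV' (ot_add hW hW') (rap_add hW1 hW1') hZ hZ1,
    beta_add3 h hV hV' hZ hZ1 hW hW1 hW' hW1', h.skew V Z W hV hV' hZ hZ1 hW hW1,
    h.skew V Z W' hV hV' hZ hZ1 hW' hW1']
  ring

lemma beta_smul2 (h : FPert s δ C Q β) (a : ℝ) {V W Z : Fam} (hV : OT V) (hV' : Rap V) (hW : OT W)
    (hW1 : Rap W) (hZ : OT Z) (hZ1 : Rap Z) :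
    β V (fun k => a • W k) Z = a * β V W Z := by
  rw [h.skew V _ Z hV hV' (ot_smul a hW) (rap_smul a hW1) hZ hZ1,
    beta_smul3 h a hV hV' hZ hZ1 hW hW1, h.skew V Z W hV hV' hZ hZ1 hW hW1]
  ring

end

lemma l2_zero_of_le {x y : ℝ} (hy : 0 ≤ y) (h : x ^ 2 ≤ y * x) : x ≤ y := by
  by_contra hlt
  push Not at hlt
  nlinarith

/-- The operator of a trilinear form. -/
theorem t_LOP : S_LOP := by
  classical
  intro s δ C Q β hδ hQ h
  have key : ∀ v w : E3 → E3, ∃ b : E3 → E3, PF v → PF w → PF b ∧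
      ∀ Z, OT Z → Rap Z → ip b (fieldOf Z) = β (cf v) (cf w) Z := by
    intro v w
    by_cases hv : PF v
    · by_cases hw : PF w
      · obtain ⟨h1, h2, -⟩ := pf_cf hv
        obtain ⟨h3, h4, -⟩ := pf_cf hw
        obtain ⟨G, g1, g2, g3⟩ := h.range (cf v) (cf w) h1 h2 h3 h4
        refine ⟨fieldOf G, fun _ _ => ⟨pf_of g1 g2, fun Z hZ hZr => ?_⟩⟩
        rw [g3 Z hZ hZr]
        exact t_FLD2.1.1 G Z g1 g2 hZ hZr
      · exact ⟨0, fun _ hw' => absurd hw' hw⟩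
    · exact ⟨0, fun hv' => absurd hv' hv⟩
  choose B hB using key
  have hB2 : ∀ v w z, PF v → PF w → PF z → ip (B v w) z = β (cf v) (cf w) (cf z) := by
    intro v w z hv hw hz
    obtain ⟨h1, h2, h3⟩ := pf_cf hz
    rw [← (hB v w hv hw).2 (cf z) h1 h2, h3]
  refine ⟨B, ⟨fun v w hv hw => (hB v w hv hw).1, ?_, ?_, ?_, ?_, ?_, ?_, ?_, ?_, ?_⟩, ?_⟩
  · intro v v' w hv hv' hw
    obtain ⟨a1, a2⟩ := pf_add hv hv'
    refine pf_ext (hB _ _ a1 hw).1 (pf_add (hB _ _ hv hw).1 (hB _ _ hv' hw).1).1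
      fun Z hZ hZr => ?_
    rw [ip_add_left (hB _ _ hv hw).1 (hB _ _ hv' hw).1 (pf_of hZ hZr), (hB _ _ a1 hw).2 Z hZ hZr,
      (hB _ _ hv hw).2 Z hZ hZr, (hB _ _ hv' hw).2 Z hZ hZr, a2]
    exact h.add1 _ _ _ _ (pf_cf hv).1 (pf_cf hv).2.1 (pf_cf hv').1 (pf_cf hv').2.1
      (pf_cf hw).1 (pf_cf hw).2.1 hZ hZr
  · intro a v w hv hw
    obtain ⟨a1, a2⟩ := pf_smul a hv
    refine pf_ext (hB _ _ a1 hw).1 (pf_smul a (hB _ _ hv hw).1).1 fun Z hZ hZr => ?_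
    rw [ip_smul_left a (hB _ _ hv hw).1 (pf_of hZ hZr), (hB _ _ a1 hw).2 Z hZ hZr,
      (hB _ _ hv hw).2 Z hZ hZr, a2]
    exact h.smul1 _ _ _ _ (pf_cf hv).1 (pf_cf hv).2.1 (pf_cf hw).1 (pf_cf hw).2.1 hZ hZr
  · intro v w w' hv hw hw'
    obtain ⟨a1, a2⟩ := pf_add hw hw'
    refine pf_ext (hB _ _ hv a1).1 (pf_add (hB _ _ hv hw).1 (hB _ _ hv hw').1).1
      fun Z hZ hZr => ?_
    rw [ip_add_left (hB _ _ hv hw).1 (hB _ _ hv hw').1 (pf_of hZ hZr), (hB _ _ hv a1).2 Z hZ hZr,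
      (hB _ _ hv hw).2 Z hZ hZr, (hB _ _ hv hw').2 Z hZ hZr, a2]
    exact beta_add2 h (pf_cf hv).1 (pf_cf hv).2.1 (pf_cf hw).1 (pf_cf hw).2.1
      (pf_cf hw').1 (pf_cf hw').2.1 hZ hZr
  · intro a v w hv hw
    obtain ⟨a1, a2⟩ := pf_smul a hw
    refine pf_ext (hB _ _ hv a1).1 (pf_smul a (hB _ _ hv hw).1).1 fun Z hZ hZr => ?_
    rw [ip_smul_left a (hB _ _ hv hw).1 (pf_of hZ hZr), (hB _ _ hv a1).2 Z hZ hZr,
      (hB _ _ hv hw).2 Z hZ hZr, a2]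
    exact beta_smul2 h a (pf_cf hv).1 (pf_cf hv).2.1 (pf_cf hw).1 (pf_cf hw).2.1 hZ hZr
  · intro v w hv hw
    rw [hB2 v w w hv hw hw]
    have := h.skew (cf v) (cf w) (cf w) (pf_cf hv).1 (pf_cf hv).2.1 (pf_cf hw).1 (pf_cf hw).2.1
      (pf_cf hw).1 (pf_cf hw).2.1
    linarith
  · intro v w hv hw
    have hb := (hB v w hv hw).1
    have h1 := hB2 v w (B v w) hv hw hb
    have h2 := h.small (cf v) (cf w) (cf (B v w)) (pf_cf hv).1 (pf_cf hv).2.1 (pf_cf hw).1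
      (pf_cf hw).2.1 (pf_cf hb).1 (pf_cf hb).2.1
    rw [sqrt_ip hb, sqrt_ip hw]
    have hw0 : 0 ≤ wie (s - 1) v := tsum_nonneg fun _ => by positivity
    have hws : 0 ≤ wie s v := tsum_nonneg fun _ => by positivity
    have hl0 : 0 ≤ l2 (cf w) := Real.sqrt_nonneg _
    have hlb : 0 ≤ l2 (cf (B v w)) := Real.sqrt_nonneg _
    refine l2_zero_of_le (by positivity) ?_
    rw [ip_cf hb hb, pair_self_eq] at h1
    rw [h1]
    refine (le_abs_self _).trans (h2.trans ?_)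
    have h3 := h1_le_dir hw
    have e1 : A1 s (cf v) = wie s v := rfl
    have e2 : A1 (s - 1) (cf v) = wie (s - 1) v := rfl
    rw [e1, e2]
    gcongr
  · refine ⟨max C 0, fun v w hv hw => ?_⟩
    have hb := (hB v w hv hw).1
    have h1 := hB2 v w (B v w) hv hw hb
    have h2 := h.low (cf v) (cf w) (cf (B v w)) (pf_cf hv).1 (pf_cf hv).2.1 (pf_cf hw).1
      (pf_cf hw).2.1 (pf_cf hb).1 (pf_cf hb).2.1
    rw [sqrt_ip hb, sqrt_ip hv]
    have hw0 : 0 ≤ wie 1 w := tsum_nonneg fun _ => by positivity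
    have hl0 : 0 ≤ l2 (cf v) := Real.sqrt_nonneg _
    have hlb : 0 ≤ l2 (cf (B v w)) := Real.sqrt_nonneg _
    refine l2_zero_of_le (by positivity) ?_
    rw [ip_cf hb hb, pair_self_eq] at h1
    rw [h1]
    refine (le_abs_self _).trans (h2.trans ?_)
    have e1 : A1 1 (cf w) = wie 1 w := rfl
    rw [e1]
    calc C * l2 (cf v) * wie 1 w * l2 (cf (B v w))
        = C * ((l2 (cf v) * wie 1 w) * l2 (cf (B v w))) := by ring
      _ ≤ max C 0 * ((l2 (cf v) * wie 1 w) * l2 (cf (B v w))) := by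
          gcongr
          exact le_max_left _ _
      _ = _ := by ring
  · intro v w hv hw h0
    have hb := (hB v w hv hw).1
    refine pf_ext hb pf_zero.1 fun Z hZ hZr => ?_
    rw [ip_zero_left (pf_of hZ hZr), (hB v w hv hw).2 Z hZ hZr]
    exact h.thin1 _ _ _ (pf_cf hv).1 (pf_cf hv).2.1 (pf_cf hw).1 (pf_cf hw).2.1 hZ hZr h0
  · intro v w hv hw h0 k hk
    have hb := (hB v w hv hw).1
    obtain ⟨b1, b2, b3⟩ := pf_cf hb
    set G := cf (B v w) with hG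
    have hQ' : ∀ k, Q (-k) ↔ Q k := fun k => ⟨fun h => by simpa using hQ _ h, hQ k⟩
    have o : OT (fun k => if Q k then 0 else G k) := by
      refine ⟨fun k => ?_, fun k => ?_⟩
      · simp only [hQ', b1.odd]
        split_ifs <;> simp
      · split_ifs
        · exact inner_zero_right _
        · exact b1.tan k
    have r : Rap (fun k => if Q k then 0 else G k) := by
      intro m
      obtain ⟨M, hM⟩ := b2 m
      refine ⟨M, fun k => ?_⟩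
      refine le_trans ?_ (hM k)
      gcongr
      dsimp only
      split_ifs
      · rw [norm_zero]; exact norm_nonneg _
      · exact le_rfl
    have h1 := (hB v w hv hw).2 _ o r
    rw [h.thin2 _ _ _ (pf_cf hv).1 (pf_cf hv).2.1 (pf_cf hw).1 (pf_cf hw).2.1 o r h0
      (fun k hk => if_pos hk), ip_cf hb (pf_of o r), cf_fieldOf o r, ← hG] at h1
    have h2 : pair (fun k => if Q k then 0 else G k) (fun k => if Q k then 0 else G k) = 0 := by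
      rw [← h1]
      refine tsum_congr fun k => ?_
      dsimp only
      split_ifs <;> simp
    have h3 := pair_self r h2 k
    simpa only [if_neg hk] using h3
  · intro V W Z hV hV' hW hW' hZ hZ'
    rw [(hB _ _ (pf_of hV hV') (pf_of hW hW')).2 Z hZ hZ', cf_fieldOf hV hV', cf_fieldOf hW hW']

lemma tp_iff {z : E3 → E3} : TP z ↔ ∃ Z : Fam, OT Z ∧ {k | Z k ≠ 0}.Finite ∧ z = fieldOf Z := by
  constructor
  · rintro ⟨Z, h1, ⟨R, hR⟩, h2⟩
    exact ⟨Z, h1, (Pool.Agent.Y275.ND.finite_ball R).subset fun k hk => hR k hk, h2⟩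
  · rintro ⟨Z, h1, hf, h2⟩
    refine ⟨Z, h1, ⟨∑ k ∈ hf.toFinset, ‖vec k‖, fun k hk => ?_⟩, h2⟩
    exact Finset.single_le_sum (f := fun k => ‖vec k‖) (fun _ _ => norm_nonneg _)
      (hf.mem_toFinset.2 hk)

lemma rap_of_unif {V : ℝ → Fam} {T : ℝ}
    (h : ∀ m : ℕ, ∀ T' < T, ∃ M, ∀ t ∈ Icc 0 T', ∀ k, ‖vec k‖ ^ m * ‖V t k‖ ≤ M) {t : ℝ}
    (ht : t ∈ Ico 0 T) : Rap (V t) := fun m => by
  obtain ⟨M, hM⟩ := h m t ht.2
  exact ⟨M, fun k => hM t ⟨ht.1, le_rfl⟩ k⟩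

/-- Solutions in terms of the coefficients. -/
theorem t_SOLD : S_SOLD := by
  intro T D β B _ hB
  have hval : ∀ (V Z : Fam), OT V → Rap V → OT Z → {k | Z k ≠ 0}.Finite →
      -frm D (fieldOf V) (fieldOf Z) - cnv (fieldOf V) (fieldOf Z) +
        ip (B (fieldOf V) (fieldOf V)) (fieldOf Z) = -lpD D V Z + bil V V Z + β V V Z := by
    intro V Z hV hV' hZ hZf
    have hZ' := fin_rap hZf
    rw [hB V V Z hV hV' hV hV' hZ hZ', t_FLD2.1.2.1 V Z hV hV' hZ hZ']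
    have : frm D (fieldOf V) (fieldOf Z) = lpD D V Z := by
      unfold frm lpD
      rw [cf_fieldOf hV hV', cf_fieldOf hZ hZ']
    rw [this]
    ring
  constructor
  · intro V hV
    refine ⟨⟨V, fun t ht => ⟨hV.ot t ht, rfl⟩, hV.rap⟩, fun z hz t ht => ?_⟩
    obtain ⟨Z, hZ, hZf, rfl⟩ := tp_iff.1 hz
    have hZ' := fin_rap hZf
    rw [hval (V t) Z (hV.ot t ht) (rap_of_unif hV.rap ht) hZ hZf]
    refine (hV.eqn Z hZ hZf t ht).congr (fun τ hτ => ?_) ?_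
    · exact t_FLD2.1.1 (V τ) Z (hV.ot τ hτ) (rap_of_unif hV.rap hτ) hZ hZ'
    · exact t_FLD2.1.1 (V t) Z (hV.ot t ht) (rap_of_unif hV.rap ht) hZ hZ'
  · intro u hu
    obtain ⟨V, h1, h2⟩ := hu.reg
    refine ⟨V, ⟨fun t ht => (h1 t ht).1, h2, fun Z hZ hZf t ht => ?_⟩, fun t ht => (h1 t ht).2⟩
    have hZ' := fin_rap hZf
    rw [← hval (V t) Z (h1 t ht).1 (rap_of_unif h2 ht) hZ hZf, ← (h1 t ht).2]
    refine (hu.eqn (fieldOf Z) (tp_iff.2 ⟨Z, hZ, hZf, rfl⟩) t ht).congr (fun τ hτ => ?_) ?_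
    · rw [(h1 τ hτ).2]
      exact (t_FLD2.1.1 (V τ) Z (h1 τ hτ).1 (rap_of_unif h2 hτ) hZ hZ').symm
    · rw [(h1 t ht).2]
      exact (t_FLD2.1.1 (V t) Z (h1 t ht).1 (rap_of_unif h2 ht) hZ hZ').symm

/-- Solutions in terms of the coefficients. -/
theorem t_SOLF : S_SOLF := by
  intro ν T β B hB
  have hval : ∀ (V Z : Fam), OT V → Rap V → OT Z → {k | Z k ≠ 0}.Finite →
      -(ν * Pool.Agent.Y6.N.dirb (fieldOf V) (fieldOf Z)) - cnv (fieldOf V) (fieldOf Z) +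
        ip (B (fieldOf V) (fieldOf V)) (fieldOf Z) = -(ν * lpn V Z) + bil V V Z + β V V Z := by
    intro V Z hV hV' hZ hZf
    have hZ' := fin_rap hZf
    rw [hB V V Z hV hV' hV hV' hZ hZ', t_FLD2.1.2.1 V Z hV hV' hZ hZ',
      Pool.Agent.Y153.NSK.t_FLDB V Z hV hV' hZ hZ']
    unfold lpn
    ring
  constructor
  · intro V hV
    refine ⟨⟨V, fun t ht => ⟨hV.ot t ht, rfl⟩, hV.rap⟩, fun z hz t ht => ?_⟩
    obtain ⟨Z, hZ, hZf, rfl⟩ := tp_iff.1 hz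
    have hZ' := fin_rap hZf
    rw [hval (V t) Z (hV.ot t ht) (rap_of_unif hV.rap ht) hZ hZf]
    refine (hV.eqn Z hZ hZf t ht).congr (fun τ hτ => ?_) ?_
    · exact t_FLD2.1.1 (V τ) Z (hV.ot τ hτ) (rap_of_unif hV.rap hτ) hZ hZ'
    · exact t_FLD2.1.1 (V t) Z (hV.ot t ht) (rap_of_unif hV.rap ht) hZ hZ'
  · intro u hu
    obtain ⟨V, h1, h2⟩ := hu.reg
    refine ⟨V, ⟨fun t ht => (h1 t ht).1, h2, fun Z hZ hZf t ht => ?_⟩, fun t ht => (h1 t ht).2⟩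
    have hZ' := fin_rap hZf
    rw [← hval (V t) Z (h1 t ht).1 (rap_of_unif h2 ht) hZ hZf, ← (h1 t ht).2]
    refine (hu.eqn (fieldOf Z) (tp_iff.2 ⟨Z, hZ, hZf, rfl⟩) t ht).congr (fun τ hτ => ?_) ?_
    · rw [(h1 τ hτ).2]
      exact (t_FLD2.1.1 (V τ) Z (h1 τ hτ).1 (rap_of_unif h2 hτ) hZ hZ').symm
    · rw [(h1 t ht).2]
      exact (t_FLD2.1.1 (V t) Z (h1 t ht).1 (rap_of_unif h2 ht) hZ hZ').symm

end Pool.Agent.K1H54.LO
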