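import Pool.Agent.K1H54.LO.Defs2
import Pool.Agent.K1H21.LO.Red

/-! The velocity is large at the times of `Grow`. -/

open Set Topology MeasureTheory
open Filter hiding ker

set_option autoImplicit false

namespace Pool.Agent.K1H54.LO

open Pool.Agent.Y5 Pool.Agent.Y5.D Pool.Agent.Y5.E Pool.Agent.K1H21.LO

section
variable {I : Type} {sh : I → ℕ} {ty : I → Bool} {m : ℕ → ℕ}

lemma shell_l1 (h : Shl sh ty m) (n : ℕ) (r : I → ℝ) :
    ∑ i ∈ SS h n, |r i| ≤ 2 * √(m n : ℝ) * √(sg h n r) := by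
  have hcard : ((SS h n).card : ℝ) = 2 * m n := by
    have h1 := sum_SS h n (fun _ => (1 : ℝ))
    simp only [Finset.sum_const, nsmul_eq_mul, mul_one] at h1
    rw [h1, card_SF, card_SF]; ring
  have h2 : (∑ i ∈ SS h n, |r i|) ^ 2 ≤ (2 * √(m n : ℝ) * √(sg h n r)) ^ 2 := by
    have h3 := sq_sum_le_card_mul_sum_sq (s := SS h n) (f := fun i => |r i|)
    have h4 : ∑ i ∈ SS h n, |r i| ^ 2 = sg h n r := by
      unfold sg
      exact Finset.sum_congr rfl fun i _ => sq_abs _
    rw [h4, hcard] at h3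
    rw [mul_pow, mul_pow, Real.sq_sqrt (by positivity), Real.sq_sqrt (sg_nonneg h n r)]
    have h5 := sg_nonneg h n r
    have h6 : 0 ≤ (m n : ℝ) * sg h n r := by positivity
    nlinarith
  exact abs_le_of_sq_le_sq' h2 (by positivity) |>.2

lemma half_sum (n : ℕ) : ∑ i ∈ Finset.range n, (1 / 2 : ℝ) ^ (n - i) ≤ 1 - (1 / 2) ^ n := by
  induction n with
  | zero => simp
  | succ n ih =>
    rw [Finset.sum_range_succ]
    have h1 : ∑ i ∈ Finset.range n, (1 / 2 : ℝ) ^ (n + 1 - i) =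
        1 / 2 * ∑ i ∈ Finset.range n, (1 / 2 : ℝ) ^ (n - i) := by
      rw [Finset.mul_sum]
      refine Finset.sum_congr rfl fun i hi => ?_
      have : n + 1 - i = (n - i) + 1 := by
        have := Finset.mem_range.1 hi
        omega
      rw [this, pow_succ]; ring
    have h2 : n + 1 - n = 1 := by omega
    rw [h1, h2, pow_one, pow_succ]
    linarith

lemma geo_le (M : ℕ) : ∑ j ∈ Finset.range M, (1 / 2 : ℝ) ^ j ≤ 2 := by
  have h1 : Summable (fun n : ℕ => (1 / 2 : ℝ) ^ n) :=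
    summable_geometric_of_lt_one (by norm_num) (by norm_num)
  refine (h1.sum_le_tsum _ (fun _ _ => by positivity)).trans ?_
  rw [tsum_geometric_of_lt_one (by norm_num) (by norm_num)]
  norm_num

/-- the modes other than the packet of the shell `n` are small in `ℓ¹` -/
lemma rest_small (h : Shl sh ty m) {lam a : ℝ} (hlb : 10 ^ 13 ≤ lam) {z : I → ℝ} {n : ℕ}
    (mlo : ∀ n, 100 * √(m n : ℝ) ≤ √(m (n + 1) : ℝ))
    (mup : ∀ n, √(m (n + 1) : ℝ) ≤ lam * √(m n : ℝ)) (hz : Summable fun i => z i ^ 2)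
    (ha : 0 < a) (ham : am sh ty m true n z = a) (hE : En sh z n ≤ (1 + 1 / 10 ^ 10) * a ^ 2)
    (hlo : ∀ i < n, √(En sh z i) ≤ (11 / 10) ^ (n - i) * a)
    (hup : ∀ j : ℕ, √(En sh z (n + 1 + j)) ≤ Real.exp (-(300 * lam)) * ((2 * lam)⁻¹) ^ j * a)
    (u : Finset I) :
    ∑ i ∈ u, |z i - a * fv sh ty m true n i| ≤ 6 / 100 * (√(m n : ℝ) * a) := by
  have hl : 0 < lam := lt_of_lt_of_le (by norm_num) hlb
  set r : I → ℝ := fun i => z i - a * fv sh ty m true n i with hr
  set X := √(m n : ℝ) * a with hX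
  have hX0 : 0 < X := mul_pos (sqm h n) ha
  -- shells
  have hne : ∀ n', n' ≠ n → sg h n' r ≤ En sh z n' := by
    intro n' hn'
    refine le_trans (le_of_eq ?_) (sg_le_En h hz n')
    unfold sg
    refine Finset.sum_congr rfl fun i hi => ?_
    have h1 := (mem_SS h n' i).1 hi
    have h2 : fv sh ty m true n i = 0 := by
      unfold fv; rw [if_neg]; rintro ⟨h3, -⟩; exact hn' (h1.symm.trans h3)
    rw [hr]
    simp only [h2, mul_zero, sub_zero]
  have heq : sg h n r ≤ (1 / 10 ^ 5 * a) ^ 2 := by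
    have h1 : ∑ i ∈ SS h n, fv sh ty m true n i * z i = a := by
      rw [sum_SS, ← am_sum, ham]
      have : ∑ i ∈ SF h false n, fv sh ty m true n i * z i = 0 := by
        refine Finset.sum_eq_zero fun i hi => ?_
        rw [mem_SF] at hi
        have : fv sh ty m true n i = 0 := by
          unfold fv; rw [if_neg]; rintro ⟨-, h3⟩; rw [hi.2] at h3; exact absurd h3 (by decide)
        rw [this, zero_mul]
      rw [this, add_zero]
    have h2 : ∑ i ∈ SS h n, fv sh ty m true n i ^ 2 = 1 := by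
      rw [sum_SS]
      have e1 : ∑ i ∈ SF h false n, fv sh ty m true n i ^ 2 = 0 := by
        refine Finset.sum_eq_zero fun i hi => ?_
        rw [mem_SF] at hi
        have : fv sh ty m true n i = 0 := by
          unfold fv; rw [if_neg]; rintro ⟨-, h3⟩; rw [hi.2] at h3; exact absurd h3 (by decide)
        rw [this]; ring
      have e2 : ∑ i ∈ SF h true n, fv sh ty m true n i ^ 2 =
          ∑ _i ∈ SF h true n, ((√(m n : ℝ))⁻¹) ^ 2 :=
        Finset.sum_congr rfl fun i hi => by rw [fv_mem h true n i hi]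
      rw [e1, e2, Finset.sum_const, card_SF, nsmul_eq_mul, add_zero, mul_comm]
      exact inv_sqm h n
    have h3 : sg h n r = sg h n z - a ^ 2 := by
      unfold sg
      have e : ∀ i, r i ^ 2 = z i ^ 2 - 2 * a * (fv sh ty m true n i * z i) +
          a ^ 2 * fv sh ty m true n i ^ 2 := fun i => by rw [hr]; ring
      simp only [e]
      rw [Finset.sum_add_distrib, Finset.sum_sub_distrib, ← Finset.mul_sum, ← Finset.mul_sum, h1, h2]
      ring
    have h4 := sg_le_En h hz n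
    rw [h3]
    norm_num at hE ⊢
    linarith
  -- terms
  have hmlo : ∀ k n', √(m n' : ℝ) * 100 ^ k ≤ √(m (n' + k) : ℝ) := by
    intro k n'
    induction k with
    | zero => simp
    | succ k ih =>
      have := mlo (n' + k)
      rw [pow_succ]
      calc √(m n' : ℝ) * (100 ^ k * 100) = 100 * (√(m n' : ℝ) * 100 ^ k) := by ring
        _ ≤ 100 * √(m (n' + k) : ℝ) := by gcongr
        _ ≤ _ := this
  have hmup : ∀ k, √(m (n + k) : ℝ) ≤ lam ^ k * √(m n : ℝ) := by
    intro k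
    induction k with
    | zero => simp
    | succ k ih =>
      calc √(m (n + (k + 1)) : ℝ) ≤ lam * √(m (n + k) : ℝ) := mup (n + k)
        _ ≤ lam * (lam ^ k * √(m n : ℝ)) := by gcongr
        _ = _ := by ring
  have tlo : ∀ n' < n, 2 * √(m n' : ℝ) * √(sg h n' r) ≤ 5 / 100 * X * (1 / 2) ^ (n - n') := by
    intro n' hn'
    have h1 := hlo n' hn'
    have h2 : √(sg h n' r) ≤ (11 / 10) ^ (n - n') * a := (Real.sqrt_le_sqrt (hne n' hn'.ne)).trans h1
    have h3 := hmlo (n - n') n'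
    have e1 : n' + (n - n') = n := by omega
    rw [e1] at h3
    obtain ⟨k, hk⟩ : ∃ k, n - n' = k + 1 := ⟨n - n' - 1, by omega⟩
    rw [hk] at h2 h3 ⊢
    have h4 : √(m n' : ℝ) ≤ √(m n : ℝ) * (1 / 100) ^ (k + 1) := by
      have e2 : (100 : ℝ) ^ (k + 1) * (1 / 100) ^ (k + 1) = 1 := by rw [← mul_pow]; norm_num
      calc √(m n' : ℝ) = √(m n' : ℝ) * 100 ^ (k + 1) * (1 / 100) ^ (k + 1) := by
            rw [mul_assoc, e2, mul_one]
        _ ≤ _ := mul_le_mul_of_nonneg_right h3 (by positivity)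
    calc 2 * √(m n' : ℝ) * √(sg h n' r)
        ≤ 2 * (√(m n : ℝ) * (1 / 100) ^ (k + 1)) * ((11 / 10) ^ (k + 1) * a) := by gcongr
      _ = 2 * X * ((1 / 100 * (11 / 10)) ^ (k + 1)) := by rw [hX, mul_pow]; ring
      _ = 2 * X * ((1 / 100 * (11 / 10)) * (1 / 100 * (11 / 10)) ^ k) := by rw [pow_succ]; ring
      _ ≤ 2 * X * ((1 / 100 * (11 / 10)) * (1 / 2) ^ k) := by
        gcongr
        norm_num
      _ ≤ 5 / 100 * X * (1 / 2) ^ (k + 1) := by
        rw [pow_succ]
        have : 0 < X * (1 / 2) ^ k := by positivity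
        nlinarith
  have tn : 2 * √(m n : ℝ) * √(sg h n r) ≤ 1 / 1000 * X := by
    have h1 : √(sg h n r) ≤ 1 / 10 ^ 5 * a := by
      calc √(sg h n r) ≤ √((1 / 10 ^ 5 * a) ^ 2) := Real.sqrt_le_sqrt heq
        _ = _ := Real.sqrt_sq (by positivity)
    calc 2 * √(m n : ℝ) * √(sg h n r) ≤ 2 * √(m n : ℝ) * (1 / 10 ^ 5 * a) := by gcongr
      _ = 2 / 10 ^ 5 * X := by rw [hX]; ring
      _ ≤ _ := mul_le_mul_of_nonneg_right (by norm_num) hX0.le
  have hex : lam * Real.exp (-(300 * lam)) ≤ 1 / 10 ^ 4 := by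
    have h1 : lam ≤ Real.exp lam := by
      have := Real.add_one_le_exp lam
      linarith
    calc lam * Real.exp (-(300 * lam)) ≤ Real.exp lam * Real.exp (-(300 * lam)) := by gcongr
      _ = Real.exp (-(299 * lam)) := by rw [← Real.exp_add]; congr 1; ring
      _ ≤ Real.exp (-lam) := Real.exp_le_exp.2 (by linarith)
      _ = (Real.exp lam)⁻¹ := Real.exp_neg _
      _ ≤ (10 ^ 13)⁻¹ := inv_anti₀ (by norm_num) (hlb.trans h1)
      _ ≤ _ := by norm_num
  have tup : ∀ j, 2 * √(m (n + 1 + j) : ℝ) * √(sg h (n + 1 + j) r) ≤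
      1 / 1000 * X * (1 / 2) ^ j := by
    intro j
    have h1 := hup j
    have h2 : √(sg h (n + 1 + j) r) ≤ Real.exp (-(300 * lam)) * ((2 * lam)⁻¹) ^ j * a :=
      (Real.sqrt_le_sqrt (hne (n + 1 + j) (by omega))).trans h1
    have h3 := hmup (1 + j)
    rw [← add_assoc] at h3
    have e1 : lam ^ j * ((2 * lam)⁻¹) ^ j = (1 / 2) ^ j := by
      rw [← mul_pow]; congr 1; field_simp
    calc 2 * √(m (n + 1 + j) : ℝ) * √(sg h (n + 1 + j) r)
        ≤ 2 * (lam ^ (1 + j) * √(m n : ℝ)) * (Real.exp (-(300 * lam)) * ((2 * lam)⁻¹) ^ j * a) := by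
          gcongr
      _ = 2 * (lam * Real.exp (-(300 * lam))) * (lam ^ j * ((2 * lam)⁻¹) ^ j) * X := by
        rw [hX, pow_add, pow_one]; ring
      _ = 2 * (lam * Real.exp (-(300 * lam))) * (1 / 2) ^ j * X := by rw [e1]
      _ ≤ 2 * (1 / 10 ^ 4) * (1 / 2) ^ j * X := by gcongr
      _ ≤ _ := by
        have : 0 < X * (1 / 2) ^ j := by positivity
        nlinarith
  -- the sum
  obtain ⟨N, hN⟩ := sub_UU h u
  have hN2 : UU h N ⊆ UU h (n + 1 + N) := by
    classical
    intro i hi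
    unfold UU at hi ⊢
    rw [Finset.mem_biUnion] at hi ⊢
    obtain ⟨k, hk, hi⟩ := hi
    exact ⟨k, Finset.mem_range.2 (by have := Finset.mem_range.1 hk; omega), hi⟩
  calc ∑ i ∈ u, |r i| ≤ ∑ i ∈ UU h (n + 1 + N), |r i| :=
        Finset.sum_le_sum_of_subset_of_nonneg (hN.trans hN2) (fun _ _ _ => abs_nonneg _)
    _ = ∑ k ∈ Finset.range (n + 1 + N), ∑ i ∈ SS h k, |r i| := sum_UU h _ _
    _ ≤ ∑ k ∈ Finset.range (n + 1 + N), 2 * √(m k : ℝ) * √(sg h k r) :=
        Finset.sum_le_sum fun k _ => shell_l1 h k r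
    _ = ∑ k ∈ Finset.range n, 2 * √(m k : ℝ) * √(sg h k r) + 2 * √(m n : ℝ) * √(sg h n r) +
        ∑ j ∈ Finset.range N, 2 * √(m (n + 1 + j) : ℝ) * √(sg h (n + 1 + j) r) := by
      rw [Finset.sum_range_add, Finset.sum_range_succ]
    _ ≤ ∑ k ∈ Finset.range n, 5 / 100 * X * (1 / 2) ^ (n - k) + 1 / 1000 * X +
        ∑ j ∈ Finset.range N, 1 / 1000 * X * (1 / 2) ^ j := by
      refine add_le_add (add_le_add (Finset.sum_le_sum fun k hk => tlo k (Finset.mem_range.1 hk)) tn)
        (Finset.sum_le_sum fun j _ => tup j)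
    _ ≤ 6 / 100 * X := by
      rw [← Finset.mul_sum, ← Finset.mul_sum]
      have h1 := half_sum n
      have h2 := geo_le N
      have h3 : (0 : ℝ) ≤ (1 / 2) ^ n := by positivity
      have h4 : 5 / 100 * X * ∑ i ∈ Finset.range n, (1 / 2 : ℝ) ^ (n - i) ≤ 5 / 100 * X * 1 := by
        gcongr
        linarith
      have h5 : 1 / 1000 * X * ∑ i ∈ Finset.range N, (1 / 2 : ℝ) ^ i ≤ 1 / 1000 * X * 2 := by
        gcongr
      linarith

end

section
variable {A B : ℕ → Finset Z3}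

lemma vec_neg' (k : Z3) : vec (-k) = -vec k := by
  unfold vec
  ext i
  simp

lemma pe_neg (k : Z3) : pe (-k) = pe k := by
  have h2 : (((-k) 2 : ℤ) : ℝ) = -(k 2 : ℝ) := by
    rw [Pi.neg_apply]; push_cast; rfl
  unfold pe
  rw [vec_neg', norm_neg, h2, smul_neg, neg_div, neg_smul, neg_neg]

lemma inner_pe (k : Z3) : (inner ℝ (pe k) (EuclideanSpace.single 2 (1 : ℝ)) : ℝ) = ‖pe k‖ ^ 2 := by
  by_cases hk : vec k = 0
  · have : pe k = EuclideanSpace.single 2 (1 : ℝ) := by unfold pe; rw [hk]; simp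
    rw [this, real_inner_self_eq_norm_sq]
  · have h1 : (inner ℝ (pe k) (vec k) : ℝ) = 0 := by
      unfold pe
      rw [inner_sub_left, real_inner_smul_left, real_inner_self_eq_norm_sq]
      have h2 : (inner ℝ (EuclideanSpace.single 2 (1 : ℝ)) (vec k) : ℝ) = (k 2 : ℝ) := by
        rw [EuclideanSpace.inner_single_left]
        simp [vec]
      rw [h2]
      have : ‖vec k‖ ^ 2 ≠ 0 := pow_ne_zero _ (norm_ne_zero_iff.2 hk)
      field_simp
      ring
    have h2 : EuclideanSpace.single 2 (1 : ℝ) = pe k + ((k 2 : ℝ) / ‖vec k‖ ^ 2) • vec k := by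
      unfold pe; simp
    rw [h2, inner_add_right, real_inner_smul_right, h1, mul_zero, add_zero,
      real_inner_self_eq_norm_sq]

lemma pe_le (k : Z3) : ‖pe k‖ ≤ 1 := by
  have h1 := inner_pe k
  have h2 := real_inner_le_norm (pe k) (EuclideanSpace.single 2 (1 : ℝ))
  rw [h1] at h2
  have h3 : ‖(EuclideanSpace.single 2 (1 : ℝ) : E3)‖ = 1 := by simp
  rw [h3, mul_one] at h2
  have h4 := norm_nonneg (pe k)
  nlinarith

/-- the coefficient of a mode -/
noncomputable def gM (y : E3) (i : IM A B) (k : Z3) : ℝ :=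
  Real.sin (2 * Real.pi * inner ℝ (vec k) y) * (inner ℝ (eM i k) (EuclideanSpace.single 2 (1 : ℝ)))

lemma kM_ne (hpos : ∀ n, ∀ k ∈ A n ∪ B n, 0 < k 0) (i : IM A B) : kM i ≠ -kM i := by
  have h1 := hpos i.1 i.2.1 i.2.2
  intro h
  have h2 := congrFun h 0
  simp only [kM, Pi.neg_apply] at h2
  omega

lemma gM_sum (hpos : ∀ n, ∀ k ∈ A n ∪ B n, 0 < k 0) (y : E3) (i : IM A B) :
    HasSum (fun k => gM y i k) (√2 * ‖pe (kM i)‖ * Real.sin (2 * Real.pi * inner ℝ (vec (kM i)) y)) := by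
  have hne := kM_ne hpos i
  have h1 : ∀ k ∉ ({kM i, -kM i} : Finset Z3), gM y i k = 0 := by
    intro k hk
    simp only [Finset.mem_insert, Finset.mem_singleton, not_or] at hk
    unfold gM eM
    rw [if_neg hk.1, if_neg hk.2]
    simp
  have h2 : HasSum (fun k => gM y i k) (∑ k ∈ ({kM i, -kM i} : Finset Z3), gM y i k) :=
    hasSum_sum_of_ne_finset_zero h1
  rw [Finset.sum_pair hne] at h2
  convert h2 using 1
  unfold gM eM
  rw [if_pos rfl, if_neg (fun h => hne h.symm), if_pos rfl, vec_neg', inner_neg_left, pe_neg,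
    inner_neg_left, real_inner_smul_left, inner_pe]
  have h3 : Real.sin (2 * Real.pi * -inner ℝ (vec (kM i)) y) =
      -Real.sin (2 * Real.pi * inner ℝ (vec (kM i)) y) := by
    rw [mul_neg, Real.sin_neg]
  rw [h3]
  have h4 : √2 * √2 = 2 := Real.mul_self_sqrt (by norm_num)
  have h5 : (√2)⁻¹ * 2 = √2 := by
    field_simp
    nlinarith
  by_cases hp : ‖pe (kM i)‖ = 0
  · rw [hp]; simp
  · have : ‖pe (kM i)‖⁻¹ * ‖pe (kM i)‖ ^ 2 = ‖pe (kM i)‖ := by field_simp
    linear_combination (-(2 * Real.sin (2 * Real.pi * inner ℝ (vec (kM i)) y) * (√2)⁻¹)) * this -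
      (‖pe (kM i)‖ * Real.sin (2 * Real.pi * inner ℝ (vec (kM i)) y)) * h5

lemma eM_norm (i : IM A B) (k : Z3) : ‖eM i k‖ ≤ 1 := by
  have h0 : ‖((√2)⁻¹ * ‖pe k‖⁻¹) • pe k‖ ≤ 1 := by
    rw [norm_smul, norm_mul, norm_inv, norm_inv, norm_norm]
    have h1 : ‖(√2 : ℝ)‖⁻¹ ≤ 1 := by
      apply inv_le_one_of_one_le₀
      rw [Real.norm_of_nonneg (Real.sqrt_nonneg _)]
      exact Real.one_le_sqrt.2 (by norm_num)
    have h2 : ‖pe k‖⁻¹ * ‖pe k‖ ≤ 1 := inv_mul_le_one
    calc ‖(√2 : ℝ)‖⁻¹ * ‖pe k‖⁻¹ * ‖pe k‖ = ‖(√2 : ℝ)‖⁻¹ * (‖pe k‖⁻¹ * ‖pe k‖) := by ring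
      _ ≤ 1 * 1 := by gcongr
      _ = 1 := one_mul 1
  unfold eM
  split_ifs
  · exact h0
  · rw [norm_neg]; exact h0
  · simp

/-- the third component of the field -/
lemma field3 (hpos : ∀ n, ∀ k ∈ A n ∪ B n, 0 < k 0) {z : IM A B → ℝ}
    (hz : Summable fun i => |z i|) (y : E3) :
    inner ℝ (fieldOf (VM z) y) (EuclideanSpace.single 2 (1 : ℝ)) =
      ∑' i, z i * (√2 * ‖pe (kM i)‖ * Real.sin (2 * Real.pi * inner ℝ (vec (kM i)) y)) := by
  classical
  -- summability on the product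
  have hS : Summable (Function.uncurry fun (i : IM A B) (k : Z3) => ‖z i • eM i k‖) := by
    refine (summable_prod_of_nonneg (f := Function.uncurry fun (i : IM A B) (k : Z3) =>
      ‖z i • eM i k‖) (fun p => norm_nonneg (z p.1 • eM p.1 p.2))).2 ?_
    have hfin : ∀ i : IM A B, HasSum (fun k => ‖z i • eM i k‖)
        (∑ k ∈ ({kM i, -kM i} : Finset Z3), ‖z i • eM i k‖) := by
      intro i
      refine hasSum_sum_of_ne_finset_zero fun k hk => ?_
      simp only [Finset.mem_insert, Finset.mem_singleton, not_or] at hk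
      unfold eM
      rw [if_neg hk.1, if_neg hk.2]
      simp
    refine ⟨fun i => (hfin i).summable, ?_⟩
    refine Summable.of_nonneg_of_le (fun i => tsum_nonneg fun _ => norm_nonneg _) (fun i => ?_)
      (hz.mul_left 2)
    simp only [Function.uncurry]
    rw [(hfin i).tsum_eq, Finset.sum_pair (kM_ne hpos i), norm_smul, norm_smul, Real.norm_eq_abs]
    have h1 := eM_norm i (kM i)
    have h2 := eM_norm i (-kM i)
    have h3 := abs_nonneg (z i)
    nlinarith
  have hS1 : Summable (Function.uncurry fun (k : Z3) (i : IM A B) => ‖z i • eM i k‖) :=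
    (Equiv.prodComm Z3 (IM A B)).summable_iff.2 hS
  have hSk : ∀ k, Summable fun i => z i • eM i k := fun k => (hS1.prod_factor k).of_norm
  have hVn : ∀ k, ‖VM z k‖ ≤ ∑' i, ‖z i • eM i k‖ := fun k =>
    norm_tsum_le_tsum_norm (hS1.prod_factor k)
  have hV : Summable fun k => ‖VM z k‖ :=
    Summable.of_nonneg_of_le (fun _ => norm_nonneg _) hVn hS1.prod
  have hF : Summable fun k => Real.sin (2 * Real.pi * inner ℝ (vec k) y) • VM z k := by
    refine Summable.of_norm_bounded hV (fun k => ?_)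
    rw [norm_smul]
    exact mul_le_of_le_one_left (norm_nonneg _) (Real.abs_sin_le_one _)
  unfold fieldOf
  have e1 : inner ℝ (∑' k, Real.sin (2 * Real.pi * inner ℝ (vec k) y) • VM z k)
      (EuclideanSpace.single 2 (1 : ℝ)) = ∑' k, ∑' i, z i * gM y i k := by
    rw [real_inner_comm]
    have := (innerSL ℝ (EuclideanSpace.single 2 (1 : ℝ) : E3)).map_tsum hF
    simp only [innerSL_apply_apply] at this
    rw [this]
    refine tsum_congr fun k => ?_
    rw [real_inner_smul_right, real_inner_comm]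
    unfold VM
    rw [real_inner_comm]
    have h2 := (innerSL ℝ (EuclideanSpace.single 2 (1 : ℝ) : E3)).map_tsum (hSk k)
    simp only [innerSL_apply_apply] at h2
    rw [h2, ← tsum_mul_left]
    refine tsum_congr fun i => ?_
    unfold gM
    have h3 : inner ℝ (EuclideanSpace.single 2 (1 : ℝ)) (eM i k) =
        inner ℝ (eM i k) (EuclideanSpace.single 2 (1 : ℝ)) := real_inner_comm _ _
    rw [real_inner_smul_right, h3]
    ring
  rw [e1]
  have hS2 : Summable (Function.uncurry fun (k : Z3) (i : IM A B) => z i * gM y i k) := by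
    refine Summable.of_norm_bounded hS1 (fun p => ?_)
    obtain ⟨k, i⟩ := p
    simp only [Function.uncurry]
    unfold gM
    rw [norm_mul, norm_mul, norm_smul]
    have h1 : ‖Real.sin (2 * Real.pi * inner ℝ (vec k) y)‖ ≤ 1 := Real.abs_sin_le_one _
    have h2 : ‖(inner ℝ (eM i k) (EuclideanSpace.single 2 (1 : ℝ)) : ℝ)‖ ≤ ‖eM i k‖ := by
      refine (norm_inner_le_norm _ _).trans ?_
      simp
    have h3 : ‖Real.sin (2 * Real.pi * inner ℝ (vec k) y)‖ *
        ‖(inner ℝ (eM i k) (EuclideanSpace.single 2 (1 : ℝ)) : ℝ)‖ ≤ 1 * ‖eM i k‖ :=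
      mul_le_mul h1 h2 (norm_nonneg _) zero_le_one
    rw [one_mul] at h3
    exact mul_le_mul_of_nonneg_left h3 (norm_nonneg _)
  rw [← hS2.tsum_comm]
  refine tsum_congr fun i => ?_
  rw [tsum_mul_left, (gM_sum hpos y i).tsum_eq]

/-- The velocity is large at the times of `Grow`. -/
theorem vel {s₀ N₁ δ₀ c₀ lam : ℝ} {N : ℕ → ℝ} {m : ℕ → ℕ}
    (hG : Geo s₀ N₁ δ₀ c₀ lam N m A B) (hX : GeoX lam m A) (hlb : 10 ^ 13 ≤ lam)
    (hS : Shl (shM (A := A) (B := B)) tyM m) {z : IM A B → ℝ} {n : ℕ} {a : ℝ}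
    (hz : ∀ k : ℕ, Sk (fun i => lam ^ shM i) k z) (ha : 0 < a)
    (ham : am shM tyM m true n z = a) (hE : En shM z n ≤ (1 + 1 / 10 ^ 10) * a ^ 2)
    (hlo : ∀ i < n, √(En shM z i) ≤ (11 / 10) ^ (n - i) * a)
    (hup : ∀ j : ℕ, √(En shM z (n + 1 + j)) ≤ Real.exp (-(300 * lam)) * ((2 * lam)⁻¹) ^ j * a) :
    ∃ y : E3, √(m n : ℝ) * a / 2 ≤ ‖fieldOf (VM z) y‖ := by
  obtain ⟨y, hy⟩ := hX.pt n
  refine ⟨y, ?_⟩
  have hz2 : Summable fun i => z i ^ 2 := by
    have := hz 0
    unfold Sk at this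
    simpa using this
  have hrs := rest_small hS hlb hX.mlo hX.mup hz2 ha ham hE hlo hup
  set r : IM A B → ℝ := fun i => z i - a * fv shM tyM m true n i with hr
  have hr1 : Summable fun i => |r i| := summable_of_sum_le (fun _ => abs_nonneg _) hrs
  have hr2 : ∑' i, |r i| ≤ 6 / 100 * (√(m n : ℝ) * a) := hr1.tsum_le_of_sum_le hrs
  have hfv : ∀ i ∉ SF hS true n, fv shM tyM m true n i = 0 := fv_zero hS true n
  have hf1 : Summable fun i : IM A B => |a * fv shM tyM m true n i| := by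
    refine summable_of_ne_finset_zero (s := SF hS true n) fun i hi => ?_
    rw [hfv i hi]; simp
  have hz1 : Summable fun i => |z i| := by
    refine Summable.of_nonneg_of_le (fun _ => abs_nonneg _) (fun i => ?_) (hr1.add hf1)
    have : z i = r i + a * fv shM tyM m true n i := by rw [hr]; ring
    calc |z i| = |r i + a * fv shM tyM m true n i| := by rw [← this]
      _ ≤ _ := abs_add_le _ _
  have h3 := field3 hG.pos hz1 y
  set G : IM A B → ℝ := fun i =>
    √2 * ‖pe (kM i)‖ * Real.sin (2 * Real.pi * inner ℝ (vec (kM i)) y) with hGd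
  have hs2 : √2 ≤ 3 / 2 := by
    rw [Real.sqrt_le_left (by norm_num)]; norm_num
  have hs2' : 7 / 5 ≤ √2 := Real.le_sqrt_of_sq_le (by norm_num)
  have hGle : ∀ i, |G i| ≤ 3 / 2 := by
    intro i
    rw [hGd]
    simp only
    rw [abs_mul, abs_mul, abs_of_nonneg (Real.sqrt_nonneg 2), abs_of_nonneg (norm_nonneg _)]
    have h1 := pe_le (kM i)
    have h2 := Real.abs_sin_le_one (2 * Real.pi * inner ℝ (vec (kM i)) y)
    calc √2 * ‖pe (kM i)‖ * |Real.sin (2 * Real.pi * inner ℝ (vec (kM i)) y)|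
        ≤ 3 / 2 * 1 * 1 := by gcongr
      _ = 3 / 2 := by norm_num
  have hA : ∀ i ∈ SF hS true n, 63 / 100 ≤ G i := by
    intro i hi
    rw [mem_SF] at hi
    obtain ⟨h1, h2⟩ := hi
    have hk : kM i ∈ A n := by
      have : i.2.1 ∈ A i.1 := by
        unfold tyM at h2
        exact of_decide_eq_true h2
      rw [← h1]
      exact this
    have h3 := hy _ hk
    have h4 := hX.pe2 n _ hk
    rw [hGd]
    simp only
    calc (63 / 100 : ℝ) = 7 / 5 * (1 / 2) * (9 / 10) := by norm_num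
      _ ≤ _ := by gcongr
  have hsumr : Summable fun i => r i * G i := by
    refine Summable.of_norm_bounded (hr1.mul_right (3 / 2)) (fun i => ?_)
    rw [norm_mul]
    exact mul_le_mul_of_nonneg_left (hGle i) (abs_nonneg _)
  have hsumf : Summable fun i => a * fv shM tyM m true n i * G i := by
    refine summable_of_ne_finset_zero (s := SF hS true n) fun i hi => ?_
    rw [hfv i hi]; simp
  have h4 : ∑' i, z i * G i = ∑' i, a * fv shM tyM m true n i * G i + ∑' i, r i * G i := by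
    rw [← hsumf.tsum_add hsumr]
    exact tsum_congr fun i => by rw [hr]; ring
  have h5 : 63 / 100 * (√(m n : ℝ) * a) ≤ ∑' i, a * fv shM tyM m true n i * G i := by
    rw [tsum_eq_sum (s := SF hS true n) (fun i hi => by rw [hfv i hi]; simp)]
    calc 63 / 100 * (√(m n : ℝ) * a) = ∑ _i ∈ SF hS true n, a * (√(m n : ℝ))⁻¹ * (63 / 100) := by
          rw [Finset.sum_const, card_SF, nsmul_eq_mul]
          have h6 := sqm hS n
          have h7 : √(m n : ℝ) * √(m n : ℝ) = m n := Real.mul_self_sqrt (mpos hS n).le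
          field_simp
          nlinarith
      _ ≤ _ := by
        refine Finset.sum_le_sum fun i hi => ?_
        rw [fv_mem hS true n i hi]
        have := hA i hi
        have h6 := sqm hS n
        gcongr
  have h6 : -(9 / 100 * (√(m n : ℝ) * a)) ≤ ∑' i, r i * G i := by
    have h7 : |∑' i, r i * G i| ≤ 3 / 2 * ∑' i, |r i| := by
      rw [← Real.norm_eq_abs, ← tsum_mul_left]
      refine (norm_tsum_le_tsum_norm hsumr.norm).trans ?_
      refine hsumr.norm.tsum_le_tsum (fun i => ?_) (hr1.mul_left _)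
      rw [norm_mul, mul_comm]
      exact mul_le_mul_of_nonneg_right (hGle i) (norm_nonneg _)
    have h8 := (abs_le.1 h7).1
    linarith
  have h7 : 54 / 100 * (√(m n : ℝ) * a) ≤
      inner ℝ (fieldOf (VM z) y) (EuclideanSpace.single 2 (1 : ℝ)) := by
    rw [h3, h4]; linarith
  have h8 := real_inner_le_norm (fieldOf (VM z) y) (EuclideanSpace.single 2 (1 : ℝ))
  have h9 : ‖(EuclideanSpace.single 2 (1 : ℝ) : E3)‖ = 1 := by simp
  rw [h9, mul_one] at h8
  have h10 : 0 < √(m n : ℝ) * a := mul_pos (sqm hS n) ha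
  linarith

end

end Pool.Agent.K1H54.LO
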