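import Pool.Agent.K1H54.LO.SgnA
import Pool.Agent.K1H54.LO.Tra
import Pool.Agent.K1H54.LO.Vel

/-!
Random signs: the fields of the packets.
-/

open Set Filter Topology MeasureTheory

set_option autoImplicit false

namespace Pool.Agent.K1H54.L2

open Pool.Agent.Y5 Pool.Agent.Y5.D Pool.Agent.Y5.E Pool.Agent.K1H54.LO
open Pool.Agent.K1H30.OP (SS mem_SS card_ball)

/-- the coefficient of a frequency in a component of the field -/
noncomputable def cc (G : Finset Z3) (y x : E3) (k : Z3) : ℝ :=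
  2 * Real.sin (2 * Real.pi * inner ℝ (vec k) y) * ((√(2 * G.card : ℝ))⁻¹ * ‖pe k‖⁻¹) *
    inner ℝ (pe k) x

variable {G : Finset Z3} {K : ℕ} {e : Z3 → ℝ}

lemma sum_SSG (h : GP G K e) {α : Type} [AddCommMonoid α] (f : Z3 → α) :
    ∑ k ∈ SS G, f k = ∑ k ∈ G, (f k + f (-k)) := by
  unfold SS
  rw [Finset.sum_union, Finset.sum_image, Finset.sum_add_distrib]
  · intro a _ b _ hab
    exact neg_injective hab
  · rw [Finset.disjoint_left]
    intro k h1 h2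
    obtain ⟨a, ha, rfl⟩ := Finset.mem_image.1 h2
    exact not_both h h1 (by rwa [neg_neg])

lemma field_fin (h : GP G K e) (y : E3) : fieldOf (sgp G e) y =
    ∑ k ∈ SS G, Real.sin (2 * Real.pi * inner ℝ (vec k) y) • sgp G e k := by
  unfold fieldOf
  exact tsum_eq_sum fun k hk => by rw [sgp_not hk, smul_zero]

lemma field_sgp (h : GP G K e) (y x : E3) :
    (inner ℝ (fieldOf (sgp G e) y) x : ℝ) = ∑ k ∈ G, cc G y x k * e k := by
  rw [field_fin h, sum_inner, sum_SSG h]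
  refine Finset.sum_congr rfl fun k hk => ?_
  rw [sgp_odd h, sgp_mem hk, vec_neg', inner_neg_left, mul_neg, Real.sin_neg, neg_smul_neg,
    real_inner_smul_left, real_inner_smul_left]
  unfold cc
  ring

lemma cc_sq (y x : E3) (k : Z3) : cc G y x k ^ 2 ≤ 4 * (2 * G.card : ℝ)⁻¹ * ‖x‖ ^ 2 := by
  unfold cc
  have h1 := Real.sin_sq_le_one (2 * Real.pi * inner ℝ (vec k) y)
  have h2 : (‖pe k‖⁻¹ * inner ℝ (pe k) x) ^ 2 ≤ ‖x‖ ^ 2 := by
    rw [← sq_abs]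
    refine pow_le_pow_left₀ (abs_nonneg _) ?_ 2
    rw [abs_mul, abs_inv, abs_norm]
    calc ‖pe k‖⁻¹ * |inner ℝ (pe k) x| ≤ ‖pe k‖⁻¹ * (‖pe k‖ * ‖x‖) := by
          gcongr
          exact abs_real_inner_le_norm _ _
      _ = (‖pe k‖⁻¹ * ‖pe k‖) * ‖x‖ := by ring
      _ ≤ 1 * ‖x‖ := by
          gcongr
          exact inv_mul_le_one
      _ = ‖x‖ := one_mul _
  have h3 : ((√(2 * G.card : ℝ))⁻¹) ^ 2 = (2 * G.card : ℝ)⁻¹ := by
    rw [inv_pow, Real.sq_sqrt (by positivity)]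
  calc (2 * Real.sin (2 * Real.pi * inner ℝ (vec k) y) * ((√(2 * G.card : ℝ))⁻¹ * ‖pe k‖⁻¹) *
        inner ℝ (pe k) x) ^ 2
      = 4 * Real.sin (2 * Real.pi * inner ℝ (vec k) y) ^ 2 * ((√(2 * G.card : ℝ))⁻¹) ^ 2 *
        (‖pe k‖⁻¹ * inner ℝ (pe k) x) ^ 2 := by ring
    _ ≤ 4 * 1 * (2 * G.card : ℝ)⁻¹ * ‖x‖ ^ 2 := by
        rw [h3]
        gcongr
    _ = _ := by ring

lemma cc_sum (hG : G.Nonempty) (y x : E3) (hx : ‖x‖ ≤ 1) : ∑ k ∈ G, cc G y x k ^ 2 ≤ 2 := by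
  have hc : (0 : ℝ) < G.card := by exact_mod_cast Finset.card_pos.2 hG
  calc ∑ k ∈ G, cc G y x k ^ 2 ≤ ∑ _k ∈ G, 4 * (2 * G.card : ℝ)⁻¹ * 1 ^ 2 := by
        refine Finset.sum_le_sum fun k _ => (cc_sq y x k).trans ?_
        gcongr
    _ = 2 := by
        rw [Finset.sum_const, nsmul_eq_mul]
        field_simp
        norm_num

lemma sin_odd {m : ℤ} (h : Odd m) : Real.sin (2 * Real.pi * (m * (1 / 4))) ^ 2 = 1 := by
  obtain ⟨n, rfl⟩ := h
  have : 2 * Real.pi * ((((2 * n + 1 : ℤ)) : ℝ) * (1 / 4)) = Real.pi / 2 + n * Real.pi := by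
    push_cast
    ring
  rw [this, Real.sin_add_int_mul_pi, mul_pow, Real.sin_pi_div_two, one_pow, mul_one]
  rw [← zpow_natCast, ← zpow_mul]
  exact Even.neg_one_zpow ⟨n, by push_cast; ring⟩

lemma cc_y0 (h : GP G K e) (hodd : ∀ k ∈ G, Odd (k 0)) :
    1 / 2 ≤ ∑ k ∈ G, cc G y0 (EuclideanSpace.single 2 (1 : ℝ)) k ^ 2 := by
  have hK : (0 : ℝ) < K := by exact_mod_cast h.kpos
  have key : ∀ k ∈ G, (2 * (K : ℝ))⁻¹ ≤ cc G y0 (EuclideanSpace.single 2 (1 : ℝ)) k ^ 2 := by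
    intro k hk
    have h1 := h.pe k hk
    have h2 : (inner ℝ (vec k) y0 : ℝ) = k 0 * (1 / 4) := by
      unfold y0 vec
      rw [EuclideanSpace.inner_single_right]
      simp
      ring
    have h3 := sin_odd (hodd k hk)
    unfold cc
    rw [LO.inner_pe, h2]
    have h4 : ((√(2 * G.card : ℝ))⁻¹) ^ 2 = (2 * (K : ℝ))⁻¹ := by
      rw [h.card, inv_pow, Real.sq_sqrt (by positivity)]
    have h5 : ‖pe k‖⁻¹ * ‖pe k‖ ^ 2 = ‖pe k‖ := by
      field_simp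
    calc (2 * (K : ℝ))⁻¹ = 4 * 1 * (2 * (K : ℝ))⁻¹ * (1 / 2) ^ 2 := by ring
      _ ≤ 4 * 1 * (2 * (K : ℝ))⁻¹ * ‖pe k‖ ^ 2 := by gcongr
      _ = 4 * Real.sin (2 * Real.pi * (k 0 * (1 / 4))) ^ 2 * ((√(2 * G.card : ℝ))⁻¹) ^ 2 *
          (‖pe k‖⁻¹ * ‖pe k‖ ^ 2) ^ 2 := by rw [h3, h4, h5]
      _ = _ := by ring
  calc (1 / 2 : ℝ) = ∑ _k ∈ G, (2 * (K : ℝ))⁻¹ := by
        rw [Finset.sum_const, h.card, nsmul_eq_mul]
        field_simp
    _ ≤ _ := Finset.sum_le_sum key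

lemma norm_le_sum (x : E3) : ‖x‖ ≤ |x 0| + |x 1| + |x 2| := by
  rw [EuclideanSpace.norm_eq, Fin.sum_univ_three]
  rw [Real.sqrt_le_left (by positivity)]
  simp only [Real.norm_eq_abs]
  nlinarith [abs_nonneg (x 0), abs_nonneg (x 1), abs_nonneg (x 2),
    mul_nonneg (abs_nonneg (x 0)) (abs_nonneg (x 1)),
    mul_nonneg (abs_nonneg (x 0)) (abs_nonneg (x 2)),
    mul_nonneg (abs_nonneg (x 1)) (abs_nonneg (x 2))]

/-- integer vectors -/
noncomputable def ivec (q : Fin 3 → ℤ) : E3 := WithLp.toLp 2 (fun i => (q i : ℝ))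

/-- points of the grid -/
noncomputable def gpt (M : ℕ) (r : Fin 3 → Fin M) : E3 :=
  WithLp.toLp 2 (fun i => ((r i : ℕ) : ℝ) / M)

lemma field_per (V : Fam) (y : E3) (q : Fin 3 → ℤ) : fieldOf V (y + ivec q) = fieldOf V y := by
  unfold fieldOf
  refine tsum_congr fun k => ?_
  congr 1
  have h1 : (inner ℝ (vec k) (ivec q) : ℝ) = ((∑ i, k i * q i : ℤ) : ℝ) := by
    unfold vec ivec
    rw [PiLp.inner_apply]
    push_cast
    refine Finset.sum_congr rfl fun i _ => ?_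
    simp
    ring
  rw [inner_add_right, h1, mul_add]
  have h2 : 2 * Real.pi * ((∑ i, k i * q i : ℤ) : ℝ) = ((∑ i, k i * q i : ℤ) : ℝ) * (2 * Real.pi) := by
    ring
  rw [h2, Real.sin_add_int_mul_two_pi]

/-- every point is near the grid, modulo integer vectors -/
lemma near_grid {M : ℕ} (hM : 0 < M) (y : E3) : ∃ (r : Fin 3 → Fin M) (q : Fin 3 → ℤ),
    ‖y - (gpt M r + ivec q)‖ ≤ 3 / M := by
  have hM' : (0 : ℝ) < M := by exact_mod_cast hM
  have hMz : (0 : ℤ) < M := by exact_mod_cast hM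
  have hr0 : ∀ i, 0 ≤ ⌊(M : ℝ) * y i⌋ % (M : ℤ) := fun i => Int.emod_nonneg _ hMz.ne'
  have hr1 : ∀ i, ⌊(M : ℝ) * y i⌋ % (M : ℤ) < M := fun i => Int.emod_lt_of_pos _ hMz
  refine ⟨fun i => ⟨(⌊(M : ℝ) * y i⌋ % (M : ℤ)).toNat, by have := hr0 i; have := hr1 i; omega⟩,
    fun i => ⌊(M : ℝ) * y i⌋ / (M : ℤ), ?_⟩
  have key : ∀ i : Fin 3, |(y - (gpt M (fun i => ⟨(⌊(M : ℝ) * y i⌋ % (M : ℤ)).toNat, by
      have := hr0 i; have := hr1 i; omega⟩) + ivec (fun i => ⌊(M : ℝ) * y i⌋ / (M : ℤ)))) i| ≤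
      1 / M := by
    intro i
    have e1 : (((⌊(M : ℝ) * y i⌋ % (M : ℤ)).toNat : ℕ) : ℝ) =
        ((⌊(M : ℝ) * y i⌋ % (M : ℤ) : ℤ) : ℝ) := by
      have := Int.toNat_of_nonneg (hr0 i)
      exact_mod_cast this
    have e2 : ((⌊(M : ℝ) * y i⌋ % (M : ℤ) : ℤ) : ℝ) +
        M * ((⌊(M : ℝ) * y i⌋ / (M : ℤ) : ℤ) : ℝ) = (⌊(M : ℝ) * y i⌋ : ℝ) := by
      have := Int.emod_add_mul_ediv ⌊(M : ℝ) * y i⌋ (M : ℤ)
      exact_mod_cast this
    have e3 : (y - (gpt M (fun i => ⟨(⌊(M : ℝ) * y i⌋ % (M : ℤ)).toNat, by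
      have := hr0 i; have := hr1 i; omega⟩) + ivec (fun i => ⌊(M : ℝ) * y i⌋ / (M : ℤ)))) i =
        ((M : ℝ) * y i - ⌊(M : ℝ) * y i⌋) / M := by
      unfold gpt ivec
      simp only [PiLp.sub_apply, PiLp.add_apply]
      rw [e1, ← e2]
      field_simp
    rw [e3, abs_div, abs_of_pos hM']
    have h1 := Int.floor_le ((M : ℝ) * y i)
    have h2 := Int.lt_floor_add_one ((M : ℝ) * y i)
    rw [abs_of_nonneg (by linarith)]
    gcongr
    linarith
  refine (norm_le_sum _).trans ?_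
  have k0 := key 0
  have k1 := key 1
  have k2 := key 2
  have : (3 : ℝ) / M = 1 / M + 1 / M + 1 / M := by ring
  rw [this]
  exact add_le_add (add_le_add k0 k1) k2

/-- the field is Lipschitz -/
lemma field_lip (h : GP G K e) {F : ℝ} (hF : ∀ k ∈ G, ‖vec k‖ ≤ F) (hF0 : 1 ≤ F) (y y' : E3) :
    ‖fieldOf (sgp G e) y - fieldOf (sgp G e) y'‖ ≤ 101 * F ^ 3 * ‖y - y'‖ := by
  have hK : (0 : ℝ) < K := by exact_mod_cast h.kpos
  have hc : (K : ℝ) ≤ 125 * F ^ 3 := by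
    rw [← h.card]
    exact card_ball hF0 fun k hk => (hF k hk).trans (by linarith)
  have hn : ∀ k ∈ SS G, ‖sgp G e k‖ = (√(2 * K : ℝ))⁻¹ := by
    intro k hk
    have h1 := sgp_flat h hk
    rw [card_SS2 h] at h1
    push_cast at h1
    have h2 : ‖sgp G e k‖ ^ 2 = ((√(2 * K : ℝ))⁻¹) ^ 2 := by
      rw [inv_pow, Real.sq_sqrt (by positivity)]
      field_simp
      linarith
    exact (pow_left_inj₀ (norm_nonneg _) (by positivity) two_ne_zero).1 h2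
  have hv : ∀ k ∈ SS G, ‖vec k‖ ≤ F := by
    intro k hk
    rcases mem_SS.1 hk with h1 | h1
    · exact hF k h1
    · have := hF _ h1
      rwa [vec_neg', norm_neg] at this
  have hpi := Real.pi_lt_d2
  have hpi0 := Real.pi_pos
  have hsq : √(2 * K : ℝ) ≤ 16 * F ^ 2 := by
    rw [Real.sqrt_le_left (by positivity)]
    have h1 : F ^ 3 ≤ F ^ 4 := pow_le_pow_right₀ hF0 (by norm_num)
    nlinarith
  rw [field_fin h, field_fin h, ← Finset.sum_sub_distrib]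
  refine (norm_sum_le _ _).trans ?_
  calc ∑ k ∈ SS G, ‖Real.sin (2 * Real.pi * inner ℝ (vec k) y) • sgp G e k -
        Real.sin (2 * Real.pi * inner ℝ (vec k) y') • sgp G e k‖
      ≤ ∑ _k ∈ SS G, (2 * Real.pi * F * ‖y - y'‖) * (√(2 * K : ℝ))⁻¹ := by
        refine Finset.sum_le_sum fun k hk => ?_
        rw [← sub_smul, norm_smul, hn k hk]
        refine mul_le_mul_of_nonneg_right ?_ (by positivity)
        rw [Real.norm_eq_abs]
        refine (Real.abs_sin_sub_sin_le _ _).trans ?_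
        rw [← mul_sub, ← inner_sub_right, abs_mul, abs_of_pos (by positivity : 0 < 2 * Real.pi)]
        have h1 := abs_real_inner_le_norm (vec k) (y - y')
        have h2 := hv k hk
        calc 2 * Real.pi * |inner ℝ (vec k) (y - y')| ≤ 2 * Real.pi * (F * ‖y - y'‖) := by
              gcongr
              exact h1.trans (by gcongr)
          _ = _ := by ring
    _ = (2 * Real.pi * F * ‖y - y'‖) * ((2 * K) * (√(2 * K : ℝ))⁻¹) := by
        rw [Finset.sum_const, card_SS2 h, nsmul_eq_mul]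
        push_cast
        ring
    _ = (2 * Real.pi * F * ‖y - y'‖) * √(2 * K : ℝ) := by
        rw [← div_eq_mul_inv, Real.div_sqrt]
    _ ≤ (2 * Real.pi * F * ‖y - y'‖) * (16 * F ^ 2) := by gcongr
    _ = (32 * Real.pi) * (F ^ 3 * ‖y - y'‖) := by ring
    _ ≤ 101 * (F ^ 3 * ‖y - y'‖) := by
        gcongr
        linarith
    _ = _ := by ring

end Pool.Agent.K1H54.L2
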