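import Pool.Agent.K1H54.LO.SgnB
import Mathlib.Analysis.Complex.ExponentialBounds

/-!
Random signs: the theorem.
-/

open Set Filter Topology MeasureTheory

set_option autoImplicit false

namespace Pool.Agent.K1H54.L2

open Pool.Agent.Y5 Pool.Agent.Y5.D Pool.Agent.Y5.E Pool.Agent.K1H54.LO

lemma sg_sgn (t : Finset Z3) (k : Z3) : sg t k = 1 ∨ sg t k = -1 := by
  unfold sg
  split_ifs
  · exact Or.inl rfl
  · exact Or.inr rfl

lemma norm_single (j : Fin 3) : ‖(EuclideanSpace.single j (1 : ℝ) : E3)‖ ≤ 1 := by simp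

theorem t_SGN : S_SGN := by
  classical
  refine ⟨152, by norm_num, ?_⟩
  intro F G hF hG hprop
  have hF1 : 1 ≤ F := by linarith
  have hF0 : 0 < F := by linarith
  set M : ℕ := ⌈400 * F ^ 3⌉₊ with hM
  have hM1 : 400 * F ^ 3 ≤ M := Nat.le_ceil _
  have hM2 : (M : ℝ) < 400 * F ^ 3 + 1 := Nat.ceil_lt_add_one (by positivity)
  have hMr : (0 : ℝ) < M := lt_of_lt_of_le (by positivity) hM1
  have hM0 : 0 < M := by exact_mod_cast hMr
  have : Nonempty (Fin M) := ⟨⟨0, hM0⟩⟩
  have hgp : ∀ e : Z3 → ℝ, (∀ k, e k = 1 ∨ e k = -1) → GP G G.card e := fun e he =>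
    ⟨rfl, Finset.card_pos.2 hG, fun k hk => (hprop k hk).1, fun k hk => (hprop k hk).2.2.2, he⟩
  obtain ⟨t, h1, h2, h3⟩ := ex_signs (J := (Fin 3 → Fin M) × Fin 3) G
    (cc G y0 (EuclideanSpace.single 2 (1 : ℝ)))
    (fun p => cc G (gpt M p.1) (EuclideanSpace.single p.2 (1 : ℝ)))
    (cc_y0 (hgp _ (sg_sgn ∅)) fun k hk => (hprop k hk).2.1)
    (cc_sum hG _ _ (norm_single 2)) (fun p => cc_sum hG _ _ (norm_single p.2))
  set X : ℝ := XX (cc G y0 (EuclideanSpace.single 2 (1 : ℝ))) G t with hX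
  obtain ⟨σ, hσ, hσX⟩ : ∃ σ : ℝ, (σ = 1 ∨ σ = -1) ∧ σ * X = |X| := by
    rcases le_total 0 X with h | h
    · exact ⟨1, Or.inl rfl, by rw [one_mul, abs_of_nonneg h]⟩
    · exact ⟨-1, Or.inr rfl, by rw [abs_of_nonpos h]; ring⟩
  have he : ∀ k, (fun k => σ * sg t k) k = 1 ∨ (fun k => σ * sg t k) k = -1 := by
    intro k
    simp only
    rcases hσ with h | h <;> rcases sg_sgn t k with h' | h' <;> rw [h, h'] <;> norm_num
  have hG' := hgp _ he
  have hval : ∀ y x : E3, (inner ℝ (fieldOf (sgp G (fun k => σ * sg t k)) y) x : ℝ) =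
      σ * XX (cc G y x) G t := by
    intro y x
    rw [field_sgp hG']
    unfold XX
    rw [Finset.mul_sum]
    exact Finset.sum_congr rfl fun k _ => by ring
  have habs : |σ| = 1 := by
    rcases hσ with h | h <;> rw [h] <;> norm_num
  refine ⟨fun k => σ * sg t k, he, fun y => ?_, ?_, ?_⟩
  · obtain ⟨r, q, hrq⟩ := near_grid hM0 y
    have hl := field_lip hG' (fun k hk => (hprop k hk).2.2.1) hF1 y (gpt M r + ivec q)
    rw [field_per] at hl
    set v := fieldOf (sgp G (fun k => σ * sg t k)) (gpt M r) with hv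
    set Λ := Real.log (1536 * Real.exp 1 * Fintype.card ((Fin 3 → Fin M) × Fin 3)) with hΛ
    have hcomp : ∀ j : Fin 3, |v j| ≤ Λ := by
      intro j
      have h4 := h3 (r, j)
      have h5 := hval (gpt M r) (EuclideanSpace.single j (1 : ℝ))
      have h6 : (inner ℝ v (EuclideanSpace.single j (1 : ℝ)) : ℝ) = v j := by
        rw [EuclideanSpace.inner_single_right]
        simp
      rw [← hv, h6] at h5
      rw [h5, abs_mul, habs, one_mul]
      exact h4
    have hvn : ‖v‖ ≤ 3 * Λ := by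
      refine (norm_le_sum v).trans ?_
      linarith [hcomp 0, hcomp 1, hcomp 2]
    have hlog : Λ ≤ 50 * Real.log F := by
      have h4 : (50 : ℝ) * Real.log F = Real.log (F ^ 50) := by
        rw [Real.log_pow]
        norm_num
      rw [h4]
      have hcard : ((Fintype.card ((Fin 3 → Fin M) × Fin 3) : ℕ) : ℝ) = (M : ℝ) ^ 3 * 3 := by
        rw [Fintype.card_prod, Fintype.card_pi]
        simp
      rw [hΛ, hcard]
      apply Real.log_le_log (by positivity)
      have h5 : (M : ℝ) ≤ F ^ 12 := by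
        have h6 : (2 : ℝ) ^ 9 ≤ F ^ 9 := pow_le_pow_left₀ (by norm_num) hF 9
        have h7 : 1 ≤ F ^ 3 := one_le_pow₀ hF1
        calc (M : ℝ) ≤ 400 * F ^ 3 + 1 := hM2.le
          _ ≤ 2 ^ 9 * F ^ 3 := by linarith
          _ ≤ F ^ 9 * F ^ 3 := by gcongr
          _ = F ^ 12 := by ring
      have h6 : (2 : ℝ) ^ 14 ≤ F ^ 14 := pow_le_pow_left₀ (by norm_num) hF 14
      have h7 := Real.exp_one_lt_d9
      calc 1536 * Real.exp 1 * ((M : ℝ) ^ 3 * 3) = (4608 * Real.exp 1) * (M : ℝ) ^ 3 := by ring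
        _ ≤ F ^ 14 * (F ^ 12) ^ 3 := by
            have h8 : 4608 * Real.exp 1 ≤ F ^ 14 := by
              norm_num at h6
              linarith
            gcongr
        _ = F ^ 50 := by ring
    have hone : 1 ≤ 2 * Real.log F := by
      have h4 := Real.log_two_gt_d9
      have h5 := Real.log_le_log (by norm_num : (0 : ℝ) < 2) hF
      linarith
    have hsmall : 101 * F ^ 3 * ‖y - (gpt M r + ivec q)‖ ≤ 1 := by
      calc 101 * F ^ 3 * ‖y - (gpt M r + ivec q)‖ ≤ 101 * F ^ 3 * (3 / M) := by gcongr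
        _ ≤ 101 * F ^ 3 * (3 / (400 * F ^ 3)) := by gcongr
        _ = 303 / 400 := by field_simp; norm_num
        _ ≤ 1 := by norm_num
    calc ‖fieldOf (sgp G (fun k => σ * sg t k)) y‖
        ≤ ‖v‖ + ‖fieldOf (sgp G (fun k => σ * sg t k)) y - v‖ := by
          have := norm_add_le v (fieldOf (sgp G (fun k => σ * sg t k)) y - v)
          rwa [add_sub_cancel] at this
      _ ≤ 3 * Λ + 1 := add_le_add hvn (hl.trans hsmall)
      _ ≤ 3 * (50 * Real.log F) + 2 * Real.log F := by linarith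
      _ = 152 * Real.log F := by ring
  · rw [hval, ← hX, hσX]
    by_contra hlt
    push Not at hlt
    have := sq_abs X
    nlinarith [abs_nonneg X]
  · rw [hval, ← hX, hσX]
    by_contra hlt
    push Not at hlt
    have := sq_abs X
    nlinarith [abs_nonneg X]

end Pool.Agent.K1H54.L2
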