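import Pool.Agent.K1H54.LO.Tools

/-! One stage of the cascade, in normalised variables. -/

open Set Filter Topology

set_option autoImplicit false

namespace Pool.Agent.K1H54.LO

/-- conditions on the constants -/
structure Cs (lam ε κ β V θ τ : ℝ) : Prop where
  lb : 10 ^ 13 ≤ lam
  ε0 : 0 < ε
  κ0 : 0 < κ
  β0 : 0 < β
  V0 : 0 < V
  θ0 : 0 < θ
  τ0 : 0 < τ
  V1 : V ≤ 1
  εe : ε = Real.exp (-(400 * lam))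
  lθ : lam * θ ≤ 1 / 10 ^ 20
  llθ : 520 * (lam ^ 2 * θ) ≤ 1 / 2
  εθ : 10000 * (lam * ε) ≤ θ
  κε : 10000 * κ ≤ ε
  Vε : 10000 * (lam * V ^ 2) ≤ ε
  εV : 10000 * (lam * V) ≤ 1
  βε : 10000 * β ≤ ε
  τε : 10000 * τ ≤ ε
  G1 : Real.exp (84 * lam) * (β + 1100 * (lam ^ 2 * ε)) ≤ V / 2
  G2 : Real.exp (84 * lam) * (10 * β) ≤ ε
  κβ : 10000 * (lam * κ) ≤ β
  VVβ : 10000 * (lam ^ 2 * V ^ 2) ≤ β
  lV : 10000 * (lam ^ 2 * V) ≤ 1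
  Vκ : lam * V ^ 2 ≤ κ
  εVκ : ε * (lam * V) ≤ κ
  τβ : 4 * β ^ 2 ≤ τ
  τκ : 10000 * (lam * κ) ≤ τ

/-- One stage of the cascade, in normalised variables. -/
structure Stg (lam ε κ β τ T : ℝ) (f y z w v x E E1 E2 Em h0 k0 h1 k1 dE dE1 dE2 W : ℝ → ℝ) :
    Prop where
  T0 : 0 < T
  dy : ∀ t ∈ Ico 0 T, HasDerivWithinAt y (f t - z t ^ 2 - ε * y t * z t + h0 t) (Ico 0 T) t
  dz : ∀ t ∈ Ico 0 T, HasDerivWithinAt z (z t * (y t - w t) + ε * y t ^ 2 + k0 t) (Ico 0 T) t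
  dw : ∀ t ∈ Ico 0 T, HasDerivWithinAt w
    (z t ^ 2 - lam * v t ^ 2 - ε * lam * w t * v t + h1 t) (Ico 0 T) t
  dv : ∀ t ∈ Ico 0 T, HasDerivWithinAt v
    (lam * v t * (w t - x t) + ε * lam * w t ^ 2 + k1 t) (Ico 0 T) t
  dE' : ∀ t ∈ Ico 0 T, HasDerivWithinAt E (dE t) (Ico 0 T) t
  dE1' : ∀ t ∈ Ico 0 T, HasDerivWithinAt E1 (dE1 t) (Ico 0 T) t
  dE2' : ∀ t ∈ Ico 0 T, HasDerivWithinAt E2 (dE2 t) (Ico 0 T) t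
  dW : ∀ t ∈ Ico 0 T, HasDerivWithinAt W (w t) (Ico 0 T) t
  bh0 : ∀ t ∈ Ico 0 T, |h0 t| ≤ κ * √(E t)
  bk0 : ∀ t ∈ Ico 0 T, |k0 t| ≤ κ * √(E t)
  bh1 : ∀ t ∈ Ico 0 T, |h1 t| ≤ κ * √(E1 t)
  bk1 : ∀ t ∈ Ico 0 T, |k1 t| ≤ κ * √(E1 t)
  bE : ∀ t ∈ Ico 0 T, dE t ≤ 2 * f t * y t
  bE1 : ∀ t ∈ Ico 0 T, dE1 t ≤ 2 * z t ^ 2 * w t
  bE2 : ∀ t ∈ Ico 0 T, dE2 t ≤ 2 * (lam * v t ^ 2) * x t
  le0 : ∀ t ∈ Ico 0 T, y t ^ 2 + z t ^ 2 + E1 t ≤ E t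
  le1 : ∀ t ∈ Ico 0 T, w t ^ 2 + v t ^ 2 + E2 t ≤ E1 t
  le2 : ∀ t ∈ Ico 0 T, x t ^ 2 ≤ E2 t
  f0 : ∀ t ∈ Ico 0 T, 0 ≤ f t
  f1 : ∀ t ∈ Ico 0 T, lam * f t ≤ Em t - E t
  bEm : ∀ t ∈ Ico 0 T, t ≤ 520 * lam → Em t ≤ 1 + 11 / 10 ^ 7
  iy : y 0 = 1
  iE : E 0 ≤ 1 + τ
  iz : -(ε / 2) ≤ z 0
  iE1 : √(E1 0) ≤ β
  iE2 : √(E2 0) ≤ β / 2
  iW : W 0 = 0

/-- the good interval `[0, b]` -/
structure Gd (lam V T : ℝ) (y v E W : ℝ → ℝ) (b : ℝ) : Prop where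
  mem : b ∈ Ico 0 T
  le : b ≤ 520 * lam
  gy : ∀ s ∈ Icc 0 b, 1 / (2 * 10 ^ 6) ≤ y s
  gE : ∀ s ∈ Icc 0 b, 1 - 1 / (2 * 10 ^ 7) ≤ E s
  gv : ∀ s ∈ Icc 0 b, v s ^ 2 ≤ V ^ 2
  gW : ∀ s ∈ Icc 0 b, W s ≤ 100

section
variable {lam ε κ β V θ τ T : ℝ} {f y z w v x E E1 E2 Em h0 k0 h1 k1 dE dE1 dE2 W : ℝ → ℝ}

lemma Gd.mono {b c : ℝ} (h : Gd lam V T y v E W b) (hc : 0 ≤ c) (hcb : c ≤ b) :
    Gd lam V T y v E W c :=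
  ⟨⟨hc, lt_of_le_of_lt hcb h.mem.2⟩, hcb.trans h.le,
    fun s hs => h.gy s ⟨hs.1, hs.2.trans hcb⟩, fun s hs => h.gE s ⟨hs.1, hs.2.trans hcb⟩,
    fun s hs => h.gv s ⟨hs.1, hs.2.trans hcb⟩, fun s hs => h.gW s ⟨hs.1, hs.2.trans hcb⟩⟩

/-- crude bounds -/
structure Crude (lam κ V : ℝ) (f y z w v x E1 E2 h0 k0 h1 k1 : ℝ → ℝ) (t : ℝ) : Prop where
  cy : |y t| ≤ 1001 / 1000
  cz : |z t| ≤ 1001 / 1000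
  cw : |w t| ≤ 1001 / 1000
  cx : |x t| ≤ 1001 / 1000
  cv : |v t| ≤ V
  ch0 : |h0 t| ≤ 1001 / 1000 * κ
  ck0 : |k0 t| ≤ 1001 / 1000 * κ
  ch1 : |h1 t| ≤ 1001 / 1000 * κ
  ck1 : |k1 t| ≤ 1001 / 1000 * κ
  cf0 : 0 ≤ f t
  cf1 : lam * f t ≤ 115 / 10 ^ 8
  cE1 : 0 ≤ E1 t
  cE2 : 0 ≤ E2 t

lemma crude (hc : Cs lam ε κ β V θ τ)
    (h : Stg lam ε κ β τ T f y z w v x E E1 E2 Em h0 k0 h1 k1 dE dE1 dE2 W) {b : ℝ}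
    (hb : Gd lam V T y v E W b) {t : ℝ} (ht : t ∈ Icc 0 b) :
    Crude lam κ V f y z w v x E1 E2 h0 k0 h1 k1 t := by
  have hT : t ∈ Ico 0 T := ⟨ht.1, lt_of_le_of_lt ht.2 hb.mem.2⟩
  have hEm := h.bEm t hT (ht.2.trans hb.le)
  have hf0 := h.f0 t hT
  have hf1 := h.f1 t hT
  have hlam : 0 < lam := lt_of_lt_of_le (by norm_num) hc.lb
  have hE : E t ≤ 1 + 11 / 10 ^ 7 := by nlinarith [mul_nonneg hlam.le hf0]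
  have hE' := hb.gE t ht
  have l0 := h.le0 t hT
  have l1 := h.le1 t hT
  have l2 := h.le2 t hT
  have hE2 : 0 ≤ E2 t := (sq_nonneg _).trans l2
  have hE1 : 0 ≤ E1 t := by nlinarith [sq_nonneg (w t), sq_nonneg (v t)]
  have hy : y t ^ 2 ≤ 1 + 11 / 10 ^ 7 := by nlinarith [sq_nonneg (z t)]
  have hz : z t ^ 2 ≤ 1 + 11 / 10 ^ 7 := by nlinarith [sq_nonneg (y t)]
  have hE1' : E1 t ≤ 1 + 11 / 10 ^ 7 := by nlinarith [sq_nonneg (y t), sq_nonneg (z t)]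
  have hw : w t ^ 2 ≤ 1 + 11 / 10 ^ 7 := by nlinarith [sq_nonneg (v t)]
  have hE2' : E2 t ≤ 1 + 11 / 10 ^ 7 := by nlinarith [sq_nonneg (w t), sq_nonneg (v t)]
  have hx : x t ^ 2 ≤ 1 + 11 / 10 ^ 7 := by linarith
  have hab : ∀ a : ℝ, a ^ 2 ≤ 1 + 11 / 10 ^ 7 → |a| ≤ 1001 / 1000 := by
    intro a ha
    refine abs_le_of_sq_le_sq ?_ (by norm_num)
    refine ha.trans (by norm_num)
  have hsq : ∀ a : ℝ, a ≤ 1 + 11 / 10 ^ 7 → √a ≤ 1001 / 1000 := by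
    intro a ha
    rw [show (1001 / 1000 : ℝ) = √((1001 / 1000) ^ 2) from (Real.sqrt_sq (by norm_num)).symm]
    exact Real.sqrt_le_sqrt (ha.trans (by norm_num))
  have hκ := hc.κ0.le
  have hk : ∀ a e : ℝ, |a| ≤ κ * √e → e ≤ 1 + 11 / 10 ^ 7 → |a| ≤ 1001 / 1000 * κ := by
    intro a e h1 h2
    have := mul_le_mul_of_nonneg_left (hsq e h2) hκ
    linarith
  exact ⟨hab _ hy, hab _ hz, hab _ hw, hab _ hx, abs_le_of_sq_le_sq (hb.gv t ht) hc.V0.le,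
    hk _ _ (h.bh0 t hT) hE, hk _ _ (h.bk0 t hT) hE, hk _ _ (h.bh1 t hT) hE1',
    hk _ _ (h.bk1 t hT) hE1', hf0, by linarith, hE1, hE2⟩

/-- the error terms -/
lemma err1 (hc : Cs lam ε κ β V θ τ) {t : ℝ}
    (h : Crude lam κ V f y z w v x E1 E2 h0 k0 h1 k1 t) :
    0 ≤ lam * v t ^ 2 ∧ lam * v t ^ 2 ≤ κ ∧ |ε * lam * w t * v t| ≤ 1001 / 1000 * κ := by
  have hlam : 0 < lam := lt_of_lt_of_le (by norm_num) hc.lb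
  have hv2 : v t ^ 2 ≤ V ^ 2 := by
    have := abs_le.1 h.cv
    exact sq_le_sq' this.1 this.2
  refine ⟨by positivity, (mul_le_mul_of_nonneg_left hv2 hlam.le).trans hc.Vκ, ?_⟩
  have e : |ε * lam * w t * v t| = ε * (lam * |v t|) * |w t| := by
    rw [abs_mul, abs_mul, abs_mul, abs_of_pos hc.ε0, abs_of_pos hlam]; ring
  rw [e]
  have h1 : ε * (lam * |v t|) ≤ ε * (lam * V) := by
    have := hc.ε0.le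
    gcongr
    exact h.cv
  have h2 : ε * (lam * |v t|) ≤ κ := h1.trans hc.εVκ
  calc ε * (lam * |v t|) * |w t| ≤ κ * (1001 / 1000) :=
        mul_le_mul h2 h.cw (abs_nonneg _) hc.κ0.le
    _ = _ := by ring

end

end Pool.Agent.K1H54.LO
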