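import Pool.Agent.K1H54.LO.StageA

/-! One stage of the cascade: the invariants. -/

open Set Filter Topology

set_option autoImplicit false

namespace Pool.Agent.K1H54.LO

section
variable {lam ε κ β V θ τ T : ℝ} {f y z w v x E E1 E2 Em h0 k0 h1 k1 dE dE1 dE2 W : ℝ → ℝ}

lemma lam_pos (hc : Cs lam ε κ β V θ τ) : 0 < lam := lt_of_lt_of_le (by norm_num) hc.lb

lemma init (hc : Cs lam ε κ β V θ τ)
    (h : Stg lam ε κ β τ T f y z w v x E E1 E2 Em h0 k0 h1 k1 dE dE1 dE2 W) :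
    |w 0| ≤ β ∧ |v 0| ≤ β ∧ z 0 ^ 2 ≤ τ ∧ E1 0 ≤ β ^ 2 := by
  have hT : (0 : ℝ) ∈ Ico 0 T := ⟨le_rfl, h.T0⟩
  have l0 := h.le0 0 hT
  have l1 := h.le1 0 hT
  have l2 := h.le2 0 hT
  have hE2 : 0 ≤ E2 0 := (sq_nonneg _).trans l2
  have hE1 : 0 ≤ E1 0 := by nlinarith [sq_nonneg (w 0), sq_nonneg (v 0)]
  have h3 : E1 0 ≤ β ^ 2 := by
    have := h.iE1
    calc E1 0 = √(E1 0) ^ 2 := (Real.sq_sqrt hE1).symm
      _ ≤ β ^ 2 := pow_le_pow_left₀ (Real.sqrt_nonneg _) this 2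
  refine ⟨abs_le_of_sq_le_sq ?_ hc.β0.le, abs_le_of_sq_le_sq ?_ hc.β0.le, ?_, h3⟩
  · nlinarith [sq_nonneg (v 0)]
  · nlinarith [sq_nonneg (w 0)]
  · have := h.iE
    rw [h.iy] at l0
    nlinarith

/-- lower bound of `D = y + w` -/
lemma D_lower (hc : Cs lam ε κ β V θ τ)
    (h : Stg lam ε κ β τ T f y z w v x E E1 E2 Em h0 k0 h1 k1 dE dE1 dE2 W) {b : ℝ}
    (hb : Gd lam V T y v E W b) : 1 - θ ≤ y b + w b := by
  have hl := lam_pos hc
  obtain ⟨i1, -, -⟩ := init hc h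
  have key := lin_growth (F := fun t => -(y t + w t))
    (F' := fun t => -((f t - z t ^ 2 - ε * y t * z t + h0 t) +
      (z t ^ 2 - lam * v t ^ 2 - ε * lam * w t * v t + h1 t))) (T := T) (a := 0) (b := b)
    (C := 2 * ε) le_rfl hb.mem.1 hb.mem.2
    (fun t ht => ((h.dy t ht).add (h.dw t ht)).neg) (fun t ht => ?_)
  · simp only [h.iy] at key
    have h1 := (abs_le.1 i1).1
    have h2 : 2 * ε * (b - 0) ≤ 2 * ε * (520 * lam) := by
      have := hc.ε0
      have := hb.le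
      gcongr
      linarith
    have h3 := hc.εθ
    have h4 := hc.βε
    have h5 : 1 * ε ≤ lam * ε := by
      have := hc.ε0.le
      gcongr
      linarith [hc.lb]
    have e : 2 * ε * (520 * lam) = 1040 * (lam * ε) := by ring
    have := hc.θ0
    linarith
  · have cr := crude hc h hb ⟨ht.1, ht.2.le⟩
    obtain ⟨e1, e2, e3⟩ := err1 hc cr
    have a1 := (abs_le.1 cr.ch0).1
    have a2 := (abs_le.1 cr.ch1).1
    have a3 := (abs_le.1 e3).2
    have a4 := cr.cf0
    have a5 : ε * y t * z t ≤ ε * (11 / 10) := by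
      have h1 : |y t * z t| ≤ 1001 / 1000 * (1001 / 1000) := by
        rw [abs_mul]; exact mul_le_mul cr.cy cr.cz (abs_nonneg _) (by norm_num)
      have h2 := (abs_le.1 h1).2
      have := hc.ε0
      nlinarith
    have := hc.κε
    have := hc.ε0
    nlinarith

/-- upper bound of `D = y + w` -/
lemma D_upper (hc : Cs lam ε κ β V θ τ)
    (h : Stg lam ε κ β τ T f y z w v x E E1 E2 Em h0 k0 h1 k1 dE dE1 dE2 W) {b : ℝ}
    (hb : Gd lam V T y v E W b) : y b + w b ≤ 1 + 7 / 10 ^ 4 := by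
  have hl := lam_pos hc
  obtain ⟨i1, -, -⟩ := init hc h
  have key := lin_growth (F := fun t => (y t + w t))
    (F' := fun t => ((f t - z t ^ 2 - ε * y t * z t + h0 t) +
      (z t ^ 2 - lam * v t ^ 2 - ε * lam * w t * v t + h1 t))) (T := T) (a := 0) (b := b)
    (C := 115 / 10 ^ 8 / lam + 2 * ε) le_rfl hb.mem.1 hb.mem.2
    (fun t ht => ((h.dy t ht).add (h.dw t ht))) (fun t ht => ?_)
  · simp only [h.iy] at key
    have h1 := (abs_le.1 i1).2
    have hε := hc.ε0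
    have h2 : (115 / 10 ^ 8 / lam + 2 * ε) * (b - 0) ≤
        (115 / 10 ^ 8 / lam + 2 * ε) * (520 * lam) := by
      have := hb.le
      gcongr
      linarith
    have h3 := hc.εθ
    have h4 := hc.βε
    have h6 := hc.lθ
    have h7 : 1 * θ ≤ lam * θ := by
      have := hc.θ0.le
      gcongr
      linarith [hc.lb]
    have h5 : 1 * ε ≤ lam * ε := by
      have := hc.ε0.le
      gcongr
      linarith [hc.lb]
    have e : (115 / 10 ^ 8 / lam + 2 * ε) * (520 * lam) = 520 * 115 / 10 ^ 8 + 1040 * (lam * ε) := by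
      field_simp
      ring
    rw [e] at h2
    norm_num at h2 h6 ⊢
    linarith
  · have cr := crude hc h hb ⟨ht.1, ht.2.le⟩
    obtain ⟨e1, e2, e3⟩ := err1 hc cr
    have a1 := (abs_le.1 cr.ch0).2
    have a2 := (abs_le.1 cr.ch1).2
    have a3 := (abs_le.1 e3).1
    have a4 : f t ≤ 115 / 10 ^ 8 / lam := by
      rw [le_div_iff₀ hl]; linarith [cr.cf1]
    have a5 : -(ε * (11 / 10)) ≤ ε * y t * z t := by
      have h1 : |y t * z t| ≤ 1001 / 1000 * (1001 / 1000) := by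
        rw [abs_mul]; exact mul_le_mul cr.cy cr.cz (abs_nonneg _) (by norm_num)
      have h2 := (abs_le.1 h1).1
      have := hc.ε0
      nlinarith
    have := hc.κε
    have := hc.ε0
    nlinarith

/-- `w` is almost nonnegative -/
lemma w_lower (hc : Cs lam ε κ β V θ τ)
    (h : Stg lam ε κ β τ T f y z w v x E E1 E2 Em h0 k0 h1 k1 dE dE1 dE2 W) {b : ℝ}
    (hb : Gd lam V T y v E W b) : -θ ≤ w b := by
  have hl := lam_pos hc
  obtain ⟨i1, -, -⟩ := init hc h
  have key := lin_growth (F := fun t => -(w t))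
    (F' := fun t => -(z t ^ 2 - lam * v t ^ 2 - ε * lam * w t * v t + h1 t)) (T := T) (a := 0)
    (b := b) (C := 4 * κ) le_rfl hb.mem.1 hb.mem.2
    (fun t ht => (h.dw t ht).neg) (fun t ht => ?_)
  · have h1 := (abs_le.1 i1).1
    have h2 : 4 * κ * (b - 0) ≤ 4 * κ * (520 * lam) := by
      have := hc.κ0
      have := hb.le
      gcongr
      linarith
    have h3 := hc.κβ
    have h4 := hc.βε
    have h5 : 1 * ε ≤ lam * ε := by
      have := hc.ε0.le
      gcongr
      linarith [hc.lb]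
    have h6 := hc.εθ
    have := hc.β0
    nlinarith
  · have cr := crude hc h hb ⟨ht.1, ht.2.le⟩
    obtain ⟨e1, e2, e3⟩ := err1 hc cr
    have a2 := (abs_le.1 cr.ch1).1
    have a3 := (abs_le.1 e3).2
    have := sq_nonneg (z t)
    have := hc.κ0
    linarith

/-- the derivative of `P = 4 y w - 2 z²` -/
lemma P_err (hc : Cs lam ε κ β V θ τ) {t : ℝ}
    (cr : Crude lam κ V f y z w v x E1 E2 h0 k0 h1 k1 t) :
    |4 * ((f t - z t ^ 2 - ε * y t * z t + h0 t) * w t +
      y t * (z t ^ 2 - lam * v t ^ 2 - ε * lam * w t * v t + h1 t)) -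
      4 * (z t * (z t * (y t - w t) + ε * y t ^ 2 + k0 t)) - 4 * f t * w t| ≤ 9 * ε := by
  obtain ⟨e1, e2, e3⟩ := err1 hc cr
  have hy := cr.cy
  have hz := cr.cz
  have hw := cr.cw
  have e : 4 * ((f t - z t ^ 2 - ε * y t * z t + h0 t) * w t +
      y t * (z t ^ 2 - lam * v t ^ 2 - ε * lam * w t * v t + h1 t)) -
      4 * (z t * (z t * (y t - w t) + ε * y t ^ 2 + k0 t)) - 4 * f t * w t =
      -4 * (ε * (y t * z t) * w t) - 4 * (ε * (y t * z t) * y t) + 4 * (h0 t * w t)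
      - 4 * (y t * (lam * v t ^ 2)) - 4 * (y t * (ε * lam * w t * v t)) + 4 * (y t * h1 t)
      - 4 * (z t * k0 t) := by ring
  rw [e]
  have hyz : |y t * z t| ≤ 1001 / 1000 * (1001 / 1000) := by
    rw [abs_mul]; exact mul_le_mul hy hz (abs_nonneg _) (by norm_num)
  have hε := hc.ε0.le
  have hκ := hc.κ0.le
  have b1 : |ε * (y t * z t) * w t| ≤ ε * (1001 / 1000 * (1001 / 1000)) * (1001 / 1000) := by
    rw [abs_mul, abs_mul, abs_of_nonneg hε]
    gcongr
  have b2 : |ε * (y t * z t) * y t| ≤ ε * (1001 / 1000 * (1001 / 1000)) * (1001 / 1000) := by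
    rw [abs_mul, abs_mul, abs_of_nonneg hε]
    gcongr
  have b3 : |h0 t * w t| ≤ 1001 / 1000 * κ * (1001 / 1000) := by
    rw [abs_mul]; exact mul_le_mul cr.ch0 hw (abs_nonneg _) (by positivity)
  have b4 : |y t * (lam * v t ^ 2)| ≤ 1001 / 1000 * κ := by
    rw [abs_mul, abs_of_nonneg e1]; exact mul_le_mul hy e2 e1 (by positivity)
  have b5 : |y t * (ε * lam * w t * v t)| ≤ 1001 / 1000 * (1001 / 1000 * κ) := by
    rw [abs_mul]; exact mul_le_mul hy e3 (abs_nonneg _) (by positivity)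
  have b6 : |y t * h1 t| ≤ 1001 / 1000 * (1001 / 1000 * κ) := by
    rw [abs_mul]; exact mul_le_mul hy cr.ch1 (abs_nonneg _) (by positivity)
  have b7 : |z t * k0 t| ≤ 1001 / 1000 * (1001 / 1000 * κ) := by
    rw [abs_mul]; exact mul_le_mul hz cr.ck0 (abs_nonneg _) (by positivity)
  have hκε := hc.κε
  rw [abs_le] at *
  constructor <;> nlinarith

end

end Pool.Agent.K1H54.LO
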