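import Pool.Agent.K1H54.LO.StageB

/-! One stage of the cascade: more invariants. -/

open Set Filter Topology

set_option autoImplicit false

namespace Pool.Agent.K1H54.LO

section
variable {lam ε κ β V θ τ T : ℝ} {f y z w v x E E1 E2 Em h0 k0 h1 k1 dE dE1 dE2 W : ℝ → ℝ}

/-- simple consequences -/
lemma small (hc : Cs lam ε κ β V θ τ) : ε ≤ θ / 10 ^ 10 ∧ θ ≤ 1 / 10 ^ 30 ∧ β ≤ ε / 10 ^ 4 ∧
    κ ≤ ε / 10 ^ 4 ∧ τ ≤ ε / 10 ^ 4 ∧ lam * ε ≤ θ / 10 ^ 4 := by
  have h3 := hc.εθ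
  have h4 := hc.lθ
  have h5 := hc.βε
  have h6 := hc.κε
  have h7 := hc.τε
  have hθ := hc.θ0
  have hε := hc.ε0
  have a1 : 10 ^ 13 * ε ≤ lam * ε := mul_le_mul_of_nonneg_right hc.lb hε.le
  have a2 : 10 ^ 13 * θ ≤ lam * θ := mul_le_mul_of_nonneg_right hc.lb hθ.le
  refine ⟨?_, ?_, ?_, ?_, ?_, ?_⟩ <;> norm_num at * <;> linarith

lemma P_lower (hc : Cs lam ε κ β V θ τ)
    (h : Stg lam ε κ β τ T f y z w v x E E1 E2 Em h0 k0 h1 k1 dE dE1 dE2 W) {b : ℝ}
    (hb : Gd lam V T y v E W b) : -(2 * θ) ≤ 4 * (y b * w b) - 2 * (z b * z b) := by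
  have hl := lam_pos hc
  obtain ⟨i1, -, i3, -⟩ := init hc h
  obtain ⟨s1, s2, s3, s4, s5, s6⟩ := small hc
  have hθ := hc.θ0
  have hε := hc.ε0
  have key := lin_growth (F := fun t => -(4 * (y t * w t) - 2 * (z t * z t)))
    (F' := fun t => -(4 * ((f t - z t ^ 2 - ε * y t * z t + h0 t) * w t +
      y t * (z t ^ 2 - lam * v t ^ 2 - ε * lam * w t * v t + h1 t)) -
      2 * ((z t * (y t - w t) + ε * y t ^ 2 + k0 t) * z t +
        z t * (z t * (y t - w t) + ε * y t ^ 2 + k0 t)))) (T := T) (a := 0)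
    (b := b) (C := 460 / 10 ^ 8 / lam * θ + 9 * ε) le_rfl hb.mem.1 hb.mem.2
    (fun t ht => ((((h.dy t ht).mul (h.dw t ht)).const_mul 4).sub
      (((h.dz t ht).mul (h.dz t ht)).const_mul 2)).neg) (fun t ht => ?_)
  · simp only [h.iy] at key
    have h1 := (abs_le.1 i1).1
    have h2 : (460 / 10 ^ 8 / lam * θ + 9 * ε) * (b - 0) ≤
        (460 / 10 ^ 8 / lam * θ + 9 * ε) * (520 * lam) := by
      have := hb.le
      gcongr
      linarith
    have e : (460 / 10 ^ 8 / lam * θ + 9 * ε) * (520 * lam) =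
        520 * 460 / 10 ^ 8 * θ + 4680 * (lam * ε) := by
      field_simp
      ring
    rw [e] at h2
    norm_num at h2 s1 s2 s3 s4 s5 s6
    nlinarith
  · have cr := crude hc h hb ⟨ht.1, ht.2.le⟩
    have pe := (abs_le.1 (P_err hc cr)).1
    have wl := w_lower hc h (hb.mono ht.1 ht.2.le)
    have f0 := cr.cf0
    have f1 : f t ≤ 115 / 10 ^ 8 / lam := by
      rw [le_div_iff₀ hl]; linarith [cr.cf1]
    have f2 : -(115 / 10 ^ 8 / lam * θ) ≤ f t * w t := by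
      have h1 : f t * (-θ) ≤ f t * w t := mul_le_mul_of_nonneg_left wl f0
      have h2 : f t * θ ≤ 115 / 10 ^ 8 / lam * θ := mul_le_mul_of_nonneg_right f1 hθ.le
      linarith
    have e : 460 / 10 ^ 8 / lam * θ = 4 * (115 / 10 ^ 8 / lam * θ) := by ring
    rw [e]
    linarith

lemma P_upper (hc : Cs lam ε κ β V θ τ)
    (h : Stg lam ε κ β τ T f y z w v x E E1 E2 Em h0 k0 h1 k1 dE dE1 dE2 W) {b : ℝ}
    (hb : Gd lam V T y v E W b) :
    4 * (y b * w b) - 2 * (z b * z b) ≤ 46000 / 10 ^ 8 / lam + 2 * θ := by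
  have hl := lam_pos hc
  obtain ⟨i1, -, i3, -⟩ := init hc h
  obtain ⟨s1, s2, s3, s4, s5, s6⟩ := small hc
  have hθ := hc.θ0
  have hε := hc.ε0
  have key := lin_growth (F := fun t => (4 * (y t * w t) - 2 * (z t * z t)) -
      460 / 10 ^ 8 / lam * W t)
    (F' := fun t => (4 * ((f t - z t ^ 2 - ε * y t * z t + h0 t) * w t +
      y t * (z t ^ 2 - lam * v t ^ 2 - ε * lam * w t * v t + h1 t)) -
      2 * ((z t * (y t - w t) + ε * y t ^ 2 + k0 t) * z t +
        z t * (z t * (y t - w t) + ε * y t ^ 2 + k0 t))) - 460 / 10 ^ 8 / lam * w t)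
    (T := T) (a := 0)
    (b := b) (C := 460 / 10 ^ 8 / lam * θ + 9 * ε) le_rfl hb.mem.1 hb.mem.2
    (fun t ht => ((((h.dy t ht).mul (h.dw t ht)).const_mul 4).sub
      (((h.dz t ht).mul (h.dz t ht)).const_mul 2)).sub ((h.dW t ht).const_mul _))
      (fun t ht => ?_)
  · simp only [h.iy, h.iW] at key
    have h1 := (abs_le.1 i1).2
    have h2 : (460 / 10 ^ 8 / lam * θ + 9 * ε) * (b - 0) ≤
        (460 / 10 ^ 8 / lam * θ + 9 * ε) * (520 * lam) := by
      have := hb.le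
      gcongr
      linarith
    have e : (460 / 10 ^ 8 / lam * θ + 9 * ε) * (520 * lam) =
        520 * 460 / 10 ^ 8 * θ + 4680 * (lam * ε) := by
      field_simp
      ring
    rw [e] at h2
    have h3 : 460 / 10 ^ 8 / lam * W b ≤ 460 / 10 ^ 8 / lam * 100 := by
      have := hb.gW b ⟨hb.mem.1, le_rfl⟩
      gcongr
    have e3 : 460 / 10 ^ 8 / lam * 100 = 46000 / 10 ^ 8 / lam := by ring
    rw [e3] at h3
    norm_num at h2 h3 key s1 s2 s3 s4 s5 s6 ⊢
    nlinarith [mul_self_nonneg (z 0)]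
  · have cr := crude hc h hb ⟨ht.1, ht.2.le⟩
    have pe := (abs_le.1 (P_err hc cr)).2
    have wl := w_lower hc h (hb.mono ht.1 ht.2.le)
    have f0 := cr.cf0
    have f1 : f t ≤ 115 / 10 ^ 8 / lam := by
      rw [le_div_iff₀ hl]; linarith [cr.cf1]
    have f2 : (115 / 10 ^ 8 / lam - f t) * (-θ) ≤ (115 / 10 ^ 8 / lam - f t) * w t :=
      mul_le_mul_of_nonneg_left wl (by linarith)
    have f3 : 0 ≤ f t * θ := by positivity
    have e : 460 / 10 ^ 8 / lam * θ = 4 * (115 / 10 ^ 8 / lam * θ) := by ring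
    have e2 : 460 / 10 ^ 8 / lam * w t = 4 * (115 / 10 ^ 8 / lam * w t) := by ring
    rw [e, e2]
    linarith

lemma D_err (hc : Cs lam ε κ β V θ τ) {t : ℝ}
    (cr : Crude lam κ V f y z w v x E1 E2 h0 k0 h1 k1 t) :
    |(f t - z t ^ 2 - ε * y t * z t + h0 t) +
      (z t ^ 2 - lam * v t ^ 2 - ε * lam * w t * v t + h1 t) - f t| ≤ 2 * ε := by
  obtain ⟨e1, e2, e3⟩ := err1 hc cr
  have hε := hc.ε0.le
  have b1 : |ε * (y t * z t)| ≤ ε * (1001 / 1000 * (1001 / 1000)) := by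
    rw [abs_mul, abs_mul, abs_of_nonneg hε]
    have := cr.cy
    have := cr.cz
    gcongr
  have a1 := cr.ch0
  have a2 := cr.ch1
  have := hc.κε
  rw [abs_le] at *
  constructor <;> nlinarith

lemma E_upper (hc : Cs lam ε κ β V θ τ)
    (h : Stg lam ε κ β τ T f y z w v x E E1 E2 Em h0 k0 h1 k1 dE dE1 dE2 W) {b : ℝ}
    (hb : Gd lam V T y v E W b) : E b ≤ (y b + w b) * (y b + w b) + 3 * θ := by
  have hl := lam_pos hc
  obtain ⟨i1, -, i3, -⟩ := init hc h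
  obtain ⟨s1, s2, s3, s4, s5, s6⟩ := small hc
  have hθ := hc.θ0
  have hε := hc.ε0
  have key := lin_growth (F := fun t => E t - (y t + w t) * (y t + w t))
    (F' := fun t => dE t - (((f t - z t ^ 2 - ε * y t * z t + h0 t) +
      (z t ^ 2 - lam * v t ^ 2 - ε * lam * w t * v t + h1 t)) * (y t + w t) + (y t + w t) *
      ((f t - z t ^ 2 - ε * y t * z t + h0 t) +
      (z t ^ 2 - lam * v t ^ 2 - ε * lam * w t * v t + h1 t)))) (T := T) (a := 0)
    (b := b) (C := 230 / 10 ^ 8 / lam * θ + 5 * ε) le_rfl hb.mem.1 hb.mem.2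
    (fun t ht => (h.dE' t ht).sub (((h.dy t ht).add (h.dw t ht)).mul
      ((h.dy t ht).add (h.dw t ht)))) (fun t ht => ?_)
  · simp only [h.iy] at key
    have h1 := (abs_le.1 i1).1
    have h2 : (230 / 10 ^ 8 / lam * θ + 5 * ε) * (b - 0) ≤
        (230 / 10 ^ 8 / lam * θ + 5 * ε) * (520 * lam) := by
      have := hb.le
      gcongr
      linarith
    have e : (230 / 10 ^ 8 / lam * θ + 5 * ε) * (520 * lam) =
        520 * 230 / 10 ^ 8 * θ + 2600 * (lam * ε) := by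
      field_simp
      ring
    rw [e] at h2
    have h4 := h.iE
    norm_num at h2 s1 s2 s3 s4 s5 s6
    nlinarith [sq_nonneg (w 0)]
  · have cr := crude hc h hb ⟨ht.1, ht.2.le⟩
    have pe := (abs_le.1 (D_err hc cr)).1
    have wl := w_lower hc h (hb.mono ht.1 ht.2.le)
    have Dl := D_lower hc h (hb.mono ht.1 ht.2.le)
    have Du := D_upper hc h (hb.mono ht.1 ht.2.le)
    have f0 := cr.cf0
    have hE := h.bE t ⟨ht.1, ht.2.trans hb.mem.2⟩
    have f1 : f t ≤ 115 / 10 ^ 8 / lam := by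
      rw [le_div_iff₀ hl]; linarith [cr.cf1]
    have f2 : -(115 / 10 ^ 8 / lam * θ) ≤ f t * w t := by
      have h1 : f t * (-θ) ≤ f t * w t := mul_le_mul_of_nonneg_left wl f0
      have h2 : f t * θ ≤ 115 / 10 ^ 8 / lam * θ := mul_le_mul_of_nonneg_right f1 hθ.le
      linarith
    have e : 230 / 10 ^ 8 / lam * θ = 2 * (115 / 10 ^ 8 / lam * θ) := by ring
    rw [e]
    set D' := (f t - z t ^ 2 - ε * y t * z t + h0 t) +
      (z t ^ 2 - lam * v t ^ 2 - ε * lam * w t * v t + h1 t) with hD'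
    have f3 : (f t - 2 * ε) * (y t + w t) ≤ D' * (y t + w t) :=
      mul_le_mul_of_nonneg_right (by linarith) (by linarith)
    have f4 : ε * (y t + w t) ≤ ε * (1 + 7 / 10 ^ 4) := mul_le_mul_of_nonneg_left Du hε.le
    norm_num at f4
    linarith

lemma E_lower (hc : Cs lam ε κ β V θ τ)
    (h : Stg lam ε κ β τ T f y z w v x E E1 E2 Em h0 k0 h1 k1 dE dE1 dE2 W) {b : ℝ}
    (hb : Gd lam V T y v E W b) : 1 - 1 / 10 ^ 9 ≤ E b := by
  have hl := lam_pos hc
  obtain ⟨s1, s2, s3, s4, s5, s6⟩ := small hc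
  have hθ := hc.θ0
  have l0 := h.le0 b hb.mem
  have l1 := h.le1 b hb.mem
  have l2 := h.le2 b hb.mem
  have Dl := D_lower hc h hb
  have Pu := P_upper hc h hb
  have hq : 46000 / 10 ^ 8 / lam ≤ 1 / 10 ^ 13 := by
    rw [div_le_iff₀ hl]
    have := hc.lb
    norm_num at this ⊢
    linarith
  have h1 : (1 - θ) * (1 - θ) ≤ (y b + w b) * (y b + w b) :=
    mul_self_le_mul_self (by norm_num at s2; linarith) Dl
  norm_num at s2 hq Pu ⊢
  nlinarith [sq_nonneg (x b), sq_nonneg (v b)]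

/-- a bound for `w` in terms of the derivative of `y` -/
lemma w_upper (hc : Cs lam ε κ β V θ τ)
    (h : Stg lam ε κ β τ T f y z w v x E E1 E2 Em h0 k0 h1 k1 dE dE1 dE2 W) {b : ℝ}
    (hb : Gd lam V T y v E W b) :
    |2 * (y b * w b) + (f b - z b ^ 2 - ε * y b * z b + h0 b)| ≤ 4 / 10 ^ 4 / lam := by
  have hl := lam_pos hc
  obtain ⟨s1, s2, s3, s4, s5, s6⟩ := small hc
  have hθ := hc.θ0
  have hε := hc.ε0
  have cr := crude hc h hb ⟨hb.mem.1, le_rfl⟩
  have Pu := P_upper hc h hb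
  have Pl := P_lower hc h hb
  have f0 := cr.cf0
  have f1 : f b ≤ 115 / 10 ^ 8 / lam := by
    rw [le_div_iff₀ hl]; linarith [cr.cf1]
  have b1 : |ε * (y b * z b)| ≤ ε * (1001 / 1000 * (1001 / 1000)) := by
    rw [abs_mul, abs_mul, abs_of_nonneg hε.le]
    have := cr.cy
    have := cr.cz
    gcongr
  have b2 := abs_le.1 b1
  have b3 := abs_le.1 cr.ch0
  have hq : 5 * θ ≤ 1 / 10 ^ 8 / lam := by
    rw [le_div_iff₀ hl]
    have := hc.lθ
    norm_num at this ⊢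
    linarith
  have e1 : 115 / 10 ^ 8 / lam = 115 * (1 / 10 ^ 8 / lam) := by ring
  have e2 : 46000 / 10 ^ 8 / lam = 46000 * (1 / 10 ^ 8 / lam) := by ring
  have e3 : 4 / 10 ^ 4 / lam = 40000 * (1 / 10 ^ 8 / lam) := by ring
  rw [e1] at f1
  rw [e2] at Pu
  rw [e3]
  set Q := 1 / 10 ^ 8 / lam with hQ
  have hQ0 : 0 < Q := by positivity
  norm_num at s1 s2 s3 s4
  rw [abs_le]
  constructor <;> nlinarith

end

end Pool.Agent.K1H54.LO
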