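import Pool.Agent.K1H54.LO.StageC

/-! One stage of the cascade: the phases. -/

open Set Filter Topology

set_option autoImplicit false

namespace Pool.Agent.K1H54.LO

section
variable {lam ε κ β V θ τ T : ℝ} {f y z w v x E E1 E2 Em h0 k0 h1 k1 dE dE1 dE2 W : ℝ → ℝ}

lemma phase1W (hc : Cs lam ε κ β V θ τ)
    (h : Stg lam ε κ β τ T f y z w v x E E1 E2 Em h0 k0 h1 k1 dE dE1 dE2 W) {b : ℝ}
    (hb : Gd lam V T y v E W b) (hy : ∀ s ∈ Icc 0 b, 9 / 10 ≤ y s) : W b ≤ 1 / 5 := by
  have hl := lam_pos hc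
  have hθ := hc.θ0
  have key := lin_growth (F := fun t => W t + 5 / 9 * y t)
    (F' := fun t => w t + 5 / 9 * (f t - z t ^ 2 - ε * y t * z t + h0 t)) (T := T) (a := 0)
    (b := b) (C := 23 / 10 ^ 5 / lam) le_rfl hb.mem.1 hb.mem.2
    (fun t ht => (h.dW t ht).add ((h.dy t ht).const_mul _)) (fun t ht => ?_)
  · have h2 : 23 / 10 ^ 5 / lam * (b - 0) ≤ 23 / 10 ^ 5 / lam * (520 * lam) := by
      have := hb.le
      gcongr
      linarith
    have e : 23 / 10 ^ 5 / lam * (520 * lam) = 520 * 23 / 10 ^ 5 := by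
      field_simp
    rw [e] at h2
    simp only [h.iy, h.iW] at key
    have h3 := hy b ⟨hb.mem.1, le_rfl⟩
    norm_num at h2 key ⊢
    linarith
  · have hbt := hb.mono ht.1 ht.2.le
    have wu := (abs_le.1 (w_upper hc h hbt)).2
    have wl := w_lower hc h hbt
    have hyt := hy t ⟨ht.1, ht.2.le⟩
    have cr := crude hc h hb ⟨ht.1, ht.2.le⟩
    have hy2 := (abs_le.1 cr.cy).2
    have hq : θ ≤ 1 / 10 ^ 8 / lam := by
      rw [le_div_iff₀ hl]
      have := hc.lθ
      norm_num at this ⊢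
      linarith
    have e1 : 23 / 10 ^ 5 / lam = 23000 * (1 / 10 ^ 8 / lam) := by ring
    have e3 : 4 / 10 ^ 4 / lam = 40000 * (1 / 10 ^ 8 / lam) := by ring
    rw [e3] at wu
    rw [e1]
    set Q := 1 / 10 ^ 8 / lam with hQ
    have h4 : 9 / 10 * (w t + θ) ≤ y t * (w t + θ) :=
      mul_le_mul_of_nonneg_right hyt (by linarith)
    have h5 : y t * θ ≤ 1001 / 1000 * θ := mul_le_mul_of_nonneg_right hy2 hθ.le
    nlinarith

lemma phase1T (hc : Cs lam ε κ β V θ τ)
    (h : Stg lam ε κ β τ T f y z w v x E E1 E2 Em h0 k0 h1 k1 dE dE1 dE2 W) {b : ℝ}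
    (hb : Gd lam V T y v E W b) (hy : ∀ s ∈ Icc 0 b, 9 / 10 ≤ y s) : b ≤ 510 * lam := by
  have hl := lam_pos hc
  have hθ := hc.θ0
  have hε := hc.ε0
  obtain ⟨s1, s2, s3, s4, s5, s6⟩ := small hc
  have key := barrier (F := fun t => -(z t))
    (F' := fun t => -(z t * (y t - w t) + ε * y t ^ 2 + k0 t)) (T := T) (a := 0) (b := b)
    (B := fun t => 6 / 10 * ε - 1 / 10 * ε * Real.exp (79 / 100 * t))
    (B' := fun t => -(1 / 10 * ε * (Real.exp (79 / 100 * t) * (79 / 100)))) le_rfl hb.mem.2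
    (fun t ht => (h.dz t ht).neg) (fun t => ?_) ?_ (fun t ht hEq => ?_) b ⟨hb.mem.1, le_rfl⟩
  · have cr := crude hc h hb ⟨hb.mem.1, le_rfl⟩
    have hz := (abs_le.1 cr.cz).2
    have h1 : 1 / 10 * ε * Real.exp (79 / 100 * b) ≤ 1002 / 1000 := by
      norm_num at s1 s2
      linarith
    rw [hc.εe, mul_assoc, ← Real.exp_add] at h1
    have h2 : Real.exp (-(400 * lam) + 79 / 100 * b) < Real.exp 3 := by
      have h4 : (2.7 : ℝ) ^ 3 < Real.exp 3 := by
        have h3 : Real.exp 3 = Real.exp 1 ^ 3 := by rw [← Real.exp_nat_mul]; norm_num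
        rw [h3]
        have := Real.exp_one_gt_d9
        gcongr
        linarith
      norm_num at h4
      linarith
    have h3 := Real.exp_lt_exp.1 h2
    have := hc.lb
    norm_num at this
    linarith
  · have h1 : HasDerivAt (fun t => Real.exp (79 / 100 * t)) (Real.exp (79 / 100 * t) * (79 / 100)) t := by
      have := ((hasDerivAt_id t).const_mul (79 / 100 : ℝ)).exp
      simpa using this
    exact ((h1.const_mul (1 / 10 * ε)).const_sub (6 / 10 * ε))
  · simp only [mul_zero, Real.exp_zero, mul_one]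
    have := h.iz
    linarith
  · have hbt := hb.mono ht.1 ht.2.le
    have wl := w_lower hc h hbt
    have Du := D_upper hc h hbt
    have hyt := hy t ⟨ht.1, ht.2.le⟩
    have cr := crude hc h hb ⟨ht.1, ht.2.le⟩
    have hy2 := (abs_le.1 cr.cy).2
    have hk := (abs_le.1 cr.ck0).1
    have hsl : 79 / 100 ≤ y t - w t := by norm_num at Du; linarith
    have hsu : y t - w t ≤ 101 / 100 := by norm_num at s2; linarith
    have he : 1 ≤ Real.exp (79 / 100 * t) := Real.one_le_exp (by nlinarith [ht.1])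
    set e := Real.exp (79 / 100 * t) with hedef
    have hz : z t = 1 / 10 * ε * e - 6 / 10 * ε := by linarith
    have hyy : 81 / 100 * ε ≤ ε * y t ^ 2 := by
      have : 81 / 100 ≤ y t ^ 2 := by nlinarith
      nlinarith
    have hεe : ε ≤ ε * e := le_mul_of_one_le_right hε.le he
    rcases le_total 0 (z t) with h0 | h0
    · have h1 : z t * (79 / 100) ≤ z t * (y t - w t) := mul_le_mul_of_nonneg_left hsl h0
      have h2 : z t * (79 / 100) = 79 / 1000 * (ε * e) - 474 / 1000 * ε := by rw [hz]; ring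
      norm_num at s4
      nlinarith
    · have h1 : z t * (101 / 100) ≤ z t * (y t - w t) := by nlinarith
      have h2 : z t * (101 / 100) = 101 / 1000 * (ε * e) - 606 / 1000 * ε := by rw [hz]; ring
      norm_num at s4
      nlinarith

lemma phase2 (hc : Cs lam ε κ β V θ τ)
    (h : Stg lam ε κ β τ T f y z w v x E E1 E2 Em h0 k0 h1 k1 dE dE1 dE2 W) {b t₁ : ℝ}
    (hb : Gd lam V T y v E W b) (ht₁ : 0 ≤ t₁) (ht₂ : t₁ ≤ b) (hy : y t₁ ≤ 9 / 10) :
    b - t₁ ≤ 80 := by
  have hl := lam_pos hc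
  obtain ⟨s1, s2, s3, s4, s5, s6⟩ := small hc
  have key := barrier (F := fun t => y t)
    (F' := fun t => f t - z t ^ 2 - ε * y t * z t + h0 t) (T := T) (a := t₁) (b := b)
    (B := fun t => 9 / 10 * Real.exp (-(199 / 1000) * (t - t₁)))
    (B' := fun t => 9 / 10 * (Real.exp (-(199 / 1000) * (t - t₁)) * (-(199 / 1000)))) ht₁ hb.mem.2
    (fun t ht => (h.dy t ht)) (fun t => ?_) ?_ (fun t ht hEq => ?_) b ⟨ht₂, le_rfl⟩
  · have h1 := hb.gy b ⟨hb.mem.1, le_rfl⟩
    have h2 : 1 / (2 * 10 ^ 6) ≤ 9 / 10 * Real.exp (-(199 / 1000) * (b - t₁)) := h1.trans key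
    have h3 : Real.exp (-15) < Real.exp (-(199 / 1000) * (b - t₁)) := by
      have h3 : Real.exp (-15) = (Real.exp 1 ^ 15)⁻¹ := by
        rw [← Real.exp_nat_mul, ← Real.exp_neg]; norm_num
      have h4 : (2.7 : ℝ) ^ 15 < Real.exp 1 ^ 15 := by
        have := Real.exp_one_gt_d9
        gcongr
        linarith
      have h5 : (Real.exp 1 ^ 15)⁻¹ < ((2.7 : ℝ) ^ 15)⁻¹ := by
        apply inv_strictAnti₀ (by positivity) h4
      rw [h3]
      refine h5.trans ?_
      norm_num at h2 ⊢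
      linarith
    have h4 := Real.exp_lt_exp.1 h3
    linarith
  · have h1 : HasDerivAt (fun t => -(199 / 1000) * (t - t₁)) (-(199 / 1000) * 1) t :=
      ((hasDerivAt_id t).sub_const t₁).const_mul _
    have := (h1.exp).const_mul (9 / 10 : ℝ)
    simpa using this
  · simp only [sub_self, mul_zero, Real.exp_zero, mul_one]
    exact hy
  · have hbt := hb.mono (ht₁.trans ht.1) ht.2.le
    have Dl := D_lower hc h hbt
    have wu := (abs_le.1 (w_upper hc h hbt)).2
    have hyt := hb.gy t ⟨ht₁.trans ht.1, ht.2.le⟩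
    have he : Real.exp (-(199 / 1000) * (t - t₁)) ≤ 1 := by
      rw [Real.exp_le_one_iff]; nlinarith [ht.1]
    have hq : 4 / 10 ^ 4 / lam ≤ 1 / 10 ^ 16 := by
      rw [div_le_iff₀ hl]
      have := hc.lb
      norm_num at this ⊢
      linarith
    have hB : 9 / 10 * (Real.exp (-(199 / 1000) * (t - t₁)) * (-(199 / 1000))) =
        -(199 / 1000) * y t := by rw [hEq]; ring
    rw [hB]
    have hy9 : y t ≤ 9 / 10 := by rw [hEq]; linarith
    have hw : 999 / 10000 ≤ w t := by norm_num at s2; linarith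
    have hyw : y t * (999 / 10000) ≤ y t * w t := by
      have h0 : 0 ≤ y t := le_trans (by norm_num) hyt
      exact mul_le_mul_of_nonneg_left hw h0
    norm_num at hyt hq
    linarith

/-- the end of the good interval comes soon -/
lemma phases (hc : Cs lam ε κ β V θ τ)
    (h : Stg lam ε κ β τ T f y z w v x E E1 E2 Em h0 k0 h1 k1 dE dE1 dE2 W) {b : ℝ}
    (hb : Gd lam V T y v E W b) : b ≤ 511 * lam ∧ W b ≤ 82 := by
  have hl := lam_pos hc
  have hlb := hc.lb
  norm_num at hlb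
  by_cases hy : ∀ s ∈ Icc 0 b, 9 / 10 ≤ y s
  · exact ⟨(phase1T hc h hb hy).trans (by linarith), (phase1W hc h hb hy).trans (by norm_num)⟩
  · push Not at hy
    obtain ⟨s, hs, hs2⟩ := hy
    have hsub : Icc 0 s ⊆ Ico 0 T := fun x hx => ⟨hx.1, lt_of_le_of_lt (hx.2.trans hs.2) hb.mem.2⟩
    obtain ⟨t₁, ht₁, h1, h2⟩ := first_hit (g := y) (b := s) (c := 9 / 10) hs.1
      (fun x hx => ((h.dy x (hsub hx)).continuousWithinAt).mono hsub)
      (by rw [h.iy]; norm_num) hs2.le
    have hb1 : Gd lam V T y v E W t₁ := hb.mono ht₁.1.le (ht₁.2.trans hs.2)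
    have a1 := phase1T hc h hb1 h2
    have a2 := phase1W hc h hb1 h2
    have a3 := phase2 hc h hb ht₁.1.le (ht₁.2.trans hs.2) h1.le
    refine ⟨by linarith, ?_⟩
    have key := lin_growth (F := W) (F' := w) (T := T) (a := t₁) (b := b) (C := 1001 / 1000)
      ht₁.1.le (ht₁.2.trans hs.2) hb.mem.2 h.dW (fun t ht => ?_)
    · nlinarith
    · have cr := crude hc h hb ⟨ht₁.1.le.trans ht.1, ht.2.le⟩
      exact (abs_le.1 cr.cw).2

lemma W_lower (hc : Cs lam ε κ β V θ τ)
    (h : Stg lam ε κ β τ T f y z w v x E E1 E2 Em h0 k0 h1 k1 dE dE1 dE2 W) {b : ℝ}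
    (hb : Gd lam V T y v E W b) : -(lam * W b) ≤ 1 / 2 := by
  have hl := lam_pos hc
  have hθ := hc.θ0
  have key := lin_growth (F := fun t => -(W t)) (F' := fun t => -(w t)) (T := T) (a := 0) (b := b)
    (C := θ) le_rfl hb.mem.1 hb.mem.2 (fun t ht => (h.dW t ht).neg) (fun t ht => ?_)
  · simp only [h.iW] at key
    have h2 : θ * (b - 0) ≤ θ * (520 * lam) := by
      have := hb.le
      gcongr
      linarith
    have h3 := hc.llθ
    have h4 : lam * -(W b) ≤ lam * (θ * (520 * lam)) := by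
      gcongr
      linarith
    have e : lam * (θ * (520 * lam)) = 520 * (lam ^ 2 * θ) := by ring
    rw [e] at h4
    linarith
  · have := w_lower hc h (hb.mono ht.1 ht.2.le)
    linarith

/-- the energy in the shells `≥ 2` -/
lemma E2_upper (hc : Cs lam ε κ β V θ τ)
    (h : Stg lam ε κ β τ T f y z w v x E E1 E2 Em h0 k0 h1 k1 dE dE1 dE2 W) {b : ℝ}
    (hb : Gd lam V T y v E W b) : √(E2 b) ≤ 3 / 4 * β := by
  have hl := lam_pos hc
  have key := sqrt_growth (F := E2) (F' := dE2) (T := T) (a := 0) (b := b) (C := lam * V ^ 2)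
    le_rfl hb.mem.1 hb.mem.2 (by positivity) h.dE2' (fun t ht => ?_)
  · have h1 := h.iE2
    have h2 : lam * V ^ 2 * (b - 0) ≤ lam * V ^ 2 * (520 * lam) := by
      have := hb.le
      gcongr
      linarith
    have h3 := hc.VVβ
    have e : lam * V ^ 2 * (520 * lam) = 520 * (lam ^ 2 * V ^ 2) := by ring
    rw [e] at h2
    have := hc.β0
    have : 0 ≤ lam ^ 2 * V ^ 2 := by positivity
    linarith
  · have hT : t ∈ Ico 0 T := ⟨ht.1, ht.2.trans hb.mem.2⟩
    have h1 := h.bE2 t hT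
    have h2 := h.le2 t hT
    have h3 := hb.gv t ⟨ht.1, ht.2.le⟩
    have h4 : x t ≤ √(E2 t) := Real.le_sqrt_of_sq_le h2
    have h5 : lam * v t ^ 2 ≤ lam * V ^ 2 := by gcongr
    have h6 : 0 ≤ lam * v t ^ 2 := by positivity
    calc dE2 t ≤ 2 * (lam * v t ^ 2) * x t := h1
      _ ≤ 2 * (lam * v t ^ 2) * √(E2 t) := by gcongr
      _ ≤ 2 * (lam * V ^ 2) * √(E2 t) := by gcongr

/-- the bounds of `v` -/
lemma v_bounds (hc : Cs lam ε κ β V θ τ)
    (h : Stg lam ε κ β τ T f y z w v x E E1 E2 Em h0 k0 h1 k1 dE dE1 dE2 W) {b : ℝ}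
    (hb : Gd lam V T y v E W b) : |v b| ≤ V / 2 ∧ -(ε / 3) ≤ v b := by
  have hl := lam_pos hc
  have hε := hc.ε0
  have hβ := hc.β0
  have hκ := hc.κ0
  have hV := hc.V0
  obtain ⟨-, i2, -⟩ := init hc h
  have hd : ∀ t ∈ Ico 0 T, HasDerivWithinAt (fun t => v t * Real.exp (-(lam * W t)))
      ((lam * v t * (w t - x t) + ε * lam * w t ^ 2 + k1 t) * Real.exp (-(lam * W t)) +
        v t * (Real.exp (-(lam * W t)) * (-(lam * w t)))) (Ico 0 T) t := fun t ht =>
    (h.dv t ht).mul (((h.dW t ht).const_mul lam).neg.exp)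
  -- the right side
  have hr : ∀ t ∈ Icc 0 b, -(4 * β / (1040 * lam)) ≤
      ((lam * v t * (w t - x t) + ε * lam * w t ^ 2 + k1 t) * Real.exp (-(lam * W t)) +
        v t * (Real.exp (-(lam * W t)) * (-(lam * w t)))) ∧
      ((lam * v t * (w t - x t) + ε * lam * w t ^ 2 + k1 t) * Real.exp (-(lam * W t)) +
        v t * (Real.exp (-(lam * W t)) * (-(lam * w t)))) ≤ 21 / 10 * (lam * ε) := by
    intro t ht
    have hbt := hb.mono ht.1 ht.2
    have cr := crude hc h hb ht
    have hT : t ∈ Ico 0 T := hbt.mem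
    have hW := W_lower hc h hbt
    have he : Real.exp (-(lam * W t)) ≤ 2 := by
      calc Real.exp (-(lam * W t)) ≤ Real.exp (1 / 2) := Real.exp_le_exp.2 hW
        _ ≤ 2 := by
          have h1 := Real.exp_one_lt_d9
          have h2 : Real.exp (1 / 2) * Real.exp (1 / 2) = Real.exp 1 := by
            rw [← Real.exp_add]; norm_num
          have h3 := Real.exp_pos (1 / 2)
          nlinarith
    have he0 := Real.exp_pos (-(lam * W t))
    set e := Real.exp (-(lam * W t)) with hedef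
    have eq : (lam * v t * (w t - x t) + ε * lam * w t ^ 2 + k1 t) * e +
        v t * (e * (-(lam * w t))) = e * (-(lam * (v t * x t)) + ε * lam * w t ^ 2 + k1 t) := by
      ring
    rw [eq]
    have h2 := h.le2 t hT
    have h3 := E2_upper hc h hbt
    have h4 : |x t| ≤ 3 / 4 * β := (Real.abs_le_sqrt h2).trans h3
    have h5 : |lam * (v t * x t)| ≤ 3 / 4 * β * (lam * V) := by
      rw [abs_mul, abs_mul, abs_of_pos hl]
      calc lam * (|v t| * |x t|) ≤ lam * (V * (3 / 4 * β)) := by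
            have := cr.cv
            gcongr
        _ = _ := by ring
    have h6 : 3 / 4 * β * (lam * V) ≤ β / (2080 * lam) := by
      rw [le_div_iff₀ (by positivity)]
      have h7 := hc.lV
      have e2 : 3 / 4 * β * (lam * V) * (2080 * lam) = 1560 * (β * (lam ^ 2 * V)) := by ring
      rw [e2]
      have h8 : β * (10000 * (lam ^ 2 * V)) ≤ β * 1 := mul_le_mul_of_nonneg_left h7 hβ.le
      nlinarith
    have h7 : 1001 / 1000 * κ ≤ β / (2080 * lam) := by
      rw [le_div_iff₀ (by positivity)]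
      have := hc.κβ
      nlinarith [mul_pos hl hκ]
    have h8 := abs_le.1 (h5.trans h6)
    have h9 := abs_le.1 (cr.ck1.trans h7)
    have h10 : 0 ≤ ε * lam * w t ^ 2 := by positivity
    have h11 : ε * lam * w t ^ 2 ≤ 1003 / 1000 * (lam * ε) := by
      have hw2 : w t ^ 2 ≤ 1003 / 1000 := by
        have := abs_le.1 cr.cw
        nlinarith
      have : 0 ≤ lam * ε := by positivity
      nlinarith
    have h12 : β / (2080 * lam) ≤ lam * ε / 1000 := by
      rw [div_le_iff₀ (by positivity)]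
      have := hc.βε
      have h13 := hc.lb
      norm_num at h13
      nlinarith [mul_pos hl hε, mul_pos (mul_pos hl hl) hε]
    have hβl : 4 * β / (1040 * lam) = 8 * (β / (2080 * lam)) := by field_simp; norm_num
    rw [hβl]
    set q := β / (2080 * lam) with hq
    have hq0 : 0 < q := by positivity
    have hm : -(2 * q) ≤ -(lam * (v t * x t)) + ε * lam * w t ^ 2 + k1 t := by linarith
    have hM : -(lam * (v t * x t)) + ε * lam * w t ^ 2 + k1 t ≤ 1005 / 1000 * (lam * ε) := by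
      linarith
    constructor
    · calc -(8 * q) ≤ 2 * (-(2 * q)) := by linarith
        _ ≤ e * (-(2 * q)) := by nlinarith
        _ ≤ _ := mul_le_mul_of_nonneg_left hm he0.le
    · have hle : 0 ≤ lam * ε := by positivity
      calc e * (-(lam * (v t * x t)) + ε * lam * w t ^ 2 + k1 t)
          ≤ e * (1005 / 1000 * (lam * ε)) := mul_le_mul_of_nonneg_left hM he0.le
        _ ≤ 2 * (1005 / 1000 * (lam * ε)) := mul_le_mul_of_nonneg_right he (by positivity)
        _ ≤ _ := by nlinarith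
  have k1' := lin_growth (F := fun t => v t * Real.exp (-(lam * W t))) (T := T) (a := 0) (b := b)
    (C := 21 / 10 * (lam * ε)) le_rfl hb.mem.1 hb.mem.2 hd
    (fun t ht => (hr t ⟨ht.1, ht.2.le⟩).2)
  have k2' := lin_growth (F := fun t => -(v t * Real.exp (-(lam * W t)))) (T := T) (a := 0) (b := b)
    (C := 4 * β / (1040 * lam)) le_rfl hb.mem.1 hb.mem.2 (fun t ht => (hd t ht).neg)
    (fun t ht => by have := (hr t ⟨ht.1, ht.2.le⟩).1; linarith)
  simp only [h.iW, mul_zero, neg_zero, Real.exp_zero, mul_one, sub_zero] at k1' k2'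
  have hWu := (phases hc h hb).2
  have hbl := hb.le
  have hb0 := hb.mem.1
  have hE : Real.exp (lam * W b) ≤ Real.exp (84 * lam) := by
    refine Real.exp_le_exp.2 ?_
    nlinarith
  have hE0 := Real.exp_pos (lam * W b)
  have hE1 := Real.exp_pos (84 * lam)
  have hvb : v b = Real.exp (lam * W b) * (v b * Real.exp (-(lam * W b))) := by
    rw [mul_comm (v b), ← mul_assoc, ← Real.exp_add]
    simp
  have u1 : v b * Real.exp (-(lam * W b)) ≤ β + 1100 * (lam ^ 2 * ε) := by
    have h1 := (abs_le.1 i2).2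
    have h2 : 21 / 10 * (lam * ε) * b ≤ 21 / 10 * (lam * ε) * (520 * lam) := by gcongr
    have e2 : 21 / 10 * (lam * ε) * (520 * lam) = 1092 * (lam ^ 2 * ε) := by ring
    rw [e2] at h2
    have : 0 ≤ lam ^ 2 * ε := by positivity
    linarith
  have u2 : -(3 * β) ≤ v b * Real.exp (-(lam * W b)) := by
    have h1 := (abs_le.1 i2).1
    have h2 : 4 * β / (1040 * lam) * b ≤ 4 * β / (1040 * lam) * (520 * lam) := by gcongr
    have e2 : 4 * β / (1040 * lam) * (520 * lam) = 2 * β := by field_simp; norm_num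
    rw [e2] at h2
    linarith
  have u3 : v b ≤ V / 2 := by
    rw [hvb]
    calc Real.exp (lam * W b) * (v b * Real.exp (-(lam * W b)))
        ≤ Real.exp (lam * W b) * (β + 1100 * (lam ^ 2 * ε)) :=
          mul_le_mul_of_nonneg_left u1 hE0.le
      _ ≤ Real.exp (84 * lam) * (β + 1100 * (lam ^ 2 * ε)) :=
          mul_le_mul_of_nonneg_right hE (by positivity)
      _ ≤ V / 2 := hc.G1
  have u4 : -(Real.exp (84 * lam) * (3 * β)) ≤ v b := by
    rw [hvb]
    calc -(Real.exp (84 * lam) * (3 * β)) ≤ -(Real.exp (lam * W b) * (3 * β)) := by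
          have := mul_le_mul_of_nonneg_right hE (by positivity : 0 ≤ 3 * β)
          linarith
      _ = Real.exp (lam * W b) * (-(3 * β)) := by ring
      _ ≤ _ := mul_le_mul_of_nonneg_left u2 hE0.le
  have g2 := hc.G2
  refine ⟨abs_le.2 ⟨?_, u3⟩, ?_⟩
  · have g1 := hc.G1
    have : Real.exp (84 * lam) * (3 * β) ≤ V / 2 := by
      have h1 : 3 * β ≤ β + 1100 * (lam ^ 2 * ε) := by
        have h2 := hc.βε
        have h3 := hc.lb
        norm_num at h3
        have h4 : 1 * ε ≤ lam ^ 2 * ε := by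
          gcongr
          nlinarith
        nlinarith
      exact (mul_le_mul_of_nonneg_left h1 hE1.le).trans g1
    linarith
  · nlinarith

/-- `E1` is nearly `w²` -/
lemma E1_upper (hc : Cs lam ε κ β V θ τ)
    (h : Stg lam ε κ β τ T f y z w v x E E1 E2 Em h0 k0 h1 k1 dE dE1 dE2 W) {b : ℝ}
    (hb : Gd lam V T y v E W b) : E1 b ≤ w b * w b + 2 / 3 * τ := by
  have hl := lam_pos hc
  have hκ := hc.κ0
  obtain ⟨i1, -, -, i4⟩ := init hc h
  have key := lin_growth (F := fun t => E1 t - w t * w t)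
    (F' := fun t => dE1 t - ((z t ^ 2 - lam * v t ^ 2 - ε * lam * w t * v t + h1 t) * w t +
      w t * (z t ^ 2 - lam * v t ^ 2 - ε * lam * w t * v t + h1 t))) (T := T) (a := 0)
    (b := b) (C := 7 * κ) le_rfl hb.mem.1 hb.mem.2
    (fun t ht => (h.dE1' t ht).sub ((h.dw t ht).mul (h.dw t ht))) (fun t ht => ?_)
  · have h2 : 7 * κ * (b - 0) ≤ 7 * κ * (520 * lam) := by
      have := hb.le
      gcongr
      linarith
    have h3 := hc.τκ
    have h4 := hc.τβ
    have : 0 ≤ lam * κ := by positivity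
    nlinarith [mul_self_nonneg (w 0)]
  · have cr := crude hc h hb ⟨ht.1, ht.2.le⟩
    obtain ⟨e1, e2, e3⟩ := err1 hc cr
    have h1' := h.bE1 t ⟨ht.1, ht.2.trans hb.mem.2⟩
    have eq : 2 * z t ^ 2 * w t - ((z t ^ 2 - lam * v t ^ 2 - ε * lam * w t * v t + h1 t) * w t +
      w t * (z t ^ 2 - lam * v t ^ 2 - ε * lam * w t * v t + h1 t)) =
      2 * (w t * (lam * v t ^ 2)) + 2 * (w t * (ε * lam * w t * v t)) - 2 * (w t * h1 t) := by ring
    have b4 : |w t * (lam * v t ^ 2)| ≤ 1001 / 1000 * κ := by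
      rw [abs_mul, abs_of_nonneg e1]; exact mul_le_mul cr.cw e2 e1 (by positivity)
    have b5 : |w t * (ε * lam * w t * v t)| ≤ 1001 / 1000 * (1001 / 1000 * κ) := by
      rw [abs_mul]; exact mul_le_mul cr.cw e3 (abs_nonneg _) (by positivity)
    have b6 : |w t * h1 t| ≤ 1001 / 1000 * (1001 / 1000 * κ) := by
      rw [abs_mul]; exact mul_le_mul cr.cw cr.ch1 (abs_nonneg _) (by positivity)
    rw [abs_le] at b4 b5 b6
    nlinarith

end

end Pool.Agent.K1H54.LO
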