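import Pool.Agent.K1H54.LO.StageD

/-! One stage of the cascade: the result. -/

open Set Filter Topology

set_option autoImplicit false

namespace Pool.Agent.K1H54.LO

section
variable {lam ε κ β V θ τ T : ℝ} {f y z w v x E E1 E2 Em h0 k0 h1 k1 dE dE1 dE2 W : ℝ → ℝ}

lemma good (hc : Cs lam ε κ β V θ τ)
    (h : Stg lam ε κ β τ T f y z w v x E E1 E2 Em h0 k0 h1 k1 dE dE1 dE2 W) {b : ℝ}
    (hb : b ∈ Ico 0 T) (hbl : b ≤ 520 * lam) (hy : ∀ s ∈ Icc 0 b, 1 / (2 * 10 ^ 6) ≤ y s) :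
    Gd lam V T y v E W b := by
  have hsub : Icc 0 b ⊆ Ico 0 T := fun x hx => ⟨hx.1, lt_of_le_of_lt hx.2 hb.2⟩
  have hV := hc.V0
  set g : ℝ → ℝ := fun s => max (max (1 - 1 / (2 * 10 ^ 7) - E s) (v s ^ 2 - V ^ 2)) (W s - 100)
    with hg
  have cE : ContinuousOn E (Icc 0 b) := fun x hx =>
    ((h.dE' x (hsub hx)).continuousWithinAt).mono hsub
  have cv : ContinuousOn v (Icc 0 b) := fun x hx =>
    ((h.dv x (hsub hx)).continuousWithinAt).mono hsub
  have cW : ContinuousOn W (Icc 0 b) := fun x hx =>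
    ((h.dW x (hsub hx)).continuousWithinAt).mono hsub
  have hcont : ContinuousOn g (Icc 0 b) :=
    ((continuousOn_const.sub cE).sup ((cv.pow 2).sub continuousOn_const)).sup
      (cW.sub continuousOn_const)
  have hdec : ∀ s, g s ≤ 0 → 1 - 1 / (2 * 10 ^ 7) ≤ E s ∧ v s ^ 2 ≤ V ^ 2 ∧ W s ≤ 100 := by
    intro s hs
    simp only [hg, max_le_iff] at hs
    obtain ⟨⟨a1, a2⟩, a3⟩ := hs
    exact ⟨by linarith, by linarith, by linarith⟩
  have hall : ∀ t ∈ Icc 0 b, g t < 0 := by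
    refine boot hcont ?_ (fun t ht hs => ?_)
    · obtain ⟨-, i2, -, -⟩ := init hc h
      have l0 := h.le0 0 (hsub ⟨le_rfl, hb.1⟩)
      have l1 := h.le1 0 (hsub ⟨le_rfl, hb.1⟩)
      have l2 := h.le2 0 (hsub ⟨le_rfl, hb.1⟩)
      rw [h.iy] at l0
      have hE1 : 0 ≤ E1 0 := by nlinarith [sq_nonneg (w 0), sq_nonneg (v 0), sq_nonneg (x 0)]
      simp only [hg, max_lt_iff]
      refine ⟨⟨?_, ?_⟩, ?_⟩
      · norm_num at l0 ⊢
        nlinarith [sq_nonneg (z 0)]
      · have g1 := hc.G1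
        have h2 : β < V := by
          have e1 : 1 ≤ Real.exp (84 * lam) := Real.one_le_exp (by
            have := hc.lb
            have : (0:ℝ) < 10 ^ 13 := by norm_num
            nlinarith)
          have e2 : 0 ≤ lam ^ 2 * ε := by have := hc.ε0; positivity
          have e3 : β ≤ Real.exp (84 * lam) * (β + 1100 * (lam ^ 2 * ε)) := by
            have := hc.β0
            calc β ≤ 1 * (β + 1100 * (lam ^ 2 * ε)) := by linarith
              _ ≤ _ := mul_le_mul_of_nonneg_right e1 (by positivity)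
          linarith
        have h3 := abs_le.1 i2
        have := hc.β0
        nlinarith
      · rw [h.iW]; norm_num
    · have hbt : Gd lam V T y v E W t := by
        refine ⟨hsub ht, ht.2.trans hbl, fun s hs' => hy s ⟨hs'.1, hs'.2.trans ht.2⟩,
          fun s hs' => (hdec s (hs s hs')).1, fun s hs' => (hdec s (hs s hs')).2.1,
          fun s hs' => (hdec s (hs s hs')).2.2⟩
      have a1 := E_lower hc h hbt
      have a2 := (v_bounds hc h hbt).1
      have a3 := (phases hc h hbt).2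
      simp only [hg, max_lt_iff]
      refine ⟨⟨?_, ?_⟩, ?_⟩
      · norm_num at a1 ⊢; linarith
      · have := abs_le.1 a2
        nlinarith
      · linarith
  exact ⟨hb, hbl, hy, fun s hs => (hdec s (hall s hs).le).1,
    fun s hs => (hdec s (hall s hs).le).2.1, fun s hs => (hdec s (hall s hs).le).2.2⟩

/-- One stage of the cascade. -/
theorem stage (hc : Cs lam ε κ β V θ τ)
    (h : Stg lam ε κ β τ T f y z w v x E E1 E2 Em h0 k0 h1 k1 dE dE1 dE2 W) :
    (∃ b ∈ Ico 0 T, b ≤ 520 * lam ∧ (∀ s ∈ Icc 0 b, |v s| ≤ V) ∧ 1 - 1 / 10 ^ 6 ≤ w b ∧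
      E b ≤ (1 + 102 / 10 ^ 8) * w b ^ 2 ∧ E1 b ≤ (1 + τ) * w b ^ 2 ∧ -(ε / 2 * w b) ≤ v b ∧
      √(E2 b) ≤ 3 / 4 * β) ∨
    (T ≤ 520 * lam ∧ ∀ s ∈ Ico 0 T, |v s| ≤ V) := by
  have hl := lam_pos hc
  have hlb := hc.lb
  norm_num at hlb
  have step2 : ∀ b ∈ Ico 0 T, (∀ s ∈ Icc 0 b, 1 / (2 * 10 ^ 6) ≤ y s) → b ≤ 511 * lam := by
    intro b hb hy
    by_cases hbl : b ≤ 520 * lam
    · exact (phases hc h (good hc h hb hbl hy)).1
    · exfalso
      push Not at hbl
      have h1 := (phases hc h (good hc h (b := 520 * lam) ⟨by positivity, hbl.trans hb.2⟩ le_rfl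
        (fun s hs => hy s ⟨hs.1, hs.2.trans hbl.le⟩))).1
      linarith
  by_cases hall : ∀ t ∈ Ico 0 T, 1 / (2 * 10 ^ 6) ≤ y t
  · right
    have h2 : T ≤ 520 * lam := by
      by_contra hcon
      push Not at hcon
      have := step2 (520 * lam) ⟨by positivity, hcon⟩ (fun s hs => hall s ⟨hs.1, hs.2.trans_lt hcon⟩)
      linarith
    refine ⟨h2, fun s hs => ?_⟩
    have hg := good hc h hs (hs.2.le.trans h2) (fun r hr => hall r ⟨hr.1, hr.2.trans_lt hs.2⟩)
    exact (crude hc h hg ⟨hs.1, le_rfl⟩).cv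
  · left
    push Not at hall
    obtain ⟨t, ht, hyt⟩ := hall
    have hsub : Icc 0 t ⊆ Ico 0 T := fun x hx => ⟨hx.1, lt_of_le_of_lt hx.2 ht.2⟩
    obtain ⟨b, hb, e1, e2⟩ := first_hit (g := y) (b := t) (c := 1 / (2 * 10 ^ 6)) ht.1
      (fun x hx => ((h.dy x (hsub hx)).continuousWithinAt).mono hsub)
      (by rw [h.iy]; norm_num) hyt.le
    have hbT : b ∈ Ico 0 T := ⟨hb.1.le, hb.2.trans_lt ht.2⟩
    have hbl : b ≤ 520 * lam := (step2 b hbT e2).trans (by linarith)
    have hg := good hc h hbT hbl e2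
    obtain ⟨s1, s2, s3, s4, s5, s6⟩ := small hc
    have Dl := D_lower hc h hg
    have Eu := E_upper hc h hg
    have E1u := E1_upper hc h hg
    have vb := (v_bounds hc h hg).2
    have hw : 1 - 1 / 10 ^ 6 ≤ w b := by
      rw [e1] at Dl
      norm_num at Dl s2 ⊢
      linarith
    have hε := hc.ε0
    have hτ := hc.τ0
    have hθ := hc.θ0
    refine ⟨b, hbT, hbl, fun s hs => (crude hc h hg hs).cv, hw, ?_, ?_, ?_, E2_upper hc h hg⟩
    · rw [e1] at Eu
      norm_num at Eu s2 hw ⊢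
      nlinarith
    · norm_num at hw
      have w2 : 9 / 10 ≤ w b ^ 2 := by nlinarith
      have w3 : τ * (9 / 10) ≤ τ * w b ^ 2 := mul_le_mul_of_nonneg_left w2 hτ.le
      linarith
    · norm_num at hw
      nlinarith

end

end Pool.Agent.K1H54.LO
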