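import Mathlib

/-! Tools: differential inequalities with one-sided derivatives on `[0, T)`. -/

open Set Filter Topology

set_option autoImplicit false

namespace Pool.Agent.K1H54.LO

lemma ici_of_ico {F : ℝ → ℝ} {D T t : ℝ} (ht : t ∈ Ico 0 T)
    (h : HasDerivWithinAt F D (Ico 0 T) t) : HasDerivWithinAt F D (Ici t) t := by
  refine h.mono_of_mem_nhdsWithin ?_
  have h1 : Ico t T ∈ 𝓝[≥] t := Ico_mem_nhdsGE ht.2
  exact mem_of_superset h1 (Ico_subset_Ico_left ht.1)

/-- barrier -/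
lemma barrier {F F' B B' : ℝ → ℝ} {T a b : ℝ} (ha : 0 ≤ a) (hb : b < T)
    (hF : ∀ t ∈ Ico 0 T, HasDerivWithinAt F (F' t) (Ico 0 T) t)
    (hB : ∀ t, HasDerivAt B (B' t) t) (h0 : F a ≤ B a)
    (h : ∀ t ∈ Ico a b, F t = B t → F' t < B' t) : ∀ t ∈ Icc a b, F t ≤ B t := by
  have hsub : Icc a b ⊆ Ico 0 T := fun x hx => ⟨ha.trans hx.1, lt_of_le_of_lt hx.2 hb⟩
  intro t ht
  refine image_le_of_deriv_right_lt_deriv_boundary' (f' := F') (B' := B')
    (fun x hx => ((hF x (hsub hx)).continuousWithinAt).mono hsub)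
    (fun x hx => ici_of_ico (hsub ⟨hx.1, hx.2.le⟩) (hF x (hsub ⟨hx.1, hx.2.le⟩))) h0
    (fun x _ => (hB x).continuousAt.continuousWithinAt)
    (fun x _ => (hB x).hasDerivWithinAt) h ht

/-- linear growth -/
lemma lin_growth {F F' : ℝ → ℝ} {T a b C : ℝ} (ha : 0 ≤ a) (hab : a ≤ b) (hb : b < T)
    (hF : ∀ t ∈ Ico 0 T, HasDerivWithinAt F (F' t) (Ico 0 T) t)
    (h : ∀ t ∈ Ico a b, F' t ≤ C) : F b ≤ F a + C * (b - a) := by
  have key : ∀ η : ℝ, 0 < η → F b ≤ F a + (C + η) * (b - a) := by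
    intro η hη
    refine barrier (B := fun t => F a + (C + η) * (t - a)) (B' := fun _ => C + η) ha hb hF
      (fun t => ?_) (by simp) (fun t ht _ => by have := h t ht; linarith) b ⟨hab, le_rfl⟩
    have h1 : HasDerivAt (fun t => (C + η) * (t - a)) ((C + η) * 1) t :=
      ((hasDerivAt_id t).sub_const a).const_mul (C + η)
    simpa using h1.const_add (F a)
  refine le_of_forall_pos_le_add fun η hη => ?_
  rcases hab.eq_or_lt with h1 | h1
  · subst h1; simp; linarith
  · have h2 : 0 < b - a := by linarith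
    have := key (η / (b - a)) (by positivity)
    have e : (C + η / (b - a)) * (b - a) = C * (b - a) + η := by field_simp
    linarith

/-- growth of square roots -/
lemma sqrt_growth {F F' : ℝ → ℝ} {T a b C : ℝ} (ha : 0 ≤ a) (hab : a ≤ b) (hb : b < T)
    (hC : 0 ≤ C) (hF : ∀ t ∈ Ico 0 T, HasDerivWithinAt F (F' t) (Ico 0 T) t)
    (h : ∀ t ∈ Ico a b, F' t ≤ 2 * C * √(F t)) : √(F b) ≤ √(F a) + C * (b - a) := by
  have key : ∀ η : ℝ, 0 < η → √(F b) ≤ √(F a) + η + (C + η) * (b - a) := by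
    intro η hη
    have h1 : F b ≤ (√(F a) + η + (C + η) * (b - a)) ^ 2 := by
      refine barrier (B := fun t => (√(F a) + η + (C + η) * (t - a)) ^ 2)
        (B' := fun t => 2 * (√(F a) + η + (C + η) * (t - a)) * (C + η)) ha hb hF
        (fun t => ?_) ?_ (fun t ht hEq => ?_) b ⟨hab, le_rfl⟩
      · have h1 : HasDerivAt (fun t => √(F a) + η + (C + η) * (t - a)) (C + η) t := by
          have h1 : HasDerivAt (fun t => (C + η) * (t - a)) ((C + η) * 1) t :=
            ((hasDerivAt_id t).sub_const a).const_mul (C + η)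
          simpa using h1.const_add (√(F a) + η)
        simpa using h1.fun_pow 2
      · simp only [sub_self, mul_zero, add_zero]
        have h0 := Real.sqrt_nonneg (F a)
        have h2 : F a ≤ √(F a) ^ 2 := by
          rcases le_total 0 (F a) with h | h
          · rw [Real.sq_sqrt h]
          · rw [Real.sqrt_eq_zero_of_nonpos h]; linarith [h]
        nlinarith
      · have hp : 0 < √(F a) + η + (C + η) * (t - a) := by
          have := Real.sqrt_nonneg (F a)
          have h3 : 0 ≤ t - a := by linarith [ht.1]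
          positivity
        have h2 : √(F t) = √(F a) + η + (C + η) * (t - a) := by
          rw [hEq, Real.sqrt_sq hp.le]
        have h3 := h t ht
        rw [h2] at h3
        nlinarith
    have hp : 0 ≤ √(F a) + η + (C + η) * (b - a) := by
      have := Real.sqrt_nonneg (F a)
      have h3 : 0 ≤ b - a := by linarith
      positivity
    calc √(F b) ≤ √((√(F a) + η + (C + η) * (b - a)) ^ 2) := Real.sqrt_le_sqrt h1
      _ = _ := Real.sqrt_sq hp
  refine le_of_forall_pos_le_add fun η hη => ?_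
  have h2 : 0 ≤ b - a := by linarith
  have := key (η / (1 + (b - a))) (by positivity)
  have e : √(F a) + η / (1 + (b - a)) + (C + η / (1 + (b - a))) * (b - a)
      = √(F a) + C * (b - a) + η := by field_simp; ring
  linarith

/-- first hitting time -/
lemma first_hit {g : ℝ → ℝ} {b c : ℝ} (hb : 0 ≤ b) (hg : ContinuousOn g (Icc 0 b))
    (h0 : c < g 0) (h1 : g b ≤ c) :
    ∃ t ∈ Ioc 0 b, g t = c ∧ ∀ s ∈ Icc 0 t, c ≤ g s := by
  have hcl : IsClosed (Icc 0 b ∩ g ⁻¹' (Iic c)) := hg.preimage_isClosed_of_isClosed isClosed_Icc isClosed_Iic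
  have hne : (Icc 0 b ∩ g ⁻¹' (Iic c)).Nonempty := ⟨b, ⟨hb, le_rfl⟩, h1⟩
  have hbd : BddBelow (Icc 0 b ∩ g ⁻¹' (Iic c)) := ⟨0, fun x hx => hx.1.1⟩
  set t := sInf (Icc 0 b ∩ g ⁻¹' (Iic c)) with ht
  have hmem : t ∈ Icc 0 b ∩ g ⁻¹' (Iic c) := hcl.csInf_mem hne hbd
  have hlt : ∀ s ∈ Ico 0 t, c < g s := by
    intro s hs
    by_contra hcon
    have : t ≤ s := csInf_le hbd ⟨⟨hs.1, hs.2.le.trans hmem.1.2⟩, not_lt.1 hcon⟩
    exact absurd hs.2 (not_lt.2 this)
  have htpos : 0 < t := by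
    rcases hmem.1.1.eq_or_lt with h | h
    · exfalso
      have := hmem.2
      rw [← h] at this
      exact absurd h0 (not_lt.2 this)
    · exact h
  have hge : c ≤ g t := by
    have hct : ContinuousWithinAt g (Icc 0 b) t := hg t hmem.1
    have h2 : Tendsto g (𝓝[Ico 0 t] t) (𝓝 (g t)) :=
      hct.mono (fun x hx => ⟨hx.1, hx.2.le.trans hmem.1.2⟩)
    have : (𝓝[Ico 0 t] t).NeBot := by
      rw [← mem_closure_iff_nhdsWithin_neBot, closure_Ico htpos.ne]
      exact ⟨htpos.le, le_rfl⟩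
    refine ge_of_tendsto h2 ?_
    filter_upwards [self_mem_nhdsWithin] with s hs
    exact (hlt s hs).le
  refine ⟨t, ⟨htpos, hmem.1.2⟩, le_antisymm hmem.2 hge, fun s hs => ?_⟩
  rcases hs.2.eq_or_lt with h | h
  · rw [h]; exact hge
  · exact (hlt s ⟨hs.1, h⟩).le

/-- continuity argument -/
lemma boot {g : ℝ → ℝ} {b : ℝ} (hg : ContinuousOn g (Icc 0 b)) (h0 : g 0 < 0)
    (h : ∀ t ∈ Icc 0 b, (∀ s ∈ Icc 0 t, g s ≤ 0) → g t < 0) : ∀ t ∈ Icc 0 b, g t < 0 := by
  intro t ht
  by_contra hcon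
  have hc : 0 ≤ g t := not_lt.1 hcon
  obtain ⟨s, hs, hs1, hs2⟩ := first_hit (g := fun x => -g x) (b := t) (c := 0) ht.1
    ((hg.mono (Icc_subset_Icc_right ht.2)).neg) (by simpa using h0) (by simpa using hc)
  have h3 := h s ⟨hs.1.le, hs.2.trans ht.2⟩ (fun x hx => by
    have := hs2 x hx
    simpa using this)
  have : g s = 0 := by simpa using hs1
  linarith

end Pool.Agent.K1H54.LO
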