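import Pool.Agent.K1H54.LO.Main
import Pool.Agent.K1H54.LO.Tra
import Pool.Agent.K1H17.UN.Geo3
import Pool.Agent.K1H21.LO.Ex

/-!
The first version of the theorem (thin frequency set, `s > 2/3`).
-/

set_option autoImplicit false

namespace Pool.Agent.K1H54.LO

theorem v1 : S_MAINO :=
  main Pool.Agent.K1H17.UN.t_GEO Pool.Agent.K1H21.LO.t_EX t_LOP t_SOLF

end Pool.Agent.K1H54.LO
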