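import Pool.Agent.K1H54.LO.Main2
import Pool.Agent.K1H54.LO.GeoR
import Pool.Agent.K1H54.LO.SgnC
import Pool.Agent.K1H54.LO.UniD
import Pool.Agent.K1H30.OP2.Ex2
import Pool.Agent.K1H30.OP2.Sub2
import Pool.Agent.K1H52.LO.Tri
import Pool.Agent.K1H52.LO.Grp

/-!
The second version of the theorem (all orders `s > 1/2`).
-/

set_option autoImplicit false

namespace Pool.Agent.K1H54.L2

theorem v2 : S_MAIN2 :=
  main2 (t_GEO2 Pool.Agent.K1H52.LO.t_GRP t_SGN)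
    (Pool.Agent.K1H30.OP2.t_OP2 Pool.Agent.K1H52.LO.t_TRI) Pool.Agent.K1H30.OP2.t_EX2
    Pool.Agent.K1H30.OP2.t_SUB t_UNID

end Pool.Agent.K1H54.L2
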