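import Pool.Agent.K1H54.LO.Vel
import Pool.Agent.K1H54.LO.Tra

/-! The velocity is large at the times of `Grow` (second version). -/

open Set Topology MeasureTheory
open Filter hiding ker

set_option autoImplicit false

namespace Pool.Agent.K1H54.L2

open Pool.Agent.Y5 Pool.Agent.Y5.D Pool.Agent.Y5.E Pool.Agent.K1H21.LO Pool.Agent.K1H54.LO

section
variable {I : Type} {sh : I → ℕ} {ty : I → Bool} {m : ℕ → ℕ}

/-- the modes other than the packet of the shell `n` are small in `ℓ¹` -/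
lemma rest_small2 (h : Shl sh ty m) {lam a : ℝ} (hlb : 10 ^ 13 ≤ lam) {z : I → ℝ} {n : ℕ}
    (mlo : ∀ n, 10000 * √(m n : ℝ) ≤ √(m (n + 1) : ℝ))
    (mup : ∀ n, √(m (n + 1) : ℝ) ≤ lam * √(m n : ℝ)) (hz : Summable fun i => z i ^ 2)
    (ha : 0 < a) (ham : am sh ty m true n z = a) (hE : En sh z n ≤ (1 + 1 / 10 ^ 10) * a ^ 2)
    (hlo : ∀ i < n, √(En sh z i) ≤ (11 / 10) ^ (n - i) * a)
    (hup : ∀ j : ℕ, √(En sh z (n + 1 + j)) ≤ Real.exp (-(300 * lam)) * ((2 * lam)⁻¹) ^ j * a)
    (u : Finset I) :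
    ∑ i ∈ u, |z i - a * fv sh ty m true n i| ≤ 1 / 1000 * (√(m n : ℝ) * a) := by
  have hl : 0 < lam := lt_of_lt_of_le (by norm_num) hlb
  set r : I → ℝ := fun i => z i - a * fv sh ty m true n i with hr
  set X := √(m n : ℝ) * a with hX
  have hX0 : 0 < X := mul_pos (sqm h n) ha
  -- shells
  have hne : ∀ n', n' ≠ n → sg h n' r ≤ En sh z n' := by
    intro n' hn'
    refine le_trans (le_of_eq ?_) (sg_le_En h hz n')
    unfold sg
    refine Finset.sum_congr rfl fun i hi => ?_
    have h1 := (mem_SS h n' i).1 hi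
    have h2 : fv sh ty m true n i = 0 := by
      unfold fv; rw [if_neg]; rintro ⟨h3, -⟩; exact hn' (h1.symm.trans h3)
    rw [hr]
    simp only [h2, mul_zero, sub_zero]
  have heq : sg h n r ≤ (1 / 10 ^ 5 * a) ^ 2 := by
    have h1 : ∑ i ∈ SS h n, fv sh ty m true n i * z i = a := by
      rw [sum_SS, ← am_sum, ham]
      have : ∑ i ∈ SF h false n, fv sh ty m true n i * z i = 0 := by
        refine Finset.sum_eq_zero fun i hi => ?_
        rw [mem_SF] at hi
        have : fv sh ty m true n i = 0 := by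
          unfold fv; rw [if_neg]; rintro ⟨-, h3⟩; rw [hi.2] at h3; exact absurd h3 (by decide)
        rw [this, zero_mul]
      rw [this, add_zero]
    have h2 : ∑ i ∈ SS h n, fv sh ty m true n i ^ 2 = 1 := by
      rw [sum_SS]
      have e1 : ∑ i ∈ SF h false n, fv sh ty m true n i ^ 2 = 0 := by
        refine Finset.sum_eq_zero fun i hi => ?_
        rw [mem_SF] at hi
        have : fv sh ty m true n i = 0 := by
          unfold fv; rw [if_neg]; rintro ⟨-, h3⟩; rw [hi.2] at h3; exact absurd h3 (by decide)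
        rw [this]; ring
      have e2 : ∑ i ∈ SF h true n, fv sh ty m true n i ^ 2 =
          ∑ _i ∈ SF h true n, ((√(m n : ℝ))⁻¹) ^ 2 :=
        Finset.sum_congr rfl fun i hi => by rw [fv_mem h true n i hi]
      rw [e1, e2, Finset.sum_const, card_SF, nsmul_eq_mul, add_zero, mul_comm]
      exact inv_sqm h n
    have h3 : sg h n r = sg h n z - a ^ 2 := by
      unfold sg
      have e : ∀ i, r i ^ 2 = z i ^ 2 - 2 * a * (fv sh ty m true n i * z i) +
          a ^ 2 * fv sh ty m true n i ^ 2 := fun i => by rw [hr]; ring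
      simp only [e]
      rw [Finset.sum_add_distrib, Finset.sum_sub_distrib, ← Finset.mul_sum, ← Finset.mul_sum, h1, h2]
      ring
    have h4 := sg_le_En h hz n
    rw [h3]
    norm_num at hE ⊢
    linarith
  -- terms
  have hmlo : ∀ k n', √(m n' : ℝ) * 10000 ^ k ≤ √(m (n' + k) : ℝ) := by
    intro k n'
    induction k with
    | zero => simp
    | succ k ih =>
      have := mlo (n' + k)
      rw [pow_succ]
      calc √(m n' : ℝ) * (10000 ^ k * 10000) = 10000 * (√(m n' : ℝ) * 10000 ^ k) := by ring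
        _ ≤ 10000 * √(m (n' + k) : ℝ) := by gcongr
        _ ≤ _ := this
  have hmup : ∀ k, √(m (n + k) : ℝ) ≤ lam ^ k * √(m n : ℝ) := by
    intro k
    induction k with
    | zero => simp
    | succ k ih =>
      calc √(m (n + (k + 1)) : ℝ) ≤ lam * √(m (n + k) : ℝ) := mup (n + k)
        _ ≤ lam * (lam ^ k * √(m n : ℝ)) := by gcongr
        _ = _ := by ring
  have tlo : ∀ n' < n, 2 * √(m n' : ℝ) * √(sg h n' r) ≤ 5 / 10000 * X * (1 / 2) ^ (n - n') := by
    intro n' hn'
    have h1 := hlo n' hn'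
    have h2 : √(sg h n' r) ≤ (11 / 10) ^ (n - n') * a := (Real.sqrt_le_sqrt (hne n' hn'.ne)).trans h1
    have h3 := hmlo (n - n') n'
    have e1 : n' + (n - n') = n := by omega
    rw [e1] at h3
    obtain ⟨k, hk⟩ : ∃ k, n - n' = k + 1 := ⟨n - n' - 1, by omega⟩
    rw [hk] at h2 h3 ⊢
    have h4 : √(m n' : ℝ) ≤ √(m n : ℝ) * (1 / 10000) ^ (k + 1) := by
      have e2 : (10000 : ℝ) ^ (k + 1) * (1 / 10000) ^ (k + 1) = 1 := by rw [← mul_pow]; norm_num
      calc √(m n' : ℝ) = √(m n' : ℝ) * 10000 ^ (k + 1) * (1 / 10000) ^ (k + 1) := by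
            rw [mul_assoc, e2, mul_one]
        _ ≤ _ := mul_le_mul_of_nonneg_right h3 (by positivity)
    calc 2 * √(m n' : ℝ) * √(sg h n' r)
        ≤ 2 * (√(m n : ℝ) * (1 / 10000) ^ (k + 1)) * ((11 / 10) ^ (k + 1) * a) := by gcongr
      _ = 2 * X * ((1 / 10000 * (11 / 10)) ^ (k + 1)) := by rw [hX, mul_pow]; ring
      _ = 2 * X * ((1 / 10000 * (11 / 10)) * (1 / 10000 * (11 / 10)) ^ k) := by rw [pow_succ]; ring
      _ ≤ 2 * X * ((1 / 10000 * (11 / 10)) * (1 / 2) ^ k) := by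
        gcongr
        norm_num
      _ ≤ 5 / 10000 * X * (1 / 2) ^ (k + 1) := by
        rw [pow_succ]
        have : 0 < X * (1 / 2) ^ k := by positivity
        nlinarith
  have tn : 2 * √(m n : ℝ) * √(sg h n r) ≤ 2 / 100000 * X := by
    have h1 : √(sg h n r) ≤ 1 / 10 ^ 5 * a := by
      calc √(sg h n r) ≤ √((1 / 10 ^ 5 * a) ^ 2) := Real.sqrt_le_sqrt heq
        _ = _ := Real.sqrt_sq (by positivity)
    calc 2 * √(m n : ℝ) * √(sg h n r) ≤ 2 * √(m n : ℝ) * (1 / 10 ^ 5 * a) := by gcongr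
      _ = 2 / 10 ^ 5 * X := by rw [hX]; ring
      _ ≤ _ := mul_le_mul_of_nonneg_right (by norm_num) hX0.le
  have hex : lam * Real.exp (-(300 * lam)) ≤ 1 / 10 ^ 5 := by
    have h1 : lam ≤ Real.exp lam := by
      have := Real.add_one_le_exp lam
      linarith
    calc lam * Real.exp (-(300 * lam)) ≤ Real.exp lam * Real.exp (-(300 * lam)) := by gcongr
      _ = Real.exp (-(299 * lam)) := by rw [← Real.exp_add]; congr 1; ring
      _ ≤ Real.exp (-lam) := Real.exp_le_exp.2 (by linarith)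
      _ = (Real.exp lam)⁻¹ := Real.exp_neg _
      _ ≤ (10 ^ 13)⁻¹ := inv_anti₀ (by norm_num) (hlb.trans h1)
      _ ≤ _ := by norm_num
  have tup : ∀ j, 2 * √(m (n + 1 + j) : ℝ) * √(sg h (n + 1 + j) r) ≤
      1 / 10000 * X * (1 / 2) ^ j := by
    intro j
    have h1 := hup j
    have h2 : √(sg h (n + 1 + j) r) ≤ Real.exp (-(300 * lam)) * ((2 * lam)⁻¹) ^ j * a :=
      (Real.sqrt_le_sqrt (hne (n + 1 + j) (by omega))).trans h1
    have h3 := hmup (1 + j)
    rw [← add_assoc] at h3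
    have e1 : lam ^ j * ((2 * lam)⁻¹) ^ j = (1 / 2) ^ j := by
      rw [← mul_pow]; congr 1; field_simp
    calc 2 * √(m (n + 1 + j) : ℝ) * √(sg h (n + 1 + j) r)
        ≤ 2 * (lam ^ (1 + j) * √(m n : ℝ)) * (Real.exp (-(300 * lam)) * ((2 * lam)⁻¹) ^ j * a) := by
          gcongr
      _ = 2 * (lam * Real.exp (-(300 * lam))) * (lam ^ j * ((2 * lam)⁻¹) ^ j) * X := by
        rw [hX, pow_add, pow_one]; ring
      _ = 2 * (lam * Real.exp (-(300 * lam))) * (1 / 2) ^ j * X := by rw [e1]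
      _ ≤ 2 * (1 / 10 ^ 5) * (1 / 2) ^ j * X := by gcongr
      _ ≤ _ := by
        have : 0 < X * (1 / 2) ^ j := by positivity
        nlinarith
  -- the sum
  obtain ⟨N, hN⟩ := sub_UU h u
  have hN2 : UU h N ⊆ UU h (n + 1 + N) := by
    classical
    intro i hi
    unfold UU at hi ⊢
    rw [Finset.mem_biUnion] at hi ⊢
    obtain ⟨k, hk, hi⟩ := hi
    exact ⟨k, Finset.mem_range.2 (by have := Finset.mem_range.1 hk; omega), hi⟩
  calc ∑ i ∈ u, |r i| ≤ ∑ i ∈ UU h (n + 1 + N), |r i| :=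
        Finset.sum_le_sum_of_subset_of_nonneg (hN.trans hN2) (fun _ _ _ => abs_nonneg _)
    _ = ∑ k ∈ Finset.range (n + 1 + N), ∑ i ∈ SS h k, |r i| := sum_UU h _ _
    _ ≤ ∑ k ∈ Finset.range (n + 1 + N), 2 * √(m k : ℝ) * √(sg h k r) :=
        Finset.sum_le_sum fun k _ => shell_l1 h k r
    _ = ∑ k ∈ Finset.range n, 2 * √(m k : ℝ) * √(sg h k r) + 2 * √(m n : ℝ) * √(sg h n r) +
        ∑ j ∈ Finset.range N, 2 * √(m (n + 1 + j) : ℝ) * √(sg h (n + 1 + j) r) := by
      rw [Finset.sum_range_add, Finset.sum_range_succ]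
    _ ≤ ∑ k ∈ Finset.range n, 5 / 10000 * X * (1 / 2) ^ (n - k) + 2 / 100000 * X +
        ∑ j ∈ Finset.range N, 1 / 10000 * X * (1 / 2) ^ j := by
      refine add_le_add (add_le_add (Finset.sum_le_sum fun k hk => tlo k (Finset.mem_range.1 hk)) tn)
        (Finset.sum_le_sum fun j _ => tup j)
    _ ≤ 1 / 1000 * X := by
      rw [← Finset.mul_sum, ← Finset.mul_sum]
      have h1 := half_sum n
      have h2 := geo_le N
      have h3 : (0 : ℝ) ≤ (1 / 2) ^ n := by positivity
      have h4 : 5 / 10000 * X * ∑ i ∈ Finset.range n, (1 / 2 : ℝ) ^ (n - i) ≤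
          5 / 10000 * X * 1 := by
        gcongr
        linarith
      have h5 : 1 / 10000 * X * ∑ i ∈ Finset.range N, (1 / 2 : ℝ) ^ i ≤ 1 / 10000 * X * 2 := by
        gcongr
      linarith

end

section
variable {I : Type} {sh : I → ℕ} {ty : I → Bool} {ρ : ℕ → ℕ} {g : I → Fam} {S : I → Finset Z3}
  {R : I → ℝ} {N : ℕ → ℝ} {s N₁ δ c₀ lam : ℝ}

lemma g_not (h : MS sh ty ρ g S R N s N₁ δ c₀ lam) {i j : I} {k : Z3} (hk : k ∈ S i)
    (hij : i ≠ j) : g j k = 0 := by
  by_contra h1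
  exact Finset.disjoint_left.1 (h.disj i j hij) hk (h.supp j k h1)

lemma g_off (h : MS sh ty ρ g S R N s N₁ δ c₀ lam) {i : I} {k : Z3} (hk : k ∉ S i) :
    g i k = 0 := by
  by_contra h1
  exact hk (h.supp i k h1)

lemma Sy_mem (h : MS sh ty ρ g S R N s N₁ δ c₀ lam) (z : I → ℝ) {i : I} {k : Z3} (hk : k ∈ S i) :
    Sy g z k = z i • g i k :=
  tsum_eq_single i fun j hj => by rw [g_not h hk (Ne.symm hj), smul_zero]

lemma Sy_not (h : MS sh ty ρ g S R N s N₁ δ c₀ lam) (z : I → ℝ) {k : Z3} (hk : ∀ i, k ∉ S i) :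
    Sy g z k = 0 := by
  unfold Sy
  rw [← tsum_zero (α := E3) (β := I)]
  exact tsum_congr fun i => by rw [g_off h (hk i), smul_zero]

open Classical in
/-- the mode of a frequency -/
noncomputable def idx (S : I → Finset Z3) (k : Z3) : Option I :=
  if h : ∃ i, k ∈ S i then some h.choose else none

lemma idx_some (h : MS sh ty ρ g S R N s N₁ δ c₀ lam) {i : I} {k : Z3} :
    idx S k = some i ↔ k ∈ S i := by
  classical
  unfold idx
  constructor
  · intro h1
    split_ifs at h1 with h2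
    rw [Option.some_inj] at h1
    have := h2.choose_spec
    rwa [h1] at this
  · intro h1
    have h2 : ∃ i, k ∈ S i := ⟨i, h1⟩
    rw [dif_pos h2, Option.some_inj]
    by_contra h3
    exact Finset.disjoint_left.1 (h.disj _ _ h3) h2.choose_spec h1

lemma idx_none {k : Z3} : idx S k = none ↔ ∀ i, k ∉ S i := by
  classical
  unfold idx
  constructor
  · intro h1 i hi
    rw [dif_pos ⟨i, hi⟩] at h1
    exact absurd h1 (by simp)
  · intro h1
    rw [dif_neg]
    rintro ⟨i, hi⟩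
    exact h1 i hi

/-- sums over the frequencies as sums over the modes -/
lemma fib_sum (h : MS sh ty ρ g S R N s N₁ δ c₀ lam) {f : Z3 → ℝ} (hf : Summable f)
    (h0 : ∀ k, (∀ i, k ∉ S i) → f k = 0) : HasSum (fun i => ∑ k ∈ S i, f k) (∑' k, f k) := by
  classical
  have h1 := hf.hasSum.tsum_fiberwise (idx S)
  have h2 : (fun i : I => ∑ k ∈ S i, f k) =
      (fun c : Option I => ∑' b : idx S ⁻¹' {c}, f b) ∘ some := by
    funext i
    simp only [Function.comp]
    have e : idx S ⁻¹' {some i} = (S i : Set Z3) := by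
      ext k
      simp only [Set.mem_preimage, Set.mem_singleton_iff, idx_some h, Finset.mem_coe]
    rw [e]
    exact (Finset.tsum_subtype' (S i) f).symm
  rw [h2, Function.Injective.hasSum_iff (Option.some_injective I)]
  · exact h1
  · intro c hc
    have hc' : c = none := by
      cases c with
      | none => rfl
      | some i => exact absurd ⟨i, rfl⟩ hc
    subst hc'
    rw [← tsum_zero (α := ℝ) (β := (idx S ⁻¹' {none} : Set Z3))]
    refine tsum_congr fun b => h0 _ ?_
    have := b.2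
    simpa only [Set.mem_preimage, Set.mem_singleton_iff, idx_none] using this

lemma inner_field {V : Fam} (h : Rap V) (y x : E3) :
    HasSum (fun k => Real.sin (2 * Real.pi * inner ℝ (vec k) y) * inner ℝ (V k) x)
      (inner ℝ (fieldOf V y) x) := by
  have h1 := (innerSL ℝ x).hasSum (sin_summ h y).hasSum
  simp only [innerSL_apply_apply] at h1
  rw [real_inner_comm]
  refine h1.congr_fun fun k => ?_
  rw [real_inner_smul_right, real_inner_comm x (V k)]

lemma g_rap (h : MS sh ty ρ g S R N s N₁ δ c₀ lam) (i : I) : Rap (g i) :=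
  Pool.Agent.K1H17.UN.fin_rap ((S i).finite_toSet.subset fun k hk => h.supp i k hk)

/-- the field of a family is the sum of the fields of its modes -/
lemma field_modes (h : MS sh ty ρ g S R N s N₁ δ c₀ lam) {z : I → ℝ} (hR : Rap (Sy g z))
    (y x : E3) : HasSum (fun i => z i * inner ℝ (fieldOf (g i) y) x)
      (inner ℝ (fieldOf (Sy g z) y) x) := by
  have h1 := inner_field hR y x
  have h2 := fib_sum h h1.summable fun k hk => by rw [Sy_not h z hk, inner_zero_left, mul_zero]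
  rw [h1.tsum_eq] at h2
  refine h2.congr_fun fun i => ?_
  have h3 := inner_field (g_rap h i) y x
  have h4 : inner ℝ (fieldOf (g i) y) x =
      ∑ k ∈ S i, Real.sin (2 * Real.pi * inner ℝ (vec k) y) * inner ℝ (g i k) x :=
    h3.unique (hasSum_sum_of_ne_finset_zero fun k hk => by
      rw [g_off h hk, inner_zero_left, mul_zero])
  rw [h4, Finset.mul_sum]
  refine Finset.sum_congr rfl fun k hk => ?_
  rw [Sy_mem h z hk, real_inner_smul_left]
  ring

/-- The velocity is large at the times of `Grow`. -/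
theorem vel2 {y₀ : E3} (h : MS sh ty ρ g S R N s N₁ δ c₀ lam) (hX : MX ty ρ g lam y₀)
    (hlb : 10 ^ 13 ≤ lam) {z : I → ℝ} {n : ℕ} {a : ℝ} (hz : Summable fun i => z i ^ 2)
    (hR : Rap (Sy g z)) (ha : 0 < a)
    (ham : am sh ty ρ true n z = a) (hE : En sh z n ≤ (1 + 1 / 10 ^ 10) * a ^ 2)
    (hlo : ∀ i < n, √(En sh z i) ≤ (11 / 10) ^ (n - i) * a)
    (hup : ∀ j : ℕ, √(En sh z (n + 1 + j)) ≤ Real.exp (-(300 * lam)) * ((2 * lam)⁻¹) ^ j * a) :
    √(ρ n : ℝ) * a / 4 ≤ ‖fieldOf (Sy g z) y₀‖ := by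
  have hS := h.shl
  have hrs := rest_small2 hS hlb hX.mlo hX.mup hz ha ham hE hlo hup
  set r : I → ℝ := fun i => z i - a * fv sh ty ρ true n i with hr
  have hr1 : Summable fun i => |r i| := summable_of_sum_le (fun _ => abs_nonneg _) hrs
  have hr2 : ∑' i, |r i| ≤ 1 / 1000 * (√(ρ n : ℝ) * a) := hr1.tsum_le_of_sum_le hrs
  have hfv : ∀ i ∉ SF hS true n, fv sh ty ρ true n i = 0 := fv_zero hS true n
  have h3 := (field_modes h hR y₀ (EuclideanSpace.single 2 (1 : ℝ))).tsum_eq
  set G : I → ℝ := fun i => inner ℝ (fieldOf (g i) y₀) (EuclideanSpace.single 2 (1 : ℝ)) with hGd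
  have hGle : ∀ i, |G i| ≤ 10 := hX.up
  have hA : ∀ i ∈ SF hS true n, 1 / 2 ≤ G i := by
    intro i hi
    rw [mem_SF] at hi
    exact hX.lo i hi.2
  have hsumr : Summable fun i => r i * G i := by
    refine Summable.of_norm_bounded (hr1.mul_right 10) (fun i => ?_)
    rw [norm_mul]
    exact mul_le_mul_of_nonneg_left (hGle i) (abs_nonneg _)
  have hsumf : Summable fun i => a * fv sh ty ρ true n i * G i := by
    refine summable_of_ne_finset_zero (s := SF hS true n) fun i hi => ?_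
    rw [hfv i hi]; simp
  have h4 : ∑' i, z i * G i = ∑' i, a * fv sh ty ρ true n i * G i + ∑' i, r i * G i := by
    rw [← hsumf.tsum_add hsumr]
    exact tsum_congr fun i => by rw [hr]; ring
  have h5 : 1 / 2 * (√(ρ n : ℝ) * a) ≤ ∑' i, a * fv sh ty ρ true n i * G i := by
    rw [tsum_eq_sum (s := SF hS true n) (fun i hi => by rw [hfv i hi]; simp)]
    calc 1 / 2 * (√(ρ n : ℝ) * a) = ∑ _i ∈ SF hS true n, a * (√(ρ n : ℝ))⁻¹ * (1 / 2) := by
          rw [Finset.sum_const, card_SF, nsmul_eq_mul]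
          have h6 := sqm hS n
          have h7 : √(ρ n : ℝ) * √(ρ n : ℝ) = ρ n := Real.mul_self_sqrt (mpos hS n).le
          field_simp
          nlinarith
      _ ≤ _ := by
        refine Finset.sum_le_sum fun i hi => ?_
        rw [fv_mem hS true n i hi]
        have := hA i hi
        have h6 := sqm hS n
        gcongr
  have h6 : -(1 / 100 * (√(ρ n : ℝ) * a)) ≤ ∑' i, r i * G i := by
    have h7 : |∑' i, r i * G i| ≤ 10 * ∑' i, |r i| := by
      rw [← Real.norm_eq_abs, ← tsum_mul_left]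
      refine (norm_tsum_le_tsum_norm hsumr.norm).trans ?_
      refine hsumr.norm.tsum_le_tsum (fun i => ?_) (hr1.mul_left _)
      rw [norm_mul, mul_comm]
      exact mul_le_mul_of_nonneg_right (hGle i) (norm_nonneg _)
    have h8 := (abs_le.1 h7).1
    linarith
  have h10 : 0 < √(ρ n : ℝ) * a := mul_pos (sqm hS n) ha
  have h7 : 1 / 4 * (√(ρ n : ℝ) * a) ≤
      inner ℝ (fieldOf (Sy g z) y₀) (EuclideanSpace.single 2 (1 : ℝ)) := by
    rw [← h3, h4]; linarith
  have h8 := real_inner_le_norm (fieldOf (Sy g z) y₀) (EuclideanSpace.single 2 (1 : ℝ))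
  have h9 : ‖(EuclideanSpace.single 2 (1 : ℝ) : E3)‖ = 1 := by simp
  rw [h9, mul_one] at h8
  linarith

end

end Pool.Agent.K1H54.L2
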